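import Pool.Agent.Lib.MP_361a6f_ag.FL.Stat

/-!
# Unital laws: the definition used in the statements
-/

open CategoryTheory AlgebraicGeometry MonoidalCategory CartesianMonoidalCategory

universe u v w

set_option autoImplicit false

namespace Pool.Agent.Lib.MP_361a6f_ag.FL

open Pool.Agent.Lib.MP_361a6f_ag.H3 Pool.Agent.Lib.MP_361a6f_ag.SQ
  Pool.Agent.Lib.MP_361a6f_ag.PP

/-- `X` has a morphism `X × X → X` with a two-sided unit, for instance the group law of an abelian
variety. -/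
def UnitalLaw {k : Type u} [Field k] (X : Sch k) : Prop :=
  ∃ (m : Sch.Mor (X.prod X) X) (e : Sch.Mor (Sch.point k) X),
    lift (toUnit X ≫ e) (𝟙 X) ≫ m = 𝟙 X ∧ lift (𝟙 X) (toUnit X ≫ e) ≫ m = 𝟙 X

end Pool.Agent.Lib.MP_361a6f_ag.FL
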