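import Pool.Agent.Lib.MP_361a6f_ag.FL.B.HrA
import Pool.Agent.Lib.MP_361a6f_ag.H3.Corr
import Pool.Agent.Lib.MP_361a6f_ag.SQ.Op
import Pool.Agent.Lib.MP_361a6f_ag.FL.B.UnL

/-!
# Abelian varieties: hard Lefschetz and the algebraicity of `Λ`

Let `X` have a multiplication `m : X × X → X` with a two-sided unit, and let `H^*(X)` be generated
by `H^1(X)`, of dimension `2 g`. For a divisor class `ξ` with `Tr(ξ^g) ≠ 0` the operator
`w ↦ p_*(q^* ξ^(g-1) · m^* w)` is a nonzero multiple of `Λ`.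
-/

open CategoryTheory AlgebraicGeometry MonoidalCategory CartesianMonoidalCategory

universe u v w

set_option autoImplicit false
set_option linter.unusedSectionVars false

namespace Pool.Agent.Lib.MP_361a6f_ag.FL

open Pool.Agent.Lib.MP_361a6f_ag.H3 Pool.Agent.Lib.MP_361a6f_ag.SQ
  Pool.Agent.Lib.MP_361a6f_ag.PP

namespace AbV

variable {k : Type u} [Field k] {W : CohomologyData.{u, 0, w} k ℂ} {𝒱 : VarietyClass k}
  (hW : IsWeilCohomology W 𝒱) {X : Sch k} {g : ℕ} (hX : 𝒱.mem X g)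

include hW hX

/-! ### projection formulas -/

theorem push_right (x : W.coh (X ⊗ X)) (t : W.coh X) :
    W.push (fst X X) x * t = W.push (fst X X) (x * W.pull (fst X X) t) := by
  have hXX := 𝒱.prod hX hX
  rw [← sub_eq_zero]
  refine hW.duality hX _ fun s => ?_
  rw [sub_mul, map_sub, mul_assoc, hW.push_adj hXX hX, hW.push_adj hXX hX,
    map_mul (W.pull (fst X X)), mul_assoc, sub_self]

theorem push_left (a : W.coh X) (x : W.coh (X ⊗ X)) :
    W.push (fst X X) (W.pull (fst X X) a * x) = a * W.push (fst X X) x := by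
  have hXX := 𝒱.prod hX hX
  rw [← sub_eq_zero]
  refine hW.duality hX _ fun t => ?_
  rw [sub_mul, map_sub, hW.push_adj hXX hX, mul_assoc a, push_right hW hX,
    tr_mul_push_fst hW hX, mul_assoc, sub_self]

/-! ### primitive elements -/

/-- the component of degree `1` of a class on `X × X` -/
theorem kun_one (h0 : ∀ x ∈ W.gr X 0, ∃ c : ℂ, x = c • 1) {z : W.coh (X ⊗ X)}
    (hz : z ∈ W.gr (X ⊗ X) 1) : ∃ a ∈ W.gr X 1, ∃ b ∈ W.gr X 1,
      z = W.pull (fst X X) a + W.pull (snd X X) b := by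
  have hXX := 𝒱.prod hX hX
  have hi := hW.internal hXX
  have key : ∀ z : W.coh (X ⊗ X), ∃ a ∈ W.gr X 1, ∃ b ∈ W.gr X 1,
      AV48.pj hi 1 z = W.pull (fst X X) a + W.pull (snd X X) b := by
    intro z
    refine prod_induction hW hX hX (P := fun z => ∃ a ∈ W.gr X 1, ∃ b ∈ W.gr X 1,
      AV48.pj hi 1 z = W.pull (fst X X) a + W.pull (snd X X) b) z ?_ ?_ ?_ ?_
    · intro y x
      refine hW.hom_induction hX (P := fun y => ∃ a ∈ W.gr X 1, ∃ b ∈ W.gr X 1,
        AV48.pj hi 1 (W.pull (fst X X) y * W.pull (snd X X) x)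
          = W.pull (fst X X) a + W.pull (snd X X) b) y ?_ ?_ ?_
      · intro i y hy
        refine hW.hom_induction hX (P := fun x => ∃ a ∈ W.gr X 1, ∃ b ∈ W.gr X 1,
          AV48.pj hi 1 (W.pull (fst X X) y * W.pull (snd X X) x)
            = W.pull (fst X X) a + W.pull (snd X X) b) x ?_ ?_ ?_
        · intro j x hx
          have hyx := hW.mul_gr hXX (hW.pull_gr hXX hX (fst X X) hy)
            (hW.pull_gr hXX hX (snd X X) hx)
          by_cases hij : i + j = 1
          · rw [hij] at hyx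
            rw [AV48.pj_same hi hyx]
            rcases Nat.eq_zero_or_pos i with hi0 | hi0
            · subst hi0
              obtain ⟨c, rfl⟩ := h0 y hy
              obtain rfl : j = 1 := by omega
              exact ⟨0, zero_mem _, c • x, Submodule.smul_mem _ _ hx, by simp⟩
            · obtain rfl : i = 1 := by omega
              obtain rfl : j = 0 := by omega
              obtain ⟨c, rfl⟩ := h0 x hx
              exact ⟨c • y, Submodule.smul_mem _ _ hy, 0, zero_mem _, by simp⟩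
          · rw [AV48.pj_ne hi hij hyx]
            exact ⟨0, zero_mem _, 0, zero_mem _, by simp⟩
        · exact ⟨0, zero_mem _, 0, zero_mem _, by simp⟩
        · rintro x x' ⟨a, ha, b, hb, e⟩ ⟨a', ha', b', hb', e'⟩
          refine ⟨a + a', add_mem ha ha', b + b', add_mem hb hb', ?_⟩
          rw [map_add, mul_add, map_add, e, e', map_add, map_add]
          abel
      · exact ⟨0, zero_mem _, 0, zero_mem _, by simp⟩
      · rintro x x' ⟨a, ha, b, hb, e⟩ ⟨a', ha', b', hb', e'⟩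
        refine ⟨a + a', add_mem ha ha', b + b', add_mem hb hb', ?_⟩
        rw [map_add, add_mul, map_add, e, e', map_add, map_add]
        abel
    · exact ⟨0, zero_mem _, 0, zero_mem _, by simp⟩
    · rintro x x' ⟨a, ha, b, hb, e⟩ ⟨a', ha', b', hb', e'⟩
      refine ⟨a + a', add_mem ha ha', b + b', add_mem hb hb', ?_⟩
      rw [map_add, e, e', map_add, map_add]
      abel
    · rintro c x ⟨a, ha, b, hb, e⟩
      refine ⟨c • a, Submodule.smul_mem _ _ ha, c • b, Submodule.smul_mem _ _ hb, ?_⟩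
      rw [map_smul, e, map_smul, map_smul, smul_add]
  obtain ⟨a, ha, b, hb, e⟩ := key z
  exact ⟨a, ha, b, hb, by rw [← e, AV48.pj_same hi hz]⟩

/-- classes of degree `1` pull back to zero along constant morphisms -/
theorem pull_const (e : Sch.point k ⟶ X) {b : W.coh X} (hb : b ∈ W.gr X 1) :
    W.pull (toUnit X ≫ e) b = 0 := by
  have h1 := hW.pull_gr 𝒱.point hX e hb
  rw [W.pull_comp, hW.top_gr 𝒱.point h1 (by omega), map_zero]

theorem pull_m (h0 : ∀ x ∈ W.gr X 0, ∃ c : ℂ, x = c • 1) {m : X ⊗ X ⟶ X} {e : Sch.point k ⟶ X}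
    (h1 : lift (toUnit X ≫ e) (𝟙 X) ≫ m = 𝟙 X) (h2 : lift (𝟙 X) (toUnit X ≫ e) ≫ m = 𝟙 X)
    {v : W.coh X} (hv : v ∈ W.gr X 1) :
    W.pull m v = W.pull (fst X X) v + W.pull (snd X X) v := by
  have hXX := 𝒱.prod hX hX
  obtain ⟨a, ha, b, hb, e1⟩ := kun_one hW hX h0 (hW.pull_gr hXX hX m hv)
  have ea : v = a := by
    have := congrArg (W.pull (lift (𝟙 X) (toUnit X ≫ e))) e1
    rwa [← W.pull_comp, h2, W.pull_id, map_add, ← W.pull_comp, ← W.pull_comp, lift_fst, lift_snd,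
      W.pull_id, pull_const hW hX e hb, add_zero] at this
  have eb : v = b := by
    have := congrArg (W.pull (lift (toUnit X ≫ e) (𝟙 X))) e1
    rwa [← W.pull_comp, h1, W.pull_id, map_add, ← W.pull_comp, ← W.pull_comp, lift_fst, lift_snd,
      W.pull_id, pull_const hW hX e ha, zero_add] at this
  rw [e1, ← ea, ← eb]

/-! ### the operators -/

omit hW hX in
/-- the operator `w ↦ p_*(q^* y · m^* w)` -/
noncomputable def C (W : CohomologyData.{u, 0, w} k ℂ) {X : Sch k} (m : X ⊗ X ⟶ X) (y : W.coh X) :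
    Module.End ℂ (W.coh X) :=
  W.push (fst X X) ∘ₗ LinearMap.mulLeft ℂ (W.pull (snd X X) y) ∘ₗ (W.pull m).toLinearMap

omit hW hX in
theorem C_apply (m : X ⊗ X ⟶ X) (y w : W.coh X) :
    C W m y w = W.push (fst X X) (W.pull (snd X X) y * W.pull m w) := rfl

theorem C_one (m : X ⊗ X ⟶ X) (y : W.coh X) : C W m y 1 = W.tr X y • 1 := by
  have := hW.push_fst hX hX 1 y
  rw [map_one, one_mul] at this
  rw [C_apply, map_one, mul_one, this]

section law

variable {m : X ⊗ X ⟶ X} (hm : ∀ v ∈ W.gr X 1, W.pull m v = W.pull (fst X X) v + W.pull (snd X X) v)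

include hm

theorem C_mul {j : ℕ} {y v : W.coh X} (hy : y ∈ W.gr X j) (hv : v ∈ W.gr X 1) (w : W.coh X) :
    C W m y (v * w) = (-1 : ℂ) ^ j • (v * C W m y w) + C W m (y * v) w := by
  have hXX := 𝒱.prod hX hX
  have h1 := hW.comm_gr hXX (hW.pull_gr hXX hX (snd X X) hy) (hW.pull_gr hXX hX (fst X X) hv)
  rw [C_apply, C_apply, C_apply, map_mul (W.pull m), hm v hv, add_mul, mul_add, map_add,
    ← mul_assoc, h1, mul_one, smul_mul_assoc, map_smul, mul_assoc, push_left hW hX, ← mul_assoc,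
    ← map_mul (W.pull (snd X X))]

variable (hA : AbelianType W X g) {ξ : W.coh X} (hξ : PositiveDivisor W X g ξ)

include hA hξ

theorem C_top {y : W.coh X} (hy : y ∈ W.gr X (2 * g)) (w : W.coh X) :
    C W m y w = W.tr X y • w := by
  have hE := AV48.extAlg hW hX hA hξ
  refine hW.hom_induction hX (P := fun w => C W m y w = W.tr X y • w) w ?_ ?_ ?_
  · intro i w hw
    refine hE.deg_ind (P := fun _ w => C W m y w = W.tr X y • w) ?_ ?_ ?_ ?_ i w hw
    · intro i
      rw [map_zero, smul_zero]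
    · intro i a b _ _ ha hb
      rw [map_add, ha, hb, smul_add]
    · intro c
      rw [map_smul, C_one hW hX, smul_comm]
    · intro i v hv a _ h
      have h0 : y * v = 0 := hW.top_gr hX (hW.mul_gr hX hy hv) (by omega)
      rw [C_mul hW hX hm hy hv, h, h0, C_apply, map_zero, zero_mul, map_zero, add_zero, pow_mul,
        neg_one_sq, one_pow, one_smul, mul_smul_comm]
  · rw [map_zero, smul_zero]
  · intro a b ha hb
    rw [map_add, ha, hb, smul_add]

omit hm hA hξ in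
/-- the functional `u ↦ Tr(y u)` on `H^1` -/
noncomputable def dl (W : CohomologyData.{u, 0, w} k ℂ) (X : Sch k) (y : W.coh X) :
    Module.Dual ℂ (W.gr X 1) :=
  (W.tr X ∘ₗ LinearMap.mulLeft ℂ y) ∘ₗ (W.gr X 1).subtype

omit hW hX hm hA hξ in
theorem dl_apply (y : W.coh X) (u : W.gr X 1) : dl W X y u = W.tr X (y * u) := rfl

/-- `C y` is the contraction with `u ↦ Tr(y u)` for `y` of degree `2 g - 1` -/
theorem C_con {y : W.coh X} {j : ℕ} (hj : j + 1 = 2 * g) (hy : y ∈ W.gr X j) (w : W.coh X) :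
    C W m y w = (AV48.extAlg hW hX hA hξ).D (dl W X y) w := by
  have hE := AV48.extAlg hW hX hA hξ
  have hodd : (-1 : ℂ) ^ j = -1 := Odd.neg_one_pow ⟨g - 1, by omega⟩
  refine hW.hom_induction hX (P := fun w => C W m y w = hE.D (dl W X y) w) w ?_ ?_ ?_
  · intro i w hw
    refine hE.deg_ind (P := fun _ w => C W m y w = hE.D (dl W X y) w) ?_ ?_ ?_ ?_ i w hw
    · intro i
      rw [map_zero, map_zero]
    · intro i a b _ _ ha hb
      rw [map_add, ha, hb, map_add]
    · intro c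
      rw [map_smul, map_smul, C_one hW hX, hE.D_one, hW.tr_gr hX hy (by omega), zero_smul]
    · intro i v hv a _ h
      have h1 := hE.D_mul (dl W X y) ⟨v, hv⟩ a
      have h2 : hE.D (dl W X y) (v * a) = W.tr X (y * v) • a - v * hE.D (dl W X y) a := h1
      have h3 : y * v ∈ W.gr X (2 * g) := by
        rw [← hj]
        exact hW.mul_gr hX hy hv
      rw [C_mul hW hX hm hy hv, h, h2, hodd, neg_one_smul,
        C_top hW hX hm hA hξ h3, neg_add_eq_sub]
  · rw [map_zero, map_zero]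
  · intro a b ha hb
    rw [map_add, ha, hb, map_add]

theorem pow_gr (r : ℕ) : ξ ^ r ∈ W.gr X (2 * r) :=
  hW.alg_gr hX (hW.pow_alg hX hξ.1 r)

/-- `ξ^(g-1)` is injective on `H^1` -/
theorem inj_one (hg : 0 < g) {y : W.coh X} (hy : y ∈ W.gr X 1) (h0 : ξ ^ (g - 1) * y = 0) :
    y = 0 := by
  have hE := AV48.extAlg hW hX hA hξ
  have hξg := AV48.ξg_ne hW hX hA hξ
  have hξ2 := AV48.ξ_gr hW hX hA hξ
  have hc : ∀ (r : ℕ) (x : W.coh X), ξ ^ r * x = x * ξ ^ r := fun r x =>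
    hW.alg_comm hX (hW.pow_alg hX hξ.1 r) x
  have hfin := hE.fin
  -- all functionals vanish at `y`
  have h1 : ∀ d : Module.Dual ℂ (W.gr X 1), d ⟨y, hy⟩ = 0 := by
    intro d
    have e1 : hE.D d (y * ξ ^ (g - 1)) = d ⟨y, hy⟩ • ξ ^ (g - 1) - y * hE.D d (ξ ^ (g - 1)) :=
      hE.D_mul d ⟨y, hy⟩ (ξ ^ (g - 1))
    rw [← hc, h0, map_zero] at e1
    have e2 : ∀ r : ℕ, hE.D d (ξ ^ (r + 1)) = ((r : ℂ) + 1) • (ξ ^ r * hE.D d ξ) := by
      intro r
      induction r with
      | zero => simp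
      | succ r ih =>
        rw [pow_succ', hE.D_ξ_mul hξ2, ih, mul_smul_comm, ← mul_assoc, ← pow_succ', hc (r + 1)]
        have : hE.D d ξ * ξ ^ (r + 1) = ξ ^ (r + 1) * hE.D d ξ := (hc _ _).symm
        rw [this]
        push_cast
        module
    have e3 : ξ * (y * hE.D d (ξ ^ (g - 1))) = 0 := by
      rcases Nat.lt_or_ge 1 g with h2 | h2
      · obtain ⟨r, hr⟩ : ∃ r, g - 1 = r + 1 := ⟨g - 2, by omega⟩
        have e4 : ξ ^ r * ξ * y = 0 := by rw [← pow_succ, ← hr, h0]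
        rw [hr, e2, mul_smul_comm, mul_smul_comm, ← mul_assoc, ← mul_assoc]
        have e5 : ξ * y * ξ ^ r = ξ ^ r * ξ * y := by
          rw [← hc r, mul_assoc]
        rw [e5, e4, zero_mul, smul_zero]
      · obtain rfl : g = 1 := by omega
        rw [Nat.sub_self, pow_zero, hE.D_one, mul_zero, mul_zero]
    have e6 : d ⟨y, hy⟩ • ξ ^ g = 0 := by
      have e7 := congrArg (fun x => ξ * x) e1
      simp only [mul_zero, mul_sub, e3, sub_zero, mul_smul_comm] at e7
      rw [← pow_succ', Nat.sub_add_cancel hg] at e7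
      exact e7.symm
    exact (smul_eq_zero.1 e6).resolve_right hξg
  have h2 := (Module.forall_dual_apply_eq_zero_iff ℂ (⟨y, hy⟩ : W.gr X 1)).1 h1
  exact congrArg Subtype.val h2

/-- the contraction with `u ↦ Tr(ξ^(g-1) v u)` maps `ξ` to `-(Tr(ξ^g)/g) v` -/
theorem con_ξ (hg : 0 < g) {v : W.coh X} (hv : v ∈ W.gr X 1) :
    (g : ℂ) • (AV48.extAlg hW hX hA hξ).D (dl W X (ξ ^ (g - 1) * v)) ξ
      = -(W.tr X (ξ ^ g) • v) := by
  have hE := AV48.extAlg hW hX hA hξ
  have hξ2 := AV48.ξ_gr hW hX hA hξ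
  have hc : ∀ (r : ℕ) (x : W.coh X), ξ ^ r * x = x * ξ ^ r := fun r x =>
    hW.alg_comm hX (hW.pow_alg hX hξ.1 r) x
  set d := dl W X (ξ ^ (g - 1) * v) with hd
  have e2 : ∀ r : ℕ, hE.D d (ξ ^ (r + 1)) = ((r : ℂ) + 1) • (ξ ^ r * hE.D d ξ) := by
    intro r
    induction r with
    | zero => simp
    | succ r ih =>
      rw [pow_succ', hE.D_ξ_mul hξ2, ih, mul_smul_comm, ← mul_assoc, ← pow_succ', hc (r + 1)]
      have : hE.D d ξ * ξ ^ (r + 1) = ξ ^ (r + 1) * hE.D d ξ := (hc _ _).symm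
      rw [this]
      push_cast
      module
  have hφ : hE.D d ξ ∈ W.gr X 1 := (hE.D_gr d 2 ξ hξ2).2 1 rfl
  set φ := hE.D d ξ with hφd
  have hs : (g : ℂ) • φ + W.tr X (ξ ^ g) • v ∈ W.gr X 1 :=
    add_mem (Submodule.smul_mem _ _ hφ) (Submodule.smul_mem _ _ hv)
  have h0 : ξ ^ (g - 1) * ((g : ℂ) • φ + W.tr X (ξ ^ g) • v) = 0 := by
    refine hW.duality hX _ fun u => ?_
    have hp := pow_gr hW hX hm hA hξ (g - 1)
    refine hW.hom_induction hX (P := fun u => W.tr X (ξ ^ (g - 1)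
      * ((g : ℂ) • φ + W.tr X (ξ ^ g) • v) * u) = 0) u ?_ ?_ ?_
    · intro i u hu
      by_cases hi : i = 1
      · subst hi
        -- apply the contraction to `u ξ^g = 0`
        have e3 : u * ξ ^ g = 0 :=
          hW.top_gr hX (hW.mul_gr hX hu (pow_gr hW hX hm hA hξ g)) (by omega)
        have e4 : hE.D d (u * ξ ^ g) = d ⟨u, hu⟩ • ξ ^ g - u * hE.D d (ξ ^ g) :=
          hE.D_mul d ⟨u, hu⟩ (ξ ^ g)
        have e5 : hE.D d (ξ ^ g) = (g : ℂ) • (ξ ^ (g - 1) * φ) := by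
          have e9 := e2 (g - 1)
          rw [Nat.sub_add_cancel hg] at e9
          rw [e9]
          congr 1
          rw [Nat.cast_sub (show 1 ≤ g from hg)]
          push_cast
          ring
        rw [e3, map_zero, e5] at e4
        have e6 := congrArg (W.tr X) e4
        rw [map_zero, map_sub, map_smul, mul_smul_comm, map_smul, smul_eq_mul, smul_eq_mul] at e6
        have e7 : d ⟨u, hu⟩ = W.tr X (ξ ^ (g - 1) * v * u) := by rw [hd, dl_apply]
        have e8 : u * (ξ ^ (g - 1) * φ) = -(ξ ^ (g - 1) * φ * u) := by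
          rw [← mul_assoc, ← hc, mul_assoc, mul_assoc, hW.comm_gr hX hu hφ]
          norm_num
        rw [e7, e8, map_neg] at e6
        rw [mul_add, mul_smul_comm, mul_smul_comm, add_mul, smul_mul_assoc, smul_mul_assoc,
          map_add, map_smul, map_smul, smul_eq_mul, smul_eq_mul]
        linear_combination -e6
      · exact hW.tr_gr hX (hW.mul_gr hX (hW.mul_gr hX hp hs) hu) (by omega)
    · simp
    · intro a b ha hb
      rw [mul_add, map_add, ha, hb, add_zero]
  have h1 := inj_one hW hX hm hA hξ hg hs h0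
  exact eq_neg_of_add_eq_zero_left h1

/-- the operator `C = C (ξ^(g-1))` on products with elements of degree `1` -/
theorem C_v (hg : 0 < g) {v : W.coh X} (hv : v ∈ W.gr X 1) (w : W.coh X) :
    C W m (ξ ^ (g - 1)) (v * w) = v * C W m (ξ ^ (g - 1)) w
      + (AV48.extAlg hW hX hA hξ).D (dl W X (ξ ^ (g - 1) * v)) w := by
  have hp := pow_gr hW hX hm hA hξ (g - 1)
  rw [C_mul hW hX hm hp hv, pow_mul, neg_one_sq, one_pow, one_smul,
    C_con hW hX hm hA hξ (j := 2 * (g - 1) + 1) (by omega) (hW.mul_gr hX hp hv)]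

theorem C_gr (hg : 0 < g) (i : ℕ) (x : W.coh X) (hx : x ∈ W.gr X i) :
    (i < 2 → C W m (ξ ^ (g - 1)) x = 0) ∧
      (∀ j, i = j + 2 → C W m (ξ ^ (g - 1)) x ∈ W.gr X j) ∧
      (i = 2 → C W m (ξ ^ (g - 1)) x = W.tr X (ξ ^ (g - 1) * x) • 1) := by
  have hE := AV48.extAlg hW hX hA hξ
  have hp := pow_gr hW hX hm hA hξ (g - 1)
  refine hE.deg_ind (P := fun i x => (i < 2 → C W m (ξ ^ (g - 1)) x = 0) ∧
      (∀ j, i = j + 2 → C W m (ξ ^ (g - 1)) x ∈ W.gr X j) ∧
      (i = 2 → C W m (ξ ^ (g - 1)) x = W.tr X (ξ ^ (g - 1) * x) • 1)) ?_ ?_ ?_ ?_ i x hx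
  · intro i
    rw [map_zero, mul_zero, map_zero, zero_smul]
    exact ⟨fun _ => rfl, fun _ _ => zero_mem _, fun _ => rfl⟩
  · intro i a b _ _ ha hb
    rw [map_add, mul_add, map_add, add_smul]
    exact ⟨fun h => by rw [ha.1 h, hb.1 h, add_zero],
      fun j hj => add_mem (ha.2.1 j hj) (hb.2.1 j hj), fun h => by rw [ha.2.2 h, hb.2.2 h]⟩
  · intro c
    rw [map_smul, C_one hW hX, hW.tr_gr hX hp (by omega), zero_smul, smul_zero]
    exact ⟨fun _ => rfl, fun _ _ => zero_mem _, fun h => absurd h (by omega)⟩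
  · intro i v hv a ha h
    rw [C_v hW hX hm hA hξ hg hv]
    have hD := hE.D_gr (dl W X (ξ ^ (g - 1) * v)) i a ha
    refine ⟨fun hi => ?_, fun j hj => ?_, fun hi => ?_⟩
    · obtain rfl : i = 0 := by omega
      rw [h.1 (by omega), mul_zero, zero_add]
      exact hD.1 rfl
    · obtain rfl : i = j + 1 := by omega
      refine add_mem ?_ (hD.2 j rfl)
      rcases Nat.eq_zero_or_pos j with hj0 | hj0
      · rw [h.1 (by omega), mul_zero]
        exact zero_mem _
      · obtain ⟨j', rfl⟩ : ∃ j', j = j' + 1 := ⟨j - 1, by omega⟩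
        have := hW.mul_gr hX hv (h.2.1 j' rfl)
        rwa [add_comm] at this
    · obtain rfl : i = 1 := by omega
      rw [h.1 (by omega), mul_zero, zero_add, ← mul_assoc]
      have e1 := hE.D_v (dl W X (ξ ^ (g - 1) * v)) ⟨a, ha⟩
      rw [dl_apply] at e1
      exact e1

/-- the commutator of `C` and `ξ` -/
theorem C_comm (hg : 0 < g) (i : ℕ) (x : W.coh X) (hx : x ∈ W.gr X i) :
    (g : ℂ) • (ξ * C W m (ξ ^ (g - 1)) x - C W m (ξ ^ (g - 1)) (ξ * x))
      = (W.tr X (ξ ^ g) * ((i : ℂ) - g)) • x := by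
  have hE := AV48.extAlg hW hX hA hξ
  have hξ2 := AV48.ξ_gr hW hX hA hξ
  have hc : ∀ x : W.coh X, ξ * x = x * ξ := fun x => hW.alg_comm hX hξ.1 x
  refine hE.deg_ind (P := fun i x => (g : ℂ) • (ξ * C W m (ξ ^ (g - 1)) x
    - C W m (ξ ^ (g - 1)) (ξ * x)) = (W.tr X (ξ ^ g) * ((i : ℂ) - g)) • x) ?_ ?_ ?_ ?_ i x hx
  · intro i
    simp
  · intro i a b _ _ ha hb
    rw [map_add, mul_add, mul_add, map_add, smul_add, ← ha, ← hb, ← smul_add]
    congr 1
    abel
  · intro c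
    have h1 := (C_gr hW hX hm hA hξ hg 0 1 (hW.one_gr hX)).1 (by omega)
    have h2 := (C_gr hW hX hm hA hξ hg 2 ξ hξ2).2.2 rfl
    rw [← pow_succ, Nat.sub_add_cancel hg] at h2
    rw [map_smul, h1, smul_zero, mul_zero, zero_sub, mul_smul_comm, mul_one, map_smul, h2,
      smul_smul, ← neg_smul, smul_smul, smul_smul]
    congr 1
    push_cast
    ring
  · intro i v hv a _ h
    have e1 : ξ * (v * a) = v * (ξ * a) := by rw [← mul_assoc, hc v, mul_assoc]
    rw [e1, C_v hW hX hm hA hξ hg hv, C_v hW hX hm hA hξ hg hv, hE.D_ξ_mul hξ2, mul_add,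
      ← mul_assoc, hc v, mul_assoc]
    have e2 : v * (ξ * C W m (ξ ^ (g - 1)) a)
        + ξ * hE.D (dl W X (ξ ^ (g - 1) * v)) a
        - (v * C W m (ξ ^ (g - 1)) (ξ * a) + (hE.D (dl W X (ξ ^ (g - 1) * v)) ξ * a
          + ξ * hE.D (dl W X (ξ ^ (g - 1) * v)) a))
        = v * (ξ * C W m (ξ ^ (g - 1)) a - C W m (ξ ^ (g - 1)) (ξ * a))
          - hE.D (dl W X (ξ ^ (g - 1) * v)) ξ * a := by
      rw [mul_sub]
      abel
    rw [e2, smul_sub, ← mul_smul_comm, h, ← smul_mul_assoc, con_ξ hW hX hm hA hξ hg hv,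
      neg_mul, sub_neg_eq_add, mul_smul_comm, smul_mul_assoc, ← add_smul]
    congr 1
    push_cast
    ring

end law

/-- hard Lefschetz and the operator `Λ` -/
theorem main (hA : AbelianType W X g) (hU : UnitalLaw X) {ξ : W.coh X}
    (hξ : PositiveDivisor W X g ξ) : HardLefschetz W X g ξ ∧ AlgebraicLambda W X g ξ := by
  have hXX := 𝒱.prod hX hX
  rcases Nat.eq_zero_or_pos g with hg | hg
  · subst hg
    refine ⟨fun i x hi _ h => ?_, 0, zero_mem _, fun i r x hi hr _ => ?_⟩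
    · obtain rfl : i = 0 := by omega
      rwa [CohomologyData.cup, Nat.sub_self, pow_zero, one_mul] at h
    · obtain rfl : r = 0 := by omega
      simp [CohomologyData.pf, CohomologyData.cup, CohomologyData.scal]
  obtain ⟨m, e, h1, h2⟩ := hU
  have h0 : ∀ x ∈ W.gr X 0, ∃ c : ℂ, x = c • 1 := fun x hx => AV48.zero_gr hW hX hA hξ hx
  have hm : ∀ v ∈ W.gr X 1, W.pull m v = W.pull (fst X X) v + W.pull (snd X X) v :=
    fun v hv => pull_m hW hX h0 h1 h2 hv
  obtain ⟨q, hq, hqt⟩ := hξ.2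
  have hqt' : W.tr X (ξ ^ g) = (q : ℂ) := hqt
  have hq0 : (q : ℂ) ≠ 0 := by exact_mod_cast hq.ne'
  have hg0 : (g : ℂ) ≠ 0 := by exact_mod_cast hg.ne'
  set r : ℚ := (g : ℚ) / q with hr
  have hrc : (r : ℂ) = (g : ℂ) / q := by rw [hr]; push_cast; rfl
  let Lam : Module.End ℂ (W.coh X) := (r : ℂ) • C W m (ξ ^ (g - 1))
  have hS : Slm (W.gr X) g (Lop W X ξ) Lam := by
    refine ⟨hW.internal hX, fun i x hx hi => hW.top_gr hX hx hi, fun i x hx => ?_,
      fun i x hx => ?_, fun i x hi hx => ?_, fun i x hx => ?_⟩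
    · have := hW.mul_gr hX (AV48.ξ_gr hW hX hA hξ) hx
      rwa [add_comm] at this
    · exact Submodule.smul_mem _ _ ((C_gr hW hX hm hA hξ hg _ x hx).2.1 i rfl)
    · show (r : ℂ) • C W m (ξ ^ (g - 1)) x = 0
      rw [(C_gr hW hX hm hA hξ hg i x hx).1 hi, smul_zero]
    · show ξ * ((r : ℂ) • C W m (ξ ^ (g - 1)) x) - (r : ℂ) • C W m (ξ ^ (g - 1)) (ξ * x) = _
      have h3 := C_comm hW hX hm hA hξ hg i x hx
      rw [mul_smul_comm, ← smul_sub]
      have h4 : ξ * C W m (ξ ^ (g - 1)) x - C W m (ξ ^ (g - 1)) (ξ * x)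
          = (g : ℂ)⁻¹ • ((W.tr X (ξ ^ g) * ((i : ℂ) - g)) • x) := by
        rw [← h3, smul_smul, inv_mul_cancel₀ hg0, one_smul]
      rw [h4, smul_smul, smul_smul, hqt', hrc]
      congr 1
      field_simp
  refine ⟨fun i x hi hx h => ?_, (r : ℂ) • W.push (lift m (fst X X))
    (W.pull (snd X X) (ξ ^ (g - 1))), ?_, fun i s x hi hs hx => ?_⟩
  · refine SL2.inj hS i x hi hx ?_
    rw [PSI.Lop_pow hW hX]
    exact h
  · refine CohomologyData.alg_smul r ?_
    exact hW.push_alg hXX hXX _ (hW.pull_alg hXX hX (snd X X) (hW.pow_alg hX hξ.1 (g - 1)))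
      (by omega)
  · have hact : ∀ y : W.coh X, W.push (snd X X) (W.pull (fst X X) y * ((r : ℂ) •
        W.push (lift m (fst X X)) (W.pull (snd X X) (ξ ^ (g - 1))))) = Lam y := by
      intro y
      show _ = (r : ℂ) • C W m (ξ ^ (g - 1)) y
      rw [mul_smul_comm, map_smul]
      congr 1
      rw [← sub_eq_zero]
      refine hW.duality hX _ fun t => ?_
      have hγ := hW.push_alg hXX hXX (lift m (fst X X)) (j := g - 1)
        (hW.pull_alg hXX hX (snd X X) (hW.pow_alg hX hξ.1 (g - 1))) (by omega)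
      rw [sub_mul, map_sub, hW.push_adj hXX hX, C_apply, hW.push_adj hXX hX,
        ← hW.alg_comm hXX hγ, mul_assoc, hW.push_adj hXX hXX, map_mul (W.pull (lift m (fst X X))),
        ← W.pull_comp, ← W.pull_comp, lift_fst, lift_snd, mul_assoc, sub_self]
    show W.push (snd X X) (W.pull (fst X X) (ξ ^ s * x) * _) = _
    rw [hact]
    have hpr : (Lop W X ξ ^ (g - i + 1)) x = 0 := by
      rw [PSI.Lop_pow hW hX]
      exact hx.2
    have hΛ := (sl2 hS).2.2.2.2.2.1 i x hi hx.1 hpr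
    rcases Nat.eq_zero_or_pos s with hs0 | hs0
    · subst hs0
      rw [pow_zero, one_mul, hΛ, zero_mul, Nat.cast_zero]
      exact (zero_smul ℂ _).symm
    · obtain ⟨t, rfl⟩ : ∃ t, s = t + 1 := ⟨s - 1, by omega⟩
      have h5 := (sl2 hS).2.2.1 i x t hx.1 hΛ
      rw [PSI.Lop_pow hW hX, PSI.Lop_pow hW hX] at h5
      rw [h5, Nat.add_sub_cancel]
      show _ = (((t + 1) * (g - i - (t + 1) + 1) : ℕ) : ℂ) • (ξ ^ t * x)
      congr 1
      rw [show g - i - (t + 1) + 1 = g - i - t by omega]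
      push_cast [Nat.cast_sub (show t ≤ g - i by omega), Nat.cast_sub hi]
      ring

end AbV

/-- For `X` with a unital law such that `H^*(X)` is generated by `H^1(X)`, of dimension `2 g`, and
a divisor class `ξ` with `Tr(ξ^g) > 0`: hard Lefschetz, the Lefschetz standard conjecture and a
Hodge-Riemann structure. -/
theorem abelian {k : Type u} [Field k] {W : CohomologyData.{u, 0, w} k ℂ}
    {𝒱 : VarietyClass k} (hW : IsWeilCohomology W 𝒱) {X : Sch k} {g : ℕ} (hX : 𝒱.mem X g)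
    (hA : AbelianType W X g) (hU : UnitalLaw X) {ξ : W.coh X} (hξ : PositiveDivisor W X g ξ) :
    HardLefschetz W X g ξ ∧ AlgebraicLambda W X g ξ ∧
      ∃ j : W.coh X →ₛₗ[starRingEnd ℂ] W.coh X, HRStr W X g ξ j :=
  have h := AbV.main hW hX hA hU hξ
  ⟨h.1, h.2, exists_hrStr hW hX hA hξ h.1 h.2⟩

end Pool.Agent.Lib.MP_361a6f_ag.FL
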