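import Pool.Agent.Lib.MP_361a6f_ag.FL.B.Defs

/-!
# Row ALB: the stabiliser of a base tuple and the combined tuple
-/

open Filter Topology MeasureTheory

namespace Pool.Agent.Lib.MP_361a6f_ag.FL

namespace ALB

noncomputable section

variable {I Λ β ι : Type} [Fintype I] [DecidableEq I] [DecidableEq Λ] [Fintype β] [Fintype ι]
  {lb : β → ℕ} {len : ι → ℕ}

omit [Fintype β] in
theorem gS_mul (a1 : Alg1) (g h : Matrix I I ℂ) (b : Tup I lb) :
    gS (g * h) b = gS g (gS h b) := funext fun i => a1.gT_mul g h (b i)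

omit [Fintype β] in
theorem gS_one (a1 : Alg1) (b : Tup I lb) : gS (1 : Matrix I I ℂ) b = b :=
  funext fun i => a1.gT_one (b i)

theorem aT_zero (a1 : Alg1) (A : Matrix I I ℂ) {L : ℕ} : aT A (0 : Ten I L) = 0 := by
  have h := a1.aT_smul A 0 (0 : Ten I L)
  rwa [zero_smul, zero_smul] at h

theorem jT_zero (a1 : Alg1) (D : Dat I Λ) {L : ℕ} : jT D (0 : Ten I L) = 0 := by
  have h := a1.jT_smul D 0 (0 : Ten I L)
  rwa [zero_smul, map_zero, zero_smul] at h

/-- the exponential of an operator which kills `u` fixes `u` -/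
theorem gT_exp_eq (a1 : Alg1) (A : Matrix I I ℂ) {L : ℕ} (u : Ten I L) (h : aT A u = 0) :
    gT (NormedSpace.exp A) u = u := by
  have h1 := a1.gT_exp A u
  have h2 : HasSum (fun n : ℕ => ((n.factorial : ℂ)⁻¹) • (aT A)^[n] u) u := by
    have h3 : ∀ n, n ≠ 0 → ((n.factorial : ℂ)⁻¹) • (aT A)^[n] u = 0 := by
      intro n hn
      obtain ⟨m, rfl⟩ : ∃ m, n = m + 1 := ⟨n - 1, by omega⟩
      rw [Function.iterate_succ_apply, h]
      have h4 : ∀ m : ℕ, (aT A)^[m] (0 : Ten I L) = 0 := by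
        intro m
        induction m with
        | zero => rfl
        | succ m ih => rw [Function.iterate_succ_apply, aT_zero a1, ih]
      rw [h4, smul_zero]
    have h5 := hasSum_single (f := fun n : ℕ => ((n.factorial : ℂ)⁻¹) • (aT A)^[n] u) 0 h3
    simpa using h5
  exact h1.unique h2

omit [Fintype β] in
theorem gS_exp_eq (a1 : Alg1) (A : Matrix I I ℂ) (b : Tup I lb) (h : aS A b = 0) :
    gS (NormedSpace.exp A) b = b :=
  funext fun i => gT_exp_eq a1 A (b i) (congrFun h i)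

omit [Fintype I] [DecidableEq I] [Fintype β] [Fintype ι] in
theorem polyMap_add {c : ℕ} {P Q : Tup I len → Ten I c} (hP : PolyMap P) (hQ : PolyMap Q) :
    PolyMap (P + Q) := by
  obtain ⟨p, hp⟩ := hP
  obtain ⟨q, hq⟩ := hQ
  refine ⟨fun w => p w + q w, fun s w => ?_⟩
  rw [map_add, ← hp, ← hq]
  rfl

omit [Fintype I] [DecidableEq I] [Fintype β] [Fintype ι] in
theorem polyMap_smul {c : ℕ} {P : Tup I len → Ten I c} (a : ℂ) (hP : PolyMap P) :
    PolyMap (a • P) := by
  obtain ⟨p, hp⟩ := hP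
  refine ⟨fun w => MvPolynomial.C a * p w, fun s w => ?_⟩
  rw [map_mul, MvPolynomial.eval_C, ← hp]
  rfl

omit [Fintype I] [DecidableEq I] [Fintype β] [Fintype ι] in
theorem polyMap_zero {c : ℕ} : PolyMap (0 : Tup I len → Ten I c) :=
  ⟨fun _ => 0, fun s w => by rw [map_zero]; rfl⟩

/-- substitution of `b` in a polynomial in the coordinates of `(b, s)` -/
def sub (b : Tup I lb) (x : Σ i : β ⊕ ι, (Fin (Sum.elim lb len i) → I)) :
    MvPolynomial (Σ i, (Fin (len i) → I)) ℂ :=
  match x with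
  | ⟨.inl i, w⟩ => MvPolynomial.C (b i w)
  | ⟨.inr i, w⟩ => MvPolynomial.X ⟨i, w⟩

omit [Fintype I] [DecidableEq I] [Fintype β] [Fintype ι] in
theorem polyMap_cmb {c : ℕ} (b : Tup I lb) {P : Tup I (Sum.elim lb len) → Ten I c}
    (hP : PolyMap P) : PolyMap fun s : Tup I len => P (cmb b s) := by
  obtain ⟨p, hp⟩ := hP
  refine ⟨fun w => MvPolynomial.bind₁ (sub b) (p w), fun s w => ?_⟩
  change P (cmb b s) w = MvPolynomial.eval (fun x => s x.1 x.2) (MvPolynomial.bind₁ (sub b) (p w))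
  rw [hp, ← MvPolynomial.coe_aeval_eq_eval, ← MvPolynomial.coe_aeval_eq_eval]
  change MvPolynomial.aeval _ (p w) = MvPolynomial.aeval _ (MvPolynomial.bind₁ (sub b) (p w))
  rw [MvPolynomial.aeval_bind₁]
  congr 1
  congr 1
  funext x
  rcases x with ⟨i | i, v⟩
  · simp only [sub, MvPolynomial.aeval_C]
    rfl
  · simp only [sub, MvPolynomial.aeval_X]
    rfl

end

end ALB

open ALB in
/-- Row ALB. -/
theorem algB (a1 : Alg1) (a2 : Alg2) : AlgB where
  G_one D b := ⟨a1.G_one D, gS_one a1 b⟩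
  G_mul D b g h hg hh := ⟨a1.G_mul D g h hg.1 hh.1, by rw [gS_mul a1, hh.2, hg.2]⟩
  G_inv D b g hg := by
    obtain ⟨h1, h2, h3⟩ := a1.G_inv D g hg.1
    refine ⟨⟨h1, ?_⟩, h2, h3⟩
    conv_lhs => rw [← hg.2]
    rw [← gS_mul a1, h3, gS_one a1]
  G_exp D b A hA := ⟨a1.G_exp D A hA.1, gS_exp_eq a1 A b hA.2⟩
  K_exp D b A hA h := ⟨a1.K_exp D A hA.1 h, gS_exp_eq a1 A b hA.2⟩
  Lie_adj D b A hb hA := by
    refine ⟨a1.Lie_adj D A hA.1, funext fun i => ?_⟩
    have h1 := a1.jT_aT D A (b i) hA.1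
    have h2 : aT A (b i) = 0 := congrFun hA.2 i
    have h3 : jT D (b i) = b i := congrFun hb i
    rw [h2, h3, jT_zero a1] at h1
    have h4 := a1.smul_aT (-1) (-A.conjTranspose) (b i)
    rw [← h1, smul_zero, smul_neg, neg_smul, one_smul, neg_neg] at h4
    exact h4
  Lie_smul D b c A hA := by
    refine ⟨a1.Lie_smul D c A hA.1, funext fun i => ?_⟩
    have h2 : aT A (b i) = 0 := congrFun hA.2 i
    have h4 := a1.smul_aT c A (b i)
    rw [h2, smul_zero] at h4
    exact h4
  Lie_add D b A B hA hB := by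
    refine ⟨a1.Lie_add D A B hA.1 hB.1, funext fun i => ?_⟩
    have h2 : aT A (b i) = 0 := congrFun hA.2 i
    have h3 : aT B (b i) = 0 := congrFun hB.2 i
    have h4 := a1.add_aT A B (b i)
    rw [h2, h3, add_zero] at h4
    exact h4
  gS_cmb g b s := by
    funext i
    rcases i with i | i <;> rfl
  jS_cmb D b s := by
    funext i
    rcases i with i | i <;> rfl
  hS_cmb b b' s s' := by
    unfold hS
    rw [Fintype.sum_sum_type]
    rfl
  cmb_cont b := by
    refine continuous_pi fun i => ?_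
    rcases i with i | i
    · exact continuous_const
    · exact continuous_apply i
  DMb_MT D b c f s hf := by
    refine Submodule.span_induction (p := fun f _ => f s ∈ MT D (cmb b s) c) ?_ ?_ ?_ ?_ hf
    · rintro f ⟨l, m, hm, rfl⟩
      exact Submodule.subset_span ⟨l, m, hm, rfl⟩
    · exact zero_mem _
    · intro f g _ _ h1 h2
      exact add_mem h1 h2
    · intro a f _ h1
      exact Submodule.smul_mem _ a h1
  MT_DMb {I Λ β ι} _ _ _ _ _ {lb len} D b c s v hv := by
    refine Submodule.span_induction (p := fun v _ => ∃ f ∈ DMb len D b c, f s = v) ?_ ?_ ?_ ?_ hv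
    · rintro v ⟨l, m, hm, rfl⟩
      exact ⟨_, Submodule.subset_span ⟨l, m, hm, rfl⟩, rfl⟩
    · exact ⟨0, zero_mem _, rfl⟩
    · rintro v w _ _ ⟨f, hf, rfl⟩ ⟨g, hg, rfl⟩
      exact ⟨f + g, add_mem hf hg, rfl⟩
    · rintro a v _ ⟨f, hf, rfl⟩
      exact ⟨a • f, Submodule.smul_mem _ a hf, rfl⟩
  DMb_gS {I Λ β ι} _ _ _ _ _ {lb len} D b c f hf g s hg := by
    refine Submodule.span_induction (p := fun f _ => f (gS g s) = gT g (f s)) ?_ ?_ ?_ ?_ hf
    · rintro f ⟨l, m, hm, rfl⟩
      have h1 : cmb b (gS g s) = gS g (cmb b s) := by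
        have h2 : gS g (cmb b s) = cmb (gS g b) (gS g s) := by
          funext i
          rcases i with i | i <;> rfl
        rw [h2, hg.2]
      change dm D c l m (cmb b (gS g s)) = gT g (dm D c l m (cmb b s))
      rw [h1]
      exact a2.dm_gS D c l m g (cmb b s) hm hg.1
    · change (0 : Ten I c) = gT g 0
      have h := a1.gT_smul g 0 (0 : Ten I c)
      rw [zero_smul, zero_smul] at h
      exact h.symm
    · intro f f' _ _ h1 h2
      change f (gS g s) + f' (gS g s) = gT g (f s + f' s)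
      rw [h1, h2, a1.gT_add]
    · intro a f _ h1
      change a • f (gS g s) = gT g (a • f s)
      rw [h1, a1.gT_smul]
  DMb_poly {I Λ β ι} _ _ _ _ _ {lb len} D b c f hf := by
    refine Submodule.span_induction (p := fun f _ => PolyMap f) ?_ ?_ ?_ ?_ hf
    · rintro f ⟨l, m, hm, rfl⟩
      exact polyMap_cmb b (a2.dm_poly D c l m)
    · exact polyMap_zero
    · intro f g _ _ h1 h2
      exact polyMap_add h1 h2
    · intro a f _ h1
      exact polyMap_smul a h1

end Pool.Agent.Lib.MP_361a6f_ag.FL
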