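import Pool.Agent.Lib.MP_361a6f_ag.FL.B.Defs
import Pool.Agent.Lib.MP_361a6f_ag.FL.Avg
import Pool.Agent.Lib.MP_361a6f_ag.FL.Al2

/-!
# Row AVB: the average of a polynomial map over the stabiliser of the base tuple
-/

set_option linter.unusedSectionVars false

open Filter Topology MeasureTheory

namespace Pool.Agent.Lib.MP_361a6f_ag.FL

noncomputable section

variable {I Λ : Type} [Fintype I] [DecidableEq I] [DecidableEq Λ] (D : Dat I Λ)

namespace AvbRow

/-! ### Outer products of appended lists -/

theorem outer_heq {p q q' : ℕ} (u : Ten I p) (v : Ten I q) (v' : Ten I q') (hq : q = q')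
    (hv : HEq v v') : HEq (outer u v) (outer u v') := by
  subst hq
  rw [eq_of_heq hv]

theorem outer_heq' {p p' q : ℕ} (u : Ten I p) (u' : Ten I p') (v : Ten I q) (hp : p = p')
    (hu : HEq u u') : HEq (outer u v) (outer u' v) := by
  subst hp
  rw [eq_of_heq hu]

theorem cont_heq {p p' c : ℕ} (u : Ten I p) (u' : Ten I p') (m : Ten I (p + c))
    (m' : Ten I (p' + c)) (hp : p = p') (hu : HEq u u') (hm : HEq m m') :
    cont D u m = cont D u' m' := by
  subst hp
  rw [eq_of_heq hu, eq_of_heq hm]

theorem match_heq {L L' : ℕ} (m : Ten I L) (m' : Ten I L') (h : L = L') (hm : HEq m m')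
    (hM : IsMatch D L m) : IsMatch D L' m' := by
  subst h
  rw [← eq_of_heq hm]
  exact hM

theorem heq_of_cast {L L' : ℕ} (h : L = L') (u : Ten I L) (v : Ten I L')
    (hv : ∀ w, v w = u (w ∘ Fin.cast h)) : HEq u v := by
  subst h
  refine heq_of_eq (funext fun w => ?_)
  rw [hv]
  rfl

theorem outer_nil {q : ℕ} (v : Ten I q) : HEq (outer (fun _ => 1 : Ten I 0) v) v := by
  refine heq_of_cast (Nat.zero_add q) _ _ fun w => ?_
  unfold outer
  rw [one_mul]
  congr 1
  funext i
  simp only [Function.comp_apply]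
  congr 1
  ext
  simp

theorem outer_assoc {p q r : ℕ} (u : Ten I p) (v : Ten I q) (x : Ten I r) :
    HEq (outer (outer u v) x) (outer u (outer v x)) := by
  refine heq_of_cast (Nat.add_assoc p q r) _ _ fun w => ?_
  unfold outer
  rw [mul_assoc]
  have h : (fun i : Fin r => w (Fin.natAdd p (Fin.natAdd q i))) =
      fun i : Fin r => (w ∘ Fin.cast (Nat.add_assoc p q r)) (Fin.natAdd (p + q) i) := by
    funext i
    simp only [Function.comp_apply]
    congr 1
    ext
    simp [Nat.add_assoc]
  rw [← h]
  rfl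

variable {β ι : Type} [Fintype β] [Fintype ι] {lb : β → ℕ} {len : ι → ℕ}

omit [Fintype ι] in
theorem prodT_append (T : Tup I len) (l l' : List ι) :
    ((l ++ l').map len).sum = (l.map len).sum + (l'.map len).sum ∧
      HEq (prodT T (l ++ l')) (outer (prodT T l) (prodT T l')) := by
  induction l with
  | nil =>
    refine ⟨by simp, ?_⟩
    exact (outer_nil (prodT T l')).symm
  | cons i l ih =>
    refine ⟨by simp [Nat.add_assoc], ?_⟩
    have h1 : HEq (outer (T i) (prodT T (l ++ l')))
        (outer (T i) (outer (prodT T l) (prodT T l'))) := outer_heq _ _ _ ih.1 ih.2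
    exact h1.trans (outer_assoc _ _ _).symm

theorem prodT_inl (b : Tup I lb) (s : Tup I len) (l : List β) :
    ((l.map Sum.inl).map (Sum.elim lb len)).sum = (l.map lb).sum ∧
      HEq (prodT (cmb b s) (l.map Sum.inl)) (prodT b l) := by
  induction l with
  | nil => exact ⟨rfl, HEq.rfl⟩
  | cons i l ih =>
    refine ⟨by simp, ?_⟩
    exact outer_heq (b i) _ _ ih.1 ih.2

theorem prodT_inr (b : Tup I lb) (s : Tup I len) (l : List ι) :
    ((l.map Sum.inr).map (Sum.elim lb len)).sum = (l.map len).sum ∧
      HEq (prodT (cmb b s) (l.map Sum.inr)) (prodT s l) := by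
  induction l with
  | nil => exact ⟨rfl, HEq.rfl⟩
  | cons i l ih =>
    refine ⟨by simp, ?_⟩
    exact outer_heq (s i) _ _ ih.1 ih.2

/-- contraction with an outer product -/
theorem cont_cont {p q c : ℕ} (u : Ten I p) (v : Ten I q) (m : Ten I (q + (p + c))) :
    cont D u (cont D v m) =
      cont D (outer v u) (fun x => m (x ∘ Fin.cast (Nat.add_assoc q p c).symm)) := by
  funext w
  unfold cont
  rw [AL2.sum_append]
  rw [Finset.sum_comm]
  refine Finset.sum_congr rfl fun a _ => ?_
  rw [Finset.mul_sum, Finset.mul_sum]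
  refine Finset.sum_congr rfl fun a' _ => ?_
  have h1 : (Fin.append (D.τ ∘ Fin.append a' a) w) ∘ Fin.cast (Nat.add_assoc q p c).symm =
      Fin.append (D.τ ∘ a') (Fin.append (D.τ ∘ a) w) := by
    rw [AL2.tau_append, Fin.append_assoc]
    funext i
    rfl
  simp only [h1, AL2.sg_append]
  unfold outer
  simp only [Fin.append_left, Fin.append_right]
  ring

/-- the composition of diagram maps -/
theorem dm_comp (b : Tup I lb) (l : List ι) (c : ℕ) (l' : List β)
    (m' : Ten I ((l'.map lb).sum + ((l.map len).sum + c))) (hm : IsMatch D _ m') :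
    (fun s : Tup I len => dm D c l (dm D ((l.map len).sum + c) l' m' b) s) ∈
      DMb len D b c := by
  have h1 : (((l'.map Sum.inl ++ l.map Sum.inr : List (β ⊕ ι))).map (Sum.elim lb len)).sum =
      (l'.map lb).sum + (l.map len).sum := by
    rw [List.map_append, List.sum_append, (prodT_inl (I := I) (lb := lb) (len := len)
      (fun i _ => 0) (fun i _ => 0) l').1, (prodT_inr (I := I) (lb := lb) (len := len)
      (fun i _ => 0) (fun i _ => 0) l).1]
  let M0 : Ten I (((l'.map lb).sum + (l.map len).sum) + c) :=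
    fun x => m' (x ∘ Fin.cast (Nat.add_assoc _ _ _).symm)
  have hM0 : IsMatch D _ M0 :=
    match_heq D m' M0 (Nat.add_assoc _ _ _).symm
      (heq_of_cast (Nat.add_assoc _ _ _).symm _ _ fun w => rfl) hm
  let M : Ten I ((((l'.map Sum.inl ++ l.map Sum.inr : List (β ⊕ ι))).map
      (Sum.elim lb len)).sum + c) :=
    cast (congrArg (fun n => Ten I (n + c)) h1.symm) M0
  have hMM : HEq M M0 := cast_heq _ _
  have hM : IsMatch D _ M := match_heq D M0 M (by rw [h1]) hMM.symm hM0
  refine Submodule.subset_span ⟨l'.map Sum.inl ++ l.map Sum.inr, M, hM, ?_⟩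
  funext s
  unfold dm
  rw [cont_cont]
  refine cont_heq D _ _ _ _ h1.symm ?_ hMM.symm
  refine HEq.symm ?_
  refine (prodT_append (cmb b s) (l'.map Sum.inl) (l.map Sum.inr)).2.trans ?_
  refine (outer_heq _ _ _ (prodT_inr b s l).1 (prodT_inr b s l).2).trans ?_
  exact outer_heq' _ _ _ (prodT_inl b s l').1 (prodT_inl b s l').2

theorem dm_mem (b : Tup I lb) (l : List ι) (c : ℕ) (x : Ten I ((l.map len).sum + c))
    (hx : x ∈ MT D b ((l.map len).sum + c)) :
    (fun s : Tup I len => dm D c l x s) ∈ DMb len D b c := by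
  unfold MT at hx
  induction hx using Submodule.span_induction with
  | mem x hx =>
    obtain ⟨l', m', hm, rfl⟩ := hx
    exact dm_comp D b l c l' m' hm
  | zero =>
    have : (fun s : Tup I len => dm D c l 0 s) = 0 := by
      funext s
      exact (AvgRow.cL D (prodT s l)).map_zero
    rw [this]
    exact Submodule.zero_mem _
  | add x y _ _ hx hy =>
    have : (fun s : Tup I len => dm D c l (x + y) s) =
        (fun s : Tup I len => dm D c l x s) + fun s : Tup I len => dm D c l y s := by
      funext s
      exact (AvgRow.cL D (prodT s l)).map_add x y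
    rw [this]
    exact Submodule.add_mem _ hx hy
  | smul a x _ hx =>
    have : (fun s : Tup I len => dm D c l (a • x) s) =
        a • fun s : Tup I len => dm D c l x s := by
      funext s
      exact (AvgRow.cL D (prodT s l)).map_smul a x
    rw [this]
    exact Submodule.smul_mem _ _ hx

/-! ### The average -/

variable {D} {b : Tup I lb}

theorem integrable (H : HMb D b) {E : Type} [NormedAddCommGroup E] {f : H.K → E}
    (hf : Continuous f) : Integrable f H.μ :=
  hf.integrable_of_hasCompactSupport (HasCompactSupport.of_compactSpace f)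

/-- the averaging operator -/
def av (H : HMb D b) {c : ℕ} (P : Tup I len → Ten I c) : Tup I len → Ten I c :=
  fun s => ∫ k, gT (H.mat k) (P (gS (H.mat k⁻¹) s)) ∂H.μ

/-- the average of a tensor -/
def avT (H : HMb D b) {L : ℕ} (m : Ten I L) : Ten I L := ∫ k, gT (H.mat k) m ∂H.μ

theorem cont_gT_k (h1 : Alg1) (H : HMb D b) {L : ℕ} (m : Ten I L) :
    Continuous fun k => gT (H.mat k) m :=
  h1.gT_cont.comp (H.cont_mat.prodMk continuous_const)

theorem avT_inv (h1 : Alg1) (H : HMb D b) {L : ℕ} (m : Ten I L) (g : Matrix I I ℂ)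
    (hg : IsKb D b g) : gT g (avT H m) = avT H m := by
  obtain ⟨h, rfl⟩ := H.surj g hg
  have e1 : gT (H.mat h) (avT H m) = ∫ k, gT (H.mat (h * k)) m ∂H.μ := by
    rw [← AvgRow.gL_apply h1, avT, ← ContinuousLinearMap.integral_comp_comm _
      (integrable H (cont_gT_k h1 H m))]
    refine integral_congr_ae (Eventually.of_forall fun k => ?_)
    simp only [AvgRow.gL_apply, map_mul]
    exact (h1.gT_mul _ _ _).symm
  rw [e1]
  exact integral_mul_left_eq_self (μ := H.μ) (fun k => gT (H.mat k) m) h

theorem avT_mem (hF : FfbStatement) (h1 : Alg1) (hb : IsBase D b) (H : HMb D b) {L : ℕ}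
    (m : Ten I L) : avT H m ∈ MT D b L :=
  hF D b hb L _ fun g hg => avT_inv h1 H m g hg

theorem inv_mul_mat (H : HMb D b) (k : H.K) : H.mat k * H.mat k⁻¹ = 1 := by
  rw [← map_mul, mul_inv_cancel, map_one]

theorem av_dm (hF : FfbStatement) (h1 : Alg1) (h2 : Alg2) (hb : IsBase D b) (H : HMb D b)
    {c : ℕ} (l : List ι) (m : Ten I ((l.map len).sum + c)) :
    av H (dm (len := len) D c l m) ∈ DMb len D b c := by
  have e1 : av H (dm (len := len) D c l m) = fun s => dm D c l (avT H m) s := by
    funext s
    unfold av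
    have : ∀ k, gT (H.mat k) (dm D c l m (gS (H.mat k⁻¹) s)) =
        AvgRow.cL D (prodT s l) (gT (H.mat k) m) := by
      intro k
      unfold dm
      rw [h2.cont_gT D _ _ _ (H.mem k).1.1, AvgRow.prodT_gS h2, ← h1.gT_mul, inv_mul_mat,
        h1.gT_one, AvgRow.cL_apply]
    simp only [this]
    rw [ContinuousLinearMap.integral_comp_comm _ (integrable H (cont_gT_k h1 H m))]
    rfl
  rw [e1]
  exact dm_mem D b l c _ (avT_mem hF h1 hb H m)

theorem gS_cont (h1 : Alg1) (H : HMb D b) (s : Tup I len) :
    Continuous fun k => gS (H.mat k⁻¹) s := by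
  refine continuous_pi fun i => ?_
  exact h1.gT_cont.comp ((H.cont_mat.comp continuous_inv).prodMk continuous_const)

theorem av_int (h1 : Alg1) (H : HMb D b) {c : ℕ} {P : Tup I len → Ten I c}
    (hP : Continuous P) (s : Tup I len) :
    Integrable (fun k => gT (H.mat k) (P (gS (H.mat k⁻¹) s))) H.μ :=
  integrable H (h1.gT_cont.comp (H.cont_mat.prodMk (hP.comp (gS_cont h1 H s))))

theorem av_mem (hF : FfbStatement) (h1 : Alg1) (h2 : Alg2) (hb : IsBase D b) (H : HMb D b)
    {c : ℕ} (P : Tup I len → Ten I c)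
    (hP : P ∈ Submodule.span ℂ (AvgRow.gen (len := len) D c)) :
    Continuous P ∧ av H P ∈ DMb len D b c := by
  induction hP using Submodule.span_induction with
  | mem P hP =>
    obtain ⟨l, m, rfl⟩ := hP
    exact ⟨AvgRow.dm_cont' D c l m, av_dm hF h1 h2 hb H l m⟩
  | zero =>
    refine ⟨continuous_const, ?_⟩
    have : av H (0 : Tup I len → Ten I c) = 0 := by
      funext s
      unfold av
      have : ∀ k, gT (H.mat k) (0 : Ten I c) = 0 := by
        intro k
        exact (AvgRow.gL h1 (H.mat k) c).map_zero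
      simp only [this, integral_zero, Pi.zero_apply]
    rw [this]
    exact Submodule.zero_mem _
  | add P Q _ _ hP hQ =>
    refine ⟨hP.1.add hQ.1, ?_⟩
    have : av H (P + Q) = av H P + av H Q := by
      funext s
      rw [Pi.add_apply]
      unfold av
      rw [← integral_add (av_int h1 H hP.1 s) (av_int h1 H hQ.1 s)]
      refine integral_congr_ae (Eventually.of_forall fun k => ?_)
      simp only [Pi.add_apply, h1.gT_add]
    rw [this]
    exact Submodule.add_mem _ hP.2 hQ.2
  | smul a P _ hP =>
    refine ⟨hP.1.const_smul a, ?_⟩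
    have : av H (a • P) = a • av H P := by
      funext s
      rw [Pi.smul_apply]
      unfold av
      rw [← integral_smul]
      refine integral_congr_ae (Eventually.of_forall fun k => ?_)
      simp only [Pi.smul_apply, h1.gT_smul]
    rw [this]
    exact Submodule.smul_mem _ _ hP.2

end AvbRow

end

/-- Row AVB. -/
theorem avgb (hF : FfbStatement) (h1 : Alg1) (h2 : Alg2) : AvgbStatement := by
  intro I Λ β ι _ _ _ _ _ lb len D b hb H c P hP
  exact (AvbRow.av_mem hF h1 h2 hb H P (AvgRow.poly_mem D P hP)).2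

end Pool.Agent.Lib.MP_361a6f_ag.FL
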