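import Pool.Agent.Lib.MP_361a6f_ag.FL.Bas

/-!
# Adapted bases for a given antilinear operator

`V` is a finite dimensional complex vector space with a symmetric (alternating) form `B` and an
antilinear operator `J` with `B (J x) (J y) = conj (B x y)` and `B x (J x) > 0` for `x ≠ 0`. Then
`J ^ 2 = 1` (`J ^ 2 = -1`) and there is a basis adapted to `B` with `J (v i) = s i • v (τ i)`.
-/

set_option linter.unusedSectionVars false

namespace Pool.Agent.Lib.MP_361a6f_ag.FL

noncomputable section

universe w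

namespace BasJ

variable {V : Type w} [AddCommGroup V] [Module ℂ V] {o : Prop} {B : V →ₗ[ℂ] V →ₗ[ℂ] ℂ}
  {J : V →ₛₗ[starRingEnd ℂ] V}

/-- the conditions on `B` and `J` -/
structure HJ (o : Prop) (B : V →ₗ[ℂ] V →ₗ[ℂ] ℂ) (J : V →ₛₗ[starRingEnd ℂ] V) : Prop where
  alt : ∀ x y, o → B x y = -B y x
  symm : ∀ x y, ¬ o → B x y = B y x
  conj : ∀ x y, B (J x) (J y) = (starRingEnd ℂ) (B x y)
  pos : ∀ x, x ≠ 0 → ∃ r : ℝ, 0 < r ∧ B x (J x) = (r : ℂ)

theorem HJ.nondeg (h : HJ o B J) (x : V) (hx : ∀ y, B x y = 0) : x = 0 := by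
  by_contra h0
  obtain ⟨r, hr, h1⟩ := h.pos x h0
  rw [hx] at h1
  have h2 : r = 0 := by exact_mod_cast h1.symm
  exact hr.ne' h2

theorem HJ.real (h : HJ o B J) (x : V) : (starRingEnd ℂ) (B x (J x)) = B x (J x) := by
  by_cases h0 : x = 0
  · rw [h0, map_zero, LinearMap.zero_apply, map_zero]
  · obtain ⟨r, -, h1⟩ := h.pos x h0
    rw [h1, Complex.conj_ofReal]

/-- expansion -/
theorem expd (x y : V) : B (x + y) (J (x + y)) = B x (J x) + B x (J y) + B y (J x) + B y (J y) := by
  have h1 : J (x + y) = J x + J y := J.map_add x y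
  have h2 : B (x + y) = B x + B y := B.map_add x y
  rw [h1, h2, LinearMap.add_apply, (B x).map_add, (B y).map_add]
  ring

/-- the form `B (x, J y)` is hermitian -/
theorem HJ.herm (h : HJ o B J) (x y : V) : B y (J x) = (starRingEnd ℂ) (B x (J y)) := by
  have h1 := h.real (x + y)
  have h2 := h.real (x + Complex.I • y)
  have hx := h.real x
  have hy := h.real y
  have hI : J (Complex.I • y) = -(Complex.I • J y) := by
    rw [J.map_smulₛₗ, Complex.conj_I, neg_smul]
  have hB : ∀ w, B (Complex.I • y) w = Complex.I * B y w := by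
    intro w
    have h3 : B (Complex.I • y) = Complex.I • B y := B.map_smul Complex.I y
    rw [h3, LinearMap.smul_apply, smul_eq_mul]
  have hC : ∀ u w, B u (-(Complex.I • w)) = -(Complex.I * B u w) := by
    intro u w
    rw [(B u).map_neg, (B u).map_smul, smul_eq_mul]
  rw [expd] at h1 h2
  rw [hI, hB, hB, hC, hC] at h2
  simp only [map_add, map_mul, map_neg, Complex.conj_I] at h1 h2
  set a := B x (J y)
  set b := B y (J x)
  have e1 : (starRingEnd ℂ) a + (starRingEnd ℂ) b = a + b := by
    linear_combination h1 - hx - hy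
  have e2 : Complex.I * (starRingEnd ℂ) a - Complex.I * (starRingEnd ℂ) b
      = -(Complex.I * a) + Complex.I * b := by
    linear_combination h2 - hx - (Complex.I * -Complex.I) * hy
  have e3 : Complex.I * ((starRingEnd ℂ) a - (starRingEnd ℂ) b) = Complex.I * (b - a) := by
    linear_combination e2
  have e4 := mul_left_cancel₀ Complex.I_ne_zero e3
  linear_combination (-1 / 2 : ℂ) * e1 + (-1 / 2 : ℂ) * e4

theorem HJ.sq_even (h : HJ o B J) (ho : ¬ o) (y : V) : J (J y) = y := by
  have h1 : ∀ x, B (J (J y) - y) (J x) = 0 := by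
    intro x
    have h2 : B y (J x) = B (J x) (J (J y)) := by rw [h.herm x y, ← h.conj]
    rw [map_sub, LinearMap.sub_apply, h.symm (J (J y)) (J x) ho, ← h2, sub_self]
  by_contra h0
  obtain ⟨r, hr, h2⟩ := h.pos (J (J y) - y) (sub_ne_zero.2 h0)
  rw [h1] at h2
  have h3 : r = 0 := by exact_mod_cast h2.symm
  exact hr.ne' h3

theorem HJ.sq_odd (h : HJ o B J) (ho : o) (y : V) : J (J y) = -y := by
  have h1 : ∀ x, B (J (J y) + y) (J x) = 0 := by
    intro x
    have h2 : B y (J x) = B (J x) (J (J y)) := by rw [h.herm x y, ← h.conj]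
    rw [map_add, LinearMap.add_apply, h.alt (J (J y)) (J x) ho, ← h2, neg_add_cancel]
  by_contra h0
  have h4 : J (J y) + y ≠ 0 := fun h5 => h0 (eq_neg_of_add_eq_zero_left h5)
  obtain ⟨r, hr, h2⟩ := h.pos (J (J y) + y) h4
  rw [h1] at h2
  have h3 : r = 0 := by exact_mod_cast h2.symm
  exact hr.ne' h3

/-- families adapted to the form and to the operator -/
structure AdpJ (o : Prop) (B : V →ₗ[ℂ] V →ₗ[ℂ] ℂ) (J : V →ₛₗ[starRingEnd ℂ] V) {ι : Type}
    [DecidableEq ι] (v : ι → V) (τ : ι → ι) (s : ι → ℂ) : Prop extends Adp o B v τ s where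
  jv : ∀ i, J (v i) = s i • v (τ i)

variable {ι : Type} [DecidableEq ι] {v : ι → V} {τ : ι → ι} {s : ι → ℂ}

lemma AdpJ.sum {κ : Type} [DecidableEq κ] {v' : κ → V} {τ' : κ → κ} {s' : κ → ℂ}
    (h : AdpJ o B J v τ s) (h' : AdpJ o B J v' τ' s') (h12 : ∀ i j, B (v i) (v' j) = 0)
    (h21 : ∀ i j, B (v' j) (v i) = 0) :
    AdpJ o B J (Sum.elim v v') (Sum.map τ τ') (Sum.elim s s') where
  toAdp := h.toAdp.sum h'.toAdp h12 h21
  jv i := by
    rcases i with i | i
    · exact h.jv i
    · exact h'.jv i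

/-- the complement of an adapted family is stable under the operator -/
theorem AdpJ.orthJ (h : AdpJ o B J v τ s) (hH : HJ o B J) {x : V} (hx : ∀ j, B x (v j) = 0)
    (j : ι) : B (J x) (v j) = 0 := by
  have h1 : v j = s (τ j) • J (v (τ j)) := by
    rw [h.jv, h.τ_τ, smul_smul, h.s_sq, one_smul]
  rw [h1, map_smul, hH.conj, hx, map_zero, smul_zero]

/-- a real square root of the inverse -/
theorem rt {r : ℝ} (hr : 0 < r) : ∃ c : ℝ, c * c * r = 1 := by
  refine ⟨(Real.sqrt r)⁻¹, ?_⟩
  have h1 := Real.mul_self_sqrt hr.le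
  have h2 : Real.sqrt r ≠ 0 := (Real.sqrt_pos.2 hr).ne'
  calc (Real.sqrt r)⁻¹ * (Real.sqrt r)⁻¹ * r
      = (Real.sqrt r)⁻¹ * (Real.sqrt r)⁻¹ * (Real.sqrt r * Real.sqrt r) := by rw [h1]
    _ = 1 := by field_simp

theorem AdpJ.extend [Fintype ι] (h : AdpJ o B J v τ s) (hH : HJ o B J) (z : V)
    (hz : prj B v τ s z ≠ 0) :
    ∃ (κ : Type) (_ : DecidableEq κ) (_ : Fintype κ) (v' : κ → V) (τ' : κ → κ) (s' : κ → ℂ),
      AdpJ o B J v' τ' s' ∧ Fintype.card ι < Fintype.card κ := by
  have hsw : ∀ x y, B x y = 0 → B y x = 0 := by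
    intro x y hxy
    by_cases ho : o
    · rw [hH.alt y x ho, hxy, neg_zero]
    · rw [hH.symm y x ho, hxy]
  set x := prj B v τ s z with hx
  have hxo : ∀ j, B x (v j) = 0 := h.prj_orth z
  have hJo : ∀ j, B (J x) (v j) = 0 := h.orthJ hH hxo
  by_cases ho : o
  · -- alternating
    have ha : ∀ u, B u u = 0 := by
      intro u
      have := hH.alt u u ho
      linear_combination (1 / 2 : ℂ) * this
    obtain ⟨r, hr, hr2⟩ := hH.pos x hz
    obtain ⟨c, hc⟩ := rt hr
    have hc' : (c : ℂ) * c * r = 1 := by exact_mod_cast hc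
    let x' : V := (c : ℂ) • x
    have hJx' : J x' = (c : ℂ) • J x := by
      show J ((c : ℂ) • x) = _
      rw [LinearMap.map_smulₛₗ, Complex.conj_ofReal]
    have e1 : B x' (J x') = 1 := by
      rw [hJx']
      show B ((c : ℂ) • x) ((c : ℂ) • J x) = 1
      rw [map_smul, map_smul, LinearMap.smul_apply, hr2, smul_eq_mul, smul_eq_mul]
      linear_combination hc'
    have e2 : B (J x') x' = -1 := by rw [hH.alt _ _ ho, e1]
    have hxo' : ∀ j, B x' (v j) = 0 := by
      intro j
      show B ((c : ℂ) • x) (v j) = 0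
      rw [map_smul, LinearMap.smul_apply, hxo, smul_zero]
    have hJo' : ∀ j, B (J x') (v j) = 0 := by
      intro j
      rw [hJx', map_smul, LinearMap.smul_apply, hJo, smul_zero]
    let v' : Bool → V := fun b => if b then J x' else x'
    have hv' : ∀ b j, B (v' b) (v j) = 0 := by
      intro b j
      cases b
      · exact hxo' j
      · exact hJo' j
    have hA : AdpJ o B J v' (fun b => !b) (fun b => if b then -1 else 1) :=
      { τ_τ := fun b => by simp
        s_val := fun b => by cases b <;> simp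
        even_τ := fun h1 => absurd ho h1
        odd_τ := fun _ b => by cases b <;> simp
        gram := fun b b' => by
          cases b <;> cases b'
          · simpa [v'] using ha x'
          · simpa [v'] using e1
          · simpa [v'] using e2
          · simpa [v'] using ha (J x')
        jv := fun b => by
          cases b
          · simp [v']
          · simp [v', hH.sq_odd ho] }
    refine ⟨ι ⊕ Bool, inferInstance, inferInstance, _, _, _,
      h.sum hA (fun i j => hsw _ _ (hv' j i)) (fun i j => hv' j i), ?_⟩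
    rw [Fintype.card_sum, Fintype.card_bool]
    omega
  · -- symmetric
    obtain ⟨u, hu, hJu, huo⟩ : ∃ u, u ≠ 0 ∧ J u = u ∧ ∀ j, B u (v j) = 0 := by
      by_cases h1 : x + J x = 0
      · refine ⟨Complex.I • x, smul_ne_zero Complex.I_ne_zero hz, ?_, ?_⟩
        · have h2 : J x = -x := eq_neg_of_add_eq_zero_right h1
          rw [LinearMap.map_smulₛₗ, h2, Complex.conj_I]
          simp
        · intro j
          rw [map_smul, LinearMap.smul_apply, hxo, smul_zero]
      · refine ⟨x + J x, h1, ?_, ?_⟩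
        · rw [map_add, hH.sq_even ho, add_comm]
        · intro j
          rw [map_add, LinearMap.add_apply, hxo, hJo, add_zero]
    obtain ⟨r, hr, hr2⟩ := hH.pos u hu
    rw [hJu] at hr2
    obtain ⟨c, hc⟩ := rt hr
    have hc' : (c : ℂ) * c * r = 1 := by exact_mod_cast hc
    let v' : Unit → V := fun _ => (c : ℂ) • u
    have hv' : ∀ b j, B (v' b) (v j) = 0 := by
      intro b j
      show B ((c : ℂ) • u) (v j) = 0
      rw [map_smul, LinearMap.smul_apply, huo, smul_zero]
    have hA : AdpJ o B J v' (fun b => b) (fun _ => 1) :=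
      { τ_τ := fun b => rfl
        s_val := fun b => Or.inl rfl
        even_τ := fun _ _ => ⟨rfl, rfl⟩
        odd_τ := fun h1 => absurd h1 ho
        gram := fun b b' => by
          rw [if_pos rfl]
          show B ((c : ℂ) • u) ((c : ℂ) • u) = 1
          rw [map_smul, map_smul, LinearMap.smul_apply, smul_eq_mul, smul_eq_mul, hr2]
          linear_combination hc'
        jv := fun b => by
          show J ((c : ℂ) • u) = (1 : ℂ) • ((c : ℂ) • u)
          rw [LinearMap.map_smulₛₗ, Complex.conj_ofReal, hJu, one_smul] }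
    refine ⟨ι ⊕ Unit, inferInstance, inferInstance, _, _, _,
      h.sum hA (fun i j => hsw _ _ (hv' j i)) (fun i j => hv' j i), ?_⟩
    rw [Fintype.card_sum, Fintype.card_unit]
    omega

/-- existence of an adapted basis -/
theorem exists_adaptedJ (hH : HJ o B J) [FiniteDimensional ℂ V] :
    ∃ (n : ℕ) (b : Module.Basis (Fin n) ℂ V) (τ : Fin n → Fin n) (s : Fin n → ℂ),
      AdpJ o B J b τ s := by
  have key : ∀ (d : ℕ) (ι : Type) [DecidableEq ι] [Fintype ι] (v : ι → V) (τ : ι → ι)
      (s : ι → ℂ), AdpJ o B J v τ s → Module.finrank ℂ V - Fintype.card ι = d →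
      ∃ (κ : Type) (_ : DecidableEq κ) (_ : Fintype κ) (v' : κ → V) (τ' : κ → κ) (s' : κ → ℂ),
      AdpJ o B J v' τ' s' ∧ ∀ z, prj B v' τ' s' z = 0 := by
    intro d
    induction d using Nat.strong_induction_on with
    | _ d ih =>
      intro ι _ _ v τ s h hd
      by_cases h1 : ∀ z, prj B v τ s z = 0
      · exact ⟨ι, inferInstance, inferInstance, v, τ, s, h, h1⟩
      · obtain ⟨z, hz⟩ := not_forall.1 h1
        obtain ⟨κ, iκ, fκ, v', τ', s', h', hc⟩ := h.extend hH z hz
        have h2 : Fintype.card κ ≤ Module.finrank ℂ V :=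
          h'.linearIndependent.fintype_card_le_finrank
        exact ih (Module.finrank ℂ V - Fintype.card κ) (by omega) κ v' τ' s' h' rfl
  have h0 : AdpJ o B J (fun i : Empty => (i.elim : V)) (fun i => i) (fun i => i.elim) :=
    { τ_τ := fun i => i.elim
      s_val := fun i => i.elim
      even_τ := fun _ i => i.elim
      odd_τ := fun _ i => i.elim
      gram := fun i => i.elim
      jv := fun i => i.elim }
  obtain ⟨κ, iκ, fκ, v, τ, s, h, hp⟩ := key _ Empty _ _ _ h0 rfl
  have hsp : ⊤ ≤ Submodule.span ℂ (Set.range v) := by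
    intro z _
    have h1 := hp z
    unfold prj at h1
    rw [sub_eq_zero] at h1
    rw [h1]
    exact Submodule.sum_mem _ fun i _ => Submodule.smul_mem _ _ (Submodule.subset_span ⟨i, rfl⟩)
  let b := Module.Basis.mk h.linearIndependent hsp
  let e : κ ≃ Fin (Fintype.card κ) := Fintype.equivFin κ
  have hb : ∀ i, (b.reindex e) i = v (e.symm i) := by
    intro i
    rw [Module.Basis.reindex_apply, Module.Basis.mk_apply]
  refine ⟨Fintype.card κ, b.reindex e, fun i => e (τ (e.symm i)), fun i => s (e.symm i), ?_⟩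
  exact
    { τ_τ := fun i => by simp [h.τ_τ]
      s_val := fun i => h.s_val _
      even_τ := fun ho i => by
        have := h.even_τ ho (e.symm i)
        exact ⟨by rw [this.1]; simp, this.2⟩
      odd_τ := fun ho i => by
        have := h.odd_τ ho (e.symm i)
        refine ⟨fun h1 => this.1 ?_, ?_⟩
        · apply e.injective
          rw [h1]; simp
        · simpa using this.2
      gram := fun i j => by
        rw [hb, hb, h.gram]
        refine if_congr ?_ rfl rfl
        rw [Equiv.symm_apply_eq]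
      jv := fun i => by
        rw [hb, hb, h.jv, e.symm_apply_apply] }

end BasJ

end

open BasJ in
/-- A finite family of spaces with forms and antilinear operators has coordinates `Dat` on the
disjoint union of the index sets of bases that are adapted to the forms and to the operators. -/
theorem exists_datJ.{w} {Λ : Type} (V : Λ → Type w) [∀ α, AddCommGroup (V α)]
    [∀ α, Module ℂ (V α)] [∀ α, FiniteDimensional ℂ (V α)] (o : Λ → Prop)
    (B : ∀ α, V α →ₗ[ℂ] V α →ₗ[ℂ] ℂ) (J : ∀ α, V α →ₛₗ[starRingEnd ℂ] V α)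
    (hH : ∀ α, HJ (o α) (B α) (J α)) :
    ∃ (n : Λ → ℕ) (b : ∀ α, Module.Basis (Fin (n α)) ℂ (V α)) (t : ∀ α, Fin (n α) → Fin (n α))
      (D : Dat (Σ α, Fin (n α)) Λ), (∀ i, D.typ i = i.1) ∧ D.odd = o ∧
      (∀ i, D.τ i = ⟨i.1, t i.1 i.2⟩) ∧
      (∀ α i j, B α (b α i) (b α j) = if j = t α i then D.s ⟨α, i⟩ else 0) ∧
      ∀ α i, J α (b α i) = D.s ⟨α, i⟩ • b α (t α i) := by
  choose n b t s h using fun α => exists_adaptedJ (hH α)
  refine ⟨n, b, t, ⟨fun i => i.1, o, fun i => ⟨i.1, t i.1 i.2⟩, fun i => s i.1 i.2, ?_, ?_, ?_, ?_,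
    ?_⟩, fun _ => rfl, rfl, fun _ => rfl, fun α i j => (h α).gram i j, fun α i => (h α).jv i⟩
  · rintro ⟨α, i⟩
    show (⟨α, t α (t α i)⟩ : Σ α, Fin (n α)) = ⟨α, i⟩
    rw [(h α).τ_τ]
  · intro i; rfl
  · intro i; exact (h i.1).s_val i.2
  · rintro ⟨α, i⟩ ho
    have := (h α).even_τ ho i
    refine ⟨?_, this.2⟩
    show (⟨α, t α i⟩ : Σ α, Fin (n α)) = ⟨α, i⟩
    rw [this.1]
  · rintro ⟨α, i⟩ ho
    have := (h α).odd_τ ho i
    refine ⟨?_, this.2⟩
    show (⟨α, t α i⟩ : Σ α, Fin (n α)) ≠ ⟨α, i⟩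
    intro h1
    apply this.1
    simpa using h1

end Pool.Agent.Lib.MP_361a6f_ag.FL
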