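import Pool.Agent.Lib.MP_361a6f_ag.FL.B.Defs
import Pool.Agent.Lib.MP_361a6f_ag.FL.A.CloPi

/-!
# Row CLB: the orbit under the stabiliser of a base tuple is closed
-/

open Filter Topology MeasureTheory

set_option autoImplicit false
set_option linter.unusedSectionVars false

namespace Pool.Agent.Lib.MP_361a6f_ag.FL

namespace ClbT

open L12 CloT CloPi Pool.Agent.Lib.MP_361a6f_ag.RR

variable {I Λ β ι : Type} [Fintype I] [DecidableEq I] [DecidableEq Λ] [Fintype β] [Fintype ι]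
  {lb : β → ℕ} {len : ι → ℕ} {b : Tup I lb}

/-! ### The stabiliser of `b` and its Lie algebra -/

section stab

variable {D : Dat I Λ} (a1 : Alg1)

include a1

theorem Gb_mul {g h : Matrix I I ℂ} (hg : IsGb D b g) (hh : IsGb D b h) : IsGb D b (g * h) :=
  ⟨a1.G_mul D _ _ hg.1 hh.1, by rw [L12.gS_mul a1, hh.2, hg.2]⟩

theorem Gb_inv {g : Matrix I I ℂ} (hg : IsGb D b g) :
    IsGb D b g⁻¹ ∧ g * g⁻¹ = 1 ∧ g⁻¹ * g = 1 := by
  obtain ⟨h1, h2, h3⟩ := a1.G_inv D g hg.1
  refine ⟨⟨h1, ?_⟩, h2, h3⟩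
  conv_lhs => rw [← hg.2]
  rw [← L12.gS_mul a1, h3, L12.gS_one a1]

theorem Gb_exp {A : Matrix I I ℂ} (hA : IsLieb D b A) : IsGb D b (NormedSpace.exp A) := by
  refine ⟨a1.G_exp D A hA.1, ?_⟩
  funext i
  have h0 : aT A (b i) = 0 := congrFun hA.2 i
  have hz : ∀ n : ℕ, (aT A)^[n] (0 : Ten I (lb i)) = 0 := by
    intro n
    induction n with
    | zero => rfl
    | succ n ih =>
      rw [Function.iterate_succ_apply]
      have h1 : aT A (0 : Ten I (lb i)) = 0 := by
        have := a1.aT_smul A 0 (0 : Ten I (lb i))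
        rwa [zero_smul, zero_smul] at this
      rw [h1, ih]
  have h1 := a1.gT_exp A (b i)
  have h2 : HasSum (fun n : ℕ => ((n.factorial : ℂ)⁻¹) • (aT A)^[n] (b i)) (b i) := by
    have h3 := hasSum_single (f := fun n : ℕ => ((n.factorial : ℂ)⁻¹) • (aT A)^[n] (b i)) 0
      (fun n hn => by
        obtain ⟨k, rfl⟩ := Nat.exists_eq_succ_of_ne_zero hn
        show ((k.succ.factorial : ℂ)⁻¹) • (aT A)^[k.succ] (b i) = 0
        rw [Function.iterate_succ_apply, h0, hz, smul_zero])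
    simpa using h3
  exact h1.unique h2

theorem Lieb_zero (D : Dat I Λ) (b : Tup I lb) : IsLieb D b 0 := by
  refine ⟨Lie_zero D, ?_⟩
  funext i
  show aT 0 (b i) = 0
  have := a1.smul_aT 0 (0 : Matrix I I ℂ) (b i)
  rwa [zero_smul ℂ (0 : Matrix I I ℂ), zero_smul ℂ (aT (0 : Matrix I I ℂ) (b i))] at this

theorem Lieb_add {A B : Matrix I I ℂ} (hA : IsLieb D b A) (hB : IsLieb D b B) :
    IsLieb D b (A + B) := by
  refine ⟨a1.Lie_add D A B hA.1 hB.1, ?_⟩
  funext i
  show aT (A + B) (b i) = 0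
  have h1 : aT A (b i) = 0 := congrFun hA.2 i
  have h2 : aT B (b i) = 0 := congrFun hB.2 i
  rw [a1.add_aT, h1, h2, add_zero]

theorem Lieb_smul (c : ℂ) {A : Matrix I I ℂ} (hA : IsLieb D b A) : IsLieb D b (c • A) := by
  refine ⟨a1.Lie_smul D c A hA.1, ?_⟩
  funext i
  show aT (c • A) (b i) = 0
  have h1 : aT A (b i) = 0 := congrFun hA.2 i
  rw [a1.smul_aT, h1, smul_zero]

theorem Lieb_conj {g A : Matrix I I ℂ} (hg : IsGb D b g) (hA : IsLieb D b A) :
    IsLieb D b (g * A * g⁻¹) := by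
  refine ⟨Lie_conj a1 _ _ hg.1 hA.1, ?_⟩
  obtain ⟨-, h1, -⟩ := a1.G_inv D g hg.1
  funext i
  show aT (g * A * g⁻¹) (b i) = 0
  have h2 : gT g (b i) = b i := congrFun hg.2 i
  have h3 : aT A (b i) = 0 := congrFun hA.2 i
  conv_lhs => rw [← h2]
  rw [← a1.gT_aT g A (b i) h1, h3]
  have := a1.gT_smul g 0 (0 : Ten I (lb i))
  rwa [zero_smul, zero_smul] at this

end stab

/-! ### The maps in `DMb` -/

section alg

variable {D : Dat I Λ} (a1 : Alg1) (a2 : Alg2)

theorem gS_cmb (g : Matrix I I ℂ) (b : Tup I lb) (s : Tup I len) :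
    gS g (cmb b s) = cmb (gS g b) (gS g s) := by
  funext i
  rcases i with i | i <;> rfl

include a1 a2 in
theorem DMb_gS {c : ℕ} {f : Tup I len → Ten I c} (hf : f ∈ DMb len D b c)
    (g : Matrix I I ℂ) (s : Tup I len) (hg : IsGb D b g) : f (gS g s) = gT g (f s) := by
  unfold DMb at hf
  induction hf using Submodule.span_induction with
  | mem x hx =>
    obtain ⟨l, m, hm, rfl⟩ := hx
    show dm D c l m (cmb b (gS g s)) = gT g (dm D c l m (cmb b s))
    rw [← a2.dm_gS D c l m g (cmb b s) hm hg.1, gS_cmb, hg.2]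
  | zero =>
    have h := a1.gT_smul g 0 (0 : Ten I c)
    rw [zero_smul, zero_smul] at h
    exact h.symm
  | add x y _ _ hx hy =>
    rw [Pi.add_apply, Pi.add_apply, hx, hy, a1.gT_add]
  | smul a x _ hx =>
    rw [Pi.smul_apply, Pi.smul_apply, hx, a1.gT_smul]

theorem cmb_diff (b : Tup I lb) : Differentiable ℂ fun s : Tup I len => cmb b s := by
  rw [differentiable_pi]
  rintro (i | i)
  · exact differentiable_const (b i)
  · exact differentiable_apply i

include a2 in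
theorem DMb_diff {c : ℕ} {f : Tup I len → Ten I c} (hf : f ∈ DMb len D b c) :
    Differentiable ℂ f := by
  unfold DMb at hf
  induction hf using Submodule.span_induction with
  | mem x hx =>
    obtain ⟨l, m, hm, rfl⟩ := hx
    exact (PolyMap.differentiable (a2.dm_poly D c l m)).comp (cmb_diff b)
  | zero => exact differentiable_const _
  | add x y _ _ hx hy => exact hx.add hy
  | smul a x _ hx => exact hx.const_smul a

theorem exists_DMb {c : ℕ} {t : Tup I len} {v : Ten I c} (hv : v ∈ MT D (cmb b t) c) :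
    ∃ f ∈ DMb len D b c, f t = v := by
  unfold MT at hv
  induction hv using Submodule.span_induction with
  | mem x hx =>
    obtain ⟨l, m, hm, rfl⟩ := hx
    exact ⟨fun s => dm D c l m (cmb b s), Submodule.subset_span ⟨l, m, hm, rfl⟩, rfl⟩
  | zero => exact ⟨0, Submodule.zero_mem _, rfl⟩
  | add x y _ _ hx hy =>
    obtain ⟨f, hf, rfl⟩ := hx
    obtain ⟨f', hf', rfl⟩ := hy
    exact ⟨f + f', Submodule.add_mem _ hf hf', rfl⟩
  | smul a x _ hx =>
    obtain ⟨f, hf, rfl⟩ := hx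
    exact ⟨a • f, Submodule.smul_mem _ a hf, rfl⟩

theorem DMb_val {c : ℕ} {f : Tup I len → Ten I c} (hf : f ∈ DMb len D b c) (s : Tup I len) :
    f s ∈ MT D (cmb b s) c := by
  unfold DMb at hf
  induction hf using Submodule.span_induction with
  | mem x hx =>
    obtain ⟨l, m, hm, rfl⟩ := hx
    exact Submodule.subset_span ⟨l, m, hm, rfl⟩
  | zero => exact Submodule.zero_mem _
  | add x y _ _ hx hy => exact Submodule.add_mem _ hx hy
  | smul a x _ hx => exact Submodule.smul_mem _ a hx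

end alg

/-- Row AVB for one group -/
def AvgH {D : Dat I Λ} (H : HMb D b) (len : ι → ℕ) : Prop :=
  ∀ (c : ℕ) (P : Tup I len → Ten I c), PolyMap P →
    (fun s => ∫ k, gT (H.mat k) (P (gS (H.mat k⁻¹) s)) ∂H.μ) ∈ DMb len D b c

theorem dl_eq {D : Dat I Λ} (H : HMb D b) (s : Tup I len) (k : H.K) :
    dlb H s k = ‖emb (gS (H.mat k) s) - emb s‖ := by
  rw [dlb, hS_self, Complex.ofReal_re, emb_sub, Real.sqrt_sq (norm_nonneg _)]

section grp

variable {D : Dat I Λ} (H : HMb D b) (a1 : Alg1)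

include a1

theorem inv_gS (k : H.K) (s : Tup I len) : gS (H.mat k⁻¹) (gS (H.mat k) s) = s := by
  rw [← gS_mul a1, ← map_mul, inv_mul_cancel, map_one, gS_one a1]

theorem gS_inv (k : H.K) (s : Tup I len) : gS (H.mat k) (gS (H.mat k⁻¹) s) = s := by
  rw [← gS_mul a1, ← map_mul, mul_inv_cancel, map_one, gS_one a1]

theorem hS_gS (k : H.K) (s s' : Tup I len) :
    hS (gS (H.mat k) s) (gS (H.mat k) s') = hS s s' := by
  unfold hS gS
  refine Finset.sum_congr rfl fun i _ => ?_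
  rw [a1.hT_gT, ← a1.gT_mul, (H.mem k).1.2, a1.gT_one]

theorem norm_gS (k : H.K) (s : Tup I len) : ‖emb (gS (H.mat k) s)‖ = ‖emb s‖ := by
  have h := hS_gS H a1 k s s
  rw [hS_self, hS_self] at h
  have h2 : ‖emb (gS (H.mat k) s)‖ ^ 2 = ‖emb s‖ ^ 2 := by exact_mod_cast h
  exact (pow_left_inj₀ (norm_nonneg _) (norm_nonneg _) two_ne_zero).mp h2

theorem dl_inv (s : Tup I len) (k : H.K) : dlb H s k⁻¹ = dlb H s k := by
  rw [dl_eq, dl_eq, ← emb_sub, ← emb_sub, ← norm_gS H a1 k, gS_sub a1, gS_inv H a1, emb_sub,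
    emb_sub, norm_sub_rev]

theorem cont_gT {c : ℕ} (v : Ten I c) : Continuous fun k : H.K => gT (H.mat k) v :=
  a1.gT_cont.comp (H.cont_mat.prodMk continuous_const)

theorem cont_gS (s : Tup I len) : Continuous fun k : H.K => gS (H.mat k) s :=
  continuous_pi fun i => cont_gT H a1 (s i)

/-- The function `ψ k = h(k⁻¹ s', s) / h(s, s)`. -/
noncomputable def ph (s' s : Tup I len) (k : H.K) : ℂ :=
  hS (gS (H.mat k⁻¹) s') s / ((‖emb s‖ ^ 2 : ℝ) : ℂ)

theorem ph_cont (s' s : Tup I len) : Continuous (ph H s' s) := by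
  unfold ph
  exact ((cont_hS s).comp ((cont_gS H a1 s').comp continuous_inv)).div_const _

theorem ph_le {s' s : Tup I len} (hs : ‖emb s‖ ≠ 0) (h : ‖emb s'‖ = ‖emb s‖) (k : H.K) :
    ‖ph H s' s k‖ ≤ 1 := by
  have hs0 : 0 < ‖emb s‖ ^ 2 := by positivity
  unfold ph
  rw [norm_div, Complex.norm_real, Real.norm_eq_abs, abs_of_pos hs0, div_le_one hs0, hS_eq]
  refine (norm_inner_le_norm _ _).trans ?_
  rw [norm_gS H a1, h, sq]

theorem one_sub_ph {s' s : Tup I len} (hs : ‖emb s‖ ≠ 0) (h : ‖emb s'‖ = ‖emb s‖) (k : H.K) :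
    1 - (ph H s' s k).re = ‖emb (gS (H.mat k⁻¹) s') - emb s‖ ^ 2 / (2 * ‖emb s‖ ^ 2) := by
  have hs0 : 0 < ‖emb s‖ ^ 2 := by positivity
  have h1 : ‖emb (gS (H.mat k⁻¹) s') - emb s‖ ^ 2 =
      ‖emb (gS (H.mat k⁻¹) s')‖ ^ 2 - 2 * (hS (gS (H.mat k⁻¹) s') s).re + ‖emb s‖ ^ 2 := by
    have h2 := @norm_sub_sq ℂ _ _ _ _ (emb (gS (H.mat k⁻¹) s')) (emb s)
    have h3 : (hS (gS (H.mat k⁻¹) s') s).re =
        RCLike.re (inner ℂ (emb (gS (H.mat k⁻¹) s')) (emb s)) := by
      rw [hS_eq]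
      exact inner_re_symm (𝕜 := ℂ) _ _
    rw [h2, h3]
  rw [norm_gS H a1, h] at h1
  unfold ph
  rw [Complex.div_ofReal_re, h1]
  field_simp
  ring

theorem ph_eq_one {s' s : Tup I len} (hs : ‖emb s‖ ≠ 0) (h : ‖emb s'‖ = ‖emb s‖) {k : H.K}
    (hk : ph H s' s k = 1) : gS (H.mat k) s = s' := by
  have h1 := one_sub_ph H a1 hs h k
  rw [hk, Complex.one_re, sub_self] at h1
  have hs0 : 0 < 2 * ‖emb s‖ ^ 2 := by positivity
  have h2 : ‖emb (gS (H.mat k⁻¹) s') - emb s‖ ^ 2 = 0 := by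
    rcases div_eq_zero_iff.mp h1.symm with h3 | h3
    · exact h3
    · exact absurd h3 hs0.ne'
  have h3 : gS (H.mat k⁻¹) s' = s := by
    apply emb_inj
    rw [← sub_eq_zero, ← norm_eq_zero]
    exact pow_eq_zero_iff two_ne_zero |>.mp h2
  rw [← h3, gS_inv H a1]

/-- The peak condition. -/
theorem peak (hvol : VolbStatement) (hpha : PhabStatement) {s : Tup I len} (hmin : Minimalb D b s)
    (hs : ‖emb s‖ ≠ 0) : ∃ p : ℕ, Peak H.μ (ph H s s) p := by
  have hs0 : 0 < ‖emb s‖ ^ 2 := by positivity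
  have hre : ∀ k, 1 - (ph H s s k).re = dlb H s k ^ 2 / (2 * ‖emb s‖ ^ 2) := by
    intro k
    rw [one_sub_ph H a1 hs rfl, ← dl_eq, dl_inv H a1]
  have hdl : ∀ k, 0 ≤ dlb H s k := fun k => by
    rw [dl_eq]
    exact norm_nonneg _
  obtain ⟨c, m, hc, hv⟩ := hvol H s
  refine ⟨m, ph_cont H a1 s s, ph_le H a1 hs rfl, ?_, ?_⟩
  · intro e he
    obtain ⟨η, hη, h1⟩ := (hpha H s).1 hmin (e / 2) (by positivity)
    refine ⟨η ^ 2 / (2 * ‖emb s‖ ^ 2), by positivity, ?_⟩
    intro k hk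
    rw [hre, div_lt_div_iff_of_pos_right (by positivity)] at hk
    have h2 : dlb H s k < η := lt_of_pow_lt_pow_left₀ 2 hη.le hk
    have h3 := h1 k⁻¹ (by rw [dl_inv H a1]; exact h2)
    rw [dl_inv H a1] at h3
    rw [hre]
    unfold ph
    rw [Complex.div_ofReal_im, abs_div, abs_of_pos hs0, div_le_iff₀ hs0]
    calc |(hS (gS (H.mat k⁻¹) s) s).im| ≤ e / 2 * dlb H s k ^ 2 := h3
      _ = e * (dlb H s k ^ 2 / (2 * ‖emb s‖ ^ 2)) * ‖emb s‖ ^ 2 := by
          field_simp
  · set κ := min 1 (2 * ‖emb s‖ ^ 2) with hκ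
    have hκ0 : 0 < κ := by positivity
    have hκ1 : κ ≤ 1 := min_le_left _ _
    have hκ2 : κ ≤ 2 * ‖emb s‖ ^ 2 := min_le_right _ _
    refine ⟨c * κ ^ m, by positivity, ?_⟩
    intro r hr hr1
    have h1 := hv (κ * r) (by positivity) (mul_le_one₀ hκ1 hr.le hr1)
    rw [mul_pow, ← mul_assoc] at h1
    refine h1.trans ?_
    rw [← measureReal_def]
    refine measureReal_mono ?_ 
    intro k hk
    have hk' : dlb H s k < κ * r := hk
    show 1 - (ph H s s k).re < r
    rw [hre, div_lt_iff₀ (by positivity)]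
    have h2 := hdl k
    calc dlb H s k ^ 2 < (κ * r) ^ 2 := by gcongr
      _ = (κ * κ) * (r * r) := by ring
      _ ≤ (1 * (2 * ‖emb s‖ ^ 2)) * (1 * r) := by gcongr
      _ = r * (2 * ‖emb s‖ ^ 2) := by ring

end grp

/-! ### The tangent space of the orbit and the slice -/

section lin

variable (a1 : Alg1)

/-- the Lie algebra as operators -/
noncomputable def lie (D : Dat I Λ) (b : Tup I lb) : Submodule ℂ (Tup I len →L[ℂ] Tup I len) where
  carrier := {x | ∃ A, IsLieb D b A ∧ x = aC a1 A}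
  zero_mem' := ⟨0, Lieb_zero a1 D b, by
    have := aC_smul (len := len) a1 0 (0 : Matrix I I ℂ)
    rw [smul_zero, zero_smul ℂ (aC (len := len) a1 0)] at this
    exact this.symm⟩
  add_mem' := by
    rintro _ _ ⟨A, hA, rfl⟩ ⟨B, hB, rfl⟩
    exact ⟨A + B, Lieb_add a1 hA hB, (aC_add a1 A B).symm⟩
  smul_mem' := by
    rintro c _ ⟨A, hA, rfl⟩
    exact ⟨c • A, Lieb_smul a1 c hA, (aC_smul a1 c A).symm⟩

/-- the tangent space of the orbit -/
noncomputable def tan (D : Dat I Λ) (b : Tup I lb) (s : Tup I len) :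
    Submodule ℂ (EuclideanSpace ℂ (Σ i, (Fin (len i) → I))) :=
  ((lie a1 D b).map (ContinuousLinearMap.apply ℂ (Tup I len) s).toLinearMap).map
    (embE (I := I) (len := len)).toLinearMap

theorem mem_tan (D : Dat I Λ) (b : Tup I lb) (s : Tup I len) {v} (hv : v ∈ tan a1 D b s) :
    ∃ A, IsLieb D b A ∧ v = emb (aS A s) := by
  obtain ⟨_, ⟨_, ⟨A, hA, rfl⟩, rfl⟩, rfl⟩ := hv
  exact ⟨A, hA, rfl⟩

theorem tan_mem (D : Dat I Λ) (b : Tup I lb) (s : Tup I len) {A} (hA : IsLieb D b A) :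
    emb (aS A s) ∈ tan a1 D b s :=
  ⟨_, ⟨_, ⟨A, hA, rfl⟩, rfl⟩, rfl⟩

/-- the slice: the orthogonal complement of the tangent space -/
noncomputable def sli (D : Dat I Λ) (b : Tup I lb) (s : Tup I len) : Submodule ℂ (Tup I len) :=
  ((tan a1 D b s)ᗮ).comap (embE (I := I) (len := len)).toLinearMap

theorem mem_sli (D : Dat I Λ) (b : Tup I lb) (s : Tup I len) {ν : Tup I len} :
    ν ∈ sli a1 D b s ↔ ∀ A, IsLieb D b A → hS ν (aS A s) = 0 := by
  unfold sli
  rw [Submodule.mem_comap, Submodule.mem_orthogonal]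
  constructor
  · intro h A hA
    rw [hS_eq]
    exact h _ (tan_mem a1 D b s hA)
  · intro h v hv
    obtain ⟨A, hA, rfl⟩ := mem_tan a1 D b s hv
    have := h A hA
    rw [hS_eq] at this
    exact this

/-- the projection to the slice along the tangent space -/
noncomputable def pr (D : Dat I Λ) (b : Tup I lb) (s : Tup I len) : Tup I len →ₗ[ℂ] Tup I len :=
  ((embE (I := I) (len := len)).symm.toLinearMap.comp
    (((tan a1 D b s)ᗮ).starProjection : EuclideanSpace ℂ (Σ i, (Fin (len i) → I)) →ₗ[ℂ]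
      EuclideanSpace ℂ (Σ i, (Fin (len i) → I)))).comp (embE (I := I) (len := len)).toLinearMap

theorem emb_pr (D : Dat I Λ) (b : Tup I lb) (s x : Tup I len) :
    emb (pr a1 D b s x) = ((tan a1 D b s)ᗮ).starProjection (emb x) :=
  LinearEquiv.apply_symm_apply (embE (I := I) (len := len)) _

theorem pr_mem (D : Dat I Λ) (b : Tup I lb) (s x : Tup I len) : pr a1 D b s x ∈ sli a1 D b s := by
  unfold sli
  rw [Submodule.mem_comap]
  show emb (pr a1 D b s x) ∈ _
  rw [emb_pr]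
  exact Submodule.starProjection_apply_mem _ _

theorem exists_lie (D : Dat I Λ) (b : Tup I lb) (s x : Tup I len) :
    ∃ A, IsLieb D b A ∧ x = aS A s + pr a1 D b s x := by
  have h := Submodule.starProjection_add_starProjection_orthogonal (K := tan a1 D b s) (emb x)
  obtain ⟨A, hA, e⟩ := mem_tan a1 D b s (Submodule.starProjection_apply_mem (tan a1 D b s) (emb x))
  refine ⟨A, hA, emb_inj ?_⟩
  rw [emb_add, emb_pr, ← e]
  exact h.symm

theorem pr_eq_self (D : Dat I Λ) (b : Tup I lb) (s x : Tup I len) (hx : x ∈ sli a1 D b s) : pr a1 D b s x = x := by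
  apply emb_inj
  rw [emb_pr]
  exact Submodule.starProjection_eq_self_iff.2 hx

theorem hS_pr (D : Dat I Λ) (b : Tup I lb) (s x : Tup I len) :
    hS (pr a1 D b s x) x = hS (pr a1 D b s x) (pr a1 D b s x) := by
  obtain ⟨A, hA, e⟩ := exists_lie a1 D b s x
  have h := (mem_sli a1 D b s).1 (pr_mem a1 D b s x) A hA
  calc hS (pr a1 D b s x) x = hS (pr a1 D b s x) (aS A s + pr a1 D b s x) := by rw [← e]
    _ = _ := by rw [hS_add_right, h, zero_add]

end lin

/-! ### The averages and their derivatives -/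

section main

variable {D : Dat I Λ} (H : HMb D b) (a1 : Alg1)

include a1

theorem ph_line (s' ν s : Tup I len) (z : ℂ) (k : H.K) :
    ph H (s' + z • ν) s k = ph H s' s k + z * ph H ν s k := by
  unfold ph
  rw [gS_add a1, gS_smul a1, hS_add_left, hS_smul_left, add_div, mul_div_assoc]

/-- the averages -/
noncomputable def av (H : HMb D b) (s : Tup I len) {c : ℕ} (q₀ : Ten I c)
    (R : Tup I len →ₗ[ℂ] Ten I c) (d : ℕ) (s' : Tup I len) : Ten I c :=
  ∫ k, gT (H.mat k) ((ph H s' s k) ^ d • (q₀ + R (gS (H.mat k⁻¹) s'))) ∂H.μ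

omit a1 in
theorem av_mem (havg : AvgH H len) (s : Tup I len) {c : ℕ} (q₀ : Ten I c)
    (R : Tup I len →ₗ[ℂ] Ten I c) (d : ℕ) : av H s q₀ R d ∈ DMb len D b c := by
  refine havg c (fun x => (hS x s / ((‖emb s‖ ^ 2 : ℝ) : ℂ)) ^ d • (q₀ + R x))
    (polyMap_of fun w => ?_)
  have h1 : PolyFun (fun x : Tup I len => (hS x s * ((((‖emb s‖ ^ 2 : ℝ) : ℂ)))⁻¹) ^ d) :=
    ((PolyFun.hS s).mul (PolyFun.const _)).pow d
  have h2 : PolyFun (fun x : Tup I len =>
      ((LinearMap.proj (R := ℂ) (φ := fun _ : (Fin c → I) => ℂ) w).comp R) x) :=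
    PolyFun.linear _
  exact h1.mul ((PolyFun.const (q₀ w)).add h2)

theorem cont_one (s : Tup I len) {c : ℕ} (q₀ : Ten I c) (R : Tup I len →ₗ[ℂ] Ten I c) :
    Continuous fun k : H.K => gT (H.mat k) (q₀ + R (gS (H.mat k⁻¹) s)) := by
  have hR : Continuous R := LinearMap.continuous_of_finiteDimensional R
  exact a1.gT_cont.comp (H.cont_mat.prodMk (continuous_const.add
    (hR.comp ((cont_gS H a1 s).comp continuous_inv))))

theorem av_val (s : Tup I len) {c : ℕ} (q₀ : Ten I c) (R : Tup I len →ₗ[ℂ] Ten I c) (d : ℕ) :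
    av H s q₀ R d s = ∫ k, ph H s s k ^ d • gT (H.mat k) (q₀ + R (gS (H.mat k⁻¹) s)) ∂H.μ := by
  unfold av
  refine integral_congr_ae (Eventually.of_forall fun k => ?_)
  exact a1.gT_smul _ _ _

theorem av_deriv (s ν : Tup I len) {c : ℕ} (q₀ : Ten I c) (R : Tup I len →ₗ[ℂ] Ten I c)
    (d : ℕ) : HasDerivAt (fun z : ℂ => av H s q₀ R d (s + z • ν))
      (∫ k, (((d : ℂ) * ph H s s k ^ (d - 1) * ph H ν s k) •
        gT (H.mat k) (q₀ + R (gS (H.mat k⁻¹) s)) +
        ph H s s k ^ d • gT (H.mat k) (0 + R (gS (H.mat k⁻¹) ν))) ∂H.μ) 0 := by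
  have h := CloAux.hasDerivAt_int (μ := H.μ) (ph_cont H a1 s s) (ph_cont H a1 ν s)
    (cont_one H a1 ν 0 R) (cont_one H a1 s q₀ R) d
  refine h.congr_of_eventuallyEq (Eventually.of_forall fun z => ?_)
  show av H s q₀ R d (s + z • ν) = _
  unfold av
  refine integral_congr_ae (Eventually.of_forall fun k => ?_)
  show gT (H.mat k) (ph H (s + z • ν) s k ^ d • (q₀ + R (gS (H.mat k⁻¹) (s + z • ν)))) = _
  rw [ph_line H a1, a1.gT_smul, gS_add a1, gS_smul a1, map_add, map_smul, ← add_assoc,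
    a1.gT_add, a1.gT_smul]
  simp only [zero_add]

omit a1 in
/-- the derivative on a line -/
theorem line_deriv {W : Type} [NormedAddCommGroup W] [NormedSpace ℂ W] {f : Tup I len → W}
    {s ν : Tup I len} (hf : DifferentiableAt ℂ f s) :
    HasDerivAt (fun z : ℂ => f (s + z • ν)) (fderiv ℂ f s ν) 0 := by
  have h1 : HasDerivAt (fun z : ℂ => s + z • ν) ν 0 := by
    simpa using ((hasDerivAt_id (0 : ℂ)).smul_const ν).const_add s
  have h2 : HasFDerivAt f (fderiv ℂ f s) (s + (0 : ℂ) • ν) := by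
    rw [zero_smul, add_zero]
    exact hf.hasFDerivAt
  exact h2.comp_hasDerivAt 0 h1

/-- the direction is orthogonal to `s` -/
theorem perp (H : HMb D b) (a2 : Alg2) (hvol : VolbStatement) (hpha : PhabStatement) (havg : AvgH H len)
    {s : Tup I len} (hmin : Minimalb D b s) (hs : ‖emb s‖ ≠ 0) {ν : Tup I len}
    (hν : ∀ f ∈ DMb len D b 0, fderiv ℂ f s ν = 0) : hS ν s = 0 := by
  obtain ⟨p, hp⟩ := peak H a1 hvol hpha hmin hs
  have hint : ∀ d : ℕ, ∫ k, ph H s s k ^ d • ph H ν s k ∂H.μ = 0 := by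
    intro d
    have hm := av_mem H havg s (fun _ => (1 : ℂ) : Ten I 0) 0 (d + 1)
    have h1 := line_deriv (ν := ν) (DMb_diff a2 hm s)
    have h2 := h1.unique (av_deriv H a1 s ν (fun _ => (1 : ℂ) : Ten I 0) 0 (d + 1))
    rw [hν _ hm] at h2
    have h3 := congrArg (fun u : Ten I 0 => u Fin.elim0) h2
    have h4 : (∫ k, ((((d + 1 : ℕ) : ℂ) * ph H s s k ^ (d + 1 - 1) * ph H ν s k) •
        gT (H.mat k) ((fun _ => (1 : ℂ) : Ten I 0) +
          (0 : Tup I len →ₗ[ℂ] Ten I 0) (gS (H.mat k⁻¹) s)) +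
        ph H s s k ^ (d + 1) • gT (H.mat k) (0 +
          (0 : Tup I len →ₗ[ℂ] Ten I 0) (gS (H.mat k⁻¹) ν))) ∂H.μ) =
        (((d + 1 : ℕ) : ℂ) * ∫ k, ph H s s k ^ d • ph H ν s k ∂H.μ) •
          (fun _ => (1 : ℂ) : Ten I 0) := by
      rw [← integral_const_mul, ← integral_smul_const]
      refine integral_congr_ae (Eventually.of_forall fun k => ?_)
      show _ = _
      simp only [gT_zero_len, LinearMap.zero_apply, add_zero, smul_zero, Nat.add_sub_cancel,
        smul_eq_mul, mul_assoc]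
    rw [h4] at h3
    simp only [Pi.zero_apply, Pi.smul_apply, smul_eq_mul, mul_one] at h3
    have h5 : ((d + 1 : ℕ) : ℂ) ≠ 0 := Nat.cast_ne_zero.2 (Nat.succ_ne_zero d)
    exact (mul_eq_zero.1 h3.symm).resolve_left h5
  have h1 := hp.mem_span (F := ph H ν s) (ph_cont H a1 ν s)
    (w := hS ν s / ((‖emb s‖ ^ 2 : ℝ) : ℂ)) (by
      intro k hk
      have h2 := ph_eq_one H a1 hs rfl hk
      unfold ph
      congr 1
      rw [← hS_gS H a1 k, gS_inv H a1, h2])
  simp only [hint, Set.range_const, Submodule.span_zero_singleton, Submodule.mem_bot] at h1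
  rcases div_eq_zero_iff.1 h1 with h2 | h2
  · exact h2
  · exfalso
    have h3 : ‖emb s‖ ^ 2 = 0 := by exact_mod_cast h2
    exact hs (pow_eq_zero_iff two_ne_zero |>.1 h3)

/-! ### Averages with values in tuples -/

/-- tuples of averages -/
noncomputable def avS (H : HMb D b) (a1 : Alg1) (s : Tup I len) (d : ℕ) (s' : Tup I len) :
    Tup I len :=
  fun i => av H s (-(pr a1 D b s s i)) ((LinearMap.proj i).comp (pr a1 D b s)) d s'

/-- the tuples of equivariant maps -/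
def FF (len : ι → ℕ) (D : Dat I Λ) (b : Tup I lb) : Submodule ℂ (Tup I len → Tup I len) where
  carrier := {f | ∀ i, (fun x => f x i) ∈ DMb len D b (len i)}
  zero_mem' := fun i => Submodule.zero_mem _
  add_mem' := fun hf hg i => Submodule.add_mem _ (hf i) (hg i)
  smul_mem' := fun c _ hf i => Submodule.smul_mem _ c (hf i)

theorem avS_mem (havg : AvgH H len) (s : Tup I len) (d : ℕ) :
    avS H a1 s d ∈ FF len D b := fun i => av_mem H havg s _ _ d

theorem comp_eq (s x : Tup I len) (k : H.K) (i : ι) :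
    gT (H.mat k) (-(pr a1 D b s s i) + ((LinearMap.proj i).comp (pr a1 D b s)) (gS (H.mat k⁻¹) x)) =
      gS (H.mat k) (pr a1 D b s (gS (H.mat k⁻¹) x - s)) i := by
  show _ = gT (H.mat k) ((pr a1 D b s (gS (H.mat k⁻¹) x - s)) i)
  rw [map_sub, Pi.sub_apply, LinearMap.comp_apply, LinearMap.proj_apply]
  congr 1
  abel

theorem comp_eq' (s ν : Tup I len) (k : H.K) (i : ι) :
    gT (H.mat k) (0 + ((LinearMap.proj i).comp (pr a1 D b s)) (gS (H.mat k⁻¹) ν)) =
      gS (H.mat k) (pr a1 D b s (gS (H.mat k⁻¹) ν)) i := by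
  rw [zero_add]
  rfl

theorem cont_G (s : Tup I len) :
    Continuous fun k : H.K => gS (H.mat k) (pr a1 D b s (gS (H.mat k⁻¹) s - s)) := by
  refine continuous_pi fun i => ?_
  have h := cont_one H a1 s (-(pr a1 D b s s i)) ((LinearMap.proj i).comp (pr a1 D b s))
  simp only [comp_eq H a1] at h
  exact h

theorem cont_F (s ν : Tup I len) :
    Continuous fun k : H.K => gS (H.mat k) (pr a1 D b s (gS (H.mat k⁻¹) ν)) := by
  refine continuous_pi fun i => ?_
  have h := cont_one H a1 ν (0 : Ten I (len i)) ((LinearMap.proj i).comp (pr a1 D b s))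
  simp only [comp_eq' H a1] at h
  exact h

omit a1 in
theorem int_cont {W : Type} [NormedAddCommGroup W] [NormedSpace ℂ W] [FiniteDimensional ℂ W]
    {f : H.K → W} (hf : Continuous f) : Integrable f H.μ := by
  have : ProperSpace W := FiniteDimensional.proper ℂ W
  exact hf.integrable_of_hasCompactSupport (HasCompactSupport.of_compactSpace _)

omit a1 in
theorem int_comp {f : H.K → Tup I len} (hf : Continuous f) (i : ι) :
    (∫ k, f k ∂H.μ) i = ∫ k, f k i ∂H.μ :=
  MeasureTheory.eval_integral (f := f) (fun i =>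
    int_cont H (W := Ten I (len i)) ((continuous_apply i).comp hf)) i

theorem avS_val (s : Tup I len) (d : ℕ) :
    avS H a1 s d s = ∫ k, ph H s s k ^ d •
      gS (H.mat k) (pr a1 D b s (gS (H.mat k⁻¹) s - s)) ∂H.μ := by
  funext i
  have hc : Continuous fun k : H.K => ph H s s k ^ d •
      gS (H.mat k) (pr a1 D b s (gS (H.mat k⁻¹) s - s)) :=
    ((ph_cont H a1 s s).pow d).smul (cont_G H a1 s)
  refine Eq.trans ?_ (int_comp H hc i).symm
  unfold avS
  rw [av_val H a1]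
  refine integral_congr_ae (Eventually.of_forall fun k => ?_)
  show _ = _
  simp only [Pi.smul_apply]
  rw [comp_eq H a1]

theorem avS_deriv (a2 : Alg2) (havg : AvgH H len) (s ν : Tup I len) (d : ℕ) :
    fderiv ℂ (avS H a1 s d) s ν =
      ∫ k, (((d : ℂ) * ph H s s k ^ (d - 1) * ph H ν s k) •
        gS (H.mat k) (pr a1 D b s (gS (H.mat k⁻¹) s - s)) +
        ph H s s k ^ d • gS (H.mat k) (pr a1 D b s (gS (H.mat k⁻¹) ν))) ∂H.μ := by
  have hdiff : Differentiable ℂ (avS H a1 s d) := by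
    rw [differentiable_pi]
    exact fun i => DMb_diff a2 (avS_mem H a1 havg s d i)
  have h1 := line_deriv (ν := ν) (hdiff s)
  rw [hasDerivAt_pi] at h1
  funext i
  have h2 := (h1 i).unique (av_deriv H a1 s ν (-(pr a1 D b s s i))
    ((LinearMap.proj i).comp (pr a1 D b s)) d)
  have hc : Continuous fun k : H.K => ((d : ℂ) * ph H s s k ^ (d - 1) * ph H ν s k) •
        gS (H.mat k) (pr a1 D b s (gS (H.mat k⁻¹) s - s)) +
        ph H s s k ^ d • gS (H.mat k) (pr a1 D b s (gS (H.mat k⁻¹) ν)) :=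
    (((continuous_const.mul ((ph_cont H a1 s s).pow (d - 1))).mul
      (ph_cont H a1 ν s)).smul (cont_G H a1 s)).add
      (((ph_cont H a1 s s).pow d).smul (cont_F H a1 s ν))
  rw [h2]
  refine Eq.trans ?_ (int_comp H hc i).symm
  refine integral_congr_ae (Eventually.of_forall fun k => ?_)
  show _ = _
  simp only [Pi.smul_apply, Pi.add_apply]
  rw [comp_eq H a1, comp_eq' H a1]

/-- on the stabiliser of `s` the slice is preserved -/
theorem F_val (s ν : Tup I len) (hν : ν ∈ sli a1 D b s) (k : H.K) (hk : gS (H.mat k) s = s) :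
    gS (H.mat k) (pr a1 D b s (gS (H.mat k⁻¹) ν)) = ν := by
  rw [pr_eq_self a1, gS_inv H a1]
  rw [mem_sli a1]
  intro A hA
  obtain ⟨hgi, h1, h2⟩ := a1.G_inv D (H.mat k) (H.mem k).1.1
  have e1 : gS (H.mat k) (aS A s) = aS (H.mat k * A * (H.mat k)⁻¹) s := by
    conv_rhs => rw [← hk]
    funext i
    exact a1.gT_aT (H.mat k) A (s i) h1
  rw [← hS_gS H a1 k, gS_inv H a1, e1]
  exact (mem_sli a1 D b s).1 hν _ (Lieb_conj a1 ⟨(H.mem k).1.1, (H.mem k).2⟩ hA)

end main

section pi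

variable {D : Dat I Λ} (a1 : Alg1) (a2 : Alg2)

include a1 a2 in
/-- an equivariant map whose projection vanishes at the limit `s` vanishes at `t` -/
theorem DM_zero {c : ℕ} {t s : Tup I len} {π : Ten I c →ₗ[ℂ] Ten I c}
    (hπ : ∀ g u, IsGb D b g → π (gT g u) = gT g (π u)) (hnd : NdPib D (cmb b t) π) {g : ℕ → Matrix I I ℂ}
    (hg : ∀ j, IsGb D b (g j)) (hlim : Tendsto (fun j => gS (g j) t) atTop (𝓝 s))
    {f : Tup I len → Ten I c} (hf : f ∈ DMb len D b c) (h0 : π (f s) = 0) : π (f t) = 0 := by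
  by_contra hne
  obtain ⟨v, hv, h1⟩ := hnd (f t) (DMb_val hf t) hne
  obtain ⟨f', hf', rfl⟩ := exists_DMb hv
  have hπc : Continuous π := LinearMap.continuous_of_finiteDimensional π
  have h2 : ∀ j, psiT D (π (f (gS (g j) t))) (π (f' (gS (g j) t))) =
      psiT D (π (f t)) (π (f' t)) := by
    intro j
    rw [DMb_gS a1 a2 hf _ _ (hg j), DMb_gS a1 a2 hf' _ _ (hg j), hπ _ _ (hg j), hπ _ _ (hg j),
      a1.psiT_gT D _ _ _ (hg j).1]
  have h3 : Tendsto (fun j => psiT D (π (f (gS (g j) t))) (π (f' (gS (g j) t)))) atTop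
      (𝓝 (psiT D (π (f s)) (π (f' s)))) := by
    have h4 : Continuous fun x : Tup I len => psiT D (π (f x)) (π (f' x)) :=
      (psiT_cont (D := D)).comp ((hπc.comp (DMb_diff a2 hf).continuous).prodMk
        (hπc.comp (DMb_diff a2 hf').continuous))
    exact (h4.tendsto s).comp hlim
  simp only [h2] at h3
  have h5 := tendsto_nhds_unique h3 tendsto_const_nhds
  rw [h0] at h5
  have h6 : psiT D (0 : Ten I c) (π (f' s)) = 0 := by
    unfold psiT
    simp
  rw [h6] at h5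
  exact h1 h5.symm

include a1 a2 in
/-- an equivariant map whose projection vanishes at the limit: on the orbit -/
theorem DM_zero_orb {c : ℕ} {t s : Tup I len} {π : Ten I c →ₗ[ℂ] Ten I c}
    (hπ : ∀ g u, IsGb D b g → π (gT g u) = gT g (π u)) (hnd : NdPib D (cmb b t) π) {g : ℕ → Matrix I I ℂ}
    (hg : ∀ j, IsGb D b (g j)) (hlim : Tendsto (fun j => gS (g j) t) atTop (𝓝 s))
    {f : Tup I len → Ten I c} (hf : f ∈ DMb len D b c) (h0 : π (f s) = 0) {x : Tup I len}
    {y : Matrix I I ℂ} (hy : IsGb D b y) (hx : gS y x = t) : π (f x) = 0 := by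
  have h1 := DM_zero a1 a2 hπ hnd hg hlim hf h0
  rw [← hx, DMb_gS a1 a2 hf _ _ hy, hπ _ _ hy] at h1
  obtain ⟨-, -, h2⟩ := a1.G_inv D y hy.1
  have h3 := congrArg (gT y⁻¹) h1
  rw [← a1.gT_mul, h2, a1.gT_one] at h3
  rw [h3]
  have h := a1.gT_smul y⁻¹ 0 (0 : Ten I c)
  rw [zero_smul, zero_smul] at h
  exact h

include a2 in
/-- the projection of the direction is zero -/
theorem dir_zero (H : HMb D b) (hvol : VolbStatement) (hpha : PhabStatement)
    (havg : AvgH H len) {s : Tup I len} (hmin : Minimalb D b s) (hs : ‖emb s‖ ≠ 0)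
    {ν : Tup I len} (hν : ν ∈ sli a1 D b s) (hνs : hS ν s = 0)
    (π : ∀ i, Ten I (len i) →ₗ[ℂ] Ten I (len i)) (L : Tup I len →ₗ[ℂ] Tup I len)
    (hL : ∀ d : ℕ, L (PS π (avS H a1 s d s)) = fderiv ℂ (fun x => PS π (avS H a1 s d x)) s ν) :
    PS π ν = 0 := by
  obtain ⟨p, hp⟩ := peak H a1 hvol hpha hmin hs
  have hs0 : 0 < ‖emb s‖ ^ 2 := by positivity
  have hre : ∀ k, 1 - (ph H s s k).re = dlb H s k ^ 2 / (2 * ‖emb s‖ ^ 2) := by
    intro k
    rw [one_sub_ph H a1 hs rfl, ← dl_eq, dl_inv H a1]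
  have hdl : ∀ k, 0 ≤ dlb H s k := fun k => by
    rw [dl_eq]
    exact norm_nonneg _
  refine hp.eq_zero (F := fun k => PC π (gS (H.mat k) (pr a1 D b s (gS (H.mat k⁻¹) ν))))
    (G := fun k => PC π (gS (H.mat k) (pr a1 D b s (gS (H.mat k⁻¹) s - s)))) (χ := ph H ν s)
    ((PC π).continuous.comp (cont_F H a1 s ν)) ((PC π).continuous.comp (cont_G H a1 s))
    (ph_cont H a1 ν s) ?_ (C := 2 * ‖emb ν‖ ^ 2 / ‖emb s‖ ^ 2) ?_ ?_ L ?_
  · intro k hk
    exact congrArg (PC π) (F_val H a1 s ν hν k (ph_eq_one H a1 hs rfl hk))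
  · intro k
    have h1 : ‖ph H ν s k‖ ≤ ‖emb ν‖ * dlb H s k / ‖emb s‖ ^ 2 := by
      unfold ph
      rw [norm_div, Complex.norm_real, Real.norm_eq_abs, abs_of_pos hs0]
      gcongr
      have h2 : hS (gS (H.mat k⁻¹) ν) s = hS ν (gS (H.mat k) s - s) := by
        rw [hS_sub_right, hνs, sub_zero, ← hS_gS H a1 k, gS_inv H a1]
      rw [h2, dl_eq, ← emb_sub]
      exact norm_hS_le _ _
    calc ‖ph H ν s k‖ ^ 2 ≤ (‖emb ν‖ * dlb H s k / ‖emb s‖ ^ 2) ^ 2 := by gcongr
      _ = 2 * ‖emb ν‖ ^ 2 / ‖emb s‖ ^ 2 * (1 - (ph H s s k).re) := by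
          rw [hre]
          field_simp
  · intro e₀ he₀
    set e : ℝ := e₀ / (‖PC π‖ ^ 2 + 1) with hedef
    have he : 0 < e := by positivity
    set ε : ℝ := Real.sqrt (e / (2 * ‖emb s‖ ^ 2)) with hε
    have hε0 : 0 < ε := Real.sqrt_pos.2 (by positivity)
    have hε2 : ε ^ 2 = e / (2 * ‖emb s‖ ^ 2) := Real.sq_sqrt (by positivity)
    obtain ⟨η, hη, h1⟩ := (hpha H s).2 ε hε0
    refine ⟨η ^ 2 / (2 * ‖emb s‖ ^ 2), by positivity, ?_⟩
    intro k hk
    rw [hre, div_lt_div_iff_of_pos_right (by positivity)] at hk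
    have h2 : dlb H s k < η := lt_of_pow_lt_pow_left₀ 2 hη.le hk
    set y : Tup I len := gS (H.mat k⁻¹) s - s with hy
    have h3 := h1 k⁻¹ (by rw [dl_inv H a1]; exact h2) (pr a1 D b s y)
      ((mem_sli a1 D b s).1 (pr_mem a1 D b s y))
    rw [← hy, hS_pr, dl_inv H a1, hS_self, Complex.ofReal_re, Real.sqrt_sq (norm_nonneg _),
      Complex.norm_real, Real.norm_eq_abs, abs_of_nonneg (by positivity)] at h3
    have h4 : ‖emb (pr a1 D b s y)‖ ≤ ε * dlb H s k := by
      rcases (norm_nonneg (emb (pr a1 D b s y))).eq_or_lt with h0 | h0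
      · rw [← h0]
        exact mul_nonneg hε0.le (hdl k)
      · refine le_of_mul_le_mul_right ?_ h0
        calc ‖emb (pr a1 D b s y)‖ * ‖emb (pr a1 D b s y)‖ = ‖emb (pr a1 D b s y)‖ ^ 2 := by ring
          _ ≤ ε * ‖emb (pr a1 D b s y)‖ * dlb H s k := h3
          _ = ε * dlb H s k * ‖emb (pr a1 D b s y)‖ := by ring
    have h5 : ‖gS (H.mat k) (pr a1 D b s y)‖ ≤ ε * dlb H s k :=
      ((norm_le_emb _).trans_eq (norm_gS H a1 k _)).trans h4
    have h6 : ‖PC π (gS (H.mat k) (pr a1 D b s y))‖ ≤ ‖PC π‖ * (ε * dlb H s k) :=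
      ((PC π).le_opNorm _).trans (mul_le_mul_of_nonneg_left h5 (norm_nonneg _))
    have h7 : 0 ≤ 1 - (ph H s s k).re := by
      rw [hre]
      positivity
    have h8 : ‖PC π‖ ^ 2 * e ≤ e₀ := by
      rw [hedef]
      calc ‖PC π‖ ^ 2 * (e₀ / (‖PC π‖ ^ 2 + 1))
          ≤ (‖PC π‖ ^ 2 + 1) * (e₀ / (‖PC π‖ ^ 2 + 1)) := by
            gcongr
            linarith
        _ = e₀ := by field_simp
    calc ‖PC π (gS (H.mat k) (pr a1 D b s y))‖ ^ 2 ≤ (‖PC π‖ * (ε * dlb H s k)) ^ 2 := by gcongr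
      _ = ‖PC π‖ ^ 2 * e * (1 - (ph H s s k).re) := by
          rw [hre, mul_pow, mul_pow, hε2]
          field_simp
      _ ≤ e₀ * (1 - (ph H s s k).re) := mul_le_mul_of_nonneg_right h8 h7
  · intro d
    have hcG : Continuous fun k : H.K => ph H s s k ^ d •
        gS (H.mat k) (pr a1 D b s (gS (H.mat k⁻¹) s - s)) :=
      ((ph_cont H a1 s s).pow d).smul (cont_G H a1 s)
    have hcF : Continuous fun k : H.K => ((d : ℂ) * ph H s s k ^ (d - 1) * ph H ν s k) •
        gS (H.mat k) (pr a1 D b s (gS (H.mat k⁻¹) s - s)) +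
        ph H s s k ^ d • gS (H.mat k) (pr a1 D b s (gS (H.mat k⁻¹) ν)) :=
      (((continuous_const.mul ((ph_cont H a1 s s).pow (d - 1))).mul
        (ph_cont H a1 ν s)).smul (cont_G H a1 s)).add
        (((ph_cont H a1 s s).pow d).smul (cont_F H a1 s ν))
    have e1 : (∫ k, ph H s s k ^ d • PC π (gS (H.mat k) (pr a1 D b s (gS (H.mat k⁻¹) s - s))) ∂H.μ)
        = PS π (avS H a1 s d s) := by
      rw [avS_val H a1, ← PC_apply, ← ContinuousLinearMap.integral_comp_comm (PC π)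
        (int_cont H (W := Tup I len) hcG)]
      refine integral_congr_ae (Eventually.of_forall fun k => ?_)
      show _ = PC π _
      rw [map_smul]
    have e2 : (∫ k, (((d : ℂ) * ph H s s k ^ (d - 1) * ph H ν s k) •
        PC π (gS (H.mat k) (pr a1 D b s (gS (H.mat k⁻¹) s - s))) +
        ph H s s k ^ d • PC π (gS (H.mat k) (pr a1 D b s (gS (H.mat k⁻¹) ν)))) ∂H.μ)
        = PS π (fderiv ℂ (avS H a1 s d) s ν) := by
      rw [avS_deriv H a1 a2 havg, ← PC_apply, ← ContinuousLinearMap.integral_comp_comm (PC π)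
        (int_cont H (W := Tup I len) hcF)]
      refine integral_congr_ae (Eventually.of_forall fun k => ?_)
      show _ = PC π _
      rw [map_add, map_smul, map_smul]
    have hdiff : Differentiable ℂ (avS H a1 s d) := by
      rw [differentiable_pi]
      exact fun i => DMb_diff a2 (avS_mem H a1 havg s d i)
    have e3 : fderiv ℂ (fun x => PS π (avS H a1 s d x)) s ν =
        PS π (fderiv ℂ (avS H a1 s d) s ν) := by
      have h := ((PC π).hasFDerivAt.comp s (hdiff s).hasFDerivAt).fderiv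
      have h' : fderiv ℂ (fun x => PS π (avS H a1 s d x)) s =
          (PC π).comp (fderiv ℂ (avS H a1 s d) s) := h
      rw [h']
      rfl
    rw [e1, e2, hL d, e3]

end pi

end ClbT

open CloT L12 CloPi ClbT in
/-- Row CLB: the orbit under the stabiliser of `b` is closed. -/
theorem clob (a1 : Alg1) (a2 : Alg2) (hvol : VolbStatement) (hpha : PhabStatement)
    (havg₀ : AvgbStatement) : ClobStatement := by
  intro I Λ β ι _ _ _ _ _ lb len D b hb H π hπ t s ht hnd hs hmin g hg hlim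
  have havg : AvgH H len := fun c P hP => havg₀ hb H c P hP
  have hs1 : ‖emb s‖ ≠ 0 := by
    intro h0
    rw [hS_self, h0] at hs
    simp at hs
  by_contra hcon
  set Orb : Set (Tup I len) := {x | ∃ y, IsGb D b y ∧ gS y x = t} with hOrb
  have hsO : s ∉ Orb := hcon
  have hcl : s ∈ closure Orb := by
    refine mem_closure_of_tendsto hlim (Eventually.of_forall fun j => ?_)
    obtain ⟨h1, -, h2⟩ := Gb_inv a1 (hg j)
    refine ⟨(g j)⁻¹, h1, ?_⟩
    rw [← L12.gS_mul a1, h2, L12.gS_one a1]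
  have hexp : ∀ A ∈ lie (len := len) a1 D b, ∀ x, NormedSpace.exp A x ∈ Orb → x ∈ Orb := by
    rintro _ ⟨A, hA, rfl⟩ x ⟨y, hy, h1⟩
    rw [exp_aC, ← L12.gS_mul a1] at h1
    exact ⟨y * NormedSpace.exp A, Gb_mul a1 hy (Gb_exp a1 hA), h1⟩
  have hN : ∀ x : Tup I len, ∃ A ∈ lie (len := len) a1 D b, ∃ n ∈ sli a1 D b s, x = A s + n := by
    intro x
    obtain ⟨A, hA, e⟩ := exists_lie a1 D b s x
    exact ⟨aC a1 A, ⟨A, hA, rfl⟩, pr a1 D b s x, pr_mem a1 D b s x, e⟩
  obtain ⟨ν, hν, hν0, hder⟩ := CloAux.exists_direction (lie a1 D b) (sli a1 D b s) s hN Orb hexp hcl hsO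
  -- invariants are constant on the orbit
  have hinv : ∀ f ∈ DMb len D b 0, ∀ x ∈ Orb, f x = f s := by
    intro f hf
    have h1 : ∀ x y, IsGb D b y → f (gS y x) = f x := fun x y hy => by
      rw [DMb_gS a1 a2 hf _ _ hy, L12.gT_zero_len]
    have h2 : f s = f t := by
      have h3 : Tendsto (fun j => f (gS (g j) t)) atTop (𝓝 (f s)) :=
        ((DMb_diff a2 hf).continuous.tendsto s).comp hlim
      simp only [h1 _ _ (hg _)] at h3
      exact tendsto_nhds_unique h3 tendsto_const_nhds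
    rintro x ⟨y, hy, hx⟩
    rw [h2, ← hx, h1 x y hy]
  have hperp : hS ν s = 0 := ClbT.perp a1 H a2 hvol hpha havg hmin hs1 fun f hf =>
    hder (Ten I 0) f (DMb_diff a2 hf s) (hinv f hf)
  have hdF : ∀ f ∈ FF len D b, Differentiable ℂ f := by
    intro f hf
    rw [differentiable_pi]
    exact fun i => DMb_diff a2 (hf i)
  -- the points of the orbit and `s` are fixed by the projector
  have hPg : ∀ (y : Matrix I I ℂ) (x : Tup I len), IsGb D b y → PS π (gS y x) = gS y (PS π x) := by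
    intro y x hy
    funext i
    exact hπ i y (x i) hy.1
  have hPt : PS π t = t := funext ht
  have hPO : ∀ x ∈ Orb, PS π x = x := by
    rintro x ⟨y, hy, hx⟩
    have h1 : x = gS y⁻¹ t := (XY.inv_gS a1 hy.1 hx).symm
    rw [h1, hPg _ _ (Gb_inv a1 hy).1, hPt]
  have hPs : PS π s = s := by
    have h1 : Tendsto (fun j => PC π (gS (g j) t)) atTop (𝓝 (PC π s)) :=
      ((PC π).continuous.tendsto s).comp hlim
    have h2 : (fun j => PC π (gS (g j) t)) = fun j => gS (g j) t := by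
      funext j
      rw [PC_apply, hPg _ _ (hg j), hPt]
    rw [h2] at h1
    exact tendsto_nhds_unique h1 hlim
  have hPν : PS π ν = ν := by
    have h1 := hder (Tup I len) (fun x => x - PC π x)
      (differentiableAt_id.sub (PC π).differentiableAt) (fun x hx => by
        show x - PC π x = s - PC π s
        rw [PC_apply, PC_apply, hPO x hx, hPs, sub_self, sub_self])
    have h2 : fderiv ℂ (fun x : Tup I len => x - PC π x) s =
        ContinuousLinearMap.id ℂ _ - PC π :=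
      ((hasFDerivAt_id s).sub (PC π).hasFDerivAt).fderiv
    rw [h2] at h1
    have h3 : ν - PS π ν = 0 := h1
    exact (sub_eq_zero.1 h3).symm
  set FP : Submodule ℂ (Tup I len → Tup I len) :=
    { carrier := {f | ∃ f₀ ∈ FF len D b, f = fun x => PS π (f₀ x)}
      zero_mem' := ⟨0, Submodule.zero_mem _, by
        funext x
        exact (map_zero (PS π)).symm⟩
      add_mem' := by
        rintro _ _ ⟨f₀, hf₀, rfl⟩ ⟨f₁, hf₁, rfl⟩
        refine ⟨f₀ + f₁, Submodule.add_mem _ hf₀ hf₁, ?_⟩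
        funext x
        exact (map_add (PS π) _ _).symm
      smul_mem' := by
        rintro c _ ⟨f₀, hf₀, rfl⟩
        refine ⟨c • f₀, Submodule.smul_mem _ c hf₀, ?_⟩
        funext x
        exact (map_smul (PS π) _ _).symm } with hFP
  have hdP : ∀ f ∈ FP, DifferentiableAt ℂ f s := by
    rintro _ ⟨f₀, hf₀, rfl⟩
    exact (PC π).differentiableAt.comp s (hdF f₀ hf₀ s)
  obtain ⟨L, hL⟩ := CloAux.exists_linear FP (s := s) (ν := ν) hdP (by
    intro f hf h0
    obtain ⟨f₀, hf₀, rfl⟩ := id hf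
    refine hder (Tup I len) _ (hdP _ hf) ?_
    rintro x ⟨y, hy, hx⟩
    refine Eq.trans ?_ (Eq.symm h0)
    funext i
    exact ClbT.DM_zero_orb a1 a2 (fun g u hg => hπ i g u hg.1) (hnd i) hg hlim (hf₀ i) (congrFun h0 i) hy hx)
  have hz := ClbT.dir_zero a1 a2 H hvol hpha havg hmin hs1 hν hperp π L fun d =>
    hL _ ⟨avS H a1 s d, avS_mem H a1 havg s d, rfl⟩
  rw [hPν] at hz
  exact hν0 hz

end Pool.Agent.Lib.MP_361a6f_ag.FL
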