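import Pool.Agent.Lib.MP_361a6f_ag.FL.B.Jl85
import Pool.Agent.Lib.MP_361a6f_ag.FL.Ge
import Pool.Agent.Lib.MP_361a6f_ag.PP.SL2
import Pool.Agent.Lib.MP_361a6f_ag.PP.WEY
import Pool.Agent.Lib.MP_361a6f_ag.PP.StaB

/-!
# Conjugates of a Hodge-Riemann structure

`J` is a system of Hodge-Riemann structures on the factors of a host and their products, and `g` is
an element of the group that fixes all algebraic classes fixed by `J`. Then the conjugate of `J` by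
`g` is again such a system, and it fixes all algebraic classes fixed by `J`.
-/

open CategoryTheory AlgebraicGeometry MonoidalCategory CartesianMonoidalCategory

universe u v w

set_option autoImplicit false
set_option linter.unusedSectionVars false

namespace Pool.Agent.Lib.MP_361a6f_ag.FL

open Pool.Agent.Lib.MP_361a6f_ag.H3 Pool.Agent.Lib.MP_361a6f_ag.SQ
  Pool.Agent.Lib.MP_361a6f_ag.IP2 Pool.Agent.Lib.MP_361a6f_ag.PP

namespace Conj

open Jl85 (comm1 isRS' pol_fixed surj_of_rs ker_fixed)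

variable {k : Type u} [Field k] {W : CohomologyData.{u, 0, w} k ℂ} {𝒱 : VarietyClass k} {m : ℕ}
  (H : Host W 𝒱 m)

variable (a1 : Alg1) (a2 : Alg2) {g : Matrix H.I H.I ℂ} (ge : H.GeFacts)
  (hG : IsG H.D g) (hB : ∀ (L : ℕ) (u : Ten H.I L), u ∈ H.At L → jT H.D u = u → gT g u = u)
  {J : ∀ P : Prd m, W.coh (P.obj H.X) →ₛₗ[starRingEnd ℂ] W.coh (P.obj H.X)}
  (hJ : H.J0Facts J)

include ge hG hB hJ in
/-- the algebraic classes fixed by `J` are fixed -/
theorem fix0 (P : Prd m) (z : W.coh (P.obj H.X)) (hz : z ∈ tot W (P.obj H.X))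
    (hjz : J P z = z) : GJ.J H a1 g P z = z := by
  refine ge.inj P ?_
  rw [GJ.tc_J H a1 hG ge]
  have hAt : H.tc P z ∈ H.At P.size :=
    AddSubgroup.subset_closure (Or.inr ⟨P, rfl, z, hz, rfl⟩)
  have h1 : jT H.D (H.tc P z) = H.tc P z := by rw [← hJ.tc, hjz]
  have h2 : gT g (H.tc P z) = H.tc P z := hB _ _ hAt h1
  have h3 : gT g⁻¹ (H.tc P z) = H.tc P z := by
    conv_lhs => rw [← h2]
    rw [← a1.gT_mul, (a1.G_inv H.D g hG).2.2, a1.gT_one]
  rw [GJ.JT, h3, h1, h2]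

include ge hG a2 in
theorem fixed2 (P : Prd m) (γ : W.coh (P.obj H.X ⊗ P.obj H.X))
    (h : GJ.J H a1 g (.prod P P) γ = γ) :
    GeoJ.Fixed W (GJ.J H a1 g P) (GJ.J H a1 g P) γ := by
  obtain ⟨M, a, b, hab⟩ := TRC.exists_sum H.hW (H.memP P) (H.memP P) γ
  refine ⟨M, a, b, hab, ?_⟩
  have h2 : GJ.J H a1 g (.prod P P) γ
      = ∑ ν, GJ.J H a1 g (.prod P P) (W.pull (fst (P.obj H.X) (P.obj H.X)) (a ν)
        * W.pull (snd (P.obj H.X) (P.obj H.X)) (b ν)) := by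
    conv_lhs => rw [hab]
    exact map_sum _ _ _
  rw [← h, h2]
  exact Finset.sum_congr rfl fun ν _ => GJ.J_prod H a1 a2 hG ge P P _ _

include ge hG hB hJ a2 in
/-- commutation with the algebraic operators that commute with `J` -/
theorem comm (hsta : StaStatement.{w}) (P : Prd m) {u : Module.End ℂ (W.coh (P.obj H.X))}
    (hu : AlgOp W (P.obj H.X) u) (hc : ∀ s, J P (u s) = u (J P s))
    (hs : ∀ s, J P (star (H.lamP P).1.slm.internal (Lop W (P.obj H.X) (P.pol W H.ξ))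
        (H.LamP P) s)
      = star (H.lamP P).1.slm.internal (Lop W (P.obj H.X) (P.pol W H.ξ)) (H.LamP P) (J P s))
    (s : W.coh (P.obj H.X)) : GJ.J H a1 g P (u s) = u (GJ.J H a1 g P s) := by
  obtain ⟨γ, hγ, h⟩ := AlgOp.comp H.hW (H.memP P) hu
    (algOp_star H.hW (H.memP P) (H.lamP P).2 (H.lamP P).1)
  have h1 : ∀ x, u (star (H.lamP P).1.slm.internal (Lop W (P.obj H.X) (P.pol W H.ξ))
      (H.LamP P) x) = cor W γ x := fun x => h x
  refine comm1 hsta H.hW (H.memP P) (H.lamP P).2 (H.lamP P).1 (GJ.J_conj H a1 hG ge P) h1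
    (fixed2 H a1 a2 ge hG P γ (fix0 H a1 ge hG hB hJ (.prod P P) γ hγ
      (ker_fixed H hJ P γ fun s => ?_))) s
  rw [← h1, ← h1, hc, hs]

include ge hG hB hJ a2 in
theorem rs (hsta : StaStatement.{w}) (hRsp : RspStatement.{u, w}) :
    ∀ P : Prd m, IsRS W (P.obj H.X) (P.dim H.n) (P.pol W H.ξ) (H.LamP P) (GJ.J H a1 g P)
  | .leaf a => by
    have hξ : J (.leaf a) (H.ξ a) = H.ξ a := pol_fixed (hJ.rs (.leaf a))
    have hL : ∀ s, J (.leaf a) (Lop W (H.X a) (H.ξ a) s) = Lop W (H.X a) (H.ξ a) (J (.leaf a) s) :=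
      (hJ.rs (.leaf a)).map_L
    have hst := HrPsi.j_star H.hW (H.mem a) (H.ξ_alg a) (H.lam a) (J (.leaf a))
      (hJ.mul (.leaf a)) (hJ.rs (.leaf a)).gr hξ
    refine isRS' hsta H.hW (H.memP (.leaf a)) (H.lamP (.leaf a)).2 (H.lamP (.leaf a)).1
      (GJ.J_gr H a1 hG ge hsta (.leaf a)) ?_
      (GJ.J_conj H a1 hG ge (.leaf a)) (GJ.J_pos H a1 hG ge (.leaf a)) ?_ ?_ ?_
    · exact fix0 H a1 ge hG hB hJ (.leaf a) 1 (one_tot H.hW (H.mem a)) (hJ.rs (.leaf a)).one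
    · exact comm H a1 a2 ge hG hB hJ hsta (.leaf a) (algOp_Lop H.hW (H.mem a) (H.ξ_alg a) (H.lam a))
        hL hst
    · exact comm H a1 a2 ge hG hB hJ hsta (.leaf a) (H.lam a).alg (hJ.rs (.leaf a)).map_Lam hst
    · exact comm H a1 a2 ge hG hB hJ hsta (.leaf a)
        (algOp_star H.hW (H.mem a) (H.ξ_alg a) (H.lam a)) hst hst
  | .prod P Q => by
    obtain ⟨j, hj, hjp⟩ := hRsp H.hW (H.memP P) (H.memP Q)
      (H.hW.alg_gr (H.memP P) (j := 1) (H.lamP P).2)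
      (H.hW.alg_gr (H.memP Q) (j := 1) (H.lamP Q).2) (rs hsta hRsp P) (rs hsta hRsp Q)
    have e : j = GJ.J H a1 g (.prod P Q) := by
      refine LinearMap.ext fun z => ?_
      have hz : z ∈ Submodule.span ℂ {z | ∃ (y : W.coh (P.obj H.X)) (x : W.coh (Q.obj H.X)),
          z = W.ext y x} := by
        rw [H.hW.kunneth.span (H.memP P) (H.memP Q)]
        exact Submodule.mem_top
      induction hz using Submodule.span_induction with
      | mem z hz =>
        obtain ⟨y, x, rfl⟩ := hz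
        exact (hjp y x).trans (GJ.J_prod H a1 a2 hG ge P Q y x).symm
      | zero => exact (map_zero j).trans (map_zero (GJ.J H a1 g (.prod P Q))).symm
      | add a b _ _ ha hb =>
        exact (map_add j a b).trans ((congrArg₂ (· + ·) ha hb).trans
          (map_add (GJ.J H a1 g (.prod P Q)) a b).symm)
      | smul c a _ ha =>
        exact (LinearMap.map_smulₛₗ j c a).trans ((congrArg (fun t => (starRingEnd ℂ c) • t)
          ha).trans (LinearMap.map_smulₛₗ (GJ.J H a1 g (.prod P Q)) c a).symm)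
    subst e
    exact hj

/-! ### Multiplicativity -/

include ge hG hB hJ a2 in
theorem mul_leaf (hsta : StaStatement.{w}) (hRsp : RspStatement.{u, w}) (a : Fin m)
    (x y : W.coh (H.X a)) : GJ.J H a1 g (.leaf a) (x * y)
      = GJ.J H a1 g (.leaf a) x * GJ.J H a1 g (.leaf a) y := by
  have h1 := H.mem a
  have h3 : 𝒱.mem ((H.X a ⊗ H.X a) ⊗ H.X a) (H.n a + H.n a + H.n a) :=
    𝒱.prod (𝒱.prod h1 h1) h1
  have R1 := rs H a1 a2 ge hG hB hJ hsta hRsp (.leaf a)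
  have R3 := rs H a1 a2 ge hG hB hJ hsta hRsp (GM.cube a)
  have e0 : (lift (lift (𝟙 (H.X a)) (𝟙 (H.X a))) (𝟙 (H.X a)) :
      H.X a ⟶ (H.X a ⊗ H.X a) ⊗ H.X a) = lift (𝟙 (H.X a)) (𝟙 (H.X a))
        ≫ lift (fst (H.X a) (H.X a) ≫ lift (𝟙 (H.X a)) (𝟙 (H.X a)))
          (snd (H.X a) (H.X a) ≫ 𝟙 (H.X a)) := by
    rw [comp_lift, ← Category.assoc, ← Category.assoc, lift_fst, lift_snd, Category.id_comp,
      Category.id_comp]
  have hc : CoordMor H.X 3 (.leaf a) (GM.cube a)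
      (lift (lift (𝟙 (H.X a)) (𝟙 (H.X a))) (𝟙 (H.X a)) :
        H.X a ⟶ (H.X a ⊗ H.X a) ⊗ H.X a) := by
    have h := CoordMor.comp (X := H.X) (N := 3) (.leaf a) (.prod (.leaf a) (.leaf a)) (GM.cube a)
      _ _ (CoordMor.diag (.leaf a) le_rfl) (CoordMor.prod (.leaf a) (.prod (.leaf a) (.leaf a))
        (.leaf a) (.leaf a) _ _ (CoordMor.diag (.leaf a) le_rfl) (CoordMor.id (.leaf a)))
    rw [e0]
    exact h
  have hδ : GJ.J H a1 g (GM.cube a) (W.push (lift (lift (𝟙 (H.X a)) (𝟙 (H.X a)))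
      (𝟙 (H.X a))) (1 : W.coh (H.X a)))
      = W.push (lift (lift (𝟙 (H.X a)) (𝟙 (H.X a))) (𝟙 (H.X a))) (1 : W.coh (H.X a)) := by
    refine fix0 H a1 ge hG hB hJ (GM.cube a) _ ?_ ?_
    · refine alg_le_tot H.hW _ (2 * H.n a) ?_
      refine H.hW.push_alg h1 h3 _ (H.hW.one_alg h1) ?_
      omega
    · have h4 := hJ.push (.leaf a) (GM.cube a) _ hc (1 : W.coh (H.X a))
      have h5 : J (.leaf a) (1 : W.coh (H.X a)) = 1 := (hJ.rs (.leaf a)).one
      rw [h5] at h4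
      exact h4
  refine GMpre.mul_of_diag H.hW h1 h3 (lift (lift (𝟙 (H.X a)) (𝟙 (H.X a))) (𝟙 (H.X a)))
    (fst (H.X a ⊗ H.X a) (H.X a) ≫ fst (H.X a) (H.X a))
    (fst (H.X a ⊗ H.X a) (H.X a) ≫ snd (H.X a) (H.X a))
    (snd (H.X a ⊗ H.X a) (H.X a)) ?_ ?_ ?_ (GJ.J H a1 g (.leaf a)) (GJ.J H a1 g (GM.cube a))
    R1.tr (surj_of_rs H R1) R3.tr ?_ hδ x y
  · rw [← Category.assoc, lift_fst, lift_fst]
  · rw [← Category.assoc, lift_fst, lift_snd]
  · rw [lift_snd]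
  · intro x y z
    have e : ∀ x y z : W.coh (H.X a), W.pull (fst (H.X a ⊗ H.X a) (H.X a) ≫ fst (H.X a) (H.X a)) x
        * W.pull (fst (H.X a ⊗ H.X a) (H.X a) ≫ snd (H.X a) (H.X a)) y
          * W.pull (snd (H.X a ⊗ H.X a) (H.X a)) z
        = W.pull (fst (H.X a ⊗ H.X a) (H.X a)) (W.pull (fst (H.X a) (H.X a)) x
          * W.pull (snd (H.X a) (H.X a)) y)
          * W.pull (snd (H.X a ⊗ H.X a) (H.X a)) z := by
      intro x y z
      rw [W.pull_comp, W.pull_comp, map_mul (W.pull (fst (H.X a ⊗ H.X a) (H.X a)))]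
    rw [e, e]
    have e2 := GJ.J_prod H a1 a2 hG ge (.prod (.leaf a) (.leaf a)) (.leaf a)
      (W.pull (fst (H.X a) (H.X a)) x * W.pull (snd (H.X a) (H.X a)) y) z
    have e3 := GJ.J_prod H a1 a2 hG ge (.leaf a) (.leaf a) x y
    refine e2.trans ?_
    rw [show GJ.J H a1 g (.prod (.leaf a) (.leaf a)) (W.pull (fst (H.X a) (H.X a)) x
      * W.pull (snd (H.X a) (H.X a)) y) = _ from e3]
    rfl

/-! ### Hodge-Riemann structures -/

/-- a real structure that is multiplicative is a Hodge-Riemann structure -/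
theorem hrStr {X : Sch k} {n : ℕ} {ξ : W.coh X} (hW : IsWeilCohomology W 𝒱) (hX : 𝒱.mem X n)
    (hξ : ξ ∈ W.alg X 1) {Lam : Module.End ℂ (W.coh X)}
    {j : W.coh X →ₛₗ[starRingEnd ℂ] W.coh X} (R : IsRS W X n ξ Lam j)
    (hm : ∀ x y, j (x * y) = j x * j y) : HRStr W X n ξ j := by
  have hjξ := pol_fixed R
  refine ⟨hm, R.gr, hjξ, fun x => ?_, fun i x hi hx hx0 => ?_⟩
  · have h := R.tr x 1
    rw [R.one, mul_one, mul_one] at h
    exact h
  · have hxg : x ∈ W.gr X i := hx.1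
    have hL : ∀ (s : ℕ) (y : W.coh X), ((Lop W X ξ) ^ s) y = ξ ^ s * y :=
      fun s y => PSI.Lop_pow hW hX ξ s y
    have hΛ : Lam x = 0 := (sl2 R.slm).2.2.2.2.2.1 i x hi hxg (by rw [hL]; exact hx.2)
    have hΛ' : Lam (j x) = 0 := by rw [← R.map_Lam, hΛ, map_zero]
    obtain ⟨ρ, hρ, h⟩ := R.pos x hx0
    have h1 : PP.star R.slm.internal (Lop W X ξ) Lam (j x)
        = (sgn i * ((n - i).factorial : ℂ)⁻¹) • (ξ ^ (n - i) * j x) := by
      rw [PP.star, Module.End.mul_apply, gop_apply _ _ (R.gr i x hxg), map_smul,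
        (wey R.slm).2.2.2.2 i (j x) hi (R.gr i x hxg) hΛ', smul_smul, hL]
    have hcomm : ∀ (r : ℕ) (x : W.coh X), ξ ^ r * x = x * ξ ^ r := by
      intro r x
      induction r with
      | zero => simp
      | succ r ih => rw [pow_succ, mul_assoc, hW.alg_comm hX hξ x, ← mul_assoc, ih, mul_assoc]
    rw [psi, h1, mul_smul_comm, map_smul, smul_eq_mul, ← mul_assoc x, ← hcomm, mul_assoc] at h
    have hf : (((n - i).factorial : ℕ) : ℂ) ≠ 0 := by
      exact_mod_cast (Nat.factorial_pos (n - i)).ne'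
    refine ⟨((n - i).factorial : ℝ) * ρ, mul_pos (by exact_mod_cast Nat.factorial_pos (n - i)) hρ,
      ?_⟩
    change (-1 : ℂ) ^ (i * (i + 1) / 2) * W.tr X (ξ ^ (n - i) * (x * j x)) = _
    have e : ((((n - i).factorial : ℝ) * ρ : ℝ) : ℂ) = ((n - i).factorial : ℂ) * (ρ : ℂ) := by
      push_cast; rfl
    rw [e, ← h, sgn]
    field_simp
    rw [mul_assoc (ξ ^ (n - i))]

end Conj

end Pool.Agent.Lib.MP_361a6f_ag.FL
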