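import Pool.Agent.Lib.MP_361a6f_ag.FL.CptB
import Pool.Agent.Lib.MP_361a6f_ag.FL.Alg1
import Pool.Agent.Lib.MP_361a6f_ag.FL.B.Alb

/-!
# Row CPB: the compact group of the stabiliser and its Haar measure
-/

open Filter Topology MeasureTheory

namespace Pool.Agent.Lib.MP_361a6f_ag.FL

namespace CpbH

variable {I Λ β : Type} [Fintype I] [DecidableEq I] [DecidableEq Λ] {lb : β → ℕ}
  (D : Dat I Λ) (b : Tup I lb)

/-- the compact group -/
noncomputable def grp : Subgroup (Matrix.unitaryGroup I ℂ) where
  carrier := {u | IsGb D b (u : Matrix I I ℂ)}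
  mul_mem' {x y} hx hy := by
    refine ⟨AL1B.G_mul D _ _ hx.1 hy.1, ?_⟩
    change gS ((x : Matrix I I ℂ) * (y : Matrix I I ℂ)) b = b
    rw [ALB.gS_mul alg1, hy.2, hx.2]
  one_mem' := ⟨AL1B.G_one D, ALB.gS_one alg1 b⟩
  inv_mem' {a} ha := by
    have h1 : ((a⁻¹ : Matrix.unitaryGroup I ℂ) : Matrix I I ℂ) * (a : Matrix I I ℂ) = 1 :=
      Unitary.coe_star_mul_self a
    have h2 : ((a : Matrix I I ℂ))⁻¹ = ((a⁻¹ : Matrix.unitaryGroup I ℂ) : Matrix I I ℂ) :=
      Matrix.inv_eq_left_inv h1
    have h := (AL1B.G_inv D _ ha.1).1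
    rw [h2] at h
    refine ⟨h, ?_⟩
    conv_lhs => rw [← ha.2]
    rw [← ALB.gS_mul alg1, h1, ALB.gS_one alg1]

/-- the matrix of an element -/
noncomputable def mat : grp D b →* Matrix I I ℂ :=
  (Submonoid.subtype (Matrix.unitaryGroup I ℂ)).comp (grp D b).subtype

theorem mat_embedding : IsEmbedding (mat D b) :=
  IsEmbedding.subtypeVal.comp IsEmbedding.subtypeVal

theorem mem (k : grp D b) : IsKb D b (mat D b k) :=
  ⟨⟨k.2.1, Unitary.coe_star_mul_self k.1⟩, k.2.2⟩

theorem range_mat : Set.range (mat D b) = {g | IsKb D b g} := by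
  ext g
  constructor
  · rintro ⟨k, rfl⟩
    exact mem D b k
  · intro hg
    have hu : g ∈ Matrix.unitaryGroup I ℂ := Matrix.mem_unitaryGroup_iff'.2 hg.1.2
    exact ⟨⟨⟨g, hu⟩, ⟨hg.1.1, hg.2⟩⟩, rfl⟩

theorem gT_left_cont {L : ℕ} (u : Ten I L) : Continuous fun g : Matrix I I ℂ => gT g u :=
  alg1.gT_cont.comp (Continuous.prodMk continuous_id continuous_const)

omit [DecidableEq Λ] in
theorem isCompact_K : IsCompact {g : Matrix I I ℂ | IsKb D b g} := by
  have h1 : IsClosed {g : Matrix I I ℂ | gS g b = b} := by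
    have he : {g : Matrix I I ℂ | gS g b = b} = ⋂ i, {g : Matrix I I ℂ | gT g (b i) = b i} := by
      ext g
      simp only [Set.mem_ofPred_eq, Set.mem_iInter]
      exact ⟨fun h i => congrFun h i, fun h => funext h⟩
    rw [he]
    exact isClosed_iInter fun i => isClosed_eq (gT_left_cont (b i)) continuous_const
  exact (CptTB.isCompact_K D).inter_right h1

theorem compact : CompactSpace (grp D b) := by
  constructor
  rw [(mat_embedding D b).isCompact_iff, Set.image_univ, range_mat]
  exact isCompact_K D b

end CpbH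

/-- Row CPB. -/
theorem cptbH : CptbStatement := by
  intro I Λ β _ _ _ _ lb D b
  have hc : CompactSpace (CpbH.grp D b) := CpbH.compact D b
  let ms : MeasurableSpace (CpbH.grp D b) := borel _
  have bs : BorelSpace (CpbH.grp D b) := ⟨rfl⟩
  have scM : SecondCountableTopology (Matrix I I ℂ) :=
    inferInstanceAs (SecondCountableTopology (I → I → ℂ))
  have sc : SecondCountableTopology (CpbH.grp D b) :=
    (CpbH.mat_embedding D b).secondCountableTopology
  obtain ⟨μ, hμ⟩ : ∃ μ : Measure (CpbH.grp D b), μ = Measure.haarMeasure ⊤ := ⟨_, rfl⟩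
  have hH : μ.IsHaarMeasure := by rw [hμ]; infer_instance
  have hP : IsProbabilityMeasure μ := by
    constructor
    rw [hμ]
    exact Measure.haarMeasure_self
  exact ⟨{ K := CpbH.grp D b
           cpt := hc
           ms := ms
           bs := bs
           sc := sc
           mat := CpbH.mat D b
           cont_mat := (CpbH.mat_embedding D b).continuous
           mem := CpbH.mem D b
           surj := fun g hg => by
             have h : g ∈ Set.range (CpbH.mat D b) := by rw [CpbH.range_mat]; exact hg
             exact h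
           inj := (CpbH.mat_embedding D b).injective
           μ := μ
           prob := hP
           left_inv := inferInstance
           right_inv := CptTB.right_inv μ
           inv_inv := CptTB.inv_inv μ
           open_pos := inferInstance }⟩

end Pool.Agent.Lib.MP_361a6f_ag.FL
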