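import Pool.Agent.Lib.MP_361a6f_ag.FL.Defs
import Pool.Agent.Lib.MP_361a6f_ag.FL.AlgDefs

/-!
# The relative form: the stabiliser of a base tuple

`b` is a tuple of tensors with `J₀ b = b`; the group is replaced by the stabiliser of `b`, and the
diagrams in `s` by the diagrams in `(b, s)`.
-/

open Filter Topology MeasureTheory

namespace Pool.Agent.Lib.MP_361a6f_ag.FL

noncomputable section

variable {I Λ β ι : Type} [Fintype I] [DecidableEq I] [DecidableEq Λ] [Fintype β] [Fintype ι]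
  {lb : β → ℕ} {len : ι → ℕ}

/-- the elements of the group that fix `b` -/
def IsGb (D : Dat I Λ) (b : Tup I lb) (g : Matrix I I ℂ) : Prop := IsG D g ∧ gS g b = b

/-- the unitary elements of the group that fix `b` -/
def IsKb (D : Dat I Λ) (b : Tup I lb) (g : Matrix I I ℂ) : Prop := IsK D g ∧ gS g b = b

/-- the Lie algebra of the stabiliser of `b` -/
def IsLieb (D : Dat I Λ) (b : Tup I lb) (A : Matrix I I ℂ) : Prop := IsLie D A ∧ aS A b = 0

/-- a base tuple: it is fixed by `J₀` and contains the unit -/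
def IsBase (D : Dat I Λ) (b : Tup I lb) : Prop := jS D b = b ∧ ∃ i, lb i = 0 ∧ ∀ w, b i w = 1

/-- the combined tuple `(b, s)` -/
def cmb (b : Tup I lb) (s : Tup I len) : Tup I (Sum.elim lb len)
  | .inl i => b i
  | .inr i => s i

variable (len) in
/-- the space of the maps `s ↦ f(b, s)` for the diagram maps `f` -/
def DMb (D : Dat I Λ) (b : Tup I lb) (c : ℕ) : Submodule ℂ (Tup I len → Ten I c) :=
  Submodule.span ℂ {f | ∃ (l : List (β ⊕ ι)) (m : Ten I ((l.map (Sum.elim lb len)).sum + c)),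
    IsMatch D _ m ∧ f = fun s => dm D c l m (cmb b s)}

/-- `s` is a critical point of the norm on its orbit under the stabiliser of `b` -/
def Minimalb (D : Dat I Λ) (b : Tup I lb) (s : Tup I len) : Prop :=
  ∀ A, IsLieb D b A → hS (aS A s) s = 0

/-- a model of the compact group of all `g` with `IsKb D b g` -/
structure HMb (D : Dat I Λ) (b : Tup I lb) where
  K : Type
  [grp : Group K]
  [top : TopologicalSpace K]
  [itg : IsTopologicalGroup K]
  [cpt : CompactSpace K]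
  [t2 : T2Space K]
  [sc : SecondCountableTopology K]
  [ms : MeasurableSpace K]
  [bs : BorelSpace K]
  mat : K →* Matrix I I ℂ
  cont_mat : Continuous mat
  mem : ∀ k, IsKb D b (mat k)
  surj : ∀ g, IsKb D b g → ∃ k, mat k = g
  inj : Function.Injective mat
  μ : Measure K
  [prob : IsProbabilityMeasure μ]
  [left_inv : μ.IsMulLeftInvariant]
  [right_inv : μ.IsMulRightInvariant]
  [inv_inv : μ.IsInvInvariant]
  [open_pos : μ.IsOpenPosMeasure]

attribute [instance] HMb.grp HMb.top HMb.itg HMb.cpt HMb.t2 HMb.sc HMb.ms HMb.bs HMb.prob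
  HMb.left_inv HMb.right_inv HMb.inv_inv HMb.open_pos

/-- the distance from `k s` to `s`, in the norm of `hS` -/
def dlb {D : Dat I Λ} {b : Tup I lb} (H : HMb D b) (s : Tup I len) (k : H.K) : ℝ :=
  Real.sqrt (hS (gS (H.mat k) s - s) (gS (H.mat k) s - s)).re

end

/-! ### Statements of the rows -/

/-- Row ALB: the group, the Lie algebra and the combined tuple. -/
structure AlgB : Prop where
  G_one : ∀ {I Λ β : Type} [Fintype I] [DecidableEq I] [DecidableEq Λ] [Fintype β] {lb : β → ℕ}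
    (D : Dat I Λ) (b : Tup I lb), IsGb D b 1
  G_mul : ∀ {I Λ β : Type} [Fintype I] [DecidableEq I] [DecidableEq Λ] [Fintype β] {lb : β → ℕ}
    (D : Dat I Λ) (b : Tup I lb) (g h : Matrix I I ℂ), IsGb D b g → IsGb D b h → IsGb D b (g * h)
  G_inv : ∀ {I Λ β : Type} [Fintype I] [DecidableEq I] [DecidableEq Λ] [Fintype β] {lb : β → ℕ}
    (D : Dat I Λ) (b : Tup I lb) (g : Matrix I I ℂ), IsGb D b g →
    IsGb D b g⁻¹ ∧ g * g⁻¹ = 1 ∧ g⁻¹ * g = 1
  G_exp : ∀ {I Λ β : Type} [Fintype I] [DecidableEq I] [DecidableEq Λ] [Fintype β] {lb : β → ℕ}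
    (D : Dat I Λ) (b : Tup I lb) (A : Matrix I I ℂ), IsLieb D b A →
    IsGb D b (NormedSpace.exp A)
  K_exp : ∀ {I Λ β : Type} [Fintype I] [DecidableEq I] [DecidableEq Λ] [Fintype β] {lb : β → ℕ}
    (D : Dat I Λ) (b : Tup I lb) (A : Matrix I I ℂ), IsLieb D b A → A.conjTranspose = -A →
    IsKb D b (NormedSpace.exp A)
  /-- needs `J₀ b = b` -/
  Lie_adj : ∀ {I Λ β : Type} [Fintype I] [DecidableEq I] [DecidableEq Λ] [Fintype β] {lb : β → ℕ}
    (D : Dat I Λ) (b : Tup I lb) (A : Matrix I I ℂ), jS D b = b → IsLieb D b A →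
    IsLieb D b A.conjTranspose
  Lie_smul : ∀ {I Λ β : Type} [Fintype I] [DecidableEq I] [DecidableEq Λ] [Fintype β]
    {lb : β → ℕ} (D : Dat I Λ) (b : Tup I lb) (c : ℂ) (A : Matrix I I ℂ), IsLieb D b A →
    IsLieb D b (c • A)
  Lie_add : ∀ {I Λ β : Type} [Fintype I] [DecidableEq I] [DecidableEq Λ] [Fintype β] {lb : β → ℕ}
    (D : Dat I Λ) (b : Tup I lb) (A B : Matrix I I ℂ), IsLieb D b A → IsLieb D b B →
    IsLieb D b (A + B)
  /-- the combined tuple -/
  gS_cmb : ∀ {I β ι : Type} [Fintype I] [DecidableEq I] [Fintype β] [Fintype ι] {lb : β → ℕ}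
    {len : ι → ℕ} (g : Matrix I I ℂ) (b : Tup I lb) (s : Tup I len),
    gS g (cmb b s) = cmb (gS g b) (gS g s)
  jS_cmb : ∀ {I Λ β ι : Type} [Fintype I] [DecidableEq I] [DecidableEq Λ] [Fintype β] [Fintype ι]
    {lb : β → ℕ} {len : ι → ℕ} (D : Dat I Λ) (b : Tup I lb) (s : Tup I len),
    jS D (cmb b s) = cmb (jS D b) (jS D s)
  hS_cmb : ∀ {I β ι : Type} [Fintype I] [DecidableEq I] [Fintype β] [Fintype ι] {lb : β → ℕ}
    {len : ι → ℕ} (b b' : Tup I lb) (s s' : Tup I len),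
    hS (cmb b s) (cmb b' s') = hS b b' + hS s s'
  cmb_cont : ∀ {I β ι : Type} [Fintype I] [DecidableEq I] [Fintype β] [Fintype ι] {lb : β → ℕ}
    {len : ι → ℕ} (b : Tup I lb), Continuous fun s : Tup I len => cmb b s
  /-- the values of the maps in `DMb` -/
  DMb_MT : ∀ {I Λ β ι : Type} [Fintype I] [DecidableEq I] [DecidableEq Λ] [Fintype β] [Fintype ι]
    {lb : β → ℕ} {len : ι → ℕ} (D : Dat I Λ) (b : Tup I lb) (c : ℕ) (f : Tup I len → Ten I c)
    (s : Tup I len), f ∈ DMb len D b c → f s ∈ MT D (cmb b s) c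
  MT_DMb : ∀ {I Λ β ι : Type} [Fintype I] [DecidableEq I] [DecidableEq Λ] [Fintype β] [Fintype ι]
    {lb : β → ℕ} {len : ι → ℕ} (D : Dat I Λ) (b : Tup I lb) (c : ℕ) (s : Tup I len) (v : Ten I c),
    v ∈ MT D (cmb b s) c → ∃ f ∈ DMb len D b c, f s = v
  DMb_gS : ∀ {I Λ β ι : Type} [Fintype I] [DecidableEq I] [DecidableEq Λ] [Fintype β] [Fintype ι]
    {lb : β → ℕ} {len : ι → ℕ} (D : Dat I Λ) (b : Tup I lb) (c : ℕ) (f : Tup I len → Ten I c),
    f ∈ DMb len D b c → ∀ (g : Matrix I I ℂ) (s : Tup I len), IsGb D b g →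
    f (gS g s) = gT g (f s)
  DMb_poly : ∀ {I Λ β ι : Type} [Fintype I] [DecidableEq I] [DecidableEq Λ] [Fintype β]
    [Fintype ι] {lb : β → ℕ} {len : ι → ℕ} (D : Dat I Λ) (b : Tup I lb) (c : ℕ)
    (f : Tup I len → Ten I c), f ∈ DMb len D b c → PolyMap f

/-- Row CPB: the compact group and its Haar measure. -/
def CptbStatement : Prop :=
  ∀ {I Λ β : Type} [Fintype I] [DecidableEq I] [DecidableEq Λ] [Fintype β] {lb : β → ℕ}
    (D : Dat I Λ) (b : Tup I lb), Nonempty (HMb D b)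

/-- Row FFB: the tensors fixed by the compact group are values of diagram maps at `b` (from
`L2Statement`). -/
def FfbStatement : Prop :=
  ∀ {I Λ β : Type} [Fintype I] [DecidableEq I] [DecidableEq Λ] [Fintype β] {lb : β → ℕ}
    (D : Dat I Λ) (b : Tup I lb), IsBase D b → ∀ (c : ℕ) (v : Ten I c),
    (∀ g, IsKb D b g → gT g v = v) → v ∈ MT D b c

/-- Row AVB: the average of a polynomial map (from `FfbStatement`). -/
def AvgbStatement : Prop :=
  ∀ {I Λ β ι : Type} [Fintype I] [DecidableEq I] [DecidableEq Λ] [Fintype β] [Fintype ι]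
    {lb : β → ℕ} {len : ι → ℕ} {D : Dat I Λ} {b : Tup I lb} (_ : IsBase D b) (H : HMb D b) (c : ℕ)
    (P : Tup I len → Ten I c), PolyMap P →
    (fun s => ∫ k, gT (H.mat k) (P (gS (H.mat k⁻¹) s)) ∂H.μ) ∈ DMb len D b c

/-- Row VOB: lower bound for the volume of the set of the `k` with `|k s - s| < r`. -/
def VolbStatement : Prop :=
  ∀ {I Λ β ι : Type} [Fintype I] [DecidableEq I] [DecidableEq Λ] [Fintype β] [Fintype ι]
    {lb : β → ℕ} {len : ι → ℕ} {D : Dat I Λ} {b : Tup I lb} (H : HMb D b) (s : Tup I len),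
    ∃ (c : ℝ) (m : ℕ), 0 < c ∧ ∀ r : ℝ, 0 < r → r ≤ 1 →
      c * r ^ m ≤ (H.μ {k | dlb H s k < r}).toReal

/-- Row TAB: the elements of the compact group near `1` are exponentials of small elements of the
Lie algebra of the stabiliser of `b`. -/
def TanbStatement : Prop :=
  ∀ {I Λ β : Type} [Fintype I] [DecidableEq I] [DecidableEq Λ] [Fintype β] {lb : β → ℕ}
    {D : Dat I Λ} {b : Tup I lb} (H : HMb D b) (e : ℝ),
    0 < e → ∀ᶠ k in 𝓝 (1 : H.K), ∃ A : Matrix I I ℂ, IsLieb D b A ∧ A.conjTranspose = -A ∧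
      (∀ i j, ‖A i j‖ ≤ e) ∧ H.mat k = NormedSpace.exp A

/-- Row PHB: the phase of `h(k s, s)` and the normal component of `k s - s`. -/
def PhabStatement : Prop :=
  ∀ {I Λ β ι : Type} [Fintype I] [DecidableEq I] [DecidableEq Λ] [Fintype β] [Fintype ι]
    {lb : β → ℕ} {len : ι → ℕ} {D : Dat I Λ} {b : Tup I lb} (H : HMb D b) (s : Tup I len),
    (Minimalb D b s → ∀ ε : ℝ, 0 < ε → ∃ η : ℝ, 0 < η ∧ ∀ k, dlb H s k < η →
      |(hS (gS (H.mat k) s) s).im| ≤ ε * dlb H s k ^ 2) ∧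
    (∀ ε : ℝ, 0 < ε → ∃ η : ℝ, 0 < η ∧ ∀ k, dlb H s k < η → ∀ ν : Tup I len,
      (∀ A, IsLieb D b A → hS ν (aS A s) = 0) →
      ‖hS ν (gS (H.mat k) s - s)‖ ≤ ε * Real.sqrt (hS ν ν).re * dlb H s k)

/-- Row L1B: minimal points with the same invariants are conjugate under the compact group. -/
def L1bStatement : Prop :=
  ∀ {I Λ β ι : Type} [Fintype I] [DecidableEq I] [DecidableEq Λ] [Fintype β] [Fintype ι]
    {lb : β → ℕ} {len : ι → ℕ} {D : Dat I Λ} {b : Tup I lb} (_ : IsBase D b) (H : HMb D b)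
    (s s' : Tup I len), Minimalb D b s → hS s s ≠ 0 → hS s' s' = hS s s →
    (∀ (l : List (β ⊕ ι)) (m : Ten I ((l.map (Sum.elim lb len)).sum + 0)), IsMatch D _ m →
      dm D 0 l m (cmb b s') = dm D 0 l m (cmb b s)) → ∃ k, gS (H.mat k) s = s'

/-- Row L2B: at a minimal point the tensors fixed by the stabiliser are values of diagram maps. -/
def L2bStatement : Prop :=
  ∀ {I Λ β ι : Type} [Fintype I] [DecidableEq I] [DecidableEq Λ] [Fintype β] [Fintype ι]
    {lb : β → ℕ} {len : ι → ℕ} {D : Dat I Λ} {b : Tup I lb} (_ : IsBase D b) (H : HMb D b)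
    (s : Tup I len), Minimalb D b s → hS s s ≠ 0 → ∀ (c : ℕ) (v : Ten I c),
    (∀ k, gS (H.mat k) s = s → gT (H.mat k) v = v) → v ∈ MT D (cmb b s) c

/-- Row MIB: a minimal point in the closure of the orbit. -/
def MinbStatement : Prop :=
  ∀ {I Λ β ι : Type} [Fintype I] [DecidableEq I] [DecidableEq Λ] [Fintype β] [Fintype ι]
    {lb : β → ℕ} {len : ι → ℕ} (D : Dat I Λ) (b : Tup I lb) (t : Tup I len),
    ∃ (s : Tup I len) (g : ℕ → Matrix I I ℂ), (∀ j, IsGb D b (g j)) ∧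
      Tendsto (fun j => gS (g j) t) atTop (𝓝 s) ∧ Minimalb D b s

/-- nondegeneracy on the image of the complex span under `π` -/
def NdPib {I Λ ι : Type} [Fintype I] [DecidableEq I] [DecidableEq Λ] [Fintype ι] {len : ι → ℕ}
    (D : Dat I Λ) (t : Tup I len) {c : ℕ} (π : Ten I c →ₗ[ℂ] Ten I c) : Prop :=
  ∀ u ∈ MT D t c, π u ≠ 0 → ∃ v ∈ MT D t c, psiT D (π u) (π v) ≠ 0

/-- `ψ` is positive on the nonzero projections of the elements of the real span -/
def PosPib {I Λ ι : Type} [Fintype I] [DecidableEq I] [DecidableEq Λ] [Fintype ι] {len : ι → ℕ}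
    (D : Dat I Λ) (t : Tup I len) {c : ℕ} (π : Ten I c →ₗ[ℂ] Ten I c) : Prop :=
  ∀ u ∈ RT D t c, π u ≠ 0 → ∃ r : ℝ, 0 < r ∧ psiT D (π u) (π u) = (r : ℂ)

/-- Row CLB: the orbit under the stabiliser of `b` is closed. -/
def ClobStatement : Prop :=
  ∀ {I Λ β ι : Type} [Fintype I] [DecidableEq I] [DecidableEq Λ] [Fintype β] [Fintype ι]
    {lb : β → ℕ} {len : ι → ℕ} {D : Dat I Λ} {b : Tup I lb} (_ : IsBase D b) (_ : HMb D b)
    (π : ∀ i, Ten I (len i) →ₗ[ℂ] Ten I (len i))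
    (_ : ∀ i g u, IsG D g → π i (gT g u) = gT g (π i u)) (t s : Tup I len)
    (_ : ∀ i, π i (t i) = t i) (_ : ∀ i, NdPib D (cmb b t) (π i)) (_ : hS s s ≠ 0)
    (_ : Minimalb D b s) (g : ℕ → Matrix I I ℂ) (_ : ∀ j, IsGb D b (g j))
    (_ : Tendsto (fun j => gS (g j) t) atTop (𝓝 s)), ∃ g, IsGb D b g ∧ gS g s = t

/-- Row REB: a minimal point at which the form is positive on the projected real diagrams is
fixed by `J₀`. -/
def RealbStatement : Prop :=
  ∀ {I Λ β ι : Type} [Fintype I] [DecidableEq I] [DecidableEq Λ] [Fintype β] [Fintype ι]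
    {lb : β → ℕ} {len : ι → ℕ} {D : Dat I Λ} {b : Tup I lb} (_ : IsBase D b) (_ : HMb D b)
    (s : Tup I len) (_ : Minimalb D b s) (_ : hS s s ≠ 0)
    (π : ∀ i, Ten I (len i) →ₗ[ℂ] Ten I (len i)) (_ : ∀ i u, π i (jT D u) = jT D (π i u))
    (_ : ∀ i, π i (s i) = s i) (_ : ∀ i, PosPib D (cmb b s) (π i)) (_ : PosAt D (cmb b s) 0)
    (_ : jS D (jS D s) = s), jS D s = s

/-- Theorem YB: the relative form of Theorem Y with projectors. -/
def YbStatement : Prop :=
  ∀ {I Λ β ι : Type} [Fintype I] [DecidableEq I] [DecidableEq Λ] [Fintype β] [Fintype ι]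
    {lb : β → ℕ} {len : ι → ℕ} (D : Dat I Λ) (b : Tup I lb) (_ : IsBase D b)
    (π : ∀ i, Ten I (len i) →ₗ[ℂ] Ten I (len i))
    (_ : ∀ i g u, IsG D g → π i (gT g u) = gT g (π i u))
    (_ : ∀ i u, π i (jT D u) = jT D (π i u)) (t : Tup I len) (_ : ∀ i, π i (t i) = t i)
    (_ : ∀ i, PosPib D (cmb b t) (π i)) (_ : PosAt D (cmb b t) 0)
    (_ : ∃ i, len i = 0 ∧ ∀ w, t i w = 1) (_ : jS D (jS D t) = t),
    ∃ g, IsGb D b g ∧ (∀ i, gT g (jT D (gT g⁻¹ (t i))) = t i) ∧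
      ∀ (c : ℕ) (v : Ten I c), (∀ x, IsGb D b x → gS x t = t → gT x v = v) →
        v ∈ MT D (cmb b t) c

end Pool.Agent.Lib.MP_361a6f_ag.FL
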