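import Pool.Agent.Lib.MP_361a6f_ag.FL.B.Defs

/-!
# Row FFB: the tensors fixed by the compact stabiliser of `b` are values of diagram maps at `b`

A tuple fixed by `J₀` is a critical point of the norm on its orbit; so this is row L2 at `b`.
-/

set_option autoImplicit false
set_option linter.unusedSectionVars false

open Filter Topology MeasureTheory

namespace Pool.Agent.Lib.MP_361a6f_ag.FL

namespace Ffb

variable {I Λ β : Type} [Fintype I] [DecidableEq I] [DecidableEq Λ] [Fintype β] {lb : β → ℕ}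
  {D : Dat I Λ}

theorem hT_neg_right {L : ℕ} (u v : Ten I L) : hT u (-v) = -hT u v := by
  simp [hT, Finset.sum_neg_distrib]

theorem neg_aT (a1 : Alg1) {L : ℕ} (A : Matrix I I ℂ) (u : Ten I L) : aT (-A) u = -aT A u := by
  have h := a1.smul_aT (-1 : ℂ) A u
  simpa using h

/-- a tensor fixed by `J₀` is a critical point -/
theorem hT_aT_self (a1 : Alg1) {L : ℕ} {A : Matrix I I ℂ} (hA : IsLie D A) {u : Ten I L}
    (hu : jT D u = u) : hT (aT A u) u = 0 := by
  have h1 : hT (jT D u) (jT D (aT A u)) = hT (aT A u) u := a1.hT_jT_jT D u (aT A u)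
  rw [a1.jT_aT D A u hA, hu, neg_aT a1, hT_neg_right, ← a1.hT_aT] at h1
  have h2 : (2 : ℂ) * hT (aT A u) u = 0 := by linear_combination -h1
  simpa using h2

/-- a tuple fixed by `J₀` is a critical point of the norm on its orbit -/
theorem minimal_of_fix (a1 : Alg1) {b : Tup I lb} (hb : jS D b = b) : Minimal D b := by
  intro A hA
  refine Finset.sum_eq_zero fun i _ => ?_
  exact hT_aT_self a1 hA (congrFun hb i)

/-- a tuple with a unit entry is not zero -/
theorem hS_ne_zero (a1 : Alg1) {b : Tup I lb} (hb : ∃ i, lb i = 0 ∧ ∀ w, b i w = 1) :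
    hS b b ≠ 0 := by
  obtain ⟨i, hi, hw⟩ := hb
  have h1 : hS b b = ((∑ j, ∑ w, ‖b j w‖ ^ 2 : ℝ) : ℂ) := by
    rw [hS, Complex.ofReal_sum]
    exact Finset.sum_congr rfl fun j _ => a1.hT_self (b j)
  have h2 : 0 < ∑ j, ∑ w, ‖b j w‖ ^ 2 := by
    refine Finset.sum_pos' (fun j _ => Finset.sum_nonneg fun w _ => sq_nonneg _)
      ⟨i, Finset.mem_univ _, ?_⟩
    have : IsEmpty (Fin (lb i)) := by rw [hi]; infer_instance
    refine Finset.sum_pos' (fun w _ => sq_nonneg _) ⟨fun j => isEmptyElim j, Finset.mem_univ _, ?_⟩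
    rw [hw]
    norm_num
  rw [h1]
  exact_mod_cast h2.ne'

end Ffb

/-- Row FFB. -/
theorem ffb (a1 : Alg1) (cpt : CptStatement) (l2 : L2Statement) : FfbStatement := by
  intro I Λ β _ _ _ _ lb D b hb c v hv
  obtain ⟨H⟩ := cpt D
  refine l2 H b (Ffb.minimal_of_fix a1 hb.1) (Ffb.hS_ne_zero a1 hb.2) c v ?_
  intro k hk
  exact hv _ ⟨H.mem k, hk⟩

end Pool.Agent.Lib.MP_361a6f_ag.FL
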