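import Pool.Agent.Lib.MP_361a6f_ag.FL.B.GeoDefs

/-!
# Theorem L from its rows
-/

open CategoryTheory AlgebraicGeometry MonoidalCategory CartesianMonoidalCategory

universe u v w

namespace Pool.Agent.Lib.MP_361a6f_ag.FL

open Pool.Agent.Lib.MP_361a6f_ag.H3 Pool.Agent.Lib.MP_361a6f_ag.SQ
  Pool.Agent.Lib.MP_361a6f_ag.PP

/-- Theorem L. -/
theorem thmL (hLam : LamStatement.{u, w}) (hri : HriStatement.{u, w}) (gbj : GbjStatement.{u, w})
    (jh : JhStatement.{u, w}) (lpos : LposStatement.{u, w}) (hTal : FL.TalStatement.{u, w})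
    (jl : JlStatement.{u, w}) (genl : GenlStatement.{u, w}) (gql : GqlStatement.{u, w}) :
    ThmLStatement.{u, w} := by
  intro k _ W 𝒱 hW m X n hX ξ hpos hHL hAL J hJ hprod r hr P η hη
  choose Lam D using fun a => hLam hW (hX a) (hpos a).1 (hHL a) (hAL a)
  have hrs : ∀ a, IsRS W (X a) (n a) (ξ a) (Lam a) (J (.leaf a)) := fun a =>
    hri hW (hX a) (hpos a) (D a) (J (.leaf a)) (hJ a)
  obtain ⟨I, fin, dec, Dt, e, h1, h2, h3, h4, h5, h6⟩ := gbj hW hX (fun a => (hpos a).1) D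
    (fun a => J (.leaf a)) hrs
  let H : Host W 𝒱 m :=
    { hW := hW, X := X, n := n, mem := hX, ξ := ξ, ξ_alg := fun a => (hpos a).1, Lam := Lam,
      lam := D, I := I, fin := fin, dec := dec, D := Dt, odd_iff := h1, e := e, e_ne := h2,
      e_gr := h3, e_psi := h4, e_span := h5 }
  have hA : H.Adp J := ⟨hJ, hprod, h6⟩
  have hF : H.J0Facts J := jh H J hA hrs
  obtain ⟨g, hg⟩ := hTal H r (lpos H r hpos hr)
  obtain ⟨J', hJ'⟩ := jl H r J hF g hg
  exact gql H r J J' hJ' (genl H r J J' hJ') P η hη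

end Pool.Agent.Lib.MP_361a6f_ag.FL
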