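import Pool.Agent.Lib.MP_361a6f_ag.FL.B.GeoDefs
import Pool.Agent.Lib.MP_361a6f_ag.FL.B.BasJ
import Pool.Agent.Lib.MP_361a6f_ag.FL.GB

/-!
# Row GBJ: bases adapted to a real structure
-/

open CategoryTheory AlgebraicGeometry MonoidalCategory CartesianMonoidalCategory

universe u v w

set_option linter.unusedSectionVars false

namespace Pool.Agent.Lib.MP_361a6f_ag.FL

open Pool.Agent.Lib.MP_361a6f_ag.H3 Pool.Agent.Lib.MP_361a6f_ag.SQ
  Pool.Agent.Lib.MP_361a6f_ag.IP2 Pool.Agent.Lib.MP_361a6f_ag.PP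

namespace GBJ

section abs

variable {M : Type w} [AddCommGroup M] [Module ℂ M] {j : M →ₛₗ[starRingEnd ℂ] M}

theorem pow_j {a : Module.End ℂ M} (h : ∀ x, j (a x) = a (j x)) (i : ℕ) :
    ∀ x, j ((a ^ i) x) = (a ^ i) (j x) := by
  induction i with
  | zero => intro x; rw [pow_zero, Module.End.one_apply, Module.End.one_apply]
  | succ i ih =>
    intro x
    rw [pow_succ', Module.End.mul_apply, Module.End.mul_apply, h, ih]

theorem ex_j {a : Module.End ℂ M} (h : ∀ x, j (a x) = a (j x)) (x : M) :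
    j (ex a x) = ex a (j x) := by
  rw [ex, LinearMap.sum_apply, LinearMap.sum_apply, map_sum]
  refine Finset.sum_congr rfl fun i _ => ?_
  rw [LinearMap.smul_apply, LinearMap.smul_apply, LinearMap.map_smulₛₗ, pow_j h, map_inv₀,
    map_natCast]

theorem wop_j {L Λ : Module.End ℂ M} (hL : ∀ x, j (L x) = L (j x)) (hΛ : ∀ x, j (Λ x) = Λ (j x))
    (x : M) : j (wop L Λ x) = wop L Λ (j x) := by
  have h : ∀ x, j ((-Λ) x) = (-Λ) (j x) := fun x => by
    rw [LinearMap.neg_apply, LinearMap.neg_apply, map_neg, hΛ]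
  rw [wop, Module.End.mul_apply, Module.End.mul_apply, Module.End.mul_apply,
    Module.End.mul_apply, ex_j hL, ex_j h, ex_j hL]

end abs

variable {k : Type u} [Field k] {W : CohomologyData.{u, 0, w} k ℂ} {𝒱 : VarietyClass k}

section one

variable (hW : IsWeilCohomology W 𝒱) {X : Sch k} {n : ℕ} (hX : 𝒱.mem X n) {ξ : W.coh X}
  (hξ : ξ ∈ W.alg X 1) {Lam : Module.End ℂ (W.coh X)} (D : LamData W X n ξ Lam)
  {j : W.coh X →ₛₗ[starRingEnd ℂ] W.coh X} (R : IsRS W X n ξ Lam j)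

include hW hX R in
theorem star_j (x : W.coh X) : j (star R.slm.internal (Lop W X ξ) Lam x)
    = star R.slm.internal (Lop W X ξ) Lam (j x) := by
  refine hW.hom_induction hX (P := fun x => j (star R.slm.internal (Lop W X ξ) Lam x)
    = star R.slm.internal (Lop W X ξ) Lam (j x)) x ?_ ?_ ?_
  · intro i x hx
    rw [PP.star, Module.End.mul_apply, Module.End.mul_apply, gop_apply _ _ hx,
      gop_apply _ _ (R.gr i x hx), (wop (Lop W X ξ) Lam).map_smul,
      (wop (Lop W X ξ) Lam).map_smul, LinearMap.map_smulₛₗ,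
      wop_j (fun x => R.map_L x) R.map_Lam, sgn, map_pow, map_neg, map_one]
  · simp only [map_zero]
  · intro x y hx hy
    simp only [map_add, hx, hy]

include hW hX in
theorem psi_jj (x y : W.coh X) : psi W X ξ Lam R.slm.internal (j x) (j y)
    = starRingEnd ℂ (psi W X ξ Lam R.slm.internal x y) := by
  rw [psi, psi, ← star_j hW hX R, R.tr]

/-- the operator on the degree `i` -/
def jG (i : ℕ) : W.gr X i →ₛₗ[starRingEnd ℂ] W.gr X i where
  toFun x := ⟨j x, R.gr i x x.2⟩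
  map_add' x y := Subtype.ext (by
    show j ((x : W.coh X) + y) = j x + j y
    rw [map_add])
  map_smul' c x := Subtype.ext (by
    show j (c • (x : W.coh X)) = starRingEnd ℂ c • j x
    rw [LinearMap.map_smulₛₗ])

theorem jG_coe (i : ℕ) (x : W.gr X i) : (jG R i x : W.coh X) = j x := rfl

include hW hX hξ in
theorem hj (i : ℕ) : BasJ.HJ (Odd i) (GB.psiG D i) (jG R i) where
  alt x y hi := by
    rw [GB.psiG_apply, GB.psiG_apply, GB.psi_symm_gr hW staB hX hξ D _ y.2, hi.neg_one_pow,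
      neg_one_mul]
  symm x y hi := by
    rw [GB.psiG_apply, GB.psiG_apply, GB.psi_symm_gr hW staB hX hξ D _ y.2,
      (Nat.not_odd_iff_even.1 hi).neg_one_pow, one_mul]
  conj x y := psi_jj hW hX R x y
  pos x hx := R.pos x (fun h => hx (Subtype.ext h))

end one

end GBJ

/-- Row GBJ. -/
theorem gbj : GbjStatement.{u, w} := by
  intro k _ W 𝒱 hW m X n hX ξ hξ Lam D j R
  classical
  have : ∀ a, Module.Finite ℂ (W.coh (X a)) := fun a => hW.graded.finite (hX a)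
  let A : Type := Σ a : Fin m, Fin (2 * n a + 1)
  obtain ⟨N, b, t, D0, h1, h2, h3, h4, h5⟩ := exists_datJ.{w} (Λ := A)
    (fun α => W.gr (X α.1) (α.2 : ℕ)) (fun α => Odd (α.2 : ℕ))
    (fun α => GB.psiG (D α.1) (α.2 : ℕ)) (fun α => GBJ.jG (R α.1) (α.2 : ℕ))
    (fun α => GBJ.hj hW (hX α.1) (hξ α.1) (D α.1) (R α.1) (α.2 : ℕ))
  let D1 : Dat (Σ α : A, Fin (N α)) (Fin m × ℕ) :=
    { typ := fun i => (i.1.1, (i.1.2 : ℕ))
      odd := fun l => Odd l.2
      τ := D0.τ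
      s := D0.s
      τ_τ := D0.τ_τ
      typ_τ := fun i => by rw [h3 i]
      s_val := D0.s_val
      even_τ := fun i hi => D0.even_τ i (by rw [h2, h1]; exact hi)
      odd_τ := fun i hi => D0.odd_τ i (by rw [h2, h1]; exact hi) }
  let e : ∀ a, (Σ α : A, Fin (N α)) → W.coh (X a) := fun a i =>
    GB.ins X a i.1.1 ((b i.1 i.2 : W.gr (X i.1.1) (i.1.2 : ℕ)) : W.coh (X i.1.1))
  have he : ∀ (a : Fin m) (i : Fin (2 * n a + 1)) (j : Fin (N ⟨a, i⟩)),
      e a ⟨⟨a, i⟩, j⟩ = ((b ⟨a, i⟩ j : W.gr (X a) (i : ℕ)) : W.coh (X a)) := fun a i j =>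
    GB.ins_self X a _
  refine ⟨Σ α : A, Fin (N α), inferInstance, inferInstance, D1, e, fun l => Iff.rfl, ?_, ?_, ?_,
    ?_, ?_⟩
  · intro a x hx
    exact GB.ins_ne X hx _
  · rintro a ⟨⟨c, i⟩, j⟩
    by_cases hc : c = a
    · subst hc
      rw [he]
      exact (b ⟨c, i⟩ j).2
    · have : e a ⟨⟨c, i⟩, j⟩ = 0 := GB.ins_ne X hc _
      rw [this]
      exact zero_mem _
  · rintro a ⟨⟨c, i⟩, j⟩ ⟨⟨c', i'⟩, j'⟩ hc hc'
    change c = a at hc
    change c' = a at hc'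
    subst hc
    subst hc'
    rw [he, he]
    by_cases hi : i = i'
    · subst hi
      have h5 := h4 ⟨c', i⟩ j j'
      rw [GB.psiG_apply] at h5
      rw [h5]
      refine if_congr ?_ rfl rfl
      show j' = t ⟨c', i⟩ j ↔ (⟨⟨c', i⟩, j'⟩ : Σ α : A, Fin (N α)) = D0.τ ⟨⟨c', i⟩, j⟩
      rw [h3]
      constructor
      · intro h; rw [h]
      · intro h; simpa using h
    · have h5 : (i : ℕ) ≠ (i' : ℕ) := fun h => hi (Fin.ext h)
      rw [GB.psi_gr_ne hW staB (hX c') (hξ c') (D c') (b ⟨c', i⟩ j).2 (b ⟨c', i'⟩ j').2 h5,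
        if_neg]
      show ¬ (⟨⟨c', i'⟩, j'⟩ : Σ α : A, Fin (N α)) = D0.τ ⟨⟨c', i⟩, j⟩
      rw [h3]
      intro h
      apply hi
      have h6 := congrArg Sigma.fst h
      have h7 : (⟨c', i'⟩ : A) = ⟨c', i⟩ := h6
      simpa using h7.symm
  · intro a
    rw [eq_top_iff, ← (D a).slm.internal.submodule_iSup_eq_top, iSup_le_iff]
    intro i x hx
    by_cases hi : i < 2 * n a + 1
    · have h5 := (b ⟨a, ⟨i, hi⟩⟩).sum_repr ⟨x, hx⟩
      have h6 : x = ∑ j, (b ⟨a, ⟨i, hi⟩⟩).repr ⟨x, hx⟩ j •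
          ((b ⟨a, ⟨i, hi⟩⟩ j : W.gr (X a) i) : W.coh (X a)) := by
        have := congrArg (Subtype.val) h5
        rw [AddSubmonoidClass.coe_finsetSum] at this
        exact this.symm
      rw [h6]
      refine Submodule.sum_mem _ fun j _ => Submodule.smul_mem _ _ (Submodule.subset_span ?_)
      exact ⟨⟨⟨a, ⟨i, hi⟩⟩, j⟩, he a ⟨i, hi⟩ j⟩
    · rw [(D a).slm.top i x hx (by omega)]
      exact zero_mem _
  · rintro a ⟨⟨c, i⟩, p⟩ hc
    change c = a at hc
    subst hc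
    have h6 := congrArg (Subtype.val) (h5 ⟨c, i⟩ p)
    rw [he]
    have h7 : e c (D0.τ ⟨⟨c, i⟩, p⟩) = ((b ⟨c, i⟩ (t ⟨c, i⟩ p) : W.gr (X c) (i : ℕ)) :
        W.coh (X c)) := by
      rw [h3]
      exact he c i _
    show j c _ = D0.s _ • e c (D0.τ ⟨⟨c, i⟩, p⟩)
    rw [h7]
    exact h6

end Pool.Agent.Lib.MP_361a6f_ag.FL
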