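import Pool.Agent.Lib.MP_361a6f_ag.FL.Stat

/-!
# Varieties whose cohomology has a Hodge-Riemann structure: the definitions used in the statement
-/

open CategoryTheory AlgebraicGeometry MonoidalCategory CartesianMonoidalCategory

universe u v w

namespace Pool.Agent.Lib.MP_361a6f_ag.FL

open Pool.Agent.Lib.MP_361a6f_ag.H3 Pool.Agent.Lib.MP_361a6f_ag.SQ
  Pool.Agent.Lib.MP_361a6f_ag.PP

noncomputable section

variable {k : Type u} [Field k] {m : ℕ}

/-- A Hodge-Riemann structure on the cohomology of `(X, ξ)`: an antilinear map `j` that is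
multiplicative and preserves the degree, with `j ξ = ξ` and with `Tr(j x)` the complex conjugate
of `Tr(x)`, such that `(-1)^(i(i+1)/2) Tr(ξ^(n-i) x j(x)) > 0` for all primitive `x ≠ 0` of degree
`i ≤ n`. (In characteristic `0`: complex conjugation followed by the Weil operator.) -/
structure HRStr (W : CohomologyData.{u, 0, w} k ℂ) (X : Sch k) (n : ℕ) (ξ : W.coh X)
    (j : W.coh X →ₛₗ[starRingEnd ℂ] W.coh X) : Prop where
  cup : ∀ x y, j (W.cup x y) = W.cup (j x) (j y)
  deg : ∀ i x, W.Deg X i x → W.Deg X i (j x)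
  pol : j ξ = ξ
  tr : ∀ x, W.Tr (j x) = starRingEnd ℂ (W.Tr x)
  pos : ∀ i x, i ≤ n → Primitive W X n ξ i x → x ≠ 0 → ∃ r : ℝ, 0 < r ∧
    (-1) ^ (i * (i + 1) / 2) * W.Tr (W.cup (ξ ^ (n - i)) (W.cup x (j x))) = (r : ℂ)

/-- The classes on the products of the `X_a` generated by the algebraic classes of codimension at
most `r P` on the products `P` and by the algebraic classes fixed by the operators `J P`, under
exterior products, cup products, and pull-backs and push-forwards along the morphisms that are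
composed of projections, permutations of the factors and diagonals. -/
inductive GenL (W : CohomologyData.{u, 0, w} k ℂ) (X : Fin m → Sch k) (r : Prd m → ℕ)
    (J : ∀ P : Prd m, W.coh (P.obj X) →ₛₗ[starRingEnd ℂ] W.coh (P.obj X)) :
    (P : Prd m) → W.coh (P.obj X) → Prop
  | alg (P : Prd m) (l : ℕ) (z : W.coh (P.obj X)) : l ≤ r P → W.IsAlg (P.obj X) l z →
      GenL W X r J P z
  | fix (P : Prd m) (l : ℕ) (z : W.coh (P.obj X)) : W.IsAlg (P.obj X) l z → J P z = z →
      GenL W X r J P z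
  | ext (P Q : Prd m) (z : W.coh (P.obj X)) (z' : W.coh (Q.obj X)) : GenL W X r J P z →
      GenL W X r J Q z' → GenL W X r J (.prod P Q) (W.ext z z')
  | cup (P : Prd m) (z z' : W.coh (P.obj X)) : GenL W X r J P z → GenL W X r J P z' →
      GenL W X r J P (W.cup z z')
  | pb (P Q : Prd m) (f : Sch.Mor (P.obj X) (Q.obj X)) (z : W.coh (Q.obj X)) :
      CoordMor X 3 P Q f → GenL W X r J Q z → GenL W X r J P (W.pb f z)
  | pf (P Q : Prd m) (f : Sch.Mor (P.obj X) (Q.obj X)) (z : W.coh (P.obj X)) :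
      CoordMor X 3 P Q f → GenL W X r J P z → GenL W X r J Q (W.pf f z)

/-- The `ℂ`-span of these classes. -/
def spanL (W : CohomologyData.{u, 0, w} k ℂ) (X : Fin m → Sch k) (r : Prd m → ℕ)
    (J : ∀ P : Prd m, W.coh (P.obj X) →ₛₗ[starRingEnd ℂ] W.coh (P.obj X)) (P : Prd m) :
    Submodule ℂ (W.coh (P.obj X)) :=
  Submodule.span ℂ {z | GenL W X r J P z}

end

/-- Theorem L. -/
def ThmLStatement : Prop :=
  ∀ {k : Type u} [Field k] (W : CohomologyData.{u, 0, w} k ℂ) (𝒱 : VarietyClass k)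
    (_ : IsWeilCohomology W 𝒱) {m : ℕ} {X : Fin m → Sch k} {n : Fin m → ℕ}
    (_ : ∀ a, 𝒱.mem (X a) (n a))
    {ξ : ∀ a, W.coh (X a)} (_ : ∀ a, PositiveDivisor W (X a) (n a) (ξ a))
    (_ : ∀ a, HardLefschetz W (X a) (n a) (ξ a))
    (_ : ∀ a, AlgebraicLambda W (X a) (n a) (ξ a))
    (J : ∀ P : Prd m, W.coh (P.obj X) →ₛₗ[starRingEnd ℂ] W.coh (P.obj X))
    (_ : ∀ a, HRStr W (X a) (n a) (ξ a) (J (.leaf a)))
    (_ : ∀ (P Q : Prd m) (y : W.coh (P.obj X)) (x : W.coh (Q.obj X)),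
      J (.prod P Q) (W.ext y x) = W.ext (J P y) (J Q x))
    (r : Prd m → ℕ)
    (_ : ∀ (P : Prd m) (i : ℕ), i ≤ r P → HodgeCodim W (P.obj X) (P.dim n) (P.pol W ξ) i)
    (P : Prd m) (η : W.coh (P.obj X)) (_ : IsPol W ξ P η),
    HodgeOn W (P.obj X) (P.dim n) η (spanL W X r J P)

end Pool.Agent.Lib.MP_361a6f_ag.FL
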