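import Pool.Agent.Lib.MP_361a6f_ag.FL.GeoDefs
import Pool.Agent.Lib.MP_361a6f_ag.FL.Qps
import Pool.Agent.Lib.MP_361a6f_ag.FL.B.Defs
import Pool.Agent.Lib.MP_361a6f_ag.FL.B.Stat

/-!
# Theorem L: statements of the geometric rows
-/

open CategoryTheory AlgebraicGeometry MonoidalCategory CartesianMonoidalCategory

universe u v w

namespace Pool.Agent.Lib.MP_361a6f_ag.FL

open Pool.Agent.Lib.MP_361a6f_ag.H3 Pool.Agent.Lib.MP_361a6f_ag.SQ
  Pool.Agent.Lib.MP_361a6f_ag.PP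

noncomputable section

variable {k : Type u} [Field k] {m : ℕ}

namespace Host

variable {W : CohomologyData.{u, 0, w} k ℂ} {𝒱 : VarietyClass k} (H : Host W 𝒱 m)

/-- the operators `J P` are the tensor products of Hodge-Riemann structures, and the bases of the
host are adapted to them -/
structure Adp (J : ∀ P : Prd m, W.coh (P.obj H.X) →ₛₗ[starRingEnd ℂ] W.coh (P.obj H.X)) :
    Prop where
  hr : ∀ a, HRStr W (H.X a) (H.n a) (H.ξ a) (J (.leaf a))
  prod : ∀ (P Q : Prd m) (y : W.coh (P.obj H.X)) (x : W.coh (Q.obj H.X)),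
    J (.prod P Q) (W.pull (fst (P.obj H.X) (Q.obj H.X)) y
        * W.pull (snd (P.obj H.X) (Q.obj H.X)) x)
      = W.pull (fst (P.obj H.X) (Q.obj H.X)) (J P y)
        * W.pull (snd (P.obj H.X) (Q.obj H.X)) (J Q x)
  bas : ∀ a x, (H.D.typ x).1 = a → J (.leaf a) (H.e a x) = H.D.s x • H.e a (H.D.τ x)

/-- Row JH: the operators of an adapted host. -/
structure J0Facts (J : ∀ P : Prd m, W.coh (P.obj H.X) →ₛₗ[starRingEnd ℂ] W.coh (P.obj H.X)) :
    Prop where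
  tc : ∀ P z, H.tc P (J P z) = jT H.D (H.tc P z)
  rs : ∀ P, IsRS W (P.obj H.X) (P.dim H.n) (P.pol W H.ξ) (H.LamP P) (J P)
  mul : ∀ (P : Prd m) (x y : W.coh (P.obj H.X)), J P (x * y) = J P x * J P y
  pull : ∀ (P Q : Prd m) (f : Sch.Mor (P.obj H.X) (Q.obj H.X)), CoordMor H.X 3 P Q f →
    ∀ z, J P (W.pb f z) = W.pb f (J Q z)
  push : ∀ (P Q : Prd m) (f : Sch.Mor (P.obj H.X) (Q.obj H.X)), CoordMor H.X 3 P Q f →
    ∀ z, J Q (W.pf f z) = W.pf f (J P z)

/-- the algebraic tensors on the letters `α`, of codimension at most `r P` for some product `P`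
with these labels -/
structure LAt (r : Prd m → ℕ) {L : ℕ} (α : Fin L → Fin m × ℕ) (u : Ten H.I L) : Prop where
  mem : u ∈ H.At L
  on : ∀ w, u w ≠ 0 → ∀ i, H.D.typ (w i) = α i
  cod : ∃ (P : Prd m) (h : P.size = L), (∀ i, P.lw i = (α (Fin.cast h i)).1) ∧
    ∑ i, (α i).2 ≤ 2 * r P

/-- Row LPOS: positivity. -/
def LPos (r : Prd m → ℕ) : Prop :=
  ∀ (L : ℕ) (α : Fin L → Fin m × ℕ) (u : Ten H.I L), H.LAt r α u → u ≠ 0 →
    RatPos (psiT H.D u u)

/-- Row TAL: `g` fixes the algebraic tensors fixed by `J₀`, and `g J₀ g⁻¹` fixes the algebraic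
tensors on letters of small codimension. -/
structure FixL (r : Prd m → ℕ) (g : Matrix H.I H.I ℂ) : Prop where
  G : IsG H.D g
  base : ∀ (L : ℕ) (u : Ten H.I L), u ∈ H.At L → jT H.D u = u → gT g u = u
  fix : ∀ (L : ℕ) (α : Fin L → Fin m × ℕ) (u : Ten H.I L), H.LAt r α u →
    gT g (jT H.D (gT g⁻¹ u)) = u

/-- Row JL: the real structures on all products. -/
structure JFactsL (r : Prd m → ℕ)
    (J J' : ∀ P : Prd m, W.coh (P.obj H.X) →ₛₗ[starRingEnd ℂ] W.coh (P.obj H.X)) : Prop where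
  rs : ∀ P, IsRS W (P.obj H.X) (P.dim H.n) (P.pol W H.ξ) (H.LamP P) (J' P)
  prod : ∀ (P Q : Prd m) (y : W.coh (P.obj H.X)) (x : W.coh (Q.obj H.X)),
    J' (.prod P Q) (W.pull (fst (P.obj H.X) (Q.obj H.X)) y
        * W.pull (snd (P.obj H.X) (Q.obj H.X)) x)
      = W.pull (fst (P.obj H.X) (Q.obj H.X)) (J' P y)
        * W.pull (snd (P.obj H.X) (Q.obj H.X)) (J' Q x)
  mul : ∀ (a : Fin m) (x y : W.coh (H.X a)),
    J' (.leaf a) (x * y) = J' (.leaf a) x * J' (.leaf a) y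
  alg : ∀ (P : Prd m) (l : ℕ) (z : W.coh (P.obj H.X)), l ≤ r P → z ∈ W.alg (P.obj H.X) l →
    J' P z = z
  fix : ∀ (P : Prd m) (l : ℕ) (z : W.coh (P.obj H.X)), z ∈ W.alg (P.obj H.X) l → J P z = z →
    J' P z = z

end Host

end

/-! ### Statements of the rows -/

/-- Row QPB: for a rational system of tensors and arbitrarily many projectors such that `ψ` is
positive on the members of the system in the images of the projectors, there is an element `g` of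
the group that fixes the members fixed by `J₀`, such that `g J₀ g⁻¹` fixes the members in the
images of the projectors (from `YbStatement` and Noether). -/
def QpbStatement : Prop :=
  ∀ {I Λ : Type} [Fintype I] [DecidableEq I] [DecidableEq Λ] {D : Dat I Λ}
    {At : (L : ℕ) → Ten I L → Prop} (_ : ASys D At) {κ : Type} (ln : κ → ℕ)
    (π : ∀ x, Ten I (ln x) →ₗ[ℂ] Ten I (ln x))
    (_ : ∀ x g u, IsG D g → π x (gT g u) = gT g (π x u))
    (_ : ∀ x u, π x (jT D u) = jT D (π x u)) (_ : ∀ x u, π x (π x u) = π x u)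
    (_ : ∀ x u, At (ln x) u → At (ln x) (π x u))
    (_ : ∀ x u, At (ln x) u → π x u = u → u ≠ 0 → ∃ q : ℚ, 0 < q ∧ psiT D u u = (q : ℂ)),
    ∃ g : Matrix I I ℂ, IsG D g ∧ (∀ (L : ℕ) (u : Ten I L), At L u → jT D u = u → gT g u = u) ∧
      ∀ x u, At (ln x) u → π x u = u → gT g (jT D (gT g⁻¹ u)) = u

/-- Row HRI: a Hodge-Riemann structure is a real structure. -/
def HriStatement : Prop :=
  ∀ {k : Type u} [Field k] {W : CohomologyData.{u, 0, w} k ℂ} {𝒱 : VarietyClass k}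
    (_ : IsWeilCohomology W 𝒱) {X : Sch k} {n : ℕ} (_ : 𝒱.mem X n) {ξ : W.coh X}
    (_ : PositiveDivisor W X n ξ) {Lam : Module.End ℂ (W.coh X)} (_ : LamData W X n ξ Lam)
    (j : W.coh X →ₛₗ[starRingEnd ℂ] W.coh X) (_ : HRStr W X n ξ j), IsRS W X n ξ Lam j

/-- Row GBJ: adapted bases exist. -/
def GbjStatement : Prop :=
  ∀ {k : Type u} [Field k] {W : CohomologyData.{u, 0, w} k ℂ} {𝒱 : VarietyClass k}
    (_ : IsWeilCohomology W 𝒱) {m : ℕ} {X : Fin m → Sch k} {n : Fin m → ℕ}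
    (_ : ∀ a, 𝒱.mem (X a) (n a)) {ξ : ∀ a, W.coh (X a)} (_ : ∀ a, ξ a ∈ W.alg (X a) 1)
    {Lam : ∀ a, Module.End ℂ (W.coh (X a))} (lam : ∀ a, LamData W (X a) (n a) (ξ a) (Lam a))
    (j : ∀ a, W.coh (X a) →ₛₗ[starRingEnd ℂ] W.coh (X a))
    (_ : ∀ a, IsRS W (X a) (n a) (ξ a) (Lam a) (j a)),
    ∃ (I : Type) (_ : Fintype I) (_ : DecidableEq I) (D : Dat I (Fin m × ℕ))
      (e : ∀ a, I → W.coh (X a)), (∀ l, D.odd l ↔ Odd l.2) ∧
      (∀ a x, (D.typ x).1 ≠ a → e a x = 0) ∧ (∀ a x, e a x ∈ W.gr (X a) (D.typ x).2) ∧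
      (∀ a x y, (D.typ x).1 = a → (D.typ y).1 = a →
        psi W (X a) (ξ a) (Lam a) (lam a).slm.internal (e a x) (e a y)
          = if y = D.τ x then D.s x else 0) ∧
      (∀ a, Submodule.span ℂ (Set.range (e a)) = ⊤) ∧
      ∀ a x, (D.typ x).1 = a → j a (e a x) = D.s x • e a (D.τ x)

/-- Row JH. -/
def JhStatement : Prop :=
  ∀ {k : Type u} [Field k] {W : CohomologyData.{u, 0, w} k ℂ} {𝒱 : VarietyClass k} {m : ℕ}
    (H : Host W 𝒱 m) (J) (_ : H.Adp J)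
    (_ : ∀ a, IsRS W (H.X a) (H.n a) (H.ξ a) (H.Lam a) (J (.leaf a))), H.J0Facts J

/-- Row LPOS. -/
def LposStatement : Prop :=
  ∀ {k : Type u} [Field k] {W : CohomologyData.{u, 0, w} k ℂ} {𝒱 : VarietyClass k} {m : ℕ}
    (H : Host W 𝒱 m) (r : Prd m → ℕ),
    (∀ a, PositiveDivisor W (H.X a) (H.n a) (H.ξ a)) →
    (∀ (P : Prd m) (i : ℕ), i ≤ r P →
      HodgeCodim W (P.obj H.X) (P.dim H.n) (P.pol W H.ξ) i) → H.LPos r

/-- Row TAL (from `QpbStatement`). -/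
def TalStatement : Prop :=
  ∀ {k : Type u} [Field k] {W : CohomologyData.{u, 0, w} k ℂ} {𝒱 : VarietyClass k} {m : ℕ}
    (H : Host W 𝒱 m) (r : Prd m → ℕ), H.LPos r → ∃ g, H.FixL r g

/-- Row JL. -/
def JlStatement : Prop :=
  ∀ {k : Type u} [Field k] {W : CohomologyData.{u, 0, w} k ℂ} {𝒱 : VarietyClass k} {m : ℕ}
    (H : Host W 𝒱 m) (r : Prd m → ℕ) (J) (_ : H.J0Facts J) (g : Matrix H.I H.I ℂ)
    (_ : H.FixL r g), ∃ J', H.JFactsL r J J'

/-- Row GENL: the real structures fix everything that is generated. -/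
def GenlStatement : Prop :=
  ∀ {k : Type u} [Field k] {W : CohomologyData.{u, 0, w} k ℂ} {𝒱 : VarietyClass k} {m : ℕ}
    (H : Host W 𝒱 m) (r : Prd m → ℕ) (J J') (_ : H.JFactsL r J J'),
    ∀ P z, GenL W H.X r J P z → J' P z = z

/-- Row GQL: positivity on everything that is generated. -/
def GqlStatement : Prop :=
  ∀ {k : Type u} [Field k] {W : CohomologyData.{u, 0, w} k ℂ} {𝒱 : VarietyClass k} {m : ℕ}
    (H : Host W 𝒱 m) (r : Prd m → ℕ) (J J') (_ : H.JFactsL r J J'),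
    (∀ P z, GenL W H.X r J P z → J' P z = z) → ∀ (P : Prd m) (η : W.coh (P.obj H.X)),
    IsPol W H.ξ P η → HodgeOn W (P.obj H.X) (P.dim H.n) η (spanL W H.X r J P)

end Pool.Agent.Lib.MP_361a6f_ag.FL
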