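import Pool.Agent.Lib.MP_361a6f_ag.FL.B.GeoDefs
import Pool.Agent.Lib.MP_361a6f_ag.FL.GQ

/-!
# Row GQL: positivity on everything that is generated (Theorem L)
-/

open CategoryTheory AlgebraicGeometry MonoidalCategory CartesianMonoidalCategory

universe u v w

namespace Pool.Agent.Lib.MP_361a6f_ag.FL

open Pool.Agent.Lib.MP_361a6f_ag.H3 Pool.Agent.Lib.MP_361a6f_ag.SQ
  Pool.Agent.Lib.MP_361a6f_ag.PP

namespace GQL

variable {k : Type u} [Field k] {m : ℕ} {W : CohomologyData.{u, 0, w} k ℂ} {𝒱 : VarietyClass k}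

/-- generated classes are sums of algebraic classes -/
theorem genL_tot (H : Host W 𝒱 m) {r : Prd m → ℕ}
    {J : ∀ P : Prd m, W.coh (P.obj H.X) →ₛₗ[starRingEnd ℂ] W.coh (P.obj H.X)} {P : Prd m}
    {z : W.coh (P.obj H.X)} (hz : GenL W H.X r J P z) : z ∈ tot W (P.obj H.X) := by
  induction hz with
  | alg P l z _ hz => exact alg_le_tot H.hW _ l hz
  | fix P l z hz _ => exact alg_le_tot H.hW _ l hz
  | ext P Q z z' _ _ h h' =>
    have hp := 𝒱.prod (H.memP P) (H.memP Q)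
    exact tot_mul H.hW hp (tot_pull H.hW hp (H.memP P) _ h) (tot_pull H.hW hp (H.memP Q) _ h')
  | cup P z z' _ _ h h' => exact tot_mul H.hW (H.memP P) h h'
  | pb P Q f z _ _ h => exact tot_pull H.hW (H.memP P) (H.memP Q) f h
  | pf P Q f z _ _ h => exact tot_push H.hW (H.memP P) (H.memP Q) f h

/-- the real structures for all polarisations -/
theorem pol_rs (hRsp : RspStatement.{u, w}) (hRsc : RscStatement.{u, w}) (H : Host W 𝒱 m)
    {r : Prd m → ℕ} {J₀ J : ∀ P : Prd m, W.coh (P.obj H.X) →ₛₗ[starRingEnd ℂ] W.coh (P.obj H.X)}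
    (hJ : H.JFactsL r J₀ J) {P : Prd m} {η : W.coh (P.obj H.X)} (hη : IsPol W H.ξ P η) :
    ∃ L : Module.End ℂ (W.coh (P.obj H.X)), IsRS W (P.obj H.X) (P.dim H.n) η L (J P) := by
  induction hη with
  | leaf a c hc =>
    have h1 := hRsc H.hW (H.memP (.leaf a)) ((c : ℚ) : ℝ) (by exact_mod_cast hc)
      (hJ.rs (.leaf a))
    have e1 : ((((c : ℚ) : ℝ)) : ℂ) = ((c : ℚ) : ℂ) := by push_cast; rfl
    rw [e1] at h1
    exact ⟨_, h1⟩
  | prod P Q η θ hη hθ h h' =>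
    obtain ⟨L, hL⟩ := h
    obtain ⟨L', hL'⟩ := h'
    obtain ⟨j, hj, hjp⟩ := hRsp H.hW (H.memP P) (H.memP Q)
      (H.hW.alg_gr (H.memP P) (j := 1) (GQ.pol_alg H hη))
      (H.hW.alg_gr (H.memP Q) (j := 1) (GQ.pol_alg H hθ)) hL hL'
    have e : j = J (.prod P Q) := by
      refine GQ.ext_anti H.hW (H.memP P) (H.memP Q) _ _ fun y x => ?_
      rw [hjp]
      exact (hJ.prod P Q y x).symm
    subst e
    exact ⟨_, hj⟩

end GQL

open GQL in
/-- Row GQL. -/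
theorem gql (hRsp : RspStatement.{u, w}) (hRsc : RscStatement.{u, w})
    (hRsq : RsqStatement.{u, w}) (hSpn : SpnStatement.{u, w}) : GqlStatement.{u, w} := by
  intro k _ W 𝒱 m H r J₀ J hJ hfx P η hη l hl x hx hxR hx1 hx0
  have hM := H.memP P
  have hηa := GQ.pol_alg H hη
  obtain ⟨L, hL⟩ := pol_rs hRsp hRsc H hJ hη
  have hjx : J P x = x := by
    refine hSpn H.hW hM (H.lamP P).2 (H.lamP P).1 (hJ.rs P) {z | GenL W H.X r J₀ P z}
      (fun z hz => genL_tot H hz) (fun z hz => hfx P z hz) x (alg_le_tot H.hW _ _ hx) hxR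
  obtain ⟨ρ, hρ, h⟩ := hRsq H.hW hM (H.hW.alg_gr hM (j := 1) hηa) hL l x hl
    (H.hW.alg_gr hM hx) hx1 hx0 hjx
  have h2 : η ^ (P.dim H.n - 2 * l) * (x * x) ∈ W.alg (P.obj H.X) (P.dim H.n) := by
    have h3 := H.hW.mul_alg hM (H.hW.pow_alg hM hηa (P.dim H.n - 2 * l))
      (H.hW.mul_alg hM hx hx)
    rwa [show P.dim H.n - 2 * l + (l + l) = P.dim H.n by omega] at h3
  obtain ⟨q, hq⟩ := H.hW.tr_alg hM h2
  refine ⟨(-1) ^ l * q, ?_, ?_⟩
  · rw [hq] at h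
    have h4 : (((-1) ^ l * q : ℚ) : ℝ) = ρ := by
      have : (((((-1) ^ l * q : ℚ) : ℝ)) : ℂ) = (ρ : ℂ) := by
        rw [← h]
        push_cast
        ring
      exact_mod_cast this
    have h5 : (0 : ℝ) < (((-1) ^ l * q : ℚ) : ℝ) := by rw [h4]; exact hρ
    exact_mod_cast h5
  · change (-1 : ℂ) ^ l * W.tr (P.obj H.X) (η ^ (P.dim H.n - 2 * l) * (x * x)) = _
    rw [hq]
    push_cast
    ring

end Pool.Agent.Lib.MP_361a6f_ag.FL
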