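import Pool.Agent.Lib.MP_361a6f_ag.FL.B.AbV
import Pool.Agent.Lib.MP_361a6f_ag.PP.Rsp

/-!
# The cohomology of a variety with a unital law

Let `X` have a multiplication with a two-sided unit, `H^0(X) = ℂ`, and a divisor class `ξ` with
`Tr(ξ^g) ≠ 0`, `g = dim X`. Then `H^*(X)` is generated by `H^1(X)`, and `H^1(X)` has dimension
`2 g`.
-/

open CategoryTheory AlgebraicGeometry MonoidalCategory CartesianMonoidalCategory

universe u v w

set_option autoImplicit false
set_option linter.unusedSectionVars false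

namespace Pool.Agent.Lib.MP_361a6f_ag.FL

open Pool.Agent.Lib.MP_361a6f_ag.H3 Pool.Agent.Lib.MP_361a6f_ag.SQ
  Pool.Agent.Lib.MP_361a6f_ag.PP

namespace HopF

variable {k : Type u} [Field k] {W : CohomologyData.{u, 0, w} k ℂ} {𝒱 : VarietyClass k}

/-- the classes of degree `i` on `X × X` with no component of bidegree `(i, 0)` or `(0, i)` -/
noncomputable def Mid (W : CohomologyData.{u, 0, w} k ℂ) (X : Sch k) (i : ℕ) :
    Submodule ℂ (W.coh (X ⊗ X)) :=
  Submodule.span ℂ {z | ∃ (s t : ℕ) (a b : W.coh X), 0 < s ∧ 0 < t ∧ s + t = i ∧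
    a ∈ W.gr X s ∧ b ∈ W.gr X t ∧ z = W.pull (fst X X) a * W.pull (snd X X) b}

/-- the right ideal generated by `H^1` -/
noncomputable def I1 (W : CohomologyData.{u, 0, w} k ℂ) (X : Sch k) : Submodule ℂ (W.coh X) :=
  Submodule.span ℂ {z | ∃ v ∈ W.gr X 1, ∃ h, z = v * h}

variable (hW : IsWeilCohomology W 𝒱) {X : Sch k} {g : ℕ} (hX : 𝒱.mem X g)

include hW hX

theorem rep (f : W.coh X →ₗ[ℂ] ℂ) : ∃ α : W.coh X, ∀ y, W.tr X (α * y) = f y := by
  have hfin : FiniteDimensional ℂ (W.coh X) := hW.finite hX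
  let F : W.coh X →ₗ[ℂ] Module.Dual ℂ (W.coh X) := LinearMap.mk₂ ℂ (fun x y => W.tr X (x * y))
    (fun x x' y => by rw [add_mul, map_add])
    (fun c x y => by rw [smul_mul_assoc, map_smul])
    (fun x y y' => by rw [mul_add, map_add])
    (fun c x y => by rw [mul_smul_comm, map_smul])
  have hF : Function.Injective F := by
    rw [injective_iff_map_eq_zero]
    exact fun x hx => hW.duality hX x fun y => LinearMap.congr_fun hx y
  have hFs : Function.Surjective F :=
    (LinearMap.injective_iff_surjective_of_finrank_eq_finrank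
      (Subspace.dual_finrank_eq (K := ℂ) (V := W.coh X)).symm).1 hF
  obtain ⟨α, hα⟩ := hFs f
  exact ⟨α, fun y => LinearMap.congr_fun hα y⟩

theorem tr_pj {i j : ℕ} (hij : j + i = 2 * g) {x : W.coh X} (hx : x ∈ W.gr X i) (α : W.coh X) :
    W.tr X (AV48.pj (hW.internal hX) j α * x) = W.tr X (α * x) := by
  refine hW.hom_induction hX (P := fun α =>
    W.tr X (AV48.pj (hW.internal hX) j α * x) = W.tr X (α * x)) α ?_ ?_ ?_
  · intro l α hα
    by_cases hl : l = j
    · subst hl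
      rw [AV48.pj_same (hW.internal hX) hα]
    · rw [AV48.pj_ne (hW.internal hX) hl hα, zero_mul, map_zero,
        hW.tr_gr hX (hW.mul_gr hX hα hx) (by omega)]
  · simp
  · intro a b ha hb
    rw [map_add, add_mul, map_add, ha, hb, add_mul, map_add]

/-- representation of a functional on `H^i` -/
theorem rep_gr {i : ℕ} (hi : i ≤ 2 * g) (f : W.coh X →ₗ[ℂ] ℂ) :
    ∃ α ∈ W.gr X (2 * g - i), ∀ y ∈ W.gr X i, W.tr X (α * y) = f y := by
  obtain ⟨α, hα⟩ := rep hW hX f
  refine ⟨AV48.pj (hW.internal hX) (2 * g - i) α, AV48.pj_mem _ _ _, fun y hy => ?_⟩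
  rw [tr_pj hW hX (by omega) hy, hα]

theorem exists_ann {i : ℕ} {x : W.coh X} (hx : x ∈ W.gr X i) (hxI : x ∉ I1 W X) :
    ∃ (j : ℕ) (α : W.coh X), j + i = 2 * g ∧ α ∈ W.gr X j ∧ (∀ v ∈ W.gr X 1, α * v = 0) ∧
      W.tr X (α * x) = 1 := by
  have hi : i ≤ 2 * g := by
    by_contra hi
    rw [hW.top_gr hX hx (by omega)] at hxI
    exact hxI (zero_mem _)
  obtain ⟨f, hf, hfI⟩ := Submodule.exists_dual_map_eq_bot_of_notMem hxI inferInstance
  have hfI' : ∀ y ∈ I1 W X, f y = 0 := fun y hy => by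
    have : f y ∈ (I1 W X).map f := Submodule.mem_map_of_mem hy
    rw [hfI] at this
    exact this
  obtain ⟨α, hα, hα'⟩ := rep_gr hW hX hi ((f x)⁻¹ • f)
  refine ⟨2 * g - i, α, by omega, hα, fun v hv => ?_, ?_⟩
  · refine hW.duality hX _ fun y => ?_
    refine hW.hom_induction hX (P := fun y => W.tr X (α * v * y) = 0) y ?_ ?_ ?_
    · intro l y hy
      have hvy := hW.mul_gr hX hv hy
      by_cases hl : 1 + l = i
      · rw [hl] at hvy
        rw [mul_assoc, hα' _ hvy, LinearMap.smul_apply,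
          hfI' _ (Submodule.subset_span ⟨v, hv, y, rfl⟩), smul_zero]
      · rw [mul_assoc]
        exact hW.tr_gr hX (hW.mul_gr hX hα hvy) (by omega)
    · simp
    · intro a b ha hb
      rw [mul_add, map_add, ha, hb, add_zero]
  · rw [hα' x hx, LinearMap.smul_apply, smul_eq_mul, inv_mul_cancel₀ hf]

theorem kun (h0 : ∀ x ∈ W.gr X 0, ∃ c : ℂ, x = c • 1) {i : ℕ} (hi : 0 < i) {z : W.coh (X ⊗ X)}
    (hz : z ∈ W.gr (X ⊗ X) i) : ∃ u ∈ W.gr X i, ∃ w ∈ W.gr X i, ∃ r ∈ Mid W X i,
      z = W.pull (fst X X) u + W.pull (snd X X) w + r := by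
  have hXX := 𝒱.prod hX hX
  have hI := hW.internal hXX
  have key : ∀ z : W.coh (X ⊗ X), ∃ u ∈ W.gr X i, ∃ w ∈ W.gr X i, ∃ r ∈ Mid W X i,
      AV48.pj hI i z = W.pull (fst X X) u + W.pull (snd X X) w + r := by
    intro z
    refine PP.prod_hom_induction hW hX hX (P := fun z => ∃ u ∈ W.gr X i, ∃ w ∈ W.gr X i,
      ∃ r ∈ Mid W X i, AV48.pj hI i z = W.pull (fst X X) u + W.pull (snd X X) w + r) z ?_ ?_ ?_ ?_
    · intro s t a b ha hb
      have hab := hW.mul_gr hXX (hW.pull_gr hXX hX (fst X X) ha)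
        (hW.pull_gr hXX hX (snd X X) hb)
      by_cases hst : s + t = i
      · rw [hst] at hab
        rw [AV48.pj_same hI hab]
        rcases Nat.eq_zero_or_pos s with hs | hs
        · subst hs
          obtain ⟨c, rfl⟩ := h0 a ha
          obtain rfl : t = i := by omega
          exact ⟨0, zero_mem _, c • b, Submodule.smul_mem _ _ hb, 0, zero_mem _, by simp⟩
        · rcases Nat.eq_zero_or_pos t with ht | ht
          · subst ht
            obtain ⟨c, rfl⟩ := h0 b hb
            obtain rfl : s = i := by omega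
            exact ⟨c • a, Submodule.smul_mem _ _ ha, 0, zero_mem _, 0, zero_mem _, by simp⟩
          · refine ⟨0, zero_mem _, 0, zero_mem _, _, Submodule.subset_span
              ⟨s, t, a, b, hs, ht, hst, ha, hb, rfl⟩, by simp⟩
      · rw [AV48.pj_ne hI hst hab]
        exact ⟨0, zero_mem _, 0, zero_mem _, 0, zero_mem _, by simp⟩
    · exact ⟨0, zero_mem _, 0, zero_mem _, 0, zero_mem _, by simp⟩
    · rintro a b ⟨u, hu, w, hw, r, hr, e⟩ ⟨u', hu', w', hw', r', hr', e'⟩
      refine ⟨u + u', add_mem hu hu', w + w', add_mem hw hw', r + r', add_mem hr hr', ?_⟩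
      rw [map_add, e, e', map_add, map_add]
      abel
    · rintro c a ⟨u, hu, w, hw, r, hr, e⟩
      refine ⟨c • u, Submodule.smul_mem _ _ hu, c • w, Submodule.smul_mem _ _ hw, c • r,
        Submodule.smul_mem _ _ hr, ?_⟩
      rw [map_smul, e, map_smul, map_smul, smul_add, smul_add]
  obtain ⟨u, hu, w, hw, r, hr, e⟩ := key z
  exact ⟨u, hu, w, hw, r, hr, by rw [← e, AV48.pj_same hI hz]⟩

theorem pull_const (e : Sch.point k ⟶ X) {i : ℕ} (hi : 0 < i) {b : W.coh X}
    (hb : b ∈ W.gr X i) : W.pull (toUnit X ≫ e) b = 0 := by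
  have h1 := hW.pull_gr 𝒱.point hX e hb
  rw [W.pull_comp, hW.top_gr 𝒱.point h1 (by omega), map_zero]

variable {m : X ⊗ X ⟶ X} {e : Sch.point k ⟶ X}
  (h0 : ∀ x ∈ W.gr X 0, ∃ c : ℂ, x = c • 1)
  (h1 : lift (toUnit X ≫ e) (𝟙 X) ≫ m = 𝟙 X) (h2 : lift (𝟙 X) (toUnit X ≫ e) ≫ m = 𝟙 X)

include h0 h1 h2

/-- the comultiplication -/
theorem pull_m {i : ℕ} (hi : 0 < i) {x : W.coh X} (hx : x ∈ W.gr X i) :
    ∃ r ∈ Mid W X i, W.pull m x = W.pull (fst X X) x + W.pull (snd X X) x + r := by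
  have hXX := 𝒱.prod hX hX
  have hr1 : ∀ r ∈ Mid W X i, W.pull (lift (𝟙 X) (toUnit X ≫ e)) r = 0 := by
    intro r hr
    unfold Mid at hr
    induction hr using Submodule.span_induction with
    | mem z hz =>
      obtain ⟨s, t, a, b, hs, ht, -, ha, hb, rfl⟩ := hz
      rw [map_mul, ← W.pull_comp, ← W.pull_comp, lift_fst, lift_snd,
        pull_const hW hX e ht hb, mul_zero]
    | zero => exact map_zero _
    | add x y _ _ hx hy => rw [map_add, hx, hy, add_zero]
    | smul c x _ hx => rw [map_smul, hx, smul_zero]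
  have hr2 : ∀ r ∈ Mid W X i, W.pull (lift (toUnit X ≫ e) (𝟙 X)) r = 0 := by
    intro r hr
    unfold Mid at hr
    induction hr using Submodule.span_induction with
    | mem z hz =>
      obtain ⟨s, t, a, b, hs, ht, -, ha, hb, rfl⟩ := hz
      rw [map_mul, ← W.pull_comp, ← W.pull_comp, lift_fst, lift_snd,
        pull_const hW hX e hs ha, zero_mul]
    | zero => exact map_zero _
    | add x y _ _ hx hy => rw [map_add, hx, hy, add_zero]
    | smul c x _ hx => rw [map_smul, hx, smul_zero]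
  obtain ⟨u, hu, w, hw, r, hr, e1⟩ := kun hW hX h0 hi (hW.pull_gr hXX hX m hx)
  have ea : x = u := by
    have := congrArg (W.pull (lift (𝟙 X) (toUnit X ≫ e))) e1
    rwa [← W.pull_comp, h2, W.pull_id, map_add, map_add, ← W.pull_comp, ← W.pull_comp, lift_fst,
      lift_snd, W.pull_id, pull_const hW hX e hi hw, add_zero, hr1 r hr, add_zero] at this
  have eb : x = w := by
    have := congrArg (W.pull (lift (toUnit X ≫ e) (𝟙 X))) e1
    rwa [← W.pull_comp, h1, W.pull_id, map_add, map_add, ← W.pull_comp, ← W.pull_comp, lift_fst,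
      lift_snd, W.pull_id, pull_const hW hX e hi hu, zero_add, hr2 r hr, add_zero] at this
  exact ⟨r, hr, by rw [e1, ← ea, ← eb]⟩

theorem pull_one {v : W.coh X} (hv : v ∈ W.gr X 1) :
    W.pull m v = W.pull (fst X X) v + W.pull (snd X X) v :=
  AbV.pull_m hW hX h0 h1 h2 hv

/-! ### `ξ` is in the ideal generated by `H^1` -/

theorem ξ_mem {ξ : W.coh X} (hξ : ξ ∈ W.alg X 1) : ξ ∈ I1 W X := by
  classical
  have hXX := 𝒱.prod hX hX
  by_contra hne
  have hξ2 : ξ ∈ W.gr X 2 := hW.alg_gr hX (j := 1) hξ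
  have hpow : ∀ r, ξ ^ r ∈ W.gr X (2 * r) := fun r => hW.alg_gr hX (hW.pow_alg hX hξ r)
  -- the first power in the ideal
  have hex : ∃ n, ξ ^ n ∈ I1 W X := ⟨g + 1, by
    rw [hW.top_gr hX (hpow (g + 1)) (by omega)]
    exact zero_mem _⟩
  obtain ⟨n, hn, hmin⟩ : ∃ n, ξ ^ n ∈ I1 W X ∧ ∀ l < n, ξ ^ l ∉ I1 W X :=
    ⟨Nat.find hex, Nat.find_spec hex, fun l hl => Nat.find_min hex hl⟩
  have hn0 : n ≠ 0 := by
    rintro rfl
    apply hne
    rw [pow_zero] at hn
    have key : ∀ u ∈ I1 W X, u * ξ ∈ I1 W X := by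
      intro u hu
      unfold I1 at hu
      induction hu using Submodule.span_induction with
      | mem z hz =>
        obtain ⟨v, hv, h, rfl⟩ := hz
        exact Submodule.subset_span ⟨v, hv, h * ξ, mul_assoc _ _ _⟩
      | zero => rw [zero_mul]; exact zero_mem _
      | add x y _ _ hx hy => rw [add_mul]; exact add_mem hx hy
      | smul c x _ hx => rw [smul_mul_assoc]; exact Submodule.smul_mem _ _ hx
    have := key 1 hn
    rwa [one_mul] at this
  have hn1 : n ≠ 1 := by
    rintro rfl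
    rw [pow_one] at hn
    exact hne hn
  obtain ⟨ja, α, hja, hα, hαv, hα1⟩ := exists_ann hW hX hξ2 hne
  obtain ⟨jb, β, hjb, hβ, hβv, hβ1⟩ := exists_ann hW hX (hpow (n - 1)) (hmin (n - 1) (by omega))
  set p := W.pull (fst X X) with hp
  set q := W.pull (snd X X) with hq
  set Z := p α * q β with hZ
  have hZp : ∀ v ∈ W.gr X 1, Z * p v = 0 := by
    intro v hv
    rw [hZ, mul_assoc, hW.comm_gr hXX (hW.pull_gr hXX hX (snd X X) hβ)
      (hW.pull_gr hXX hX (fst X X) hv), mul_smul_comm, ← mul_assoc, ← map_mul, hαv v hv, map_zero,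
      zero_mul, smul_zero]
  have hZq : ∀ v ∈ W.gr X 1, Z * q v = 0 := by
    intro v hv
    rw [hZ, mul_assoc, ← map_mul, hβv v hv, map_zero, mul_zero]
  -- the first computation
  have c1 : W.tr (X ⊗ X) (Z * W.pull m (ξ ^ n)) = 0 := by
    have key : ∀ u ∈ I1 W X, Z * W.pull m u = 0 := by
      intro u hu
      unfold I1 at hu
      induction hu using Submodule.span_induction with
      | mem z hz =>
        obtain ⟨v, hv, h, rfl⟩ := hz
        rw [map_mul, pull_one hW hX h0 h1 h2 hv, ← mul_assoc, mul_add, hZp v hv, hZq v hv,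
          add_zero, zero_mul]
      | zero => rw [map_zero, mul_zero]
      | add x y _ _ hx hy => rw [map_add, mul_add, hx, hy, add_zero]
      | smul c x _ hx => rw [map_smul, mul_smul_comm, hx, smul_zero]
    rw [key _ hn, map_zero]
  -- the second computation
  have hpξ : p ξ ∈ W.alg (X ⊗ X) 1 := hW.pull_alg hXX hX (fst X X) hξ
  have hqξ : q ξ ∈ W.alg (X ⊗ X) 1 := hW.pull_alg hXX hX (snd X X) hξ
  have hcent : ∀ z, (p ξ + q ξ) * z = z * (p ξ + q ξ) := fun z =>
    hW.alg_comm hXX (add_mem hpξ hqξ) z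
  have hZξ : Z * W.pull m ξ = Z * (p ξ + q ξ) := by
    have hr0 : ∀ r ∈ Mid W X 2, Z * r = 0 := by
      intro r hr
      unfold Mid at hr
      induction hr using Submodule.span_induction with
      | mem z hz =>
        obtain ⟨s, t, a, b, hs, ht, hst, ha, hb, rfl⟩ := hz
        obtain rfl : s = 1 := by omega
        rw [← mul_assoc, hZp a ha, zero_mul]
      | zero => exact mul_zero _
      | add x y _ _ hx hy => rw [mul_add, hx, hy, add_zero]
      | smul c x _ hx => rw [mul_smul_comm, hx, smul_zero]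
    obtain ⟨r, hr, er⟩ := pull_m hW hX h0 h1 h2 (by norm_num : 0 < 2) hξ2
    rw [er, mul_add, hr0 r hr, add_zero]
  have hZpow : ∀ r : ℕ, Z * W.pull m ξ ^ r = Z * (p ξ + q ξ) ^ r := by
    intro r
    induction r with
    | zero => rw [pow_zero, pow_zero]
    | succ r ih =>
      rw [pow_succ', ← mul_assoc, hZξ, ← hcent, mul_assoc, ih, ← mul_assoc, hcent, mul_assoc,
        ← pow_succ']
  have hcomm : Commute (p ξ) (q ξ) := hW.alg_comm hXX hpξ (q ξ)
  have hppow : ∀ (r : ℕ) (z : W.coh (X ⊗ X)), p ξ ^ r * z = z * p ξ ^ r := by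
    intro r z
    rw [← map_pow]
    exact hW.alg_comm hXX (hW.pull_alg hXX hX (fst X X) (hW.pow_alg hX hξ r)) z
  have c2 : W.tr (X ⊗ X) (Z * W.pull m (ξ ^ n)) = n := by
    rw [map_pow, hZpow, hcomm.add_pow, Finset.mul_sum, map_sum, Finset.sum_eq_single 1]
    · have e1 : Z * (p ξ ^ 1 * q ξ ^ (n - 1) * (n.choose 1 : ℕ))
          = (n : ℂ) • (p (α * ξ) * q (β * ξ ^ (n - 1))) := by
        rw [Nat.choose_one_right, pow_one, map_mul, map_mul, map_pow, hZ]
        have e2 : q β * p ξ = p ξ * q β := (hW.alg_comm hXX hpξ (q β)).symm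
        have e3 : p α * q β * (p ξ * q ξ ^ (n - 1) * (n : W.coh (X ⊗ X)))
            = p α * (q β * p ξ) * q ξ ^ (n - 1) * (n : W.coh (X ⊗ X)) := by
          simp only [mul_assoc]
        rw [e3, e2, ← Nat.cast_comm, ← nsmul_eq_mul, Nat.cast_smul_eq_nsmul]
        simp only [mul_assoc]
      rw [e1, map_smul, hp, hq, hW.kunneth_tr hX hX, hα1, hβ1, mul_one, smul_eq_mul, mul_one]
    · intro l _ hl
      have e1 : Z * (p ξ ^ l * q ξ ^ (n - l) * (n.choose l : ℕ))
          = (n.choose l : ℂ) • (p (α * ξ ^ l) * q (β * ξ ^ (n - l))) := by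
        rw [map_mul, map_mul, map_pow, map_pow, hZ]
        have e2 : q β * p ξ ^ l = p ξ ^ l * q β := (hppow l (q β)).symm
        have e3 : p α * q β * (p ξ ^ l * q ξ ^ (n - l) * (n.choose l : W.coh (X ⊗ X)))
            = p α * (q β * p ξ ^ l) * q ξ ^ (n - l) * (n.choose l : W.coh (X ⊗ X)) := by
          simp only [mul_assoc]
        rw [e3, e2, ← Nat.cast_comm, ← nsmul_eq_mul, Nat.cast_smul_eq_nsmul]
        simp only [mul_assoc]
      rw [e1, map_smul, hp, hq, hW.kunneth_tr hX hX,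
        hW.tr_gr hX (hW.mul_gr hX hα (hpow l)) (by omega), zero_mul, smul_zero]
    · intro hn'
      exact absurd (Finset.mem_range.2 (by omega)) hn'
  rw [c1] at c2
  exact hn0 (by exact_mod_cast c2.symm)

omit h0 h1 h2 in
/-- elements of degree `2` in the ideal are in the subalgebra generated by `H^1` -/
theorem mem_adjoin {u : W.coh X} (hu : u ∈ I1 W X) :
    AV48.pj (hW.internal hX) 2 u ∈ Algebra.adjoin ℂ (W.gr X 1 : Set (W.coh X)) := by
  unfold I1 at hu
  induction hu using Submodule.span_induction with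
  | mem z hz =>
    obtain ⟨v, hv, h, rfl⟩ := hz
    refine hW.hom_induction hX (P := fun h => AV48.pj (hW.internal hX) 2 (v * h)
      ∈ Algebra.adjoin ℂ (W.gr X 1 : Set (W.coh X))) h ?_ ?_ ?_
    · intro l h hh
      have hvh := hW.mul_gr hX hv hh
      by_cases hl : l = 1
      · subst hl
        rw [AV48.pj_same (hW.internal hX) hvh]
        exact mul_mem (Algebra.subset_adjoin hv) (Algebra.subset_adjoin hh)
      · rw [AV48.pj_ne (hW.internal hX) (by omega) hvh]
        exact zero_mem _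
    · rw [mul_zero, map_zero]
      exact zero_mem _
    · intro a b ha hb
      rw [mul_add, map_add]
      exact add_mem ha hb
  | zero => rw [map_zero]; exact zero_mem _
  | add x y _ _ hx hy => rw [map_add]; exact add_mem hx hy
  | smul c x _ hx => rw [map_smul]; exact Subalgebra.smul_mem _ hx _

/-- `ξ` is in the subalgebra generated by `H^1` -/
theorem ξ_adjoin {ξ : W.coh X} (hξ : ξ ∈ W.alg X 1) :
    ξ ∈ Algebra.adjoin ℂ (W.gr X 1 : Set (W.coh X)) := by
  have h := mem_adjoin hW hX (ξ_mem hW hX h0 h1 h2 hξ)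
  have h3 : ξ ∈ W.gr X 2 := hW.alg_gr hX (j := 1) hξ
  rwa [AV48.pj_same (hW.internal hX) h3] at h

omit hW hX h0 h1 h2 in
theorem adj_ind {Q : W.coh X → Prop} (hone : Q 1) (hadd : ∀ a b, Q a → Q b → Q (a + b))
    (hsmul : ∀ (c : ℂ) a, Q a → Q (c • a)) (hmul : ∀ v ∈ W.gr X 1, ∀ a, Q a → Q (v * a))
    {x : W.coh X} (hx : x ∈ Algebra.adjoin ℂ (W.gr X 1 : Set (W.coh X))) : Q x := by
  have key : ∀ a ∈ Algebra.adjoin ℂ (W.gr X 1 : Set (W.coh X)), ∀ y, Q y → Q (a * y) := by
    intro a ha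
    induction ha using Algebra.adjoin_induction with
    | mem v hv => exact fun y hy => hmul v hv y hy
    | algebraMap c =>
      intro y hy
      rw [Algebra.algebraMap_eq_smul_one, smul_mul_assoc, one_mul]
      exact hsmul c y hy
    | add a b _ _ ha hb =>
      intro y hy
      rw [add_mul]
      exact hadd _ _ (ha y hy) (hb y hy)
    | mul a b _ _ ha hb =>
      intro y hy
      rw [mul_assoc]
      exact ha _ (hb y hy)
  have := key x hx 1 hone
  rwa [mul_one] at this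

omit hW hX h0 h1 h2 in
theorem adj_ind' {Q : W.coh X → Prop} (hone : Q 1) (hadd : ∀ a b, Q a → Q b → Q (a + b))
    (hsmul : ∀ (c : ℂ) a, Q a → Q (c • a)) (hmul : ∀ v ∈ W.gr X 1, ∀ a, Q a → Q (a * v))
    {x : W.coh X} (hx : x ∈ Algebra.adjoin ℂ (W.gr X 1 : Set (W.coh X))) : Q x := by
  have key : ∀ a ∈ Algebra.adjoin ℂ (W.gr X 1 : Set (W.coh X)), ∀ y, Q y → Q (y * a) := by
    intro a ha
    induction ha using Algebra.adjoin_induction with
    | mem v hv => exact fun y hy => hmul v hv y hy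
    | algebraMap c =>
      intro y hy
      rw [Algebra.algebraMap_eq_smul_one, mul_smul_comm, mul_one]
      exact hsmul c y hy
    | add a b _ _ ha hb =>
      intro y hy
      rw [mul_add]
      exact hadd _ _ (ha y hy) (hb y hy)
    | mul a b _ _ ha hb =>
      intro y hy
      rw [← mul_assoc]
      exact hb _ (ha y hy)
  have := key x hx 1 hone
  rwa [one_mul] at this

/-- the span of the products `p^* a q^* y` with `a` in the subalgebra generated by `H^1` -/
noncomputable def Sub (W : CohomologyData.{u, 0, w} k ℂ) (X : Sch k) :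
    Submodule ℂ (W.coh (X ⊗ X)) :=
  Submodule.span ℂ {z | ∃ (s t : ℕ) (a y : W.coh X),
    a ∈ Algebra.adjoin ℂ (W.gr X 1 : Set (W.coh X)) ∧ a ∈ W.gr X s ∧ y ∈ W.gr X t ∧
      z = W.pull (fst X X) a * W.pull (snd X X) y}

omit h0 h1 h2 in
theorem sub_mul_p {z : W.coh (X ⊗ X)} (hz : z ∈ Sub W X) {v : W.coh X} (hv : v ∈ W.gr X 1) :
    z * W.pull (fst X X) v ∈ Sub W X := by
  have hXX := 𝒱.prod hX hX
  unfold Sub at hz
  induction hz using Submodule.span_induction with
  | mem z hz =>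
    obtain ⟨s, t, a, y, haA, ha, hy, rfl⟩ := hz
    rw [mul_assoc, hW.comm_gr hXX (hW.pull_gr hXX hX (snd X X) hy)
      (hW.pull_gr hXX hX (fst X X) hv), mul_smul_comm, ← mul_assoc, ← map_mul]
    exact Submodule.smul_mem _ _ (Submodule.subset_span ⟨s + 1, t, a * v, y,
      mul_mem haA (Algebra.subset_adjoin hv), hW.mul_gr hX ha hv, hy, rfl⟩)
  | zero => rw [zero_mul]; exact zero_mem _
  | add x y _ _ hx hy => rw [add_mul]; exact add_mem hx hy
  | smul c x _ hx => rw [smul_mul_assoc]; exact Submodule.smul_mem _ _ hx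

omit h0 h1 h2 in
theorem sub_mul_q {z : W.coh (X ⊗ X)} (hz : z ∈ Sub W X) {v : W.coh X} (hv : v ∈ W.gr X 1) :
    z * W.pull (snd X X) v ∈ Sub W X := by
  unfold Sub at hz
  induction hz using Submodule.span_induction with
  | mem z hz =>
    obtain ⟨s, t, a, y, haA, ha, hy, rfl⟩ := hz
    rw [mul_assoc, ← map_mul]
    exact Submodule.subset_span ⟨s, t + 1, a, y * v, haA, ha, hW.mul_gr hX hy hv, rfl⟩
  | zero => rw [zero_mul]; exact zero_mem _
  | add x y _ _ hx hy => rw [add_mul]; exact add_mem hx hy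
  | smul c x _ hx => rw [smul_mul_assoc]; exact Submodule.smul_mem _ _ hx

omit h0 h1 h2 in
theorem q_mul_sub {z : W.coh (X ⊗ X)} (hz : z ∈ Sub W X) {i : ℕ} {x : W.coh X}
    (hx : x ∈ W.gr X i) : W.pull (snd X X) x * z ∈ Sub W X := by
  have hXX := 𝒱.prod hX hX
  unfold Sub at hz
  induction hz using Submodule.span_induction with
  | mem z hz =>
    obtain ⟨s, t, a, y, haA, ha, hy, rfl⟩ := hz
    rw [← mul_assoc, hW.comm_gr hXX (hW.pull_gr hXX hX (snd X X) hx)
      (hW.pull_gr hXX hX (fst X X) ha), smul_mul_assoc, mul_assoc, ← map_mul]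
    exact Submodule.smul_mem _ _ (Submodule.subset_span ⟨s, i + t, a, x * y, haA, ha,
      hW.mul_gr hX hx hy, rfl⟩)
  | zero => rw [mul_zero]; exact zero_mem _
  | add x y _ _ hx hy => rw [mul_add]; exact add_mem hx hy
  | smul c x _ hx => rw [mul_smul_comm]; exact Submodule.smul_mem _ _ hx

omit h0 h1 h2 in
theorem p_mul_sub {z : W.coh (X ⊗ X)} (hz : z ∈ Sub W X) {i : ℕ} {x : W.coh X}
    (hx : x ∈ W.gr X i) (hxA : x ∈ Algebra.adjoin ℂ (W.gr X 1 : Set (W.coh X))) :
    W.pull (fst X X) x * z ∈ Sub W X := by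
  unfold Sub at hz
  induction hz using Submodule.span_induction with
  | mem z hz =>
    obtain ⟨s, t, a, y, haA, ha, hy, rfl⟩ := hz
    rw [← mul_assoc, ← map_mul]
    exact Submodule.subset_span ⟨i + s, t, x * a, y, mul_mem hxA haA,
      hW.mul_gr hX hx ha, hy, rfl⟩
  | zero => rw [mul_zero]; exact zero_mem _
  | add x y _ _ hx hy => rw [mul_add]; exact add_mem hx hy
  | smul c x _ hx => rw [mul_smul_comm]; exact Submodule.smul_mem _ _ hx

omit h0 h1 h2 in
theorem push_sub {z : W.coh (X ⊗ X)} (hz : z ∈ Sub W X) :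
    W.push (fst X X) z ∈ Algebra.adjoin ℂ (W.gr X 1 : Set (W.coh X)) := by
  unfold Sub at hz
  induction hz using Submodule.span_induction with
  | mem z hz =>
    obtain ⟨s, t, a, y, haA, ha, hy, rfl⟩ := hz
    rw [hW.push_fst hX hX]
    exact Subalgebra.smul_mem _ haA _
  | zero => rw [map_zero]; exact zero_mem _
  | add x y _ _ hx hy => rw [map_add]; exact add_mem hx hy
  | smul c x _ hx => rw [map_smul]; exact Subalgebra.smul_mem _ hx _

theorem pull_sub {a : W.coh X} (ha : a ∈ Algebra.adjoin ℂ (W.gr X 1 : Set (W.coh X))) :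
    W.pull m a ∈ Sub W X := by
  refine adj_ind' (Q := fun a => W.pull m a ∈ Sub W X) ?_ ?_ ?_ ?_ ha
  · exact Submodule.subset_span ⟨0, 0, 1, 1, one_mem _, hW.one_gr hX, hW.one_gr hX, by simp⟩
  · intro a b ha hb
    rw [map_add]
    exact add_mem ha hb
  · intro c a ha
    rw [map_smul]
    exact Submodule.smul_mem _ _ ha
  · intro v hv a ha
    rw [map_mul, pull_one hW hX h0 h1 h2 hv, mul_add]
    exact add_mem (sub_mul_p hW hX ha hv) (sub_mul_q hW hX ha hv)

/-- a fundamental class in the subalgebra generated by `H^1` -/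
theorem push_ω {ω : W.coh X} (hg : 0 < g) (hω : ω ∈ W.gr X (2 * g)) :
    W.push (fst X X) (W.pull m ω) = W.tr X ω • 1 := by
  have hp := hW.push_fst hX hX ω 1
  rw [map_one, mul_one, hW.tr_gr hX (hW.one_gr hX) (by omega), zero_smul] at hp
  have hq := hW.push_fst hX hX 1 ω
  rw [map_one, one_mul] at hq
  have hr : ∀ r ∈ Mid W X (2 * g), W.push (fst X X) r = 0 := by
    intro r hr
    unfold Mid at hr
    induction hr using Submodule.span_induction with
    | mem z hz =>
      obtain ⟨s, t, a, b, hs, ht, hst, ha, hb, rfl⟩ := hz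
      rw [hW.push_fst hX hX, hW.tr_gr hX hb (by omega), zero_smul]
    | zero => exact map_zero _
    | add x y _ _ hx hy => rw [map_add, hx, hy, add_zero]
    | smul c x _ hx => rw [map_smul, hx, smul_zero]
  obtain ⟨r, hr', e1⟩ := pull_m hW hX h0 h1 h2 (by omega : 0 < 2 * g) hω
  rw [e1, map_add, map_add, hp, hq, hr r hr', zero_add, add_zero]

/-- `H^*` is generated by `H^1` -/
theorem gr_le {ω : W.coh X} (hg : 0 < g) (hω : ω ∈ W.gr X (2 * g)) (hω0 : W.tr X ω ≠ 0)
    (hωA : ω ∈ Algebra.adjoin ℂ (W.gr X 1 : Set (W.coh X))) (i : ℕ) :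
    ∀ x ∈ W.gr X i, x ∈ Algebra.adjoin ℂ (W.gr X 1 : Set (W.coh X)) := by
  have hXX := 𝒱.prod hX hX
  induction i using Nat.strong_induction_on with
  | _ i ih =>
    intro x hx
    rcases Nat.eq_zero_or_pos i with hi | hi
    · subst hi
      obtain ⟨c, rfl⟩ := h0 x hx
      exact Subalgebra.smul_mem _ (one_mem _) _
    obtain ⟨r, hr, e1⟩ := pull_m hW hX h0 h1 h2 hi hx
    have hS := pull_sub hW hX h0 h1 h2 hωA
    have hrS : ∀ r ∈ Mid W X i, r * W.pull m ω ∈ Sub W X := by
      intro r hr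
      unfold Mid at hr
      induction hr using Submodule.span_induction with
      | mem z hz =>
        obtain ⟨s, t, a, b, hs, ht, hst, ha, hb, rfl⟩ := hz
        rw [mul_assoc]
        exact p_mul_sub hW hX (q_mul_sub hW hX hS hb) ha (ih s (by omega) a ha)
      | zero => rw [zero_mul]; exact zero_mem _
      | add x y _ _ hx hy => rw [add_mul]; exact add_mem hx hy
      | smul c x _ hx => rw [smul_mul_assoc]; exact Submodule.smul_mem _ _ hx
    have e2 : x * ω = 0 := hW.top_gr hX (hW.mul_gr hX hx hω) (by omega)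
    have e3 : (W.pull (fst X X) x + W.pull (snd X X) x + r) * W.pull m ω = 0 := by
      rw [← e1, ← map_mul, e2, map_zero]
    have e4 : W.pull (fst X X) x * W.pull m ω
        = -(W.pull (snd X X) x * W.pull m ω + r * W.pull m ω) := by
      rw [eq_neg_iff_add_eq_zero, ← e3]
      simp only [add_mul, add_assoc]
    have e5 : W.push (fst X X) (W.pull (fst X X) x * W.pull m ω) = W.tr X ω • x := by
      rw [AbV.push_left hW hX, push_ω hW hX h0 h1 h2 hg hω, mul_smul_comm, mul_one]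
    have e6 : W.tr X ω • x ∈ Algebra.adjoin ℂ (W.gr X 1 : Set (W.coh X)) := by
      rw [← e5, e4]
      exact push_sub hW hX (neg_mem (add_mem (q_mul_sub hW hX hS hx) (hrS r hr)))
    have e7 : x = (W.tr X ω)⁻¹ • (W.tr X ω • x) := by
      rw [smul_smul, inv_mul_cancel₀ hω0, one_smul]
    rw [e7]
    exact Subalgebra.smul_mem _ e6 _

theorem adjoin_top {ξ : W.coh X} (hξ : PositiveDivisor W X g ξ) :
    Algebra.adjoin ℂ (W.gr X 1 : Set (W.coh X)) = ⊤ := by
  have hgr : ∀ i, ∀ x ∈ W.gr X i, x ∈ Algebra.adjoin ℂ (W.gr X 1 : Set (W.coh X)) := by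
    rcases Nat.eq_zero_or_pos g with hg | hg
    · intro i x hx
      rcases Nat.eq_zero_or_pos i with hi | hi
      · subst hi
        obtain ⟨c, rfl⟩ := h0 x hx
        exact Subalgebra.smul_mem _ (one_mem _) _
      · rw [hW.top_gr hX hx (by omega)]
        exact zero_mem _
    · obtain ⟨q, hq, h⟩ := hξ.2
      have h' : W.tr X (ξ ^ g) = (q : ℂ) := h
      refine gr_le hW hX h0 h1 h2 hg (hW.alg_gr hX (hW.pow_alg hX hξ.1 g)) ?_
        (pow_mem (ξ_adjoin hW hX h0 h1 h2 hξ.1) g)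
      rw [h']
      exact_mod_cast hq.ne'
  rw [Algebra.eq_top_iff]
  intro x
  refine hW.hom_induction hX
    (P := fun x => x ∈ Algebra.adjoin ℂ (W.gr X 1 : Set (W.coh X))) x hgr (zero_mem _) ?_
  exact fun a b ha hb => add_mem ha hb

/-! ### the dimension of `H^1` -/

omit hW hX h0 h1 h2 in
/-- products of elements of `H^1` -/
noncomputable def prd (W : CohomologyData.{u, 0, w} k ℂ) (X : Sch k) :
    (n : ℕ) → (Fin n → W.gr X 1) → W.coh X
  | 0, _ => 1
  | n + 1, v => (v 0 : W.coh X) * prd W X n (Fin.tail v)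

omit h0 h1 h2 in
theorem prd_gr : ∀ (n : ℕ) (v : Fin n → W.gr X 1), prd W X n v ∈ W.gr X n
  | 0, _ => hW.one_gr hX
  | n + 1, v => by
    have := hW.mul_gr hX (v 0).2 (prd_gr n (Fin.tail v))
    rw [add_comm] at this
    exact this

section top

variable {ξ : W.coh X} (hξ : PositiveDivisor W X g ξ)

include hξ

theorem C_top {y : W.coh X} (hy : y ∈ W.gr X (2 * g)) (w : W.coh X) :
    AbV.C W m y w = W.tr X y • w := by
  have hm : ∀ v ∈ W.gr X 1, W.pull m v = W.pull (fst X X) v + W.pull (snd X X) v :=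
    fun v hv => pull_one hW hX h0 h1 h2 hv
  have hw : w ∈ Algebra.adjoin ℂ (W.gr X 1 : Set (W.coh X)) := by
    rw [adjoin_top hW hX h0 h1 h2 hξ]
    trivial
  refine adj_ind (Q := fun w => AbV.C W m y w = W.tr X y • w) ?_ ?_ ?_ ?_ hw
  · exact AbV.C_one hW hX m y
  · intro a b ha hb
    rw [map_add, ha, hb, smul_add]
  · intro c a ha
    rw [map_smul, ha, smul_comm]
  · intro v hv a h
    have h3 : y * v = 0 := hW.top_gr hX (hW.mul_gr hX hy hv) (by omega)
    rw [AbV.C_mul hW hX hm hy hv, h, h3, AbV.C_apply, map_zero, zero_mul, map_zero, add_zero,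
      pow_mul, neg_one_sq, one_pow, one_smul, mul_smul_comm]

theorem C_odd {y : W.coh X} {j : ℕ} (hj : j + 1 = 2 * g) (hy : y ∈ W.gr X j) {v : W.coh X}
    (hv : v ∈ W.gr X 1) (w : W.coh X) :
    AbV.C W m y (v * w) = W.tr X (y * v) • w - v * AbV.C W m y w := by
  have hm : ∀ v ∈ W.gr X 1, W.pull m v = W.pull (fst X X) v + W.pull (snd X X) v :=
    fun v hv => pull_one hW hX h0 h1 h2 hv
  have hodd : (-1 : ℂ) ^ j = -1 := Odd.neg_one_pow ⟨g - 1, by omega⟩
  have h3 : y * v ∈ W.gr X (2 * g) := by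
    rw [← hj]
    exact hW.mul_gr hX hy hv
  rw [AbV.C_mul hW hX hm hy hv, hodd, neg_one_smul, C_top hW hX h0 h1 h2 hξ h3, neg_add_eq_sub]

theorem C_prd {y : W.coh X} {j : ℕ} (hj : j + 1 = 2 * g) (hy : y ∈ W.gr X j) :
    ∀ (n : ℕ) (v : Fin n → W.gr X 1), (∀ i, W.tr X (y * v i) = 0) →
      AbV.C W m y (prd W X n v) = 0
  | 0, v, _ => by
    show AbV.C W m y 1 = 0
    rw [AbV.C_one hW hX, hW.tr_gr hX hy (by omega), zero_smul]
  | n + 1, v, hv => by
    show AbV.C W m y ((v 0 : W.coh X) * prd W X n (Fin.tail v)) = 0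
    rw [C_odd hW hX h0 h1 h2 hξ hj hy (v 0).2, hv 0,
      C_prd hj hy n (Fin.tail v) fun i => hv i.succ, zero_smul, mul_zero, sub_zero]

theorem one_ne : (1 : W.coh X) ≠ 0 := by
  intro h
  obtain ⟨q, hq, h'⟩ := hξ.2
  have h3 : W.tr X (ξ ^ g) = (q : ℂ) := h'
  have h4 : ξ ^ g = 0 := by
    rw [← one_mul (ξ ^ g), h, zero_mul]
  rw [h4, map_zero] at h3
  have : q = 0 := by exact_mod_cast h3.symm
  exact hq.ne' this

theorem prd_ne (hg : 0 < g) : ∀ (n : ℕ) (v : Fin n → W.gr X 1), LinearIndependent ℂ v →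
    prd W X n v ≠ 0
  | 0, v, _ => one_ne hW hX h0 h1 h2 hξ
  | n + 1, v, hv => by
    intro hz
    obtain ⟨hv1, hv2⟩ := linearIndependent_finSucc.1 hv
    have hfin : FiniteDimensional ℂ (W.coh X) := hW.finite hX
    obtain ⟨f, hf, hfS⟩ := Submodule.exists_dual_map_eq_bot_of_notMem hv2 inferInstance
    have hfS' : ∀ i, f (Fin.tail v i) = 0 := fun i => by
      have : f (Fin.tail v i) ∈ (Submodule.span ℂ (Set.range (Fin.tail v))).map f :=
        Submodule.mem_map_of_mem (Submodule.subset_span ⟨i, rfl⟩)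
      rw [hfS] at this
      exact this
    obtain ⟨F, hF⟩ := LinearMap.exists_extend f
    have hF' : ∀ x : W.gr X 1, F x = f x := fun x => LinearMap.congr_fun hF x
    obtain ⟨y, hy, hy'⟩ := rep_gr hW hX (i := 1) (by omega) F
    have hj : 2 * g - 1 + 1 = 2 * g := by omega
    have e1 := C_odd hW hX h0 h1 h2 hξ hj hy (v 0).2 (prd W X n (Fin.tail v))
    have e2 := C_prd hW hX h0 h1 h2 hξ hj hy n (Fin.tail v) fun i => by
      rw [hy' _ (Fin.tail v i).2, hF', hfS']
    have e3 : (v 0 : W.coh X) * prd W X n (Fin.tail v) = 0 := hz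
    rw [e3, map_zero, e2, mul_zero, sub_zero, hy' _ (v 0).2, hF'] at e1
    rcases smul_eq_zero.1 e1.symm with h | h
    · exact hf h
    · exact prd_ne hg n (Fin.tail v) hv1 h

theorem extAlg (hg : 0 < g) :
    AV48.ExtAlg (W.gr X) (Module.finrank ℂ (W.gr X 1)) where
  internal := hW.internal hX
  one := hW.one_gr hX
  mul := hW.mul_gr hX
  comm := hW.comm_gr hX
  gen := adjoin_top hW hX h0 h1 h2 hξ
  fin := by
    have := hW.finite hX
    infer_instance
  dim := rfl
  top := by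
    have hfin : FiniteDimensional ℂ (W.coh X) := hW.finite hX
    have b : Module.Basis (Fin (Module.finrank ℂ (W.gr X 1))) ℂ (W.gr X 1) :=
      Module.finBasis ℂ (W.gr X 1)
    intro hbot
    have h3 := prd_gr hW hX _ b
    rw [hbot] at h3
    exact prd_ne hW hX h0 h1 h2 hξ hg _ b b.linearIndependent h3

theorem rank_eq : Module.finrank ℂ (W.gr X 1) = 2 * g := by
  rcases Nat.eq_zero_or_pos g with hg | hg
  · have h3 : W.gr X 1 = ⊥ := by
      rw [eq_bot_iff]
      intro x hx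
      rw [hW.top_gr hX hx (by omega)]
      exact zero_mem _
    rw [h3, finrank_bot, hg]
  have hE := extAlg hW hX h0 h1 h2 hξ hg
  have hfin := hE.fin
  obtain ⟨q, hq, h⟩ := hξ.2
  have h' : W.tr X (ξ ^ g) = (q : ℂ) := h
  have hω : ξ ^ g ∈ W.gr X (2 * g) := hW.alg_gr hX (hW.pow_alg hX hξ.1 g)
  apply le_antisymm
  · by_contra hlt
    apply hE.top
    rw [eq_bot_iff]
    intro x hx
    rw [hW.top_gr hX hx (by omega)]
    exact zero_mem _
  · by_contra hlt
    obtain ⟨y, hy, hy'⟩ := hE.exists_deg hω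
    have h2 : Module.finrank ℂ (⋀[ℂ]^(2 * g) (W.gr X 1)) = 0 := by
      rw [exteriorPower.finrank_eq, Nat.choose_eq_zero_of_lt (by omega)]
    have h3 : Subsingleton (⋀[ℂ]^(2 * g) (W.gr X 1)) := Module.finrank_zero_iff.1 h2
    have h4 : y = 0 := congrArg Subtype.val
      (Subsingleton.elim (⟨y, hy⟩ : ⋀[ℂ]^(2 * g) (W.gr X 1)) 0)
    rw [← hy', h4, map_zero, map_zero] at h'
    have : q = 0 := by exact_mod_cast h'.symm
    exact hq.ne' this

end top

end HopF

/-- A variety `X` with a unital law, `H^0(X) = ℂ` and a divisor class `ξ` with `Tr(ξ^g) > 0`: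
`H^*(X)` is generated by `H^1(X)`, which has dimension `2 g`. -/
theorem abelianType_of_unital {k : Type u} [Field k] {W : CohomologyData.{u, 0, w} k ℂ}
    {𝒱 : VarietyClass k} (hW : IsWeilCohomology W 𝒱) {X : Sch k} {g : ℕ} (hX : 𝒱.mem X g)
    (h0 : ∀ x, W.Deg X 0 x → ∃ c : ℂ, x = W.scal c 1) (hU : UnitalLaw X) {ξ : W.coh X}
    (hξ : PositiveDivisor W X g ξ) : AbelianType W X g := by
  obtain ⟨m, e, h1, h2⟩ := hU
  refine ⟨fun x => ?_, HopF.rank_eq hW hX h0 h1 h2 hξ⟩
  have h3 := HopF.adjoin_top hW hX h0 h1 h2 hξ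
  have h4 : x ∈ Algebra.adjoin ℂ (W.gr X 1 : Set (W.coh X)) := by
    rw [h3]
    trivial
  exact h4

/-- For `X` with a unital law and `H^0(X) = ℂ`, and a divisor class `ξ` with `Tr(ξ^g) > 0`: hard
Lefschetz, the Lefschetz standard conjecture and a Hodge-Riemann structure. -/
theorem unital {k : Type u} [Field k] {W : CohomologyData.{u, 0, w} k ℂ}
    {𝒱 : VarietyClass k} (hW : IsWeilCohomology W 𝒱) {X : Sch k} {g : ℕ} (hX : 𝒱.mem X g)
    (h0 : ∀ x, W.Deg X 0 x → ∃ c : ℂ, x = W.scal c 1) (hU : UnitalLaw X) {ξ : W.coh X}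
    (hξ : PositiveDivisor W X g ξ) :
    HardLefschetz W X g ξ ∧ AlgebraicLambda W X g ξ ∧
      ∃ j : W.coh X →ₛₗ[starRingEnd ℂ] W.coh X, HRStr W X g ξ j :=
  abelian hW hX (abelianType_of_unital hW hX h0 hU hξ) hU hξ

end Pool.Agent.Lib.MP_361a6f_ag.FL
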