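import Pool.Agent.Lib.MP_361a6f_ag.PP.Defs
import Pool.Agent.Lib.MP_361a6f_ag.PP.PSI
import Pool.Agent.Lib.MP_361a6f_ag.PP.Blk1
import Pool.Agent.Lib.MP_361a6f_ag.PP.SL2
import Pool.Agent.Lib.MP_361a6f_ag.PP.WEY
import Pool.Agent.Lib.MP_361a6f_ag.PP.StaB

/-!
# Row HRPSI: the Hodge-Riemann relations for an antilinear ring endomorphism
-/

open CategoryTheory AlgebraicGeometry MonoidalCategory CartesianMonoidalCategory

universe u v w

set_option autoImplicit false
set_option linter.unusedSectionVars false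

namespace Pool.Agent.Lib.MP_361a6f_ag.FL

open Pool.Agent.Lib.MP_361a6f_ag.H3 Pool.Agent.Lib.MP_361a6f_ag.SQ
  Pool.Agent.Lib.MP_361a6f_ag.IP2 Pool.Agent.Lib.MP_361a6f_ag.PP

namespace HrPsi

/-! ### positive real numbers -/

/-- a positive real number -/
def RPos (c : ℂ) : Prop := ∃ r : ℝ, 0 < r ∧ c = (r : ℂ)

theorem RPos.add {x y : ℂ} (hx : RPos x) (hy : RPos y) : RPos (x + y) := by
  obtain ⟨r, hr, rfl⟩ := hx
  obtain ⟨s, hs, rfl⟩ := hy
  exact ⟨r + s, add_pos hr hs, by push_cast; rfl⟩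

theorem RPos.qmul {q : ℚ} (hq : 0 < q) {y : ℂ} (hy : RPos y) : RPos ((q : ℂ) * y) := by
  obtain ⟨s, hs, rfl⟩ := hy
  refine ⟨(q : ℝ) * s, mul_pos (by exact_mod_cast hq) hs, by push_cast; rfl⟩

theorem RPos.ne {x : ℂ} (hx : RPos x) : x ≠ 0 := by
  obtain ⟨r, hr, rfl⟩ := hx
  exact_mod_cast hr.ne'

theorem rpos_sum {ι : Type*} (s : Finset ι) (f : ι → ℂ) (h : ∀ i ∈ s, f i = 0 ∨ RPos (f i)) :
    (∑ i ∈ s, f i = 0 ∧ ∀ i ∈ s, f i = 0) ∨ RPos (∑ i ∈ s, f i) := by
  classical
  induction s using Finset.induction_on with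
  | empty => left; simp
  | insert a s ha ih =>
    have ih' := ih fun i hi => h i (Finset.mem_insert_of_mem hi)
    rw [Finset.sum_insert ha]
    rcases h a (Finset.mem_insert_self _ _) with h0 | h0
    · rcases ih' with ⟨h1, h2⟩ | h1
      · left
        refine ⟨by rw [h0, h1, add_zero], fun i hi => ?_⟩
        rcases Finset.mem_insert.1 hi with rfl | hi
        · exact h0
        · exact h2 i hi
      · right; rw [h0, zero_add]; exact h1
    · rcases ih' with ⟨h1, _⟩ | h1
      · right; rw [h1, add_zero]; exact h0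
      · right; exact h0.add h1

theorem rpos_sum' {ι : Type*} (s : Finset ι) (f : ι → ℂ) (h : ∀ i ∈ s, f i = 0 ∨ RPos (f i))
    (h' : ∃ i ∈ s, f i ≠ 0) : RPos (∑ i ∈ s, f i) := by
  rcases rpos_sum s f h with ⟨_, h1⟩ | h1
  · obtain ⟨i, hi, hne⟩ := h'
    exact absurd (h1 i hi) hne
  · exact h1

/-! ### strings of primitive vectors -/

section abs

variable {M : Type w} [AddCommGroup M] [Module ℂ M] {gr : ℕ → Submodule ℂ M} {n : ℕ}
  {L Λ : Module.End ℂ M}

/-- the star operator on a string -/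
theorem star_str (S : Slm gr n L Λ) {i : ℕ} {v : M} (hi : i ≤ n) (hv : v ∈ gr i) (hΛ : Λ v = 0)
    (s : ℕ) (hs : s ≤ n - i) :
    ∃ q : ℚ, 0 < q ∧ star S.internal L Λ ((L ^ s) v)
      = (sgn i * (q : ℂ)) • (L ^ (n - i - s)) v := by
  obtain ⟨q, hq, h1⟩ := PSI.lam_pow sl2 S hi hv hΛ s hs
  refine ⟨((n - i).factorial : ℚ)⁻¹ * q, by positivity, ?_⟩
  have h2 : star S.internal L Λ v = (sgn i * ((n - i).factorial : ℂ)⁻¹) • (L ^ (n - i)) v := by
    rw [PP.star, Module.End.mul_apply, gop_apply _ _ hv, map_smul, (wey S).2.2.2.2 i v hi hv hΛ,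
      smul_smul]
  rw [PSI.star_pow staB S, h2, map_smul, h1, smul_smul]
  congr 1
  push_cast
  ring

/-- every vector is a sum of vectors `L ^ s v` with `v` primitive -/
theorem str_ind (S : Slm gr n L Λ) {p : M → Prop}
    (h : ∀ (i s : ℕ) (v : M), i ≤ n → s ≤ n - i → v ∈ gr i → Λ v = 0 → p ((L ^ s) v))
    (hsm : ∀ (c : ℂ) (x : M), p x → p (c • x)) (h0 : p 0)
    (hadd : ∀ x y, p x → p y → p (x + y)) (x : M) : p x := by
  classical
  have hlow : ∀ (i : ℕ) (x : M), i ≤ n → x ∈ gr i → p x ∧ p (star S.internal L Λ x) := by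
    intro i x hi hx
    obtain ⟨f, -, hfg, hf0, hfΛ, hsum⟩ := (sl2 S).2.2.2.2.2.2 ⊤ (fun _ _ => trivial)
      (fun _ _ => trivial) (fun _ _ _ => trivial) i x hi hx trivial
    have hterm : ∀ r, p ((L ^ r) (f r)) ∧ p (star S.internal L Λ ((L ^ r) (f r))) := by
      intro r
      by_cases hr : 2 * r ≤ i
      · have hg := hfg r hr
        refine ⟨h (i - 2 * r) r (f r) (by omega) (by omega) hg (hfΛ r), ?_⟩
        obtain ⟨q, -, e⟩ := star_str S (by omega) hg (hfΛ r) r (by omega)
        rw [e]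
        exact hsm _ _ (h (i - 2 * r) _ (f r) (by omega) (by omega) hg (hfΛ r))
      · rw [hf0 r (by omega), map_zero, map_zero]
        exact ⟨h0, h0⟩
    have hs : ∀ T : Finset ℕ, p (∑ r ∈ T, (L ^ r) (f r)) ∧
        p (∑ r ∈ T, star S.internal L Λ ((L ^ r) (f r))) := by
      intro T
      induction T using Finset.induction_on with
      | empty => rw [Finset.sum_empty, Finset.sum_empty]; exact ⟨h0, h0⟩
      | insert a T ha ih =>
        rw [Finset.sum_insert ha, Finset.sum_insert ha]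
        exact ⟨hadd _ _ (hterm a).1 ih.1, hadd _ _ (hterm a).2 ih.2⟩
    rw [hsum, map_sum]
    exact hs _
  -- all degrees
  have hall : ∀ (i : ℕ) (x : M), x ∈ gr i → p x := by
    intro i x hx
    by_cases hi : i ≤ n
    · exact (hlow i x hi hx).1
    · by_cases hi2 : i ≤ 2 * n
      · have h1 := (staB S).1 i x hi2 hx
        have h2 := (hlow (2 * n - i) _ (by omega) h1).2
        rwa [(staB S).2.1 x] at h2
      · rw [S.top i x hx (by omega)]
        exact h0
  have hx : x ∈ ⨆ i, gr i := by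
    rw [S.internal.submodule_iSup_eq_top]
    trivial
  exact Submodule.iSup_induction gr (motive := p) hx hall h0 hadd

end abs

section geo

variable {k : Type u} [Field k] {W : CohomologyData.{u, 0, w} k ℂ} {𝒱 : VarietyClass k}
  (hW : IsWeilCohomology W 𝒱) {X : Sch k} {n : ℕ} (hX : 𝒱.mem X n) {ξ : W.coh X}
  (hξ : ξ ∈ W.alg X 1) {Lam : Module.End ℂ (W.coh X)} (D : LamData W X n ξ Lam)
  (j : W.coh X →ₛₗ[starRingEnd ℂ] W.coh X) (j1 : j 1 = 1) (jm : ∀ x y, j (x * y) = j x * j y)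
  (jg : ∀ i x, x ∈ W.gr X i → j x ∈ W.gr X i) (jξ : j ξ = ξ)
  (jt : ∀ x, W.tr X (j x) = starRingEnd ℂ (W.tr X x))
  (jp : ∀ i x, i ≤ n → x ∈ W.gr X i → ξ ^ (n - i + 1) * x = 0 → x ≠ 0 →
    RPos (sgn i * W.tr X (ξ ^ (n - i) * (x * j x))))

include hW hX hξ D jm jξ in
theorem j_L (s : ℕ) (x : W.coh X) : j ((Lop W X ξ ^ s) x) = (Lop W X ξ ^ s) (j x) := by
  induction s with
  | zero => simp
  | succ s ih =>
    rw [pow_succ', Module.End.mul_apply, Module.End.mul_apply, ← ih, Lop,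
      LinearMap.mulLeft_apply, LinearMap.mulLeft_apply, jm, jξ]

include hW hX hξ D jm jg jξ in
/-- `j` maps primitive classes to primitive classes -/
theorem j_prim {i : ℕ} (hi : i ≤ n) {v : W.coh X} (hv : v ∈ W.gr X i) (hΛ : Lam v = 0) :
    Lam (j v) = 0 := by
  refine (sl2 D.slm).2.2.2.2.2.1 i (j v) hi (jg i v hv) ?_
  rw [← j_L hW hX hξ D j jm jξ, (sl2 D.slm).2.2.2.1 i v hi hv hΛ, map_zero]

include hW hX hξ D jm jg jξ in
theorem j_Lam (x : W.coh X) : j (Lam x) = Lam (j x) := by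
  refine str_ind D.slm (p := fun x => j (Lam x) = Lam (j x)) ?_ ?_ ?_ ?_ x
  · intro i s v hi hs hv hΛ
    have hΛ' := j_prim hW hX hξ D j jm jg jξ hi hv hΛ
    rw [j_L hW hX hξ D j jm jξ]
    cases s with
    | zero => rw [pow_zero, Module.End.one_apply, Module.End.one_apply, hΛ, hΛ', map_zero]
    | succ r =>
      rw [(sl2 D.slm).2.2.1 i v r hv hΛ, (sl2 D.slm).2.2.1 i (j v) r (jg i v hv) hΛ',
        LinearMap.map_smulₛₗ, j_L hW hX hξ D j jm jξ]
      congr 1
      simp
  · intro c x hx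
    rw [map_smul, LinearMap.map_smulₛₗ, hx, LinearMap.map_smulₛₗ, map_smul]
  · simp only [map_zero]
  · intro x y hx hy
    simp only [map_add, hx, hy]

include hW hX hξ D jm jg jξ in
theorem j_star (x : W.coh X) : j (star D.slm.internal (Lop W X ξ) Lam x)
    = star D.slm.internal (Lop W X ξ) Lam (j x) := by
  refine str_ind D.slm (p := fun x => j (star D.slm.internal (Lop W X ξ) Lam x)
    = star D.slm.internal (Lop W X ξ) Lam (j x)) ?_ ?_ ?_ ?_ x
  · intro i s v hi hs hv hΛ
    have hΛ' := j_prim hW hX hξ D j jm jg jξ hi hv hΛ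
    have h1 : ∀ s : ℕ, ∀ y, j ((Lam ^ s) y) = (Lam ^ s) (j y) := by
      intro s
      induction s with
      | zero => intro y; simp
      | succ s ih =>
        intro y
        rw [pow_succ', Module.End.mul_apply, Module.End.mul_apply, ← ih,
          j_Lam hW hX hξ D j jm jg jξ]
    have h2 : ∀ v, v ∈ W.gr X i → Lam v = 0 → star D.slm.internal (Lop W X ξ) Lam v
        = (sgn i * ((n - i).factorial : ℂ)⁻¹) • (Lop W X ξ ^ (n - i)) v := by
      intro v hv hΛ
      rw [PP.star, Module.End.mul_apply, gop_apply _ _ hv, map_smul,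
        (wey D.slm).2.2.2.2 i v hi hv hΛ, smul_smul]
    rw [j_L hW hX hξ D j jm jξ, PSI.star_pow staB D.slm, PSI.star_pow staB D.slm, h1, h2 v hv hΛ,
      h2 (j v) (jg i v hv) hΛ', LinearMap.map_smulₛₗ, j_L hW hX hξ D j jm jξ]
    congr 2
    rw [map_mul, map_inv₀, sgn, map_pow, map_neg, map_one, map_natCast]
  · intro c x hx
    rw [map_smul, LinearMap.map_smulₛₗ, hx, LinearMap.map_smulₛₗ, map_smul]
  · simp only [map_zero]
  · intro x y hx hy
    simp only [map_add, hx, hy]

include hW hX hξ D j1 jm jg jξ jt jp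

/-- positivity in the degrees at most `n` -/
theorem pos_low {i : ℕ} (hi : i ≤ n) {z : W.coh X} (hz : z ∈ W.gr X i) (hz0 : z ≠ 0) :
    RPos (psi W X ξ Lam D.slm.internal z (j z)) := by
  classical
  set L := Lop W X ξ with hLdef
  obtain ⟨f, -, hfg, hf0, hfΛ, hsum⟩ := (sl2 D.slm).2.2.2.2.2.2 ⊤ (fun _ _ => trivial)
    (fun _ _ => trivial) (fun _ _ _ => trivial) i z hi hz trivial
  have hprim : ∀ r, 2 * r ≤ i → ξ ^ (n - (i - 2 * r) + 1) * f r = 0 := fun r hr => by
    have := (sl2 D.slm).2.2.2.1 (i - 2 * r) (f r) (by omega) (hfg r hr) (hfΛ r)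
    rwa [PSI.Lop_pow hW hX] at this
  have hprim' : ∀ r, 2 * r ≤ i → ξ ^ (n - (i - 2 * r) + 1) * j (f r) = 0 := fun r hr => by
    have := (sl2 D.slm).2.2.2.1 (i - 2 * r) (j (f r)) (by omega) (jg _ _ (hfg r hr))
      (j_prim hW hX hξ D j jm jg jξ (by omega) (hfg r hr) (hfΛ r))
    rwa [PSI.Lop_pow hW hX] at this
  have hcomm : ∀ (r : ℕ) (x : W.coh X), ξ ^ r * x = x * ξ ^ r := by
    intro r x
    induction r with
    | zero => simp
    | succ r ih => rw [pow_succ, mul_assoc, hW.alg_comm hX hξ x, ← mul_assoc, ih, mul_assoc]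
  -- the star operator
  have hstar : ∀ s, ∃ q : ℚ, 0 < q ∧ (2 * s ≤ i → star D.slm.internal L Lam ((L ^ s) (j (f s)))
      = (sgn (i - 2 * s) * (q : ℂ)) • (ξ ^ (n - (i - 2 * s) - s) * j (f s))) := by
    intro s
    by_cases hs : 2 * s ≤ i
    · obtain ⟨q, hq, h1⟩ := star_str D.slm (i := i - 2 * s) (by omega) (jg _ _ (hfg s hs))
        (j_prim hW hX hξ D j jm jg jξ (by omega) (hfg s hs) (hfΛ s)) s (by omega)
      refine ⟨q, hq, fun _ => ?_⟩
      rw [h1, PSI.Lop_pow hW hX]
    · exact ⟨1, one_pos, fun h => absurd h hs⟩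
  choose q hq hstar using hstar
  have hpair : ∀ r s, psi W X ξ Lam D.slm.internal ((L ^ r) (f r)) ((L ^ s) (j (f s))) =
      if r = s ∧ 2 * s ≤ i then (q s : ℂ) * (sgn (i - 2 * s) *
        W.tr X (ξ ^ (n - (i - 2 * s)) * (f s * j (f s)))) else 0 := by
    intro r s
    by_cases hr : 2 * r ≤ i
    swap
    · rw [hf0 r (by omega), psi, map_zero, zero_mul, map_zero, if_neg (by omega)]
    by_cases hs : 2 * s ≤ i
    swap
    · rw [hf0 s (by omega), psi, map_zero, map_zero, map_zero, mul_zero, map_zero,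
        if_neg (by omega)]
    have h1 : psi W X ξ Lam D.slm.internal ((L ^ r) (f r)) ((L ^ s) (j (f s))) =
        (sgn (i - 2 * s) * (q s : ℂ)) *
          W.tr X (ξ ^ (r + (n - (i - 2 * s) - s)) * (f r * j (f s))) := by
      rw [psi, hstar s hs, mul_smul_comm, map_smul, smul_eq_mul, PSI.Lop_pow hW hX]
      congr 2
      rw [pow_add, mul_assoc, mul_assoc, ← mul_assoc (f r), ← hcomm, mul_assoc]
    rw [h1]
    rcases lt_trichotomy r s with h | h | h
    · -- `f r` is killed
      rw [if_neg (by omega)]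
      have h2 : ξ ^ (r + (n - (i - 2 * s) - s)) * (f r * j (f s)) = 0 := by
        have h3 : r + (n - (i - 2 * s) - s) =
            (r + (n - (i - 2 * s) - s) - (n - (i - 2 * r) + 1)) + (n - (i - 2 * r) + 1) := by
          omega
        rw [h3, pow_add, mul_assoc, ← mul_assoc (ξ ^ (n - (i - 2 * r) + 1)), hprim r hr,
          zero_mul, mul_zero]
      rw [h2, map_zero, mul_zero]
    · subst h
      rw [if_pos ⟨rfl, hs⟩, show r + (n - (i - 2 * r) - r) = n - (i - 2 * r) by omega]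
      ring
    · rw [if_neg (by omega)]
      have h2 : ξ ^ (r + (n - (i - 2 * s) - s)) * (f r * j (f s)) = 0 := by
        have h3 : r + (n - (i - 2 * s) - s) =
            (r + (n - (i - 2 * s) - s) - (n - (i - 2 * s) + 1)) + (n - (i - 2 * s) + 1) := by
          omega
        rw [h3, pow_add, mul_assoc, ← mul_assoc (ξ ^ (n - (i - 2 * s) + 1)), hcomm _ (f r),
          mul_assoc (f r), hprim' s hs, mul_zero, mul_zero]
      rw [h2, map_zero, mul_zero]
  have hjz : j z = ∑ s ∈ Finset.range (n + 1), (L ^ s) (j (f s)) := by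
    conv_lhs => rw [hsum]
    rw [map_sum]
    exact Finset.sum_congr rfl fun s _ => j_L hW hX hξ D j jm jξ s _
  have hpsi : psi W X ξ Lam D.slm.internal z (j z) = ∑ r ∈ Finset.range (n + 1),
      if 2 * r ≤ i then (q r : ℂ) * (sgn (i - 2 * r) *
        W.tr X (ξ ^ (n - (i - 2 * r)) * (f r * j (f r)))) else 0 := by
    have h1 : psi W X ξ Lam D.slm.internal z (j z) = ∑ r ∈ Finset.range (n + 1),
        ∑ s ∈ Finset.range (n + 1),
          psi W X ξ Lam D.slm.internal ((L ^ r) (f r)) ((L ^ s) (j (f s))) := by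
      rw [hjz]
      conv_lhs => rw [hsum]
      simp only [psi, map_sum, Finset.sum_mul, Finset.mul_sum]
      exact Finset.sum_comm
    rw [h1]
    refine Finset.sum_congr rfl fun r hr => ?_
    rw [Finset.sum_eq_single r]
    · rw [hpair]
      simp
    · intro s _ hsr
      rw [hpair, if_neg (fun h => hsr h.1.symm)]
    · intro h
      exact absurd hr h
  rw [hpsi]
  have hterm : ∀ r, 2 * r ≤ i → f r ≠ 0 → RPos ((q r : ℂ) * (sgn (i - 2 * r) *
        W.tr X (ξ ^ (n - (i - 2 * r)) * (f r * j (f r))))) := fun r hr hne =>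
    RPos.qmul (hq r) (jp (i - 2 * r) (f r) (by omega) (hfg r hr) (hprim r hr) hne)
  refine rpos_sum' _ _ ?_ ?_
  · intro r _
    by_cases hr : 2 * r ≤ i
    · rw [if_pos hr]
      by_cases h0 : f r = 0
      · left; rw [h0]; simp
      · right; exact hterm r hr h0
    · left; rw [if_neg hr]
  · by_contra hcon
    push Not at hcon
    refine hz0 (hsum.trans (Finset.sum_eq_zero fun r hr => ?_))
    have h1 := hcon r hr
    by_cases hrj : 2 * r ≤ i
    · by_cases h0 : f r = 0
      · rw [h0, map_zero]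
      · rw [if_pos hrj] at h1
        exact absurd h1 (hterm r hrj h0).ne
    · rw [hf0 r (by omega), map_zero]

/-- positivity in one degree -/
theorem pos_hom {i : ℕ} {z : W.coh X} (hz : z ∈ W.gr X i) (hz0 : z ≠ 0) :
    RPos (psi W X ξ Lam D.slm.internal z (j z)) := by
  by_cases hi : i ≤ n
  · exact pos_low hW hX hξ D j j1 jm jg jξ jt jp hi hz hz0
  have hi2 : i ≤ 2 * n := by
    by_contra h
    exact hz0 (hW.top_gr hX hz (by omega))
  set y := star D.slm.internal (Lop W X ξ) Lam z with hy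
  have hzz : star D.slm.internal (Lop W X ξ) Lam y = z := (staB D.slm).2.1 z
  have hyg : y ∈ W.gr X (2 * n - i) := (staB D.slm).1 i z hi2 hz
  have hy0 : y ≠ 0 := fun h => hz0 (by rw [← hzz, h, map_zero])
  have h1 := pos_low hW hX hξ D j j1 jm jg jξ jt jp (i := 2 * n - i) (by omega) hyg hy0
  have h2 : psi W X ξ Lam D.slm.internal z (j z) = psi W X ξ Lam D.slm.internal y (j y) := by
    rw [psi, psi, ← j_star hW hX hξ D j jm jg jξ, ← j_star hW hX hξ D j jm jg jξ, hzz, ← hy]
    have h3 := BLK.star_adj hW staB hX hξ D z (j z)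
    rw [← hy, ← j_star hW hX hξ D j jm jg jξ, ← hy] at h3
    exact h3.symm
  rw [h2]
  exact h1

theorem pos_all {z : W.coh X} (hz0 : z ≠ 0) :
    RPos (psi W X ξ Lam D.slm.internal z (j z)) := by
  classical
  obtain ⟨g, hg, hsum⟩ : ∃ g : ℕ → W.coh X, (∀ i, g i ∈ W.gr X i) ∧
      z = ∑ i ∈ Finset.range (2 * n + 1), g i := by
    refine hW.hom_induction hX (P := fun z => ∃ g : ℕ → W.coh X, (∀ i, g i ∈ W.gr X i) ∧
      z = ∑ i ∈ Finset.range (2 * n + 1), g i) z ?_ ?_ ?_
    · intro i x hx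
      by_cases hi : i ≤ 2 * n
      · refine ⟨Pi.single i x, fun l => ?_, ?_⟩
        · by_cases hl : l = i
          · subst hl; rw [Pi.single_eq_same]; exact hx
          · rw [Pi.single_eq_of_ne hl]; exact zero_mem _
        · rw [Finset.sum_eq_single i]
          · rw [Pi.single_eq_same]
          · intro l _ hl
            rw [Pi.single_eq_of_ne hl]
          · intro h
            exact absurd (Finset.mem_range.2 (by omega)) h
      · refine ⟨fun _ => 0, fun _ => zero_mem _, ?_⟩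
        rw [hW.top_gr hX hx (by omega)]
        simp
    · exact ⟨fun _ => 0, fun _ => zero_mem _, by simp⟩
    · rintro x y ⟨g, hg, rfl⟩ ⟨g', hg', rfl⟩
      exact ⟨fun i => g i + g' i, fun i => add_mem (hg i) (hg' i), by
        rw [Finset.sum_add_distrib]⟩
  have hoff : ∀ i l, i ≤ 2 * n → l ≤ 2 * n → i ≠ l →
      psi W X ξ Lam D.slm.internal (g i) (j (g l)) = 0 := by
    intro i l hi hl hil
    have h1 := (staB D.slm).1 l (j (g l)) hl (jg l _ (hg l))
    exact hW.tr_gr hX (hW.mul_gr hX (hg i) h1) (by omega)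
  have hpsi : psi W X ξ Lam D.slm.internal z (j z) =
      ∑ i ∈ Finset.range (2 * n + 1), psi W X ξ Lam D.slm.internal (g i) (j (g i)) := by
    have h1 : psi W X ξ Lam D.slm.internal z (j z) = ∑ i ∈ Finset.range (2 * n + 1),
        ∑ l ∈ Finset.range (2 * n + 1), psi W X ξ Lam D.slm.internal (g i) (j (g l)) := by
      rw [hsum]
      simp only [psi, map_sum, Finset.sum_mul, Finset.mul_sum]
      exact Finset.sum_comm
    rw [h1]
    refine Finset.sum_congr rfl fun i hi => ?_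
    refine Finset.sum_eq_single i (fun l hl hli => ?_) (fun h => absurd hi h)
    rw [Finset.mem_range] at hi hl
    exact hoff i l (by omega) (by omega) (Ne.symm hli)
  rw [hpsi]
  refine rpos_sum' _ _ ?_ ?_
  · intro i _
    by_cases h0 : g i = 0
    · left; rw [h0, psi, zero_mul, map_zero]
    · right; exact pos_hom hW hX hξ D j j1 jm jg jξ jt jp (hg i) h0
  · by_contra hcon
    push Not at hcon
    refine hz0 (hsum.trans (Finset.sum_eq_zero fun i hi => ?_))
    by_contra h0
    exact (pos_hom hW hX hξ D j j1 jm jg jξ jt jp (hg i) h0).ne (hcon i hi)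

/-- Row HRPSI. -/
theorem isRS : IsRS W X n ξ Lam j :=
  { slm := D.slm
    gr := jg
    map_L := fun x => by rw [jm, jξ]
    map_Lam := fun x => j_Lam hW hX hξ D j jm jg jξ x
    one := j1
    tr := fun x y => by rw [← jm, jt]
    pos := fun _ hx => pos_all hW hX hξ D j j1 jm jg jξ jt jp hx }

end geo

end HrPsi

end Pool.Agent.Lib.MP_361a6f_ag.FL
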