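import Pool.Agent.Lib.MP_361a6f_ag.FL.GB26
import Pool.Agent.Lib.MP_361a6f_ag.FL.A.Ext1
import Pool.Agent.Lib.MP_361a6f_ag.AV48.Hr
import Pool.Agent.Lib.MP_361a6f_ag.FL.B.HrPsi
import Pool.Agent.Lib.MP_361a6f_ag.FL.B.Stat

/-!
# Varieties whose cohomology is generated in degree one have a Hodge-Riemann structure
-/

open CategoryTheory AlgebraicGeometry MonoidalCategory CartesianMonoidalCategory

universe u v w

set_option autoImplicit false
set_option linter.unusedSectionVars false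

namespace Pool.Agent.Lib.MP_361a6f_ag.FL

open Pool.Agent.Lib.MP_361a6f_ag.H3 Pool.Agent.Lib.MP_361a6f_ag.SQ
  Pool.Agent.Lib.MP_361a6f_ag.PP

namespace HrA

/-! ### an antilinear structure from an adapted basis -/

section basis

variable {V : Type w} [AddCommGroup V] [Module ℂ V] {B : V →ₗ[ℂ] V →ₗ[ℂ] ℂ} {n : ℕ} {o : Prop}
  {b : Module.Basis (Fin n) ℂ V} {τ : Fin n → Fin n} {s : Fin n → ℂ}

/-- `v_i b_i ↦ conj(v_i) s_i b_(τ i)` -/
noncomputable def j0 (b : Module.Basis (Fin n) ℂ V) (τ : Fin n → Fin n) (s : Fin n → ℂ) :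
    V →ₛₗ[starRingEnd ℂ] V where
  toFun v := ∑ i, (starRingEnd ℂ (b.repr v i) * s i) • b (τ i)
  map_add' v v' := by
    rw [← Finset.sum_add_distrib]
    refine Finset.sum_congr rfl fun i _ => ?_
    rw [map_add, Finsupp.add_apply, map_add, add_mul, add_smul]
  map_smul' c v := by
    rw [Finset.smul_sum]
    refine Finset.sum_congr rfl fun i _ => ?_
    rw [map_smul, Finsupp.smul_apply, smul_eq_mul, map_mul, mul_assoc, mul_smul]

theorem j0_apply (v : V) : j0 b τ s v = ∑ i, (starRingEnd ℂ (b.repr v i) * s i) • b (τ i) := rfl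

theorem conj_s (h : Adp o B b τ s) (i : Fin n) : starRingEnd ℂ (s i) = s i := by
  rcases h.s_val i with h1 | h1 <;> rw [h1] <;> simp

theorem j0_basis (i : Fin n) : j0 b τ s (b i) = s i • b (τ i) := by
  rw [j0_apply, Finset.sum_eq_single i]
  · rw [b.repr_self, Finsupp.single_eq_same, map_one, one_mul]
  · intro k _ hk
    rw [b.repr_self, Finsupp.single_eq_of_ne hk, map_zero, zero_mul, zero_smul]
  · intro h0
    exact absurd (Finset.mem_univ _) h0

theorem j0_j0 (h : Adp True B b τ s) (v : V) : j0 b τ s (j0 b τ s v) = -v := by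
  have h1 : ∀ i, j0 b τ s (j0 b τ s (b i)) = -b i := by
    intro i
    rw [j0_basis, LinearMap.map_smulₛₗ, j0_basis, conj_s h, h.τ_τ, smul_smul,
      (h.odd_τ trivial i).2, mul_neg, h.s_sq, neg_one_smul]
  conv_lhs => rw [← b.sum_repr v]
  conv_rhs => rw [← b.sum_repr v]
  rw [map_sum, map_sum, ← Finset.sum_neg_distrib]
  refine Finset.sum_congr rfl fun i _ => ?_
  rw [LinearMap.map_smulₛₗ, LinearMap.map_smulₛₗ, h1, Complex.conj_conj, smul_neg]

theorem form (h : Adp o B b τ s) (v w : V) :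
    B v w = ∑ i, b.repr v i * b.repr w (τ i) * s i := by
  have e0 : B v w = ∑ i, b.repr v i * B (b i) w := by
    conv_lhs => rw [← b.sum_repr v]
    rw [map_sum, LinearMap.sum_apply]
    exact Finset.sum_congr rfl fun i _ => by rw [map_smul, LinearMap.smul_apply, smul_eq_mul]
  rw [e0]
  refine Finset.sum_congr rfl fun i _ => ?_
  rw [mul_assoc]
  congr 1
  conv_lhs => rw [← b.sum_repr w]
  rw [map_sum, Finset.sum_eq_single (τ i)]
  · rw [map_smul, h.gram, if_pos rfl, smul_eq_mul]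
  · intro k _ hk
    rw [map_smul, h.gram, if_neg hk, smul_zero]
  · intro h0
    exact absurd (Finset.mem_univ _) h0

theorem repr_j0 (h : Adp o B b τ s) (v : V) (i : Fin n) :
    b.repr (j0 b τ s v) i = starRingEnd ℂ (b.repr v (τ i)) * s (τ i) := by
  rw [j0_apply, map_sum, Finsupp.finsetSum_apply, Finset.sum_eq_single (τ i)]
  · rw [map_smul, Finsupp.smul_apply, h.τ_τ, b.repr_self, Finsupp.single_eq_same, smul_eq_mul,
      mul_one]
  · intro k _ hk
    rw [map_smul, Finsupp.smul_apply, b.repr_self, Finsupp.single_eq_of_ne, smul_zero]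
    intro h1
    apply hk
    rw [h1, h.τ_τ]
  · intro h0
    exact absurd (Finset.mem_univ _) h0

theorem form_conj (h : Adp o B b τ s) (v w : V) :
    B (j0 b τ s v) (j0 b τ s w) = starRingEnd ℂ (B v w) := by
  rw [form h, form h, map_sum]
  have e : Function.Bijective τ := Function.Involutive.bijective h.τ_τ
  rw [← e.sum_comp]
  refine Finset.sum_congr rfl fun i _ => ?_
  rw [repr_j0 h, repr_j0 h, h.τ_τ, map_mul, map_mul, conj_s h]
  have h2 := h.s_sq (τ i)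
  linear_combination (starRingEnd ℂ ((b.repr v) i) * starRingEnd ℂ ((b.repr w) (τ i)) * s i) * h2

theorem form_pos (h : Adp o B b τ s) (v : V) (hv : v ≠ 0) :
    ∃ r : ℝ, 0 < r ∧ B v (j0 b τ s v) = (r : ℂ) := by
  refine ⟨∑ i, Complex.normSq (b.repr v i), ?_, ?_⟩
  · refine lt_of_le_of_ne (Finset.sum_nonneg fun i _ => Complex.normSq_nonneg _) fun h0 => hv ?_
    have h1 := (Finset.sum_eq_zero_iff_of_nonneg
      fun i _ => Complex.normSq_nonneg (b.repr v i)).1 h0.symm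
    rw [← b.sum_repr v]
    exact Finset.sum_eq_zero fun i hi => by rw [Complex.normSq_eq_zero.1 (h1 i hi), zero_smul]
  · rw [form h]
    push_cast
    refine Finset.sum_congr rfl fun i _ => ?_
    rw [repr_j0 h, h.τ_τ, Complex.normSq_eq_conj_mul_self]
    have h2 := h.s_sq i
    linear_combination ((b.repr v) i * starRingEnd ℂ ((b.repr v) i)) * h2

end basis

end HrA

open HrA in
/-- If `H^*(X)` is generated by `H^1(X)`, then `(X, ξ)` has a Hodge-Riemann structure. -/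
theorem exists_hrStr {k : Type u} [Field k] {W : CohomologyData.{u, 0, w} k ℂ}
    {𝒱 : VarietyClass k} (hW : IsWeilCohomology W 𝒱) {X : Sch k} {g : ℕ} (hX : 𝒱.mem X g)
    (hA : AbelianType W X g) {ξ : W.coh X} (hξ : PositiveDivisor W X g ξ)
    (hL : HardLefschetz W X g ξ) (hΛ : AlgebraicLambda W X g ξ) :
    ∃ j : W.coh X →ₛₗ[starRingEnd ℂ] W.coh X, HRStr W X g ξ j := by
  obtain ⟨Lam, D⟩ := PP.lam hW hX hξ.1 hL hΛ
  have hfin : FiniteDimensional ℂ (W.coh X) := hW.finite hX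
  obtain ⟨n, b, τ, s, h⟩ := exists_adapted (o := True) (B := GB26.ps D 1)
    (fun x y _ => by
      rw [GB26.ps_apply, GB26.ps_apply, GB26.symm_gr hW hX hξ.1 D x.2, pow_one]
      ring)
    (fun x y ho => absurd trivial ho)
    (fun x hx => GB26.nondeg_gr hW hX hξ.1 D 1 x hx)
  have htr : ∃ x, W.tr X x ≠ 0 := by
    obtain ⟨q, hq, h1⟩ := hξ.2
    refine ⟨ξ ^ g, ?_⟩
    have h2 : W.tr X (ξ ^ g) = (q : ℂ) := h1
    rw [h2]
    exact_mod_cast hq.ne'
  -- the antilinear map on `H^1`, extended by zero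
  let j1 : W.coh X →ₛₗ[starRingEnd ℂ] W.coh X :=
    { toFun := fun x => (j0 b τ s ⟨AV48.pj D.slm.internal 1 x, AV48.pj_mem _ 1 x⟩ : W.gr X 1)
      map_add' := fun x y => by
        have e : (⟨AV48.pj D.slm.internal 1 (x + y), AV48.pj_mem _ 1 _⟩ : W.gr X 1)
            = ⟨AV48.pj D.slm.internal 1 x, AV48.pj_mem _ 1 x⟩
              + ⟨AV48.pj D.slm.internal 1 y, AV48.pj_mem _ 1 y⟩ :=
          Subtype.ext (map_add _ x y)
        rw [e, map_add, Submodule.coe_add]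
      map_smul' := fun c x => by
        have e : (⟨AV48.pj D.slm.internal 1 (c • x), AV48.pj_mem _ 1 _⟩ : W.gr X 1)
            = c • ⟨AV48.pj D.slm.internal 1 x, AV48.pj_mem _ 1 x⟩ :=
          Subtype.ext (map_smul _ c x)
        rw [e, LinearMap.map_smulₛₗ, Submodule.coe_smul] }
  have hj1 : ∀ v (hv : v ∈ W.gr X 1), j1 v = (j0 b τ s ⟨v, hv⟩ : W.gr X 1) := by
    intro v hv
    have e : (⟨AV48.pj D.slm.internal 1 v, AV48.pj_mem _ 1 v⟩ : W.gr X 1) = ⟨v, hv⟩ :=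
      Subtype.ext (AV48.pj_same _ hv)
    show ((j0 b τ s ⟨AV48.pj D.slm.internal 1 v, AV48.pj_mem _ 1 v⟩ : W.gr X 1) : W.coh X) = _
    rw [e]
  obtain ⟨J, J1, Jm, Jg, hJ⟩ := (Ext1.extFacts hW hX hA htr).ext j1 fun v hv => by
    rw [hj1 v hv]
    exact (j0 b τ s ⟨v, hv⟩).2
  have hJ' : ∀ v : W.gr X 1, J v = (j0 b τ s v : W.gr X 1) := fun v => by
    rw [hJ v v.2, hj1 v v.2]
  have Jc : ∀ v ∈ W.gr X 1, ∀ w ∈ W.gr X 1, psi W X ξ Lam D.slm.internal (J v) (J w)
      = starRingEnd ℂ (psi W X ξ Lam D.slm.internal v w) := by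
    intro v hv w hw
    have h1 := form_conj h ⟨v, hv⟩ ⟨w, hw⟩
    rw [GB26.ps_apply, GB26.ps_apply, ← hJ', ← hJ'] at h1
    exact h1
  have Jp : ∀ v ∈ W.gr X 1, v ≠ 0 → ∃ r : ℝ, 0 < r ∧
      psi W X ξ Lam D.slm.internal v (J v) = (r : ℂ) := by
    intro v hv hv0
    obtain ⟨r, hr, h1⟩ := form_pos h ⟨v, hv⟩ fun h0 => hv0 (congrArg Subtype.val h0)
    rw [GB26.ps_apply, ← hJ'] at h1
    exact ⟨r, hr, h1⟩
  have JJ : ∀ v ∈ W.gr X 1, J (J v) = -v := by
    intro v hv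
    have e1 := hJ' ⟨v, hv⟩
    have e2 := hJ' (j0 b τ s ⟨v, hv⟩)
    rw [j0_j0 h] at e2
    rw [← e1] at e2
    exact e2
  have jξ := AV48.J_ξ hW hX hA hξ D J J1 Jm Jg Jc JJ
  have R := AV48.isRS hW hX hA hξ D J J1 Jm Jg Jc Jp JJ
  have hcomm : ∀ (r : ℕ) (x : W.coh X), ξ ^ r * x = x * ξ ^ r := by
    intro r x
    induction r with
    | zero => simp
    | succ r ih => rw [pow_succ, mul_assoc, hW.alg_comm hX hξ.1 x, ← mul_assoc, ih, mul_assoc]
  refine ⟨J, Jm, fun i x hx => Jg i x hx, jξ, AV48.J_tr hW hX hA hξ D J J1 Jm Jg Jc JJ, ?_⟩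
  intro i x hi hx hx0
  have hxg : x ∈ W.gr X i := hx.1
  have hpr : (Lop W X ξ ^ (g - i + 1)) x = 0 := by
    rw [PSI.Lop_pow hW hX]
    exact hx.2
  have hΛx : Lam (J x) = 0 :=
    HrPsi.j_prim hW hX hξ.1 D J Jm Jg jξ hi hxg ((sl2 D.slm).2.2.2.2.2.1 i x hi hxg hpr)
  obtain ⟨q, hq, hst⟩ := HrPsi.star_str D.slm hi (Jg i x hxg) hΛx 0 (Nat.zero_le _)
  obtain ⟨r, hr, hpos⟩ := R.pos x hx0
  have e1 : psi W X ξ Lam D.slm.internal x (J x)
      = (q : ℂ) * (sgn i * W.tr X (ξ ^ (g - i) * (x * J x))) := by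
    rw [pow_zero, Module.End.one_apply, Nat.sub_zero, PSI.Lop_pow hW hX] at hst
    rw [psi, hst, mul_smul_comm, map_smul, smul_eq_mul, ← mul_assoc x, ← hcomm, mul_assoc (ξ ^ _)]
    ring
  have hq0 : (q : ℂ) ≠ 0 := by exact_mod_cast hq.ne'
  refine ⟨r / (q : ℝ), div_pos hr (by exact_mod_cast hq), ?_⟩
  show sgn i * W.tr X (ξ ^ (g - i) * (x * J x)) = _
  have e2 : psi W X ξ Lam D.slm.internal x (J x) = (r : ℂ) := hpos
  rw [e1] at e2
  rw [eq_comm, Complex.ofReal_div, ← e2]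
  push_cast
  field_simp

end Pool.Agent.Lib.MP_361a6f_ag.FL
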