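import Pool.Agent.Lib.MP_361a6f_ag.FL.B.HopF

/-!
# Every positive structure on `H^1` of an abelian variety extends to a Hodge-Riemann structure
-/

open CategoryTheory AlgebraicGeometry MonoidalCategory CartesianMonoidalCategory

universe u v w

set_option autoImplicit false
set_option linter.unusedSectionVars false

namespace Pool.Agent.Lib.MP_361a6f_ag.FL

open Pool.Agent.Lib.MP_361a6f_ag.H3 Pool.Agent.Lib.MP_361a6f_ag.SQ
  Pool.Agent.Lib.MP_361a6f_ag.PP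

variable {k : Type u} [Field k] {W : CohomologyData.{u, 0, w} k ℂ} {𝒱 : VarietyClass k}

/-- an antilinear map `j1` of `H^1` with `ψ(j1 v, j1 w) = conj ψ(v, w)` and `ψ(v, j1 v) > 0`
extends to a Hodge-Riemann structure -/
theorem hrStr_of_psi (hW : IsWeilCohomology W 𝒱) {X : Sch k} {g : ℕ} (hX : 𝒱.mem X g)
    (hA : AbelianType W X g) {ξ : W.coh X} (hξ : PositiveDivisor W X g ξ)
    {Lam : Module.End ℂ (W.coh X)} (D : LamData W X g ξ Lam)
    (j1 : W.coh X →ₛₗ[starRingEnd ℂ] W.coh X) (hj : ∀ v ∈ W.gr X 1, j1 v ∈ W.gr X 1)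
    (hc : ∀ v ∈ W.gr X 1, ∀ w ∈ W.gr X 1, psi W X ξ Lam D.slm.internal (j1 v) (j1 w)
      = starRingEnd ℂ (psi W X ξ Lam D.slm.internal v w))
    (hp : ∀ v ∈ W.gr X 1, v ≠ 0 → ∃ r : ℝ, 0 < r ∧
      psi W X ξ Lam D.slm.internal v (j1 v) = (r : ℂ)) :
    ∃ j : W.coh X →ₛₗ[starRingEnd ℂ] W.coh X, HRStr W X g ξ j ∧ ∀ v ∈ W.gr X 1, j v = j1 v := by
  have hfin : FiniteDimensional ℂ (W.coh X) := hW.finite hX
  have htr : ∃ x, W.tr X x ≠ 0 := by
    obtain ⟨q, hq, h1⟩ := hξ.2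
    refine ⟨ξ ^ g, ?_⟩
    have h2 : W.tr X (ξ ^ g) = (q : ℂ) := h1
    rw [h2]
    exact_mod_cast hq.ne'
  obtain ⟨J, J1, Jm, Jg, hJ⟩ := (Ext1.extFacts hW hX hA htr).ext j1 hj
  have Jc : ∀ v ∈ W.gr X 1, ∀ w ∈ W.gr X 1, psi W X ξ Lam D.slm.internal (J v) (J w)
      = starRingEnd ℂ (psi W X ξ Lam D.slm.internal v w) := by
    intro v hv w hw
    rw [hJ v hv, hJ w hw, hc v hv w hw]
  have Jp : ∀ v ∈ W.gr X 1, v ≠ 0 → ∃ r : ℝ, 0 < r ∧
      psi W X ξ Lam D.slm.internal v (J v) = (r : ℂ) := by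
    intro v hv hv0
    rw [hJ v hv]
    exact hp v hv hv0
  -- `ψ` is bilinear, and antisymmetric on `H^1`
  have pal : ∀ x x' y, psi W X ξ Lam D.slm.internal (x + x') y
      = psi W X ξ Lam D.slm.internal x y + psi W X ξ Lam D.slm.internal x' y := fun x x' y => by
    rw [psi, psi, psi, add_mul, map_add]
  have par : ∀ x y y', psi W X ξ Lam D.slm.internal x (y + y')
      = psi W X ξ Lam D.slm.internal x y + psi W X ξ Lam D.slm.internal x y' := fun x y y' => by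
    rw [psi, psi, psi, map_add, mul_add, map_add]
  have psl : ∀ (c : ℂ) x y, psi W X ξ Lam D.slm.internal (c • x) y
      = c * psi W X ξ Lam D.slm.internal x y := fun c x y => by
    rw [psi, psi, smul_mul_assoc, map_smul, smul_eq_mul]
  have psr : ∀ (c : ℂ) x y, psi W X ξ Lam D.slm.internal x (c • y)
      = c * psi W X ξ Lam D.slm.internal x y := fun c x y => by
    rw [psi, psi, map_smul, mul_smul_comm, map_smul, smul_eq_mul]
  have hant : ∀ v ∈ W.gr X 1, ∀ w, psi W X ξ Lam D.slm.internal v w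
      = -psi W X ξ Lam D.slm.internal w v := by
    intro v hv w
    rw [GB26.symm_gr hW hX hξ.1 D hv w]
    ring
  have hg1 : ∀ v ∈ W.gr X 1, J v ∈ W.gr X 1 := fun v hv => Jg 1 v hv
  -- the form `ψ(v, J w)` is hermitian
  have hreal : ∀ v ∈ W.gr X 1, ∃ r : ℝ, psi W X ξ Lam D.slm.internal v (J v) = (r : ℂ) := by
    intro v hv
    by_cases hv0 : v = 0
    · refine ⟨0, ?_⟩
      rw [hv0, psi, zero_mul, map_zero, Complex.ofReal_zero]
    · obtain ⟨r, -, h1⟩ := Jp v hv hv0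
      exact ⟨r, h1⟩
  have hherm : ∀ v ∈ W.gr X 1, ∀ w ∈ W.gr X 1, psi W X ξ Lam D.slm.internal v (J w)
      = starRingEnd ℂ (psi W X ξ Lam D.slm.internal w (J v)) := by
    intro v hv w hw
    obtain ⟨a, ha⟩ := hreal v hv
    obtain ⟨b, hb⟩ := hreal w hw
    obtain ⟨c, hc'⟩ := hreal (v + w) (add_mem hv hw)
    obtain ⟨d, hd⟩ := hreal (v + Complex.I • w) (add_mem hv (Submodule.smul_mem _ _ hw))
    have e1 : psi W X ξ Lam D.slm.internal v (J w) + psi W X ξ Lam D.slm.internal w (J v)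
        = ((c - a - b : ℝ) : ℂ) := by
      rw [map_add, pal, par, par, ha, hb] at hc'
      push_cast
      linear_combination hc'
    have e2 : -Complex.I * psi W X ξ Lam D.slm.internal v (J w)
        + Complex.I * psi W X ξ Lam D.slm.internal w (J v) = ((d - a - b : ℝ) : ℂ) := by
      rw [map_add, pal, par, par, LinearMap.map_smulₛₗ, psl, psl, psr, psr, ha, hb,
        Complex.conj_I] at hd
      push_cast
      linear_combination hd + Complex.I_mul_I * (b : ℂ)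
    have r1 := congrArg Complex.im e1
    have r2 := congrArg Complex.im e2
    rw [Complex.add_im, Complex.ofReal_im] at r1
    simp only [Complex.add_im, Complex.mul_im, Complex.neg_re, Complex.neg_im, Complex.I_re,
      Complex.I_im, Complex.ofReal_im] at r2
    apply Complex.ext
    · rw [Complex.conj_re]
      linarith
    · rw [Complex.conj_im]
      linarith
  have JJ : ∀ v ∈ W.gr X 1, J (J v) = -v := by
    intro v hv
    -- `ψ(J J v + v, w) = 0` for all `w` in `H^1`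
    have h1 : ∀ w ∈ W.gr X 1, psi W X ξ Lam D.slm.internal (J (J v) + v) w = 0 := by
      intro w hw
      have e1 := hherm w hw (J v) (hg1 v hv)
      rw [Jc v hv w hw, Complex.conj_conj] at e1
      rw [pal, hant (J (J v)) (hg1 _ (hg1 v hv)) w, e1, neg_add_cancel]
    have h2 : (⟨J (J v) + v, add_mem (hg1 _ (hg1 v hv)) hv⟩ : W.gr X 1) = 0 :=
      GB26.nondeg_gr hW hX hξ.1 D 1 _ fun w => by
        rw [GB26.ps_apply]
        exact h1 w w.2
    exact eq_neg_of_add_eq_zero_left (congrArg Subtype.val h2)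
  have jξ := AV48.J_ξ hW hX hA hξ D J J1 Jm Jg Jc JJ
  have R := AV48.isRS hW hX hA hξ D J J1 Jm Jg Jc Jp JJ
  have hcomm : ∀ (r : ℕ) (x : W.coh X), ξ ^ r * x = x * ξ ^ r := by
    intro r x
    induction r with
    | zero => simp
    | succ r ih => rw [pow_succ, mul_assoc, hW.alg_comm hX hξ.1 x, ← mul_assoc, ih, mul_assoc]
  refine ⟨J, ⟨Jm, fun i x hx => Jg i x hx, jξ, AV48.J_tr hW hX hA hξ D J J1 Jm Jg Jc JJ, ?_⟩, hJ⟩
  intro i x hi hx hx0
  have hxg : x ∈ W.gr X i := hx.1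
  have hpr : (Lop W X ξ ^ (g - i + 1)) x = 0 := by
    rw [PSI.Lop_pow hW hX]
    exact hx.2
  have hΛx : Lam (J x) = 0 :=
    HrPsi.j_prim hW hX hξ.1 D J Jm Jg jξ hi hxg ((sl2 D.slm).2.2.2.2.2.1 i x hi hxg hpr)
  obtain ⟨q, hq, hst⟩ := HrPsi.star_str D.slm hi (Jg i x hxg) hΛx 0 (Nat.zero_le _)
  obtain ⟨r, hr, hpos⟩ := R.pos x hx0
  have e1 : psi W X ξ Lam D.slm.internal x (J x)
      = (q : ℂ) * (sgn i * W.tr X (ξ ^ (g - i) * (x * J x))) := by
    rw [pow_zero, Module.End.one_apply, Nat.sub_zero, PSI.Lop_pow hW hX] at hst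
    rw [psi, hst, mul_smul_comm, map_smul, smul_eq_mul, ← mul_assoc x, ← hcomm, mul_assoc (ξ ^ _)]
    ring
  have hq0 : (q : ℂ) ≠ 0 := by exact_mod_cast hq.ne'
  refine ⟨r / (q : ℝ), div_pos hr (by exact_mod_cast hq), ?_⟩
  show sgn i * W.tr X (ξ ^ (g - i) * (x * J x)) = _
  have e2 : psi W X ξ Lam D.slm.internal x (J x) = (r : ℂ) := hpos
  rw [e1] at e2
  rw [eq_comm, Complex.ofReal_div, ← e2]
  push_cast
  field_simp

/-- `ψ` on `H^1` is a positive multiple of `-Tr(ξ^(g - 1) v w)` -/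
theorem psi_one (hW : IsWeilCohomology W 𝒱) {X : Sch k} {g : ℕ} (hX : 𝒱.mem X g) {ξ : W.coh X}
    (hξ : PositiveDivisor W X g ξ) {Lam : Module.End ℂ (W.coh X)} (D : LamData W X g ξ Lam)
    (hg : 1 ≤ g) (v : W.coh X) {w : W.coh X} (hw : w ∈ W.gr X 1) :
    psi W X ξ Lam D.slm.internal v w
      = ((g - 1).factorial : ℂ)⁻¹ * -W.tr X (ξ ^ (g - 1) * (v * w)) := by
  have hcomm : ∀ (r : ℕ) (x : W.coh X), ξ ^ r * x = x * ξ ^ r := by
    intro r x
    induction r with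
    | zero => simp
    | succ r ih => rw [pow_succ, mul_assoc, hW.alg_comm hX hξ.1 x, ← mul_assoc, ih, mul_assoc]
  have hΛ : Lam w = 0 := D.slm.Λ_low 1 w (by norm_num) hw
  have h2 : star D.slm.internal (Lop W X ξ) Lam w
      = (sgn 1 * ((g - 1).factorial : ℂ)⁻¹) • (Lop W X ξ ^ (g - 1)) w := by
    rw [PP.star, Module.End.mul_apply, gop_apply _ _ hw, map_smul,
      (wey D.slm).2.2.2.2 1 w hg hw hΛ, smul_smul]
  have hs : sgn 1 = -1 := by norm_num [sgn]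
  rw [psi, h2, PSI.Lop_pow hW hX, mul_smul_comm, map_smul, smul_eq_mul, ← mul_assoc v, ← hcomm,
    mul_assoc (ξ ^ _), hs]
  ring

/-- Every antilinear structure on `H^1(X)` which is compatible with `-Tr(ξ^(g - 1) v w)` and
positive for it is the restriction of a Hodge-Riemann structure of `(X, ξ)`. -/
theorem hrStr_of_one (hW : IsWeilCohomology W 𝒱) {X : Sch k} {g : ℕ} (hX : 𝒱.mem X g)
    (hA : AbelianType W X g) {ξ : W.coh X} (hξ : PositiveDivisor W X g ξ)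
    (hL : HardLefschetz W X g ξ) (hΛ : AlgebraicLambda W X g ξ)
    (j1 : W.coh X →ₛₗ[starRingEnd ℂ] W.coh X) (hj : ∀ v ∈ W.gr X 1, j1 v ∈ W.gr X 1)
    (hc : ∀ v ∈ W.gr X 1, ∀ w ∈ W.gr X 1, W.tr X (ξ ^ (g - 1) * (j1 v * j1 w))
      = starRingEnd ℂ (W.tr X (ξ ^ (g - 1) * (v * w))))
    (hp : ∀ v ∈ W.gr X 1, v ≠ 0 → ∃ r : ℝ, 0 < r ∧
      -W.tr X (ξ ^ (g - 1) * (v * j1 v)) = (r : ℂ)) :
    ∃ j : W.coh X →ₛₗ[starRingEnd ℂ] W.coh X, HRStr W X g ξ j ∧ ∀ v ∈ W.gr X 1, j v = j1 v := by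
  obtain ⟨Lam, D⟩ := PP.lam hW hX hξ.1 hL hΛ
  have h0 : ∀ v ∈ W.gr X 1, v ≠ 0 → 1 ≤ g := by
    intro v hv hv0
    by_contra hg
    exact hv0 (hW.top_gr hX hv (by omega))
  have hf : (0 : ℝ) < ((g - 1).factorial : ℝ)⁻¹ := by positivity
  refine hrStr_of_psi hW hX hA hξ D j1 hj (fun v hv w hw => ?_) fun v hv hv0 => ?_
  · by_cases hg : 1 ≤ g
    · rw [psi_one hW hX hξ D hg _ (hj w hw), psi_one hW hX hξ D hg _ hw, hc v hv w hw,
        map_mul (starRingEnd ℂ), map_neg (starRingEnd ℂ), map_inv₀ (starRingEnd ℂ),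
        Complex.conj_natCast]
    · have hv0 : v = 0 := hW.top_gr hX hv (by omega)
      rw [hv0, map_zero, psi, psi, zero_mul, zero_mul, map_zero, map_zero]
  · obtain ⟨r, hr, h1⟩ := hp v hv hv0
    refine ⟨((g - 1).factorial : ℝ)⁻¹ * r, mul_pos hf hr, ?_⟩
    rw [psi_one hW hX hξ D (h0 v hv hv0) _ (hj v hv), h1]
    push_cast
    rfl

end Pool.Agent.Lib.MP_361a6f_ag.FL
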