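import Pool.Agent.Lib.MP_361a6f_ag.FL.B.GeoDefs
import Pool.Agent.Lib.MP_361a6f_ag.FL.B.HrPsi

/-!
# Row HRI: a Hodge-Riemann structure is a real structure
-/

open CategoryTheory AlgebraicGeometry MonoidalCategory CartesianMonoidalCategory

universe u v w

set_option autoImplicit false
set_option linter.unusedSectionVars false

namespace Pool.Agent.Lib.MP_361a6f_ag.FL

open Pool.Agent.Lib.MP_361a6f_ag.H3 Pool.Agent.Lib.MP_361a6f_ag.SQ
  Pool.Agent.Lib.MP_361a6f_ag.IP2 Pool.Agent.Lib.MP_361a6f_ag.PP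

/-- a Hodge-Riemann structure fixes the unit: `x = 1 - j 1` satisfies `x j(x) = 0` -/
theorem HRStr.one {k : Type u} [Field k] {W : CohomologyData.{u, 0, w} k ℂ} {𝒱 : VarietyClass k}
    (hW : IsWeilCohomology W 𝒱) {X : Sch k} {n : ℕ} (hX : 𝒱.mem X n) {ξ : W.coh X}
    (hξ : ξ ∈ W.alg X 1) {j : W.coh X →ₛₗ[starRingEnd ℂ] W.coh X} (hj : HRStr W X n ξ j) :
    j 1 = 1 := by
  by_contra hne
  have h1 : (1 : W.coh X) ∈ W.gr X 0 := hW.graded.one hX
  have hx : (1 - j 1) ∈ W.gr X 0 := sub_mem h1 (hj.deg 0 1 h1)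
  have hpr : Primitive W X n ξ 0 (1 - j 1) := by
    refine ⟨hx, ?_⟩
    have hgr : ∀ r : ℕ, ξ ^ r ∈ W.gr X (2 * r) := by
      intro r
      induction r with
      | zero => rw [pow_zero]; exact h1
      | succ r ih =>
        rw [pow_succ]
        exact hW.graded.mul hX ih (hW.alg_gr hX hξ)
    exact hW.graded.top hX (hW.graded.mul hX (hgr (n - 0 + 1)) hx) (by omega)
  obtain ⟨r, hr, h⟩ := hj.pos 0 (1 - j 1) (Nat.zero_le n) hpr fun h0 => hne (sub_eq_zero.1 h0).symm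
  have h2 : W.cup (1 - j 1) (j (1 - j 1)) = 0 := by
    have h3 : j 1 * j (1 - j 1) = j (1 - j 1) := by
      have h4 := hj.cup 1 (1 - j 1)
      rw [CohomologyData.cup, one_mul] at h4
      exact h4.symm
    rw [CohomologyData.cup, sub_mul, one_mul, h3, sub_self]
  rw [h2, CohomologyData.cup, mul_zero, CohomologyData.Tr, map_zero, mul_zero] at h
  exact hr.ne' (Complex.ofReal_injective h.symm)

/-- Row HRI. -/
theorem hri : HriStatement.{u, w} := by
  intro k _ W 𝒱 hW X n hX ξ hp Lam D j hj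
  exact HrPsi.isRS hW hX hp.1 D j (hj.one hW hX hp.1) hj.cup (fun i x hx => hj.deg i x hx) hj.pol
    hj.tr fun i x hi hx h0 hne => hj.pos i x hi ⟨hx, h0⟩ hne

end Pool.Agent.Lib.MP_361a6f_ag.FL
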