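import Pool.Agent.Lib.MP_361a6f_ag.FL.GM
import Pool.Agent.Lib.MP_361a6f_ag.FL.Ge
import Pool.Agent.Lib.MP_361a6f_ag.FL.B.GeoDefs
import Pool.Agent.Lib.MP_361a6f_ag.PP.SL2
import Pool.Agent.Lib.MP_361a6f_ag.PP.StaB
import Pool.Agent.Lib.MP_361a6f_ag.PP.STP
import Pool.Agent.Lib.MP_361a6f_ag.PP.Rsp
import Pool.Agent.Lib.MP_361a6f_ag.PP.LMP
import Pool.Agent.Lib.MP_361a6f_ag.PP.TAL

/-!
# Row JH: the operators `J P` of an adapted host
-/

open CategoryTheory AlgebraicGeometry MonoidalCategory CartesianMonoidalCategory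

universe u v w

set_option autoImplicit false
set_option linter.unusedSectionVars false

namespace Pool.Agent.Lib.MP_361a6f_ag.FL

open Pool.Agent.Lib.MP_361a6f_ag.H3 Pool.Agent.Lib.MP_361a6f_ag.SQ
  Pool.Agent.Lib.MP_361a6f_ag.IP2 Pool.Agent.Lib.MP_361a6f_ag.PP

namespace JH

variable {k : Type u} [Field k] {W : CohomologyData.{u, 0, w} k ℂ} {𝒱 : VarietyClass k} {m : ℕ}
  {H : Host W 𝒱 m}
  {J : ∀ P : Prd m, W.coh (P.obj H.X) →ₛₗ[starRingEnd ℂ] W.coh (P.obj H.X)}

/-- real structures on all products -/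
theorem rs_all (hRsp : RspStatement.{u, w})
    (prod : ∀ (P Q : Prd m) (y : W.coh (P.obj H.X)) (x : W.coh (Q.obj H.X)),
      J (.prod P Q) (W.pull (fst (P.obj H.X) (Q.obj H.X)) y
          * W.pull (snd (P.obj H.X) (Q.obj H.X)) x)
        = W.pull (fst (P.obj H.X) (Q.obj H.X)) (J P y)
          * W.pull (snd (P.obj H.X) (Q.obj H.X)) (J Q x))
    (h0 : ∀ a, IsRS W (H.X a) (H.n a) (H.ξ a) (H.Lam a) (J (.leaf a))) :
    ∀ P : Prd m, IsRS W (P.obj H.X) (P.dim H.n) (P.pol W H.ξ) (H.LamP P) (J P)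
  | .leaf a => h0 a
  | .prod P Q => by
    obtain ⟨j, hj, hjp⟩ := hRsp H.hW (H.memP P) (H.memP Q)
      (H.hW.alg_gr (H.memP P) (j := 1) (H.lamP P).2)
      (H.hW.alg_gr (H.memP Q) (j := 1) (H.lamP Q).2) (rs_all hRsp prod h0 P)
      (rs_all hRsp prod h0 Q)
    have e : j = J (.prod P Q) := by
      refine LinearMap.ext fun z => ?_
      have hz : z ∈ Submodule.span ℂ {z | ∃ (y : W.coh (P.obj H.X)) (x : W.coh (Q.obj H.X)),
          z = W.ext y x} := by
        rw [H.hW.kunneth.span (H.memP P) (H.memP Q)]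
        exact Submodule.mem_top
      induction hz using Submodule.span_induction with
      | mem z hz =>
        obtain ⟨y, x, rfl⟩ := hz
        exact (hjp y x).trans (prod P Q y x).symm
      | zero => exact (map_zero j).trans (map_zero (J (.prod P Q))).symm
      | add a b _ _ ha hb =>
        exact (map_add j a b).trans ((congrArg₂ (· + ·) ha hb).trans
          (map_add (J (.prod P Q)) a b).symm)
      | smul c a _ ha =>
        exact (LinearMap.map_smulₛₗ j c a).trans ((congrArg (fun t => (starRingEnd ℂ c) • t)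
          ha).trans (LinearMap.map_smulₛₗ (J (.prod P Q)) c a).symm)
    subst e
    exact hj

/-- the operators form a compatible system -/
theorem jsys (A : H.Adp J)
    (rs : ∀ P : Prd m, IsRS W (P.obj H.X) (P.dim H.n) (P.pol W H.ξ) (H.LamP P) (J P)) :
    GM.JSys W H.X J where
  gr P := (rs P).gr
  one P := (rs P).one
  tr P := (rs P).tr
  surj P := by
    have _ := H.hW.finite (H.memP P)
    refine PCA.surj_of_inj (J P) ?_
    rw [injective_iff_map_eq_zero]
    intro x hx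
    by_contra hne
    obtain ⟨r, hr, h⟩ := (rs P).pos x hne
    rw [hx] at h
    have h0 : psi W (P.obj H.X) (P.pol W H.ξ) (H.LamP P) (rs P).slm.internal x 0 = 0 := by
      rw [psi, map_zero, mul_zero, map_zero]
    rw [h0] at h
    exact hr.ne' (by exact_mod_cast h.symm)
  prod := A.prod

/-- multiplicativity -/
theorem mul_all (A : H.Adp J)
    (rs : ∀ P : Prd m, IsRS W (P.obj H.X) (P.dim H.n) (P.pol W H.ξ) (H.LamP P) (J P))
    (P : Prd m) : ∀ x y : W.coh (P.obj H.X), J P (x * y) = J P x * J P y := by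
  induction P with
  | leaf a => exact (A.hr a).cup
  | prod P Q hP hQ =>
    exact GMpre.mul_prod H.hW (H.memP P) (H.memP Q) (J P) (J Q) (J (.prod P Q))
      (A.prod P Q) (rs P).gr (rs Q).gr hP hQ

/-- the operators on basis vectors -/
theorem J_E (A : H.Adp J) : ∀ (P : Prd m) (w : Fin P.size → H.I),
    J P (H.E P w) = sg H.D w • H.E P (H.D.τ ∘ w)
  | .leaf a, w => by
    have e1 : sg H.D w = H.D.s (w ⟨0, Nat.one_pos⟩) := by
      rw [sg]
      exact Fin.prod_univ_one (fun i : Fin 1 => H.D.s (w i))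
    rw [e1]
    show J (.leaf a) (H.e a (w ⟨0, Nat.one_pos⟩))
      = H.D.s (w ⟨0, Nat.one_pos⟩) • H.e a (H.D.τ (w ⟨0, Nat.one_pos⟩))
    by_cases h : (H.D.typ (w ⟨0, Nat.one_pos⟩)).1 = a
    · exact A.bas a _ h
    · have h' : (H.D.typ (H.D.τ (w ⟨0, Nat.one_pos⟩))).1 ≠ a := by
        rw [H.D.typ_τ]; exact h
      rw [H.e_ne a _ h, H.e_ne a _ h', smul_zero]
      exact map_zero (J (.leaf a))
  | .prod P Q, w => by
    have hP := J_E A P (fun i => w (Fin.castAdd Q.size i))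
    have hQ := J_E A Q (fun i => w (Fin.natAdd P.size i))
    have e1 : sg H.D w = sg H.D (fun i => w (Fin.castAdd Q.size i))
        * sg H.D (fun i => w (Fin.natAdd P.size i)) :=
      Ge.sg_prod H P Q w
    refine (A.prod P Q _ _).trans ?_
    rw [hP, hQ, map_smul, map_smul, smul_mul_smul_comm, e1]
    rfl

/-- the coordinates -/
theorem tc_J (ge : H.GeFacts) (A : H.Adp J) (P : Prd m) (z : W.coh (P.obj H.X)) :
    H.tc P (J P z) = jT H.D (H.tc P z) := by
  have h1 : J P z = ∑ w, jT H.D (H.tc P z) w • H.E P w := by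
    conv_lhs => rw [ge.expand P z]
    rw [map_sum]
    refine Fintype.sum_equiv (Function.Involutive.toPerm (fun w : Fin P.size → H.I => H.D.τ ∘ w)
      (fun w => funext fun i => H.D.τ_τ (w i))) _ _ fun w => ?_
    rw [LinearMap.map_smulₛₗ, J_E A P w, smul_smul, jT]
    have h2 : H.D.τ ∘ (H.D.τ ∘ w) = w := funext fun i => H.D.τ_τ (w i)
    show _ = (sg H.D (H.D.τ ∘ (H.D.τ ∘ w)) * (starRingEnd ℂ) (H.tc P z (H.D.τ ∘ (H.D.τ ∘ w))))
      • H.E P (H.D.τ ∘ w)
    rw [h2, mul_comm]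
  rw [h1]
  refine ge.tc_sum P _ fun w hw => ?_
  rw [jT, ge.tc_off P z _ ((Ge.off_tau H P w).2 hw), map_zero, mul_zero]

end JH

/-- Row JH. -/
theorem jh : JhStatement.{u, w} := by
  intro k _ W 𝒱 m H J A h0
  have ge := Pool.Agent.Lib.MP_361a6f_ag.FL.ge H
  have sta : StaStatement.{w} := staB
  have stp' : StpStatement := stp sl2 sta
  have lmp' : LmpStatement := lmp tal
  have rs := JH.rs_all (rsp lmp' stp') A.prod h0
  have hpb := fun (P Q : Prd m) (f : Sch.Mor (P.obj H.X) (Q.obj H.X))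
      (hf : CoordMor H.X 3 P Q f) =>
    GM.pull_coord H.hW H.mem (JH.jsys A rs) (fun _ => JH.mul_all A rs) P Q f hf
  exact ⟨JH.tc_J ge A, rs, JH.mul_all A rs, hpb, fun P Q f hf =>
    GMpre.push_comm H.hW (H.memP P) (H.memP Q) (J P) (J Q) ((JH.jsys A rs).tr P)
      ((JH.jsys A rs).tr Q) ((JH.jsys A rs).surj Q) f (hpb P Q f hf)⟩

end Pool.Agent.Lib.MP_361a6f_ag.FL
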