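import Pool.Agent.Lib.MP_361a6f_ag.FL.B.GeoDefs
import Pool.Agent.Lib.MP_361a6f_ag.FL.B.HrPsi
import Pool.Agent.Lib.MP_361a6f_ag.FL.GJ
import Pool.Agent.Lib.MP_361a6f_ag.FL.XY
import Pool.Agent.Lib.MP_361a6f_ag.FL.A.Let

/-!
# Row JL: the real structures on all products
-/

open CategoryTheory AlgebraicGeometry MonoidalCategory CartesianMonoidalCategory

universe u v w

set_option autoImplicit false
set_option linter.unusedSectionVars false

namespace Pool.Agent.Lib.MP_361a6f_ag.FL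

open Pool.Agent.Lib.MP_361a6f_ag.H3 Pool.Agent.Lib.MP_361a6f_ag.SQ
  Pool.Agent.Lib.MP_361a6f_ag.IP2 Pool.Agent.Lib.MP_361a6f_ag.PP

namespace JlT

open GJ

theorem jT4 {I Λ : Type} [Fintype I] [DecidableEq I] [DecidableEq Λ] (D : Dat I Λ) {L : ℕ}
    (u : Ten I L) : jT D (jT D (jT D (jT D u))) = u := by
  funext w
  rw [XY.jT_jT, XY.jT_jT, ← mul_assoc, ← Finset.prod_mul_distrib, Finset.prod_eq_one, one_mul]
  intro i _
  by_cases h : D.odd (D.typ (w i))
  · rw [(XY.s_mul D (w i)).2 h]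
    norm_num
  · rw [(XY.s_mul D (w i)).1 h]
    norm_num

section gen

variable {k : Type u} [Field k] {W : CohomologyData.{u, 0, w} k ℂ} {𝒱 : VarietyClass k}

/-- the real structure of a variety, from its compatibilities -/
theorem isRS1 (hsta : StaStatement.{w}) {X : Sch k} {n : ℕ} {ξ : W.coh X}
    {Lam : Module.End ℂ (W.coh X)} (D : LamData W X n ξ Lam)
    {j : W.coh X →ₛₗ[starRingEnd ℂ] W.coh X}
    (hgr : ∀ i x, x ∈ W.gr X i → j x ∈ W.gr X i) (hone : j 1 = 1)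
    (hL : ∀ x, j (ξ * x) = ξ * j x) (hLam : ∀ x, j (Lam x) = Lam (j x))
    (hstar : ∀ x, j (star D.slm.internal (Lop W X ξ) Lam x)
      = star D.slm.internal (Lop W X ξ) Lam (j x))
    (hconj : ∀ x y, psi W X ξ Lam D.slm.internal (j x) (j y)
      = starRingEnd ℂ (psi W X ξ Lam D.slm.internal x y))
    (hpos : ∀ x, x ≠ 0 → ∃ r : ℝ, 0 < r ∧
      psi W X ξ Lam D.slm.internal x (j x) = (r : ℂ)) : IsRS W X n ξ Lam j := by
  have hSS : ∀ x, star D.slm.internal (Lop W X ξ) Lam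
      (star D.slm.internal (Lop W X ξ) Lam x) = x := (hsta D.slm).2.1
  refine ⟨D.slm, hgr, hL, hLam, hone, fun x y => ?_, hpos⟩
  have h1 : ∀ y, psi W X ξ Lam D.slm.internal x (star D.slm.internal (Lop W X ξ) Lam y)
      = W.tr X (x * y) := fun y => by rw [psi, hSS]
  have h2 : W.tr X (j x * j y) = psi W X ξ Lam D.slm.internal (j x)
      (star D.slm.internal (Lop W X ξ) Lam (j y)) := by rw [psi, hSS]
  rw [h2, ← hstar, hconj, h1]

/-- multiplicativity from the compatibility with the diagonal -/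
theorem mul_of_diag {X : Sch k} {j : W.coh X →ₛₗ[starRingEnd ℂ] W.coh X}
    {j2 : W.coh (X ⊗ X) →ₛₗ[starRingEnd ℂ] W.coh (X ⊗ X)}
    (h : ∀ z, j (W.pull (lift (𝟙 X) (𝟙 X)) z) = W.pull (lift (𝟙 X) (𝟙 X)) (j2 z))
    (hp : ∀ x y, j2 (W.pull (fst X X) x * W.pull (snd X X) y)
      = W.pull (fst X X) (j x) * W.pull (snd X X) (j y)) (x y : W.coh X) :
    j (x * y) = j x * j y := by
  have hd : ∀ x y : W.coh X, W.pull (lift (𝟙 X) (𝟙 X))
      (W.pull (fst X X) x * W.pull (snd X X) y) = x * y := by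
    intro x y
    rw [map_mul, ← W.pull_comp, ← W.pull_comp, lift_fst, lift_snd, W.pull_id, W.pull_id]
  have h1 := h (W.pull (fst X X) x * W.pull (snd X X) y)
  rwa [hd, hp, hd] at h1

end gen

variable {k : Type u} [Field k] {W : CohomologyData.{u, 0, w} k ℂ} {𝒱 : VarietyClass k} {m : ℕ}
  (H : Host W 𝒱 m) (a1 : Alg1) (a2 : Alg2) {g : Matrix H.I H.I ℂ} (ge : H.GeFacts)
  {J : ∀ P : Prd m, W.coh (P.obj H.X) →ₛₗ[starRingEnd ℂ] W.coh (P.obj H.X)}
  (hJ : H.J0Facts J) {r : Prd m → ℕ} (hF : H.FixL r g)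

include a1 hF in
/-- the algebraic tensors fixed by `J₀` are fixed by `g J₀ g⁻¹` -/
theorem JT_fix {L : ℕ} {u : Ten H.I L} (hu : u ∈ H.At L) (h : jT H.D u = u) :
    JT H.D g u = u := by
  have h1 := hF.base L u hu h
  have h2 : gT g⁻¹ u = u := by
    conv_lhs => rw [← h1]
    rw [← a1.gT_mul, (a1.G_inv H.D g hF.G).2.2, a1.gT_one]
  rw [JT, h2, h, h1]

include ge hJ hF in
/-- the algebraic classes fixed by `J` are fixed by `J'` -/
theorem J_fix (P : Prd m) (z : W.coh (P.obj H.X)) (hz : z ∈ tot W (P.obj H.X))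
    (h : J P z = z) : GJ.J H a1 g P z = z := by
  refine ge.inj P ?_
  rw [tc_J H a1 hF.G ge]
  exact JT_fix H a1 hF (AddSubgroup.subset_closure (Or.inr ⟨P, rfl, z, hz, rfl⟩))
    (by rw [← hJ.tc, h])

include ge hJ in
theorem J_surj (P : Prd m) : Function.Surjective (J P) := fun x =>
  ⟨J P (J P (J P x)), ge.inj P (by rw [hJ.tc, hJ.tc, hJ.tc, hJ.tc, jT4])⟩

include ge hJ in
/-- the kernel of an operator that commutes with `J` is fixed by `J` -/
theorem ker_fix (P Q : Prd m) {γ : W.coh (P.obj H.X ⊗ Q.obj H.X)}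
    (hu : ∀ s, J Q (cor W γ s) = cor W γ (J P s)) : J (.prod P Q) γ = γ := by
  have key : ∀ s, cor W (J (.prod P Q) γ) s = cor W γ s := by
    intro s
    obtain ⟨s, rfl⟩ := J_surj H ge hJ P s
    rw [← hu s, cor_apply, cor_apply]
    have h1 : J Q (W.push (snd (P.obj H.X) (Q.obj H.X))
        (W.pull (fst (P.obj H.X) (Q.obj H.X)) s * γ))
        = W.push (snd (P.obj H.X) (Q.obj H.X))
          (J (.prod P Q) (W.pull (fst (P.obj H.X) (Q.obj H.X)) s * γ)) :=
      hJ.push (.prod P Q) Q _ (CoordMor.pr₂ P Q) _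
    have h2 : J (.prod P Q) (W.pull (fst (P.obj H.X) (Q.obj H.X)) s * γ)
        = J (.prod P Q) (W.pull (fst (P.obj H.X) (Q.obj H.X)) s) * J (.prod P Q) γ :=
      hJ.mul (.prod P Q) _ γ
    have h3 : J (.prod P Q) (W.pull (fst (P.obj H.X) (Q.obj H.X)) s)
        = W.pull (fst (P.obj H.X) (Q.obj H.X)) (J P s) :=
      hJ.pull (.prod P Q) P _ (CoordMor.pr₁ P Q) s
    rw [h1, h2, h3]
    rfl
  exact cor_injective H.hW (H.memP P) (H.memP Q) (LinearMap.ext key)

include ge hJ hF a2 in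
theorem fixed_of (P Q : Prd m) {γ : W.coh (P.obj H.X ⊗ Q.obj H.X)}
    (hγ : γ ∈ tot W (P.obj H.X ⊗ Q.obj H.X)) (h : J (.prod P Q) γ = γ) :
    GeoJ.Fixed W (GJ.J H a1 g P) (GJ.J H a1 g Q) γ := by
  obtain ⟨M, a, b, hab⟩ := TRC.exists_sum H.hW (H.memP P) (H.memP Q) γ
  refine ⟨M, a, b, hab, ?_⟩
  have h1 : GJ.J H a1 g (.prod P Q) γ = γ := J_fix H a1 ge hJ hF (.prod P Q) γ hγ h
  have h2 : GJ.J H a1 g (.prod P Q) γ
      = ∑ ν, GJ.J H a1 g (.prod P Q) (W.pull (fst (P.obj H.X) (Q.obj H.X)) (a ν)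
        * W.pull (snd (P.obj H.X) (Q.obj H.X)) (b ν)) := by
    conv_lhs => rw [hab]
    exact map_sum _ _ _
  rw [← h1, h2]
  exact Finset.sum_congr rfl fun ν _ => J_prod H a1 a2 hF.G ge P Q _ _

include hJ in
theorem J_star (P : Prd m) (x : W.coh (P.obj H.X)) :
    J P (star (H.lamP P).1.slm.internal (Lop W (P.obj H.X) (P.pol W H.ξ)) (H.LamP P) x)
      = star (H.lamP P).1.slm.internal (Lop W (P.obj H.X) (P.pol W H.ξ)) (H.LamP P) (J P x) := by
  have hpol : J P (P.pol W H.ξ) = P.pol W H.ξ := by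
    have h1 := (hJ.rs P).map_L 1
    rwa [mul_one, (hJ.rs P).one, mul_one] at h1
  exact HrPsi.j_star H.hW (H.memP P) (H.lamP P).2 (H.lamP P).1 (J P) (hJ.mul P) (hJ.rs P).gr
    hpol x

include ge hJ hF a2 in
/-- `J'` commutes with the algebraic correspondences that commute with `J` -/
theorem J_cor (hsta : StaStatement.{w}) (P Q : Prd m)
    {u : W.coh (P.obj H.X) →ₗ[ℂ] W.coh (Q.obj H.X)} (hu : AlgCor W (P.obj H.X) (Q.obj H.X) u)
    (hJu : ∀ s, J Q (u s) = u (J P s)) (s : W.coh (P.obj H.X)) :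
    GJ.J H a1 g Q (u s) = u (GJ.J H a1 g P s) := by
  have hP := H.memP P
  have hQ := H.memP Q
  have hξ := (H.lamP P).2
  have D := (H.lamP P).1
  have hSS : ∀ x, star D.slm.internal (Lop W (P.obj H.X) (P.pol W H.ξ)) (H.LamP P)
      (star D.slm.internal (Lop W (P.obj H.X) (P.pol W H.ξ)) (H.LamP P) x) = x :=
    (hsta D.slm).2.1
  have hu' : AlgCor W (P.obj H.X) (Q.obj H.X)
      (u ∘ₗ star D.slm.internal (Lop W (P.obj H.X) (P.pol W H.ξ)) (H.LamP P)) :=
    AlgCor.comp H.hW hP hP hQ hu (algOp_star H.hW hP hξ D)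
  obtain ⟨γ, hγ, h⟩ := hu'.exists_cor
  have hk : J (.prod P Q) γ = γ := by
    refine ker_fix H ge hJ P Q fun s => ?_
    rw [← h, LinearMap.comp_apply, LinearMap.comp_apply, hJu, J_star H hJ P s]
  obtain ⟨N, a, b, h1, h2⟩ := fixed_of H a1 a2 ge hJ hF P Q hγ hk
  have h3 : ∀ x, u x
      = cor W γ (star D.slm.internal (Lop W (P.obj H.X) (P.pol W H.ξ)) (H.LamP P) x) := by
    intro x
    rw [← h, LinearMap.comp_apply, hSS]
  have h4 : u s = ∑ ν, psi W (P.obj H.X) (P.pol W H.ξ) (H.LamP P) D.slm.internal s (a ν) • b ν := by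
    rw [h3, h1, GeoJ.cor_sum_star hsta H.hW hP hQ hξ D]
  have h5 : u (GJ.J H a1 g P s) = ∑ ν, psi W (P.obj H.X) (P.pol W H.ξ) (H.LamP P)
      D.slm.internal (GJ.J H a1 g P s) (GJ.J H a1 g P (a ν)) • GJ.J H a1 g Q (b ν) := by
    rw [h3, h2, GeoJ.cor_sum_star hsta H.hW hP hQ hξ D]
  rw [h4, h5, map_sum]
  refine Finset.sum_congr rfl fun ν _ => ?_
  have h6 : psi W (P.obj H.X) (P.pol W H.ξ) (H.LamP P) D.slm.internal (GJ.J H a1 g P s)
      (GJ.J H a1 g P (a ν))
      = starRingEnd ℂ (psi W (P.obj H.X) (P.pol W H.ξ) (H.LamP P) D.slm.internal s (a ν)) :=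
    J_conj H a1 hF.G ge P s (a ν)
  rw [LinearMap.map_smulₛₗ, h6]

include ge hJ hF a2 in
/-- the real structure of a factor -/
theorem leaf_rs (hsta : StaStatement.{w}) (a : Fin m) :
    IsRS W (H.X a) (H.n a) (H.ξ a) (H.Lam a) (GJ.J H a1 g (.leaf a)) := by
  have hX := H.mem a
  have hξ := H.ξ_alg a
  have D := H.lam a
  have hJ' : ∀ u : Module.End ℂ (W.coh (H.X a)), AlgOp W (H.X a) u →
      (∀ s, J (.leaf a) (u s) = u (J (.leaf a) s)) → ∀ s,
      GJ.J H a1 g (.leaf a) (u s) = u (GJ.J H a1 g (.leaf a) s) :=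
    fun u hu h s => J_cor H a1 a2 ge hJ hF hsta (.leaf a) (.leaf a) hu h s
  exact isRS1 hsta D (J_gr H a1 hF.G ge hsta (.leaf a))
    (J_fix H a1 ge hJ hF (.leaf a) 1 (one_tot H.hW hX) (hJ.rs (.leaf a)).one)
    (fun x => hJ' _ (algOp_Lop H.hW hX hξ D) (hJ.rs (.leaf a)).map_L x)
    (fun x => hJ' _ D.alg (hJ.rs (.leaf a)).map_Lam x)
    (hJ' _ (algOp_star H.hW hX hξ D) (J_star H hJ (.leaf a)))
    (J_conj H a1 hF.G ge (.leaf a)) (J_pos H a1 hF.G ge (.leaf a))

include ge hJ hF a2 in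
theorem J_rs (hsta : StaStatement.{w}) (hRsp : RspStatement.{u, w}) :
    ∀ P : Prd m, IsRS W (P.obj H.X) (P.dim H.n) (P.pol W H.ξ) (H.LamP P) (GJ.J H a1 g P)
  | .leaf a => leaf_rs H a1 a2 ge hJ hF hsta a
  | .prod P Q => by
    obtain ⟨j, hj, hjp⟩ := hRsp H.hW (H.memP P) (H.memP Q)
      (H.hW.alg_gr (H.memP P) (j := 1) (H.lamP P).2)
      (H.hW.alg_gr (H.memP Q) (j := 1) (H.lamP Q).2) (J_rs hsta hRsp P)
      (J_rs hsta hRsp Q)
    have e : j = GJ.J H a1 g (.prod P Q) := by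
      refine LinearMap.ext fun z => ?_
      have hz : z ∈ Submodule.span ℂ {z | ∃ (y : W.coh (P.obj H.X)) (x : W.coh (Q.obj H.X)),
          z = W.ext y x} := by
        rw [H.hW.kunneth.span (H.memP P) (H.memP Q)]
        exact Submodule.mem_top
      induction hz using Submodule.span_induction with
      | mem z hz =>
        obtain ⟨y, x, rfl⟩ := hz
        exact (hjp y x).trans (J_prod H a1 a2 hF.G ge P Q y x).symm
      | zero => exact (map_zero j).trans (map_zero (GJ.J H a1 g (.prod P Q))).symm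
      | add a b _ _ ha hb =>
        exact (map_add j a b).trans ((congrArg₂ (· + ·) ha hb).trans
          (map_add (GJ.J H a1 g (.prod P Q)) a b).symm)
      | smul c a _ ha =>
        exact (LinearMap.map_smulₛₗ j c a).trans ((congrArg (fun t => (starRingEnd ℂ c) • t)
          ha).trans (LinearMap.map_smulₛₗ (GJ.J H a1 g (.prod P Q)) c a).symm)
    subst e
    exact hj

include ge hJ hF a2 in
/-- `J'` is multiplicative on the factors -/
theorem J_mul (hsta : StaStatement.{w}) (a : Fin m) (x y : W.coh (H.X a)) :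
    GJ.J H a1 g (.leaf a) (x * y) = GJ.J H a1 g (.leaf a) x * GJ.J H a1 g (.leaf a) y := by
  have hX := H.mem a
  exact mul_of_diag (j := GJ.J H a1 g (.leaf a)) (j2 := GJ.J H a1 g (.prod (.leaf a) (.leaf a)))
    (J_cor H a1 a2 ge hJ hF hsta (.prod (.leaf a) (.leaf a)) (.leaf a)
      (u := (W.pull (lift (𝟙 (H.X a)) (𝟙 (H.X a)))).toLinearMap)
      (AlgCor.pull H.hW (𝒱.prod hX hX) hX (lift (𝟙 (H.X a)) (𝟙 (H.X a))))
      (fun s => hJ.pull (.leaf a) (.prod (.leaf a) (.leaf a)) _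
        (CoordMor.diag (.leaf a) (le_refl 3)) s))
    (J_prod H a1 a2 hF.G ge (.leaf a) (.leaf a)) x y

/-- the additive map `JT` -/
noncomputable def JTh (a1 : Alg1) {I Λ : Type} [Fintype I] [DecidableEq I] [DecidableEq Λ]
    (D : Dat I Λ) (g : Matrix I I ℂ) (L : ℕ) : Ten I L →+ Ten I L :=
  AddMonoidHom.mk' (JT D g) (JT_add D g a1)

open Classical in
include ge hF in
/-- `J'` fixes the algebraic classes of small codimension -/
theorem J_alg (hsta : StaStatement.{w}) (P : Prd m) (l : ℕ) (z : W.coh (P.obj H.X))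
    (hl : l ≤ r P) (hz : z ∈ W.alg (P.obj H.X) l) : GJ.J H a1 g P z = z := by
  refine ge.inj P ?_
  rw [tc_J H a1 hF.G ge]
  obtain ⟨u, hu⟩ : ∃ u, u = H.tc P z := ⟨_, rfl⟩
  have huA : u ∈ H.At P.size := by
    rw [hu]
    exact AddSubgroup.subset_closure (Or.inr ⟨P, rfl, z, alg_le_tot H.hW _ l hz, rfl⟩)
  rw [← hu]
  -- the letter components
  set S : Finset (Fin P.size → Fin m × ℕ) :=
    (Finset.univ : Finset (Fin P.size → H.I)).image fun w i => H.D.typ (w i) with hS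
  set c : (Fin P.size → Fin m × ℕ) → Ten H.I P.size :=
    fun α w => if ∀ i, H.D.typ (w i) = α i then u w else 0 with hc
  have hsum : u = ∑ α ∈ S, c α := by
    funext w
    rw [Finset.sum_apply, Finset.sum_eq_single (fun i => H.D.typ (w i))]
    · rw [hc]
      exact (if_pos fun _ => rfl).symm
    · intro α _ hα
      rw [hc]
      exact if_neg fun h => hα (funext fun i => (h i).symm)
    · intro h
      exact absurd (Finset.mem_image.2 ⟨w, Finset.mem_univ _, rfl⟩) h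
  have hfix : ∀ α, JT H.D g (c α) = c α := by
    intro α
    by_cases h0 : c α = 0
    · rw [h0]
      exact map_zero (JTh a1 H.D g P.size)
    have hne : ∃ w, c α w ≠ 0 := by
      by_contra hcon
      push Not at hcon
      exact h0 (funext hcon)
    obtain ⟨w, hw⟩ := hne
    have hon : ∀ w, c α w ≠ 0 → ∀ i, H.D.typ (w i) = α i := by
      intro w hw
      by_contra hcon
      exact hw (if_neg hcon)
    have hval : c α w = u w := if_pos (hon w hw)
    have huw : H.tc P z w ≠ 0 := by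
      rw [← hu, ← hval]
      exact hw
    refine hF.fix P.size α (c α) ⟨LET.at_letters H α huA, hon, P, rfl, ?_, ?_⟩
    · intro i
      by_contra hcon
      refine huw (ge.tc_off P z w ⟨i, ?_⟩)
      rw [hon w hw i]
      exact fun h => hcon h.symm
    · have h1 : ∑ i, (H.D.typ (w i)).2 = 2 * l := by
        by_contra hcon
        exact huw (tc_gr H ge hsta P (H.hW.alg_gr (H.memP P) hz) w hcon)
      have h2 : ∑ i, (α i).2 = ∑ i, (H.D.typ (w i)).2 :=
        Finset.sum_congr rfl fun i _ => by rw [hon w hw i]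
      rw [h2, h1]
      omega
  have h1 : JT H.D g u = JTh a1 H.D g P.size (∑ α ∈ S, c α) := by
    rw [← hsum]
    rfl
  rw [h1, map_sum]
  conv_rhs => rw [hsum]
  exact Finset.sum_congr rfl fun α _ => hfix α

end JlT

open JlT in
/-- Row JL. -/
theorem jl (hsta : StaStatement.{w}) (hRsp : RspStatement.{u, w}) (a1 : Alg1) (a2 : Alg2)
    (hge : GeStatement.{u, w}) : JlStatement.{u, w} := by
  intro k _ W 𝒱 m H r J hJ g hF
  have ge := hge H
  exact ⟨GJ.J H a1 g, JlT.J_rs H a1 a2 ge hJ hF hsta hRsp, GJ.J_prod H a1 a2 hF.G ge,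
    JlT.J_mul H a1 a2 ge hJ hF hsta, fun P l z hl hz => J_alg H a1 ge hF hsta P l z hl hz,
    fun P l z hz h => JlT.J_fix H a1 ge hJ hF P z (alg_le_tot H.hW _ l hz) h⟩

end Pool.Agent.Lib.MP_361a6f_ag.FL
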