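import Pool.Agent.Lib.MP_361a6f_ag.FL.B.GeoDefs
import Pool.Agent.Lib.MP_361a6f_ag.FL.B.HrPsi
import Pool.Agent.Lib.MP_361a6f_ag.FL.GJ
import Pool.Agent.Lib.MP_361a6f_ag.FL.GM
import Pool.Agent.Lib.MP_361a6f_ag.FL.A.Let

/-!
# Row JL: the real structures on all products
-/

open CategoryTheory AlgebraicGeometry MonoidalCategory CartesianMonoidalCategory

universe u v w

set_option autoImplicit false
set_option linter.unusedSectionVars false

namespace Pool.Agent.Lib.MP_361a6f_ag.FL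

open Pool.Agent.Lib.MP_361a6f_ag.H3 Pool.Agent.Lib.MP_361a6f_ag.SQ
  Pool.Agent.Lib.MP_361a6f_ag.IP2 Pool.Agent.Lib.MP_361a6f_ag.PP

namespace Jl85

/-! ### One factor -/

section one

variable {k : Type u} [Field k] {W : CohomologyData.{u, 0, w} k ℂ} {𝒱 : VarietyClass k}
  (hsta : StaStatement.{w}) (hW : IsWeilCohomology W 𝒱) {X : Sch k} {n : ℕ}
  (hX : 𝒱.mem X n) {ξ : W.coh X} (hξ : ξ ∈ W.alg X 1)
  {Lam : Module.End ℂ (W.coh X)} (D : LamData W X n ξ Lam)

include hsta hW hX hξ in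
/-- if `j ⊗ j` fixes the kernel of `u *` then `j` commutes with `u` -/
theorem comm1 {j : W.coh X →ₛₗ[starRingEnd ℂ] W.coh X}
    (hconj : ∀ x y, psi W X ξ Lam D.slm.internal (j x) (j y)
      = starRingEnd ℂ (psi W X ξ Lam D.slm.internal x y))
    {u : Module.End ℂ (W.coh X)} {γ : W.coh (X ⊗ X)}
    (hu : ∀ x, u (star D.slm.internal (Lop W X ξ) Lam x) = cor W γ x)
    (hfix : GeoJ.Fixed W j j γ) (s : W.coh X) : j (u s) = u (j s) := by
  have hSS : ∀ x, star D.slm.internal (Lop W X ξ) Lam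
      (star D.slm.internal (Lop W X ξ) Lam x) = x := (hsta D.slm).2.1
  obtain ⟨N, a, b, h1, h2⟩ := hfix
  have h3 : ∀ x, u x = cor W γ (star D.slm.internal (Lop W X ξ) Lam x) := by
    intro x
    rw [← hu, hSS]
  have h4 : u s = ∑ ν, psi W X ξ Lam D.slm.internal s (a ν) • b ν := by
    rw [h3, h1, GeoJ.cor_sum_star hsta hW hX hX hξ D]
  have h5 : u (j s) = ∑ ν, psi W X ξ Lam D.slm.internal (j s) (j (a ν)) • j (b ν) := by
    rw [h3, h2, GeoJ.cor_sum_star hsta hW hX hX hξ D]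
  rw [h4, h5, map_sum]
  refine Finset.sum_congr rfl fun ν _ => ?_
  rw [LinearMap.map_smulₛₗ, hconj]

include hsta hW hX hξ in
/-- the real structure -/
theorem isRS' {j : W.coh X →ₛₗ[starRingEnd ℂ] W.coh X}
    (hgr : ∀ i x, x ∈ W.gr X i → j x ∈ W.gr X i) (hone : j 1 = 1)
    (hconj : ∀ x y, psi W X ξ Lam D.slm.internal (j x) (j y)
      = starRingEnd ℂ (psi W X ξ Lam D.slm.internal x y))
    (hpos : ∀ x, x ≠ 0 → ∃ r : ℝ, 0 < r ∧
      psi W X ξ Lam D.slm.internal x (j x) = (r : ℂ))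
    (hL : ∀ s, j (Lop W X ξ s) = Lop W X ξ (j s)) (hLam : ∀ s, j (Lam s) = Lam (j s))
    (hstar : ∀ s, j (star D.slm.internal (Lop W X ξ) Lam s)
      = star D.slm.internal (Lop W X ξ) Lam (j s)) :
    IsRS W X n ξ Lam j := by
  have hSS : ∀ x, star D.slm.internal (Lop W X ξ) Lam
      (star D.slm.internal (Lop W X ξ) Lam x) = x := (hsta D.slm).2.1
  refine ⟨D.slm, hgr, fun x => hL x, fun x => hLam x, hone, fun x y => ?_, hpos⟩
  have h1 : ∀ y, psi W X ξ Lam D.slm.internal x (star D.slm.internal (Lop W X ξ) Lam y)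
      = W.tr X (x * y) := fun y => by rw [psi, hSS]
  have h2 : W.tr X (j x * j y) = psi W X ξ Lam D.slm.internal (j x)
      (star D.slm.internal (Lop W X ξ) Lam (j y)) := by rw [psi, hSS]
  rw [h2, ← hstar, hconj, h1]

theorem pol_fixed {j : W.coh X →ₛₗ[starRingEnd ℂ] W.coh X} (R : IsRS W X n ξ Lam j) :
    j ξ = ξ := by
  have h := R.map_L 1
  rwa [mul_one, R.one, mul_one] at h

end one

/-! ### The products -/

variable {k : Type u} [Field k] {W : CohomologyData.{u, 0, w} k ℂ} {𝒱 : VarietyClass k} {m : ℕ}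
  (H : Host W 𝒱 m)

theorem surj_of_rs {P : Prd m} {j : W.coh (P.obj H.X) →ₛₗ[starRingEnd ℂ] W.coh (P.obj H.X)}
    (R : IsRS W (P.obj H.X) (P.dim H.n) (P.pol W H.ξ) (H.LamP P) j) :
    Function.Surjective j := by
  have _ := H.hW.finite (H.memP P)
  refine PCA.surj_of_inj j ?_
  rw [injective_iff_map_eq_zero]
  intro x hx
  by_contra hne
  obtain ⟨r, hr, h⟩ := R.pos x hne
  rw [hx] at h
  have h0 : psi W (P.obj H.X) (P.pol W H.ξ) (H.LamP P) R.slm.internal x 0 = 0 := by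
    rw [psi, map_zero, mul_zero, map_zero]
  rw [h0] at h
  exact hr.ne' (by exact_mod_cast h.symm)

variable (a1 : Alg1) (a2 : Alg2) {g : Matrix H.I H.I ℂ} (ge : H.GeFacts)
  {r : Prd m → ℕ} (hF : H.FixL r g)
  {J : ∀ P : Prd m, W.coh (P.obj H.X) →ₛₗ[starRingEnd ℂ] W.coh (P.obj H.X)}
  (hJ : H.J0Facts J)

include ge hF hJ in
/-- the algebraic classes fixed by `J` are fixed -/
theorem fix0 (P : Prd m) (z : W.coh (P.obj H.X)) (hz : z ∈ tot W (P.obj H.X))
    (hjz : J P z = z) : GJ.J H a1 g P z = z := by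
  refine ge.inj P ?_
  rw [GJ.tc_J H a1 hF.G ge]
  have hAt : H.tc P z ∈ H.At P.size :=
    AddSubgroup.subset_closure (Or.inr ⟨P, rfl, z, hz, rfl⟩)
  have h1 : jT H.D (H.tc P z) = H.tc P z := by rw [← hJ.tc, hjz]
  have h2 : gT g (H.tc P z) = H.tc P z := hF.base _ _ hAt h1
  have h3 : gT g⁻¹ (H.tc P z) = H.tc P z := by
    conv_lhs => rw [← h2]
    rw [← a1.gT_mul, (a1.G_inv H.D g hF.G).2.2, a1.gT_one]
  rw [GJ.JT, h3, h1, h2]

include hJ in
/-- the kernel of an operator that commutes with `J` is fixed by `J` -/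
theorem ker_fixed (P : Prd m) (γ : W.coh (P.obj H.X ⊗ P.obj H.X))
    (hc : ∀ s, J P (cor W γ s) = cor W γ (J P s)) : J (.prod P P) γ = γ := by
  have hP := H.memP P
  refine cor_injective H.hW hP hP (LinearMap.ext fun s => ?_)
  obtain ⟨s, rfl⟩ := surj_of_rs H (hJ.rs P) s
  rw [← hc, cor_apply, cor_apply]
  have h1 : J (.prod P P) (W.pull (fst (P.obj H.X) (P.obj H.X)) s)
      = W.pull (fst (P.obj H.X) (P.obj H.X)) (J P s) :=
    hJ.pull (.prod P P) P _ (CoordMor.pr₁ P P) s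
  have h2 : J P (W.push (snd (P.obj H.X) (P.obj H.X))
        (W.pull (fst (P.obj H.X) (P.obj H.X)) s * γ))
      = W.push (snd (P.obj H.X) (P.obj H.X)) (J (.prod P P)
        (W.pull (fst (P.obj H.X) (P.obj H.X)) s * γ)) :=
    hJ.push (.prod P P) P _ (CoordMor.pr₂ P P) _
  have h3 : J (.prod P P) (W.pull (fst (P.obj H.X) (P.obj H.X)) s * γ)
      = J (.prod P P) (W.pull (fst (P.obj H.X) (P.obj H.X)) s) * J (.prod P P) γ :=
    hJ.mul (.prod P P) _ _
  rw [h2, h3, h1]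
  rfl

include ge hF a2 in
theorem fixed2 (P : Prd m) (γ : W.coh (P.obj H.X ⊗ P.obj H.X))
    (h : GJ.J H a1 g (.prod P P) γ = γ) :
    GeoJ.Fixed W (GJ.J H a1 g P) (GJ.J H a1 g P) γ := by
  obtain ⟨M, a, b, hab⟩ := TRC.exists_sum H.hW (H.memP P) (H.memP P) γ
  refine ⟨M, a, b, hab, ?_⟩
  have h2 : GJ.J H a1 g (.prod P P) γ
      = ∑ ν, GJ.J H a1 g (.prod P P) (W.pull (fst (P.obj H.X) (P.obj H.X)) (a ν)
        * W.pull (snd (P.obj H.X) (P.obj H.X)) (b ν)) := by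
    conv_lhs => rw [hab]
    exact map_sum _ _ _
  rw [← h, h2]
  exact Finset.sum_congr rfl fun ν _ => GJ.J_prod H a1 a2 hF.G ge P P _ _

include ge hF hJ a2 in
/-- commutation with the algebraic operators that commute with `J` -/
theorem comm (hsta : StaStatement.{w}) (P : Prd m) {u : Module.End ℂ (W.coh (P.obj H.X))}
    (hu : AlgOp W (P.obj H.X) u) (hc : ∀ s, J P (u s) = u (J P s))
    (hs : ∀ s, J P (star (H.lamP P).1.slm.internal (Lop W (P.obj H.X) (P.pol W H.ξ))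
        (H.LamP P) s)
      = star (H.lamP P).1.slm.internal (Lop W (P.obj H.X) (P.pol W H.ξ)) (H.LamP P) (J P s))
    (s : W.coh (P.obj H.X)) : GJ.J H a1 g P (u s) = u (GJ.J H a1 g P s) := by
  obtain ⟨γ, hγ, h⟩ := AlgOp.comp H.hW (H.memP P) hu
    (algOp_star H.hW (H.memP P) (H.lamP P).2 (H.lamP P).1)
  have h1 : ∀ x, u (star (H.lamP P).1.slm.internal (Lop W (P.obj H.X) (P.pol W H.ξ))
      (H.LamP P) x) = cor W γ x := fun x => h x
  refine comm1 hsta H.hW (H.memP P) (H.lamP P).2 (H.lamP P).1 (GJ.J_conj H a1 hF.G ge P) h1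
    (fixed2 H a1 a2 ge hF P γ (fix0 H a1 ge hF hJ (.prod P P) γ hγ
      (ker_fixed H hJ P γ fun s => ?_))) s
  rw [← h1, ← h1, hc, hs]

include ge hF hJ a2 in
theorem rs (hsta : StaStatement.{w}) (hRsp : RspStatement.{u, w}) :
    ∀ P : Prd m, IsRS W (P.obj H.X) (P.dim H.n) (P.pol W H.ξ) (H.LamP P) (GJ.J H a1 g P)
  | .leaf a => by
    have hξ : J (.leaf a) (H.ξ a) = H.ξ a := pol_fixed (hJ.rs (.leaf a))
    have hL : ∀ s, J (.leaf a) (Lop W (H.X a) (H.ξ a) s) = Lop W (H.X a) (H.ξ a) (J (.leaf a) s) :=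
      (hJ.rs (.leaf a)).map_L
    have hst := HrPsi.j_star H.hW (H.mem a) (H.ξ_alg a) (H.lam a) (J (.leaf a))
      (hJ.mul (.leaf a)) (hJ.rs (.leaf a)).gr hξ
    refine isRS' hsta H.hW (H.memP (.leaf a)) (H.lamP (.leaf a)).2 (H.lamP (.leaf a)).1
      (GJ.J_gr H a1 hF.G ge hsta (.leaf a)) ?_
      (GJ.J_conj H a1 hF.G ge (.leaf a)) (GJ.J_pos H a1 hF.G ge (.leaf a)) ?_ ?_ ?_
    · exact fix0 H a1 ge hF hJ (.leaf a) 1 (one_tot H.hW (H.mem a)) (hJ.rs (.leaf a)).one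
    · exact comm H a1 a2 ge hF hJ hsta (.leaf a) (algOp_Lop H.hW (H.mem a) (H.ξ_alg a) (H.lam a))
        hL hst
    · exact comm H a1 a2 ge hF hJ hsta (.leaf a) (H.lam a).alg (hJ.rs (.leaf a)).map_Lam hst
    · exact comm H a1 a2 ge hF hJ hsta (.leaf a)
        (algOp_star H.hW (H.mem a) (H.ξ_alg a) (H.lam a)) hst hst
  | .prod P Q => by
    obtain ⟨j, hj, hjp⟩ := hRsp H.hW (H.memP P) (H.memP Q)
      (H.hW.alg_gr (H.memP P) (j := 1) (H.lamP P).2)
      (H.hW.alg_gr (H.memP Q) (j := 1) (H.lamP Q).2) (rs hsta hRsp P) (rs hsta hRsp Q)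
    have e : j = GJ.J H a1 g (.prod P Q) := by
      refine LinearMap.ext fun z => ?_
      have hz : z ∈ Submodule.span ℂ {z | ∃ (y : W.coh (P.obj H.X)) (x : W.coh (Q.obj H.X)),
          z = W.ext y x} := by
        rw [H.hW.kunneth.span (H.memP P) (H.memP Q)]
        exact Submodule.mem_top
      induction hz using Submodule.span_induction with
      | mem z hz =>
        obtain ⟨y, x, rfl⟩ := hz
        exact (hjp y x).trans (GJ.J_prod H a1 a2 hF.G ge P Q y x).symm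
      | zero => exact (map_zero j).trans (map_zero (GJ.J H a1 g (.prod P Q))).symm
      | add a b _ _ ha hb =>
        exact (map_add j a b).trans ((congrArg₂ (· + ·) ha hb).trans
          (map_add (GJ.J H a1 g (.prod P Q)) a b).symm)
      | smul c a _ ha =>
        exact (LinearMap.map_smulₛₗ j c a).trans ((congrArg (fun t => (starRingEnd ℂ c) • t)
          ha).trans (LinearMap.map_smulₛₗ (GJ.J H a1 g (.prod P Q)) c a).symm)
    subst e
    exact hj

/-! ### Multiplicativity -/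

include ge hF hJ a2 in
theorem mul_leaf (hsta : StaStatement.{w}) (hRsp : RspStatement.{u, w}) (a : Fin m)
    (x y : W.coh (H.X a)) : GJ.J H a1 g (.leaf a) (x * y)
      = GJ.J H a1 g (.leaf a) x * GJ.J H a1 g (.leaf a) y := by
  have h1 := H.mem a
  have h3 : 𝒱.mem ((H.X a ⊗ H.X a) ⊗ H.X a) (H.n a + H.n a + H.n a) :=
    𝒱.prod (𝒱.prod h1 h1) h1
  have R1 := rs H a1 a2 ge hF hJ hsta hRsp (.leaf a)
  have R3 := rs H a1 a2 ge hF hJ hsta hRsp (GM.cube a)
  have e0 : (lift (lift (𝟙 (H.X a)) (𝟙 (H.X a))) (𝟙 (H.X a)) :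
      H.X a ⟶ (H.X a ⊗ H.X a) ⊗ H.X a) = lift (𝟙 (H.X a)) (𝟙 (H.X a))
        ≫ lift (fst (H.X a) (H.X a) ≫ lift (𝟙 (H.X a)) (𝟙 (H.X a)))
          (snd (H.X a) (H.X a) ≫ 𝟙 (H.X a)) := by
    rw [comp_lift, ← Category.assoc, ← Category.assoc, lift_fst, lift_snd, Category.id_comp,
      Category.id_comp]
  have hc : CoordMor H.X 3 (.leaf a) (GM.cube a)
      (lift (lift (𝟙 (H.X a)) (𝟙 (H.X a))) (𝟙 (H.X a)) :
        H.X a ⟶ (H.X a ⊗ H.X a) ⊗ H.X a) := by
    have h := CoordMor.comp (X := H.X) (N := 3) (.leaf a) (.prod (.leaf a) (.leaf a)) (GM.cube a)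
      _ _ (CoordMor.diag (.leaf a) le_rfl) (CoordMor.prod (.leaf a) (.prod (.leaf a) (.leaf a))
        (.leaf a) (.leaf a) _ _ (CoordMor.diag (.leaf a) le_rfl) (CoordMor.id (.leaf a)))
    rw [e0]
    exact h
  have hδ : GJ.J H a1 g (GM.cube a) (W.push (lift (lift (𝟙 (H.X a)) (𝟙 (H.X a)))
      (𝟙 (H.X a))) (1 : W.coh (H.X a)))
      = W.push (lift (lift (𝟙 (H.X a)) (𝟙 (H.X a))) (𝟙 (H.X a))) (1 : W.coh (H.X a)) := by
    refine fix0 H a1 ge hF hJ (GM.cube a) _ ?_ ?_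
    · refine alg_le_tot H.hW _ (2 * H.n a) ?_
      refine H.hW.push_alg h1 h3 _ (H.hW.one_alg h1) ?_
      omega
    · have h4 := hJ.push (.leaf a) (GM.cube a) _ hc (1 : W.coh (H.X a))
      have h5 : J (.leaf a) (1 : W.coh (H.X a)) = 1 := (hJ.rs (.leaf a)).one
      rw [h5] at h4
      exact h4
  refine GMpre.mul_of_diag H.hW h1 h3 (lift (lift (𝟙 (H.X a)) (𝟙 (H.X a))) (𝟙 (H.X a)))
    (fst (H.X a ⊗ H.X a) (H.X a) ≫ fst (H.X a) (H.X a))
    (fst (H.X a ⊗ H.X a) (H.X a) ≫ snd (H.X a) (H.X a))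
    (snd (H.X a ⊗ H.X a) (H.X a)) ?_ ?_ ?_ (GJ.J H a1 g (.leaf a)) (GJ.J H a1 g (GM.cube a))
    R1.tr (surj_of_rs H R1) R3.tr ?_ hδ x y
  · rw [← Category.assoc, lift_fst, lift_fst]
  · rw [← Category.assoc, lift_fst, lift_snd]
  · rw [lift_snd]
  · intro x y z
    have e : ∀ x y z : W.coh (H.X a), W.pull (fst (H.X a ⊗ H.X a) (H.X a) ≫ fst (H.X a) (H.X a)) x
        * W.pull (fst (H.X a ⊗ H.X a) (H.X a) ≫ snd (H.X a) (H.X a)) y
          * W.pull (snd (H.X a ⊗ H.X a) (H.X a)) z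
        = W.pull (fst (H.X a ⊗ H.X a) (H.X a)) (W.pull (fst (H.X a) (H.X a)) x
          * W.pull (snd (H.X a) (H.X a)) y)
          * W.pull (snd (H.X a ⊗ H.X a) (H.X a)) z := by
      intro x y z
      rw [W.pull_comp, W.pull_comp, map_mul (W.pull (fst (H.X a ⊗ H.X a) (H.X a)))]
    rw [e, e]
    have e2 := GJ.J_prod H a1 a2 hF.G ge (.prod (.leaf a) (.leaf a)) (.leaf a)
      (W.pull (fst (H.X a) (H.X a)) x * W.pull (snd (H.X a) (H.X a)) y) z
    have e3 := GJ.J_prod H a1 a2 hF.G ge (.leaf a) (.leaf a) x y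
    refine e2.trans ?_
    rw [show GJ.J H a1 g (.prod (.leaf a) (.leaf a)) (W.pull (fst (H.X a) (H.X a)) x
      * W.pull (snd (H.X a) (H.X a)) y) = _ from e3]
    rfl

/-! ### Classes of small codimension -/

include a1 in
theorem JT_zero {L : ℕ} : GJ.JT H.D g (0 : Ten H.I L) = 0 := by
  have h := GJ.JT_smul H.D g a1 0 (0 : Ten H.I L)
  rwa [zero_smul, map_zero, zero_smul] at h

include a1 in
theorem JT_sum {L : ℕ} {ι : Type} (s : Finset ι) (f : ι → Ten H.I L) :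
    GJ.JT H.D g (∑ i ∈ s, f i) = ∑ i ∈ s, GJ.JT H.D g (f i) := by
  classical
  induction s using Finset.induction_on with
  | empty => rw [Finset.sum_empty, Finset.sum_empty, JT_zero H a1]
  | insert a s ha ih => rw [Finset.sum_insert ha, Finset.sum_insert ha, GJ.JT_add H.D g a1, ih]

include ge hF in
theorem fixA (hsta : StaStatement.{w}) (P : Prd m) (l : ℕ) (hl : l ≤ r P)
    (z : W.coh (P.obj H.X)) (hz : z ∈ W.alg (P.obj H.X) l) : GJ.J H a1 g P z = z := by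
  classical
  refine ge.inj P ?_
  rw [GJ.tc_J H a1 hF.G ge]
  obtain ⟨u, hu⟩ : ∃ u, u = H.tc P z := ⟨_, rfl⟩
  have hAt : u ∈ H.At P.size := by
    rw [hu]
    exact AddSubgroup.subset_closure (Or.inr ⟨P, rfl, z, alg_le_tot H.hW _ l hz, rfl⟩)
  have hoff : ∀ w, u w ≠ 0 → (∀ i, (H.D.typ (w i)).1 = P.lw i) ∧
      ∑ i, (H.D.typ (w i)).2 = 2 * l := by
    intro w hw
    constructor
    · by_contra hcon
      push Not at hcon
      exact hw (by rw [hu]; exact ge.tc_off P z w hcon)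
    · by_contra hcon
      exact hw (by
        rw [hu]
        exact GJ.tc_gr H ge hsta P (H.hW.alg_gr (H.memP P) hz) w hcon)
  rw [← hu]
  -- the components
  let S : Finset (Fin P.size → Fin m × ℕ) :=
    Finset.univ.image (fun w : Fin P.size → H.I => fun i => H.D.typ (w i))
  let pr : (Fin P.size → Fin m × ℕ) → Ten H.I P.size :=
    fun α w => if ∀ i, H.D.typ (w i) = α i then u w else 0
  have hsum : u = ∑ α ∈ S, pr α := by
    funext w
    rw [Finset.sum_apply, Finset.sum_eq_single (fun i => H.D.typ (w i))]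
    · exact (if_pos fun i => rfl).symm
    · intro α _ hα
      exact if_neg fun h => hα (funext fun i => (h i).symm)
    · intro h
      exact absurd (Finset.mem_image_of_mem _ (Finset.mem_univ w)) h
  have hcomp : ∀ α, GJ.JT H.D g (pr α) = pr α := by
    intro α
    by_cases h0 : pr α = 0
    · rw [h0]
      exact JT_zero H a1
    · obtain ⟨w, hw⟩ : ∃ w, pr α w ≠ 0 := by
        by_contra hcon
        push Not at hcon
        exact h0 (funext hcon)
      have hw1 : ∀ i, H.D.typ (w i) = α i := by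
        by_contra hcon
        exact hw (if_neg hcon)
      have hw2 : u w ≠ 0 := by
        intro h
        exact hw ((if_pos hw1).trans h)
      obtain ⟨h1, h2⟩ := hoff w hw2
      refine hF.fix P.size α (pr α) ⟨LET.at_letters H α hAt, ?_, P, rfl, fun i => ?_, ?_⟩
      · intro w' hw'
        by_contra hcon
        exact hw' (if_neg hcon)
      · rw [← h1 i, hw1 i]
        rfl
      · have h3 : ∑ i, (α i).2 = ∑ i, (H.D.typ (w i)).2 :=
          Finset.sum_congr rfl fun i _ => by rw [hw1 i]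
        rw [h3, h2]
        omega
  conv_lhs => rw [hsum]
  rw [JT_sum H a1]
  conv_rhs => rw [hsum]
  exact Finset.sum_congr rfl fun α _ => hcomp α

end Jl85

open Jl85 in
/-- Row JL. -/
theorem jl85 (hsta : StaStatement.{w}) (hRsp : RspStatement.{u, w}) (a1 : Alg1) (a2 : Alg2)
    (hge : GeStatement.{u, w}) : JlStatement.{u, w} := by
  intro k _ W 𝒱 m H r J hJ g hF
  have ge := hge H
  exact ⟨GJ.J H a1 g, rs H a1 a2 ge hF hJ hsta hRsp, GJ.J_prod H a1 a2 hF.G ge,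
    mul_leaf H a1 a2 ge hF hJ hsta hRsp, fun P l z hl hz => fixA H a1 ge hF hsta P l hl z hz,
    fun P l z hz hjz => fix0 H a1 ge hF hJ P z (alg_le_tot H.hW _ l hz) hjz⟩

end Pool.Agent.Lib.MP_361a6f_ag.FL
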