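import Pool.Agent.Lib.MP_361a6f_ag.FL.B.PosL
import Pool.Agent.Lib.MP_361a6f_ag.FL.B.GeoDefs

/-!
# Theorem L, row LPOS (helper29): the statement of the row
-/

open CategoryTheory AlgebraicGeometry MonoidalCategory CartesianMonoidalCategory

universe u v w

set_option autoImplicit false

namespace Pool.Agent.Lib.MP_361a6f_ag.FL

open Pool.Agent.Lib.MP_361a6f_ag.H3 Pool.Agent.Lib.MP_361a6f_ag.SQ
  Pool.Agent.Lib.MP_361a6f_ag.IP2 Pool.Agent.Lib.MP_361a6f_ag.PP

/-- Row LPOS. -/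
theorem lpos (gr : GrStatement.{u, w}) (ge : GeStatement.{u, w}) (hS : Sl2Statement.{w})
    (hT : StaStatement.{w}) : LposStatement.{u, w} := by
  intro k _ W 𝒱 m H r _ hH L α u hu hu0
  obtain ⟨P, h, hl, hs⟩ := hu.cod
  subst h
  have hon : ∀ w, (¬ ∀ j, H.D.typ (w j) = α j) → u w = 0 := by
    intro w hw
    by_contra h0
    exact hw (hu.on w h0)
  -- the degree is even
  have hev : Even (∑ j, (α j).2) := by
    obtain ⟨w, hw⟩ : ∃ w, u w ≠ 0 := by
      by_contra hcon
      push Not at hcon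
      exact hu0 (funext hcon)
    obtain ⟨z, hz, h1⟩ := PosL.at_fit H (gr H) (ge H) P hu.mem
    have ho : ¬ H.Off P w := by
      rintro ⟨j, hj⟩
      apply hj
      rw [hu.on w hw j]
      exact (hl j).symm
    have h2 := (ge H).even P z hz w (by rw [h1, if_neg ho]; exact hw)
    have h3 : ∑ j, (H.D.typ (w j)).2 = ∑ j, (α j).2 :=
      Finset.sum_congr rfl fun j _ => by rw [hu.on w hw j]
    rwa [h3] at h2
  obtain ⟨i, hi⟩ := hev
  have hi2 : ∑ j, (α j).2 = 2 * i := by rw [hi, two_mul]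
  refine PosL.lpos H (gr H) (ge H) hS hT P α (fun j => (hl j).symm) i hi2 (fun i' hi' => hH P i' ?_)
    hu.mem hon hu0
  omega

end Pool.Agent.Lib.MP_361a6f_ag.FL
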