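import Mathlib
import Pool.Agent.Lib.MP_361a6f_ag.FL.MinT

/-!
# A minimal point in the closure of the orbit, for an arbitrary group with a Lie algebra

`G` is a set of matrices closed under products, containing `exp (c • A)` for `A` in `𝔤`; then the
closure of `G t` contains a point `s` with `hS (aS A s) s = 0` for all `A` in `𝔤`.
-/

set_option autoImplicit false
set_option linter.unusedSectionVars false

open Filter Topology

namespace Pool.Agent.Lib.MP_361a6f_ag.FL

namespace MinG

open MinT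

variable {I ι : Type} [Fintype I] [DecidableEq I] [Fintype ι] {len : ι → ℕ}

/-- a vector of minimal norm in its orbit is a critical point -/
theorem crit_of_le (h : Alg1) {G 𝔤 : Matrix I I ℂ → Prop}
    (hexp : ∀ (c : ℂ) A, 𝔤 A → G (NormedSpace.exp (c • A))) (s : Tup I len)
    (hm : ∀ g, G g → nS s ≤ nS (gS g s)) : ∀ A, 𝔤 A → hS (aS A s) s = 0 := by
  intro A hA
  have h1 : (hS (aS A s) s).re = 0 := re_crit h A s fun τ => hm _ (hexp _ _ hA)
  have h2 : (hS (aS (Complex.I • A) s) s).re = 0 := by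
    refine re_crit h (Complex.I • A) s fun τ => hm _ ?_
    rw [smul_smul]
    exact hexp _ _ hA
  rw [aS_smul h, hS_smul_left] at h2
  refine Complex.ext h1 ?_
  simpa using h2

/-- a minimal point in the closure of the orbit -/
theorem exists_min (h : Alg1) {G 𝔤 : Matrix I I ℂ → Prop} (h1G : G 1)
    (hmul : ∀ g g', G g → G g' → G (g * g'))
    (hexp : ∀ (c : ℂ) A, 𝔤 A → G (NormedSpace.exp (c • A))) (t : Tup I len) :
    ∃ (s : Tup I len) (g : ℕ → Matrix I I ℂ), (∀ j, G (g j)) ∧
      Tendsto (fun j => gS (g j) t) atTop (𝓝 s) ∧ ∀ A, 𝔤 A → hS (aS A s) s = 0 := by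
  let S : Set ℝ := {r | ∃ g, G g ∧ nS (gS g t) = r}
  have hSne : S.Nonempty := ⟨_, 1, h1G, rfl⟩
  have hSbd : BddBelow S := ⟨0, by rintro _ ⟨g, -, rfl⟩; exact nS_nonneg _⟩
  obtain ⟨u, -, hu, huS⟩ := exists_seq_tendsto_sInf hSne hSbd
  choose g hgG hgu using huS
  obtain ⟨R, hR⟩ := hu.bddAbove_range
  have hb : ∀ j, gS (g j) t ∈ Metric.closedBall (0 : Tup I len) (|R| + 1) := by
    intro j
    rw [mem_closedBall_zero_iff]
    refine norm_le_of_nS _ (by positivity) ?_
    have h1 : u j ≤ R := hR ⟨j, rfl⟩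
    rw [hgu j]
    have h2 := le_abs_self R
    have h3 := abs_nonneg R
    nlinarith
  obtain ⟨s, -, ψ, hψ, hlim⟩ := (isCompact_closedBall (0 : Tup I len) (|R| + 1)).tendsto_subseq hb
  have hs : nS s = sInf S := by
    have h1 : Tendsto (fun j => nS (gS (g (ψ j)) t)) atTop (𝓝 (nS s)) :=
      (continuous_nS.tendsto s).comp hlim
    have h2 : Tendsto (fun j => nS (gS (g (ψ j)) t)) atTop (𝓝 (sInf S)) := by
      have h3 : (fun j => nS (gS (g (ψ j)) t)) = u ∘ ψ := by
        funext j; exact hgu (ψ j)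
      rw [h3]
      exact hu.comp hψ.tendsto_atTop
    exact tendsto_nhds_unique h1 h2
  refine ⟨s, fun j => g (ψ j), fun j => hgG _, hlim, crit_of_le h hexp s ?_⟩
  intro x hx
  have h1 : Tendsto (fun j => nS (gS (x * g (ψ j)) t)) atTop (𝓝 (nS (gS x s))) := by
    have h2 : Tendsto (fun j => gS x (gS (g (ψ j)) t)) atTop (𝓝 (gS x s)) :=
      ((continuous_gS h x).tendsto s).comp hlim
    have h3 : (fun j => nS (gS (x * g (ψ j)) t)) = fun j => nS (gS x (gS (g (ψ j)) t)) := by
      funext j; rw [gS_mul h]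
    rw [h3]
    exact (continuous_nS.tendsto _).comp h2
  rw [hs]
  exact ge_of_tendsto' h1 fun j => csInf_le hSbd ⟨_, hmul _ _ hx (hgG _), rfl⟩

/-- `exp A` fixes the tuples killed by `A` -/
theorem gS_exp_fix (h : Alg1) {A : Matrix I I ℂ} {b : Tup I len} (hA : aS A b = 0) :
    gS (NormedSpace.exp A) b = b := by
  funext i
  have h1 : aT A (b i) = 0 := congrFun hA i
  have h2 := h.gT_exp A (b i)
  refine h2.unique ?_
  have h3 : ∀ n : ℕ, n ≠ 0 → ((n.factorial : ℂ)⁻¹) • (aT A)^[n] (b i) = 0 := by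
    intro n hn
    obtain ⟨n, rfl⟩ := Nat.exists_eq_succ_of_ne_zero hn
    rw [Function.iterate_succ_apply, h1]
    have h4 : ∀ n : ℕ, (aT A)^[n] (0 : Ten I (len i)) = 0 := by
      intro n
      induction n with
      | zero => rfl
      | succ n ih =>
        rw [Function.iterate_succ_apply']
        rw [ih]
        have := h.aT_smul A 0 (0 : Ten I (len i))
        simpa using this
    rw [h4, smul_zero]
  have h5 := hasSum_single (f := fun n : ℕ => ((n.factorial : ℂ)⁻¹) • (aT A)^[n] (b i)) 0 h3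
  simpa using h5

end MinG

end Pool.Agent.Lib.MP_361a6f_ag.FL
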