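import Mathlib
import Pool.Agent.Lib.MP_361a6f_ag.FL.B.Defs
import Pool.Agent.Lib.MP_361a6f_ag.FL.B.MinG

/-!
# Row MIB: a minimal point in the closure of the orbit under the stabiliser of `b`
-/

set_option autoImplicit false

open Filter Topology

namespace Pool.Agent.Lib.MP_361a6f_ag.FL

/-- Row MIB. -/
theorem minb (h : Alg1) : MinbStatement := by
  intro I Λ β ι _ _ _ _ _ lb len D b t
  refine MinG.exists_min h (G := IsGb D b) (𝔤 := IsLieb D b) ?_ ?_ ?_ t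
  · exact ⟨h.G_one D, funext fun i => h.gT_one (b i)⟩
  · rintro g g' ⟨hg, hb⟩ ⟨hg', hb'⟩
    exact ⟨h.G_mul D _ _ hg hg', by rw [MinT.gS_mul h, hb', hb]⟩
  · rintro c A ⟨hA, hb⟩
    exact ⟨h.G_exp D _ (h.Lie_smul D c A hA), MinG.gS_exp_fix h (by
      rw [MinT.aS_smul h, hb, smul_zero])⟩

end Pool.Agent.Lib.MP_361a6f_ag.FL
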