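import Pool.Agent.Lib.MP_361a6f_ag.FL.B.L12b
import Pool.Agent.Lib.MP_361a6f_ag.FL.Pha

/-!
# Row PHB: phase and normal component near the stabiliser, relative form
-/

open Filter Topology MeasureTheory

set_option autoImplicit false
set_option linter.unusedSectionVars false

namespace Pool.Agent.Lib.MP_361a6f_ag.FL

namespace PHB

open PH
open L12 hiding hS_gS cont_gS
open L12b

variable {I Λ β ι : Type} [Fintype I] [DecidableEq I] [DecidableEq Λ] [Fintype β] [Fintype ι]
  {lb : β → ℕ} {len : ι → ℕ}

section alg

variable (a1 : Alg1)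

variable {D : Dat I Λ} {b : Tup I lb} (H : HMb D b)

/-- The unitary action. -/
noncomputable def UU (len : ι → ℕ) : H.K →* (E I len →L[ℂ] E I len) where
  toFun k := opL (gL len a1 (H.mat k))
  map_one' := by
    ext1 x
    rw [opL_apply, map_one]
    show emb (gS 1 (un x)) = x
    rw [gS_one a1, emb_un]
  map_mul' k k' := by
    ext1 x
    rw [mul_apply_eq_comp, opL_apply, opL_apply, opL_apply, map_mul]
    show emb (gS (H.mat k * H.mat k') (un x)) = emb (gS (H.mat k) (gS (H.mat k') (un x)))
    rw [gS_mul a1]

theorem UU_apply (k : H.K) (s : Tup I len) : UU a1 H len k (emb s) = emb (gS (H.mat k) s) := rfl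

theorem uni : RLap.Uni (UU a1 H len) where
  ip k x y := by
    show inner ℂ (emb (gS (H.mat k) (un x))) (emb (gS (H.mat k) (un y))) = inner ℂ x y
    rw [← hS_eq, hS_gS H a1, hS_eq, emb_un, emb_un]
  cont := by
    rw [continuous_clm_apply]
    intro x
    exact emb_cont.comp (cont_gS H a1 (un x))

/-- The tangent space. -/
noncomputable def gs (D : Dat I Λ) (b : Tup I lb) (s : Tup I len) : Submodule ℂ (E I len) :=
  Submodule.span ℂ {x | ∃ A, IsLieb D b A ∧ x = emb (aS A s)}

theorem tan (htan : TanbStatement) {s : Tup I len} (hs : emb s ≠ 0) :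
    RLap.Tan (UU a1 H len) (emb s) (gs D b s) where
  ne := hs
  exp ε hε := by
    obtain ⟨C, hC, hb⟩ := XL_bound (I := I) (len := len) a1
    set e := min 1 (min ε 1 / (C + 1)) with he
    have he0 : 0 < e := by positivity
    filter_upwards [htan H e he0] with k hk
    obtain ⟨A, h1, h2, h3, h4⟩ := hk
    have h5 : ‖XL len a1 A‖ ≤ min ε 1 := by
      refine (hb A e he0.le h3).trans ?_
      calc C * e ≤ (C + 1) * (min ε 1 / (C + 1)) := by
            gcongr
            · linarith
            · exact min_le_right _ _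
        _ = min ε 1 := by field_simp
    have hE : NormOneClass (E I len →L[ℂ] E I len) := by
      have : Nontrivial (E I len) := ⟨⟨emb s, 0, hs⟩⟩
      infer_instance
    obtain ⟨g, h6, h7⟩ := RLap.exp_split (XL len a1 A) (h5.trans (min_le_right _ _))
    refine ⟨XL len a1 A, g, XL_skew a1 A h2, h5.trans (min_le_left _ _),
      h6.trans (h5.trans (min_le_left _ _)), ?_, Submodule.subset_span ⟨A, h1, rfl⟩⟩
    rw [← h7]
    ext1 x
    rw [← emb_un x, exp_eq, UU_apply, h4]

end alg

end PHB

open PHB L12b in
open PH hiding UU UU_apply uni gs tan in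
open L12 hiding hS_gS cont_gS in
/-- Row PHB. -/
theorem phab (a1 : Alg1) (htan : TanbStatement) : PhabStatement := by
  intro I Λ β ι _ _ _ _ _ lb len D b H s
  -- translation of the distances
  have key : ∀ P : H.K → Prop, emb s ≠ 0 →
      (∃ r : ℝ, 0 < r ∧ ∀ k, 1 - (RLap.phi (UU a1 H len) (emb s) k).re < r → P k) →
      ∃ η : ℝ, 0 < η ∧ ∀ k, dlb H s k < η → P k := by
    rintro P hs ⟨r, hr, hP⟩
    have hs0 : 0 < ‖emb s‖ ^ 2 := by positivity
    refine ⟨min 1 (r * (2 * ‖emb s‖ ^ 2)), by positivity, ?_⟩
    intro k hk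
    apply hP
    rw [RLap.one_sub_re (uni a1 H) hs, div_lt_iff₀ (by positivity), UU_apply, ← dlb_eq]
    have h0 : 0 ≤ dlb H s k := by
      rw [dlb_eq]
      exact norm_nonneg _
    have h1 : dlb H s k < 1 := hk.trans_le (min_le_left _ _)
    have h2 : dlb H s k < r * (2 * ‖emb s‖ ^ 2) := hk.trans_le (min_le_right _ _)
    calc dlb H s k ^ 2 = dlb H s k * dlb H s k := sq _
      _ ≤ dlb H s k * 1 := by gcongr
      _ < r * (2 * ‖emb s‖ ^ 2) := by linarith
  by_cases hs : emb s = 0
  · have hs' : s = 0 := by
      apply emb_inj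
      rw [hs]
      ext x
      rfl
    have h0 : ∀ k, gS (H.mat k) s = s := by
      intro k
      have h1 := (gL len a1 (H.mat k)).map_zero
      rw [hs']
      exact h1
    constructor
    · intro _ ε hε
      refine ⟨1, one_pos, fun k _ => ?_⟩
      rw [h0, hs']
      have h1 : hS (0 : Tup I len) 0 = 0 := by simp [hS, hT]
      rw [h1]
      simp only [Complex.zero_im, abs_zero]
      positivity
    · intro ε hε
      refine ⟨1, one_pos, fun k _ ν _ => ?_⟩
      rw [h0, sub_self]
      have h1 : hS ν (0 : Tup I len) = 0 := by simp [hS, hT]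
      rw [h1, norm_zero]
      have h2 : 0 ≤ dlb H s k := by
        rw [dlb_eq]
        exact norm_nonneg _
      positivity
  · have hT := tan a1 H htan hs
    have hs0 : 0 < ‖emb s‖ ^ 2 := by positivity
    constructor
    · intro hmin ε hε
      refine key _ hs ?_
      have horth : ∀ x ∈ gs D b s, inner ℂ (emb s) x = 0 := by
        intro x hx
        unfold gs at hx
        induction hx using Submodule.span_induction with
        | mem x hx =>
          obtain ⟨A, hA, rfl⟩ := hx
          rw [← hS_eq]
          exact hmin A hA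
        | zero => exact inner_zero_right _
        | add x y _ _ hx hy => rw [inner_add_right, hx, hy, add_zero]
        | smul a x _ hx => rw [inner_smul_right, hx, mul_zero]
      obtain ⟨r, hr, h1⟩ := RLap.phase (uni a1 H) hT horth (2 * ε) (by positivity)
      refine ⟨r, hr, fun k hk => ?_⟩
      have h2 := h1 k hk
      rw [RLap.one_sub_re (uni a1 H) hs] at h2
      unfold RLap.phi at h2
      rw [Complex.div_ofReal_im, abs_div, abs_of_pos hs0, div_le_iff₀ hs0, UU_apply, ← dlb_eq] at h2
      have h3 : (hS (gS (H.mat k) s) s).im = -(inner ℂ (emb (gS (H.mat k) s)) (emb s)).im := by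
        rw [hS_eq, ← inner_conj_symm, Complex.conj_im]
      rw [h3, abs_neg]
      refine h2.trans (le_of_eq ?_)
      field_simp
    · intro ε hε
      refine key _ hs ?_
      obtain ⟨r, hr, h1⟩ := RLap.normal (uni a1 H) hT ε hε
      refine ⟨r, hr, fun k hk ν hν => ?_⟩
      have h2 := h1 k hk (emb ν) (by
        intro x hx
        unfold gs at hx
        induction hx using Submodule.span_induction with
        | mem x hx =>
          obtain ⟨A, hA, rfl⟩ := hx
          rw [← hS_eq]
          exact hν A hA
        | zero => exact inner_zero_left _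
        | add x y _ _ hx hy => rw [inner_add_left, hx, hy, add_zero]
        | smul a x _ hx => rw [inner_smul_left, hx, mul_zero])
      rw [UU_apply, ← dlb_eq, ← emb_sub, ← hS_eq] at h2
      rw [hS_self ν, Complex.ofReal_re, Real.sqrt_sq (norm_nonneg _)]
      exact h2

end Pool.Agent.Lib.MP_361a6f_ag.FL
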