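import Pool.Agent.Lib.MP_361a6f_ag.FL.Tan
import Pool.Agent.Lib.MP_361a6f_ag.FL.B.Defs

/-!
# Row TAB: the elements of the compact stabiliser of `b` near `1` are exponentials of small
elements of the Lie algebra of the stabiliser
-/

open Filter Topology MeasureTheory NormedSpace

set_option autoImplicit false
set_option linter.unusedSectionVars false

namespace Pool.Agent.Lib.MP_361a6f_ag.FL

open Tan

open scoped Matrix.Norms.Operator in
/-- The tangent limit for a continuous family of unitary elements of the group. -/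
theorem tan_gen {I Λ : Type} [Fintype I] [DecidableEq I] [DecidableEq Λ] {D : Dat I Λ}
    {K : Type} [TopologicalSpace K] (mat : K → Matrix I I ℂ) (cm : Continuous mat)
    (mem : ∀ k, IsK D (mat k)) (x₀ : K) (hx₀ : mat x₀ = 1) (e : ℝ) (he : 0 < e) :
    ∀ᶠ k in 𝓝 x₀, ∃ A : Matrix I I ℂ, IsLie D A ∧ A.conjTranspose = -A ∧
      (∀ i j, ‖A i j‖ ≤ e) ∧ mat k = exp A := by
  obtain ⟨⟨r, hr, inj0⟩, hlog0⟩ := Tan.facts I
  have hc1 : Continuous fun x : Matrix I I ℂ => -x.conjTranspose := by fun_prop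
  have hc2 : Continuous fun x : Matrix I I ℂ => -((Psi D).transpose * x.transpose * Psi D) := by
    fun_prop
  have hc3 : ∀ i, Continuous fun x : Matrix I I ℂ => rf D i * x * rf D i := by
    intro i; fun_prop
  have hc4 : ∀ i j, Continuous fun x : Matrix I I ℂ => x i j := by
    intro i j; fun_prop
  have hnb : ∀ σ : Matrix I I ℂ → Matrix I I ℂ, Continuous σ → σ 0 = 0 →
      ∀ᶠ x in 𝓝 (0 : Matrix I I ℂ), ‖σ x‖ < r := by
    intro σ hσ h0
    have h1 : Tendsto (fun x => ‖σ x‖) (𝓝 0) (𝓝 0) := by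
      have := (hσ.norm).tendsto 0
      simpa [h0] using this
    exact h1.eventually (gt_mem_nhds hr)
  have hall : ∀ᶠ x in 𝓝 (0 : Matrix I I ℂ), ‖x‖ < r ∧ ‖-x.conjTranspose‖ < r ∧
      ‖-((Psi D).transpose * x.transpose * Psi D)‖ < r ∧ (∀ i, ‖rf D i * x * rf D i‖ < r) ∧
      (∀ i j, ‖x i j‖ ≤ e) := by
    refine (hnb _ continuous_id (by simp)).and ((hnb _ hc1 (by simp)).and
      ((hnb _ hc2 (by simp)).and ((eventually_all.2 fun i => hnb _ (hc3 i) (by simp)).and ?_)))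
    refine eventually_all.2 fun i => eventually_all.2 fun j => ?_
    have h1 : Tendsto (fun x : Matrix I I ℂ => ‖x i j‖) (𝓝 0) (𝓝 0) := by
      have := ((hc4 i j).norm).tendsto 0
      simpa using this
    exact (h1.eventually (gt_mem_nhds he)).mono fun x hx => hx.le
  obtain ⟨r', hr', hball⟩ := Metric.eventually_nhds_iff.1 hall
  obtain ⟨e', he', hlog⟩ := hlog0 r' hr'
  have hk : ∀ᶠ k in 𝓝 x₀, ‖mat k - 1‖ < e' := by
    have h1 : Tendsto (fun k => ‖mat k - 1‖) (𝓝 x₀) (𝓝 0) := by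
      have h2 : Continuous fun k : K => mat k - 1 := cm.sub continuous_const
      have h3 := h2.norm.tendsto x₀
      simpa [hx₀] using h3
    exact h1.eventually (gt_mem_nhds he')
  filter_upwards [hk] with k hk
  obtain ⟨x, hx1, hx2⟩ := hlog _ hk
  obtain ⟨h1, h2, h3, h4, h5⟩ := hball (y := x) (by simpa [dist_eq_norm] using hx1)
  obtain ⟨⟨hg1, hg2⟩, hg3⟩ := mem k
  rw [← hx2] at hg1 hg2 hg3
  have inj : ∀ y : Matrix I I ℂ, ‖y‖ < r → exp y = exp x → y = x := fun y hy hyx =>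
    inj0 x y h1 hy hyx
  have hP1 := Psi_mul_transpose D
  have hP2 := Psi_transpose_mul D
  have hPu : IsUnit (Psi D) := IsUnit.of_mul_eq_one _ hP1
  have hPinv : (Psi D)⁻¹ = (Psi D).transpose := Matrix.inv_eq_right_inv hP1
  -- unitary
  have e1 : -x.conjTranspose = x := by
    apply inj _ h2
    rw [Matrix.exp_neg, Matrix.exp_conjTranspose]
    exact Matrix.inv_eq_right_inv hg3
  -- the form
  have e2 : -((Psi D).transpose * x.transpose * Psi D) = x := by
    apply inj _ h3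
    rw [Matrix.exp_neg, ← hPinv, Matrix.exp_conj' _ _ hPu, Matrix.exp_transpose]
    apply Matrix.inv_eq_right_inv
    rw [mul_assoc, mul_assoc, ← mul_assoc (exp x).transpose, hg2, hPinv, hP2]
  -- the letters
  have e3 : ∀ i, rf D i * x * rf D i = x := by
    intro i
    apply inj _ (h4 i)
    have hri : (rf D i)⁻¹ = rf D i := Matrix.inv_eq_right_inv (rf_mul_rf D i)
    have hru : IsUnit (rf D i) := IsUnit.of_mul_eq_one _ (rf_mul_rf D i)
    have h6 : exp (rf D i * x * (rf D i)⁻¹) = rf D i * exp x * (rf D i)⁻¹ :=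
      Matrix.exp_conj _ _ hru
    rw [hri] at h6
    rw [h6]
    exact rf_comm D hg1 i
  refine ⟨x, ⟨of_rf_comm D e3, ?_⟩, ?_, h5, hx2.symm⟩
  · have h7 : Psi D * x = -(x.transpose * Psi D) := by
      nth_rewrite 1 [← e2]
      rw [mul_neg, ← mul_assoc, ← mul_assoc, hP1, one_mul]
    rw [h7, add_neg_cancel]
  · nth_rewrite 2 [← e1]
    rw [neg_neg]

open PH L12 in
/-- If `exp A` fixes `b` and `A` is small, then `A b = 0`. -/
theorem stab_small {I β : Type} [Fintype I] [DecidableEq I] [Fintype β] {lb : β → ℕ}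
    (a1 : Alg1) (b : Tup I lb) : ∃ e₀ : ℝ, 0 < e₀ ∧ ∀ A : Matrix I I ℂ, (∀ i j, ‖A i j‖ ≤ e₀) →
      gS (exp A) b = b → aS A b = 0 := by
  obtain ⟨C, hC, hb⟩ := XL_bound (I := I) (len := lb) a1
  refine ⟨1 / (2 * (C + 1)), by positivity, fun A hA hf => ?_⟩
  by_cases h0 : emb b = 0
  · have h1 : emb (aS A b) = 0 := by
      rw [← XL_apply a1, h0, map_zero]
    apply emb_inj
    rw [h1]
    ext x
    rfl
  have hE : NormOneClass (E I lb →L[ℂ] E I lb) := by
    have : Nontrivial (E I lb) := ⟨⟨emb b, 0, h0⟩⟩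
    infer_instance
  have hX : ‖XL lb a1 A‖ ≤ 1 / 2 := by
    refine (hb A _ (by positivity) hA).trans ?_
    rw [mul_one_div, div_le_iff₀ (by positivity)]
    linarith
  obtain ⟨g, h6, h7⟩ := RLap.exp_split (XL lb a1 A) (hX.trans (by norm_num))
  have hg : ‖g‖ ≤ 1 := by
    have h8 : ‖(1 / 2 : ℂ) • (1 : E I lb →L[ℂ] E I lb)‖ = 1 / 2 := by
      rw [norm_smul, norm_one]
      norm_num
    have h9 : ‖g‖ ≤ ‖g - (1 / 2 : ℂ) • (1 : E I lb →L[ℂ] E I lb)‖ +
        ‖(1 / 2 : ℂ) • (1 : E I lb →L[ℂ] E I lb)‖ := by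
      have := norm_add_le (g - (1 / 2 : ℂ) • (1 : E I lb →L[ℂ] E I lb))
        ((1 / 2 : ℂ) • (1 : E I lb →L[ℂ] E I lb))
      rwa [sub_add_cancel] at this
    linarith
  set X := XL lb a1 A with hXd
  set v := emb b with hv
  have h10 : exp X v = v := by
    rw [hXd, hv, exp_eq, hf]
  rw [h7] at h10
  have h11 : X v = -(X (g (X v))) := by
    have h12 : v + X v + X (g (X v)) = v := h10
    have h13 : X v + X (g (X v)) = 0 := by
      rw [add_assoc] at h12
      exact left_eq_add.1 h12.symm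
    exact eq_neg_of_add_eq_zero_left h13
  have h14 : ‖X v‖ ≤ 1 / 2 * ‖X v‖ := by
    calc ‖X v‖ = ‖X (g (X v))‖ := by
          conv_lhs => rw [h11, norm_neg]
      _ ≤ ‖X‖ * ‖g (X v)‖ := X.le_opNorm _
      _ ≤ ‖X‖ * (‖g‖ * ‖X v‖) := by gcongr; exact g.le_opNorm _
      _ ≤ 1 / 2 * (1 * ‖X v‖) := by gcongr
      _ = 1 / 2 * ‖X v‖ := by rw [one_mul]
  have h15 : X v = 0 := by
    rw [← norm_eq_zero]
    linarith [norm_nonneg (X v)]
  apply emb_inj
  rw [← XL_apply a1]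
  show X v = emb 0
  rw [h15]
  ext x
  rfl

/-- Row TAB. -/
theorem tanb (a1 : Alg1) : TanbStatement := by
  intro I Λ β _ _ _ _ lb D b H e he
  obtain ⟨e₀, he₀, h0⟩ := stab_small a1 b
  filter_upwards [tan_gen (fun k => H.mat k) H.cont_mat (fun k => (H.mem k).1) 1 (map_one _)
    (min e e₀) (lt_min he he₀)] with k hk
  obtain ⟨A, h1, h2, h3, h4⟩ := hk
  refine ⟨A, ⟨h1, h0 A (fun i j => (h3 i j).trans (min_le_right _ _)) ?_⟩, h2,
    fun i j => (h3 i j).trans (min_le_left _ _), h4⟩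
  rw [← h4]
  exact (H.mem k).2

end Pool.Agent.Lib.MP_361a6f_ag.FL
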