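import Pool.Agent.Lib.MP_361a6f_ag.FL.B.TalA

/-!
# Theorem L, rows TUP and TAL (abstract part): the real structure
-/

open Filter Topology MeasureTheory

set_option autoImplicit false
set_option linter.unusedSectionVars false

namespace Pool.Agent.Lib.MP_361a6f_ag.FL

variable {I Λ : Type} [Fintype I] [DecidableEq I] [DecidableEq Λ]

/-- the letters of `u` are those of the word `α` -/
def OnW (D : Dat I Λ) {L : ℕ} (α : Fin L → Λ) (u : Ten I L) : Prop :=
  ∀ w : Fin L → I, (¬ ∀ i, D.typ (w i) = α i) → u w = 0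

/-- the projection to the letters of the word `α` -/
def prW (D : Dat I Λ) {L : ℕ} (α : Fin L → Λ) : Ten I L →ₗ[ℂ] Ten I L where
  toFun u w := if ∀ i, D.typ (w i) = α i then u w else 0
  map_add' u v := by
    funext w
    by_cases h : ∀ i, D.typ (w i) = α i
    · simp [h]
    · simp [h]
  map_smul' c u := by
    funext w
    by_cases h : ∀ i, D.typ (w i) = α i
    · simp [h]
    · simp [h]

namespace TalB

open Qps

variable {D : Dat I Λ}

theorem prW_apply {L : ℕ} (α : Fin L → Λ) (u : Ten I L) (w : Fin L → I) :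
    prW D α u w = if ∀ i, D.typ (w i) = α i then u w else 0 := rfl

theorem prW_on {L : ℕ} (α : Fin L → Λ) (u : Ten I L) : OnW D α (prW D α u) := by
  intro w hw
  rw [prW_apply, if_neg hw]

theorem prW_id {L : ℕ} {α : Fin L → Λ} {u : Ten I L} (hu : OnW D α u) : prW D α u = u := by
  funext w
  rw [prW_apply]
  by_cases h : ∀ i, D.typ (w i) = α i
  · rw [if_pos h]
  · rw [if_neg h, hu w h]

theorem prW_gT {L : ℕ} (α : Fin L → Λ) {g : Matrix I I ℂ} (hg : IsG D g) (u : Ten I L) :
    prW D α (gT g u) = gT g (prW D α u) := by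
  funext w
  rw [prW_apply, gT, gT]
  by_cases h : ∀ i, D.typ (w i) = α i
  · rw [if_pos h]
    refine Finset.sum_congr rfl fun w' _ => ?_
    by_cases h' : ∀ i, D.typ (w i) = D.typ (w' i)
    · rw [prW_apply, if_pos (fun i => (h' i).symm.trans (h i))]
    · push Not at h'
      obtain ⟨i, hi⟩ := h'
      rw [Finset.prod_eq_zero (Finset.mem_univ i) (hg.1 _ _ hi), zero_mul, zero_mul]
  · rw [if_neg h]
    symm
    refine Finset.sum_eq_zero fun w' _ => ?_
    by_cases h' : ∀ i, D.typ (w i) = D.typ (w' i)
    · rw [prW_apply, if_neg (fun h2 => h fun i => (h' i).trans (h2 i)), mul_zero]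
    · push Not at h'
      obtain ⟨i, hi⟩ := h'
      rw [Finset.prod_eq_zero (Finset.mem_univ i) (hg.1 _ _ hi), zero_mul]

theorem prW_jT {L : ℕ} (α : Fin L → Λ) (u : Ten I L) : prW D α (jT D u) = jT D (prW D α u) := by
  funext w
  rw [prW_apply, jT, jT, prW_apply]
  have h1 : (∀ i, D.typ ((D.τ ∘ w) i) = α i) ↔ ∀ i, D.typ (w i) = α i := by
    constructor
    · intro h i
      have := h i
      rwa [Function.comp_apply, D.typ_τ] at this
    · intro h i
      rw [Function.comp_apply, D.typ_τ]
      exact h i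
  by_cases h : ∀ i, D.typ (w i) = α i
  · rw [if_pos h, if_pos (h1.2 h)]
  · rw [if_neg h, if_neg (fun h2 => h (h1.1 h2)), map_zero, mul_zero]

theorem one_jT : jT D (fun _ => 1 : Ten I 0) = fun _ => 1 := by
  funext w
  rw [jT, map_one, mul_one, sg]
  simp

/-- **The real structure**: `g` fixes the members of the system fixed by `J₀`, and `g J₀ g⁻¹`
fixes the members with letters in the words in which `ψ` is positive. -/
theorem talAbs (yb : YbStatement) (a1 : Alg1) (a2 : Alg2) {At : (L : ℕ) → Ten I L → Prop}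
    (S : ASys D At) (hlet : ∀ (L : ℕ) (α : Fin L → Λ) u, At L u → At L (prW D α u))
    (Lo : ∀ L : ℕ, (Fin L → Λ) → Prop)
    (hpos : ∀ (L : ℕ) (α : Fin L → Λ), Lo L α → ∀ u, At L u → OnW D α u → u ≠ 0 →
      ∃ q : ℚ, 0 < q ∧ psiT D u u = (q : ℂ)) :
    ∃ g : Matrix I I ℂ, IsG D g ∧ (∀ (L : ℕ) u, At L u → jT D u = u → gT g u = u) ∧
      ∀ (L : ℕ) (α : Fin L → Λ) u, Lo L α → At L u → OnW D α u →
        gT g (jT D (gT g⁻¹ u)) = u := by
  classical
  -- length `0`
  have hpos0 : ∀ u : Ten I 0, At 0 u → u ≠ 0 → ∃ q : ℚ, 0 < q ∧ psiT D u u = (q : ℂ) := by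
    intro u hu h0
    obtain ⟨q, hq⟩ := S.rat u hu
    have hq0 : q ≠ 0 := by
      rintro rfl
      exact h0 (funext fun w => by rw [hq w]; simp)
    refine ⟨q * q, mul_self_pos.2 hq0, ?_⟩
    rw [psiT, Fintype.sum_unique, hq, hq, sg]
    simp
  -- the base tuple
  obtain ⟨β₀, _, lb₀, b₀, hb₀, hb₀'⟩ := noeT (fun L => {u : Ten I L | At L u ∧ jT D u = u})
  let lb : Option β₀ → ℕ := fun i => i.elim 0 lb₀
  let b : Tup I lb := fun i => match i with
    | none => fun _ => 1
    | some i => b₀ i
  have hbAt : ∀ i, At (lb i) (b i) := by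
    intro i
    match i with
    | none => exact S.one
    | some i => exact (hb₀ i).1
  have hbase : IsBase D b := by
    refine ⟨?_, none, rfl, fun _ => rfl⟩
    funext i
    match i with
    | none => exact one_jT
    | some i => exact (hb₀ i).2
  -- the tuple of tensors in the positive words
  obtain ⟨ι₀, _, len₀, t₀, ht₀, ht₀'⟩ := noeT (fun L => {u : Ten I L | At L u ∧
    ∃ α : Fin L → Λ, Lo L α ∧ OnW D α u})
  choose ht₀At α₀ hα₀ hon₀ using ht₀
  let len : Option ι₀ → ℕ := fun i => i.elim 0 len₀
  let t : Tup I len := fun i => match i with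
    | none => fun _ => 1
    | some i => t₀ i
  let α : ∀ i : Option ι₀, Fin (len i) → Λ := fun i => match i with
    | none => Fin.elim0
    | some i => α₀ i
  have htAt : ∀ i, At (len i) (t i) := by
    intro i
    match i with
    | none => exact S.one
    | some i => exact ht₀At i
  have hon : ∀ i, OnW D (α i) (t i) := by
    intro i
    match i with
    | none => exact fun w hw => absurd (fun i => i.elim0) hw
    | some i => exact hon₀ i
  have hcAt : ∀ i, At ((Sum.elim lb len) i) (cmb b t i) := by
    intro i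
    match i with
    | .inl i => exact hbAt i
    | .inr i => exact htAt i
  -- positivity
  have hPos0 : PosAt D (cmb b t) 0 := posAt S a1 hpos0 hcAt
  have hPi : ∀ i, PosPib D (cmb b t) (prW D (α i)) := by
    intro i u hu hne
    match i with
    | none =>
      have h1 : prW D (α none) u = u := prW_id fun w hw => absurd (fun i => i.elim0) hw
      rw [h1] at hne ⊢
      exact hPos0 u hu hne
    | some i =>
      have hQ : QSp D (fun u : Ten I (len₀ i) => At (len₀ i) u ∧ OnW D (α₀ i) u) :=
        { zero := ⟨S.zero _, fun _ _ => rfl⟩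
          add := fun u v hu hv => ⟨S.add _ _ _ hu.1 hv.1, fun w hw => by
            rw [Pi.add_apply, hu.2 w hw, hv.2 w hw, add_zero]⟩
          qsmul := fun q u hu => ⟨S.qsmul _ q u hu.1, fun w hw => by
            rw [Pi.smul_apply, hu.2 w hw, smul_zero]⟩
          rat := fun u v hu hv => psi_rat S hu.1 hv.1
          even := fun u hu => S.even _ u hu.1 }
      refine pos_span hQ a1 (fun u hu h0 => hpos _ _ (hα₀ i) u hu.1 hu.2 h0) ?_ hne
      have h1 : ∀ u ∈ RT D (cmb b t) (len₀ i), prW D (α₀ i) u ∈
          Submodule.span ℝ {u : Ten I (len₀ i) | At (len₀ i) u ∧ OnW D (α₀ i) u} := by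
        intro u hu
        unfold RT at hu
        induction hu using Submodule.span_induction with
        | mem u hu =>
          obtain ⟨l, m, hm, rfl⟩ := hu
          exact Submodule.subset_span ⟨hlet _ _ _ (dm_mem S hcAt _ l hm), prW_on _ _⟩
        | zero => rw [map_zero]; exact zero_mem _
        | add a c _ _ ha hc => rw [map_add]; exact add_mem ha hc
        | smul r a _ ha =>
          have h2 : r • a = (r : ℂ) • a := by
            funext w
            simp
          rw [h2, map_smul]
          have h3 : (r : ℂ) • prW D (α₀ i) a = r • prW D (α₀ i) a := by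
            funext w
            simp
          rw [h3]
          exact Submodule.smul_mem _ _ ha
      exact h1 u hu
  obtain ⟨g, hg, hgt, hfix⟩ := yb D b hbase (fun i => prW D (α i))
    (fun i g u hg => prW_gT _ hg u) (fun i u => prW_jT _ u) t (fun i => prW_id (hon i)) hPi hPos0
    ⟨none, rfl, fun _ => rfl⟩ (by
      funext i
      exact S.even _ _ (htAt i))
  refine ⟨g, hg.1, fun L u hu hj => ?_, fun L α u hα hu hon => ?_⟩
  · exact hb₀' g (fun i => congrFun hg.2 (some i)) L u ⟨hu, hj⟩
  · -- the members in the positive words are values of diagrams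
    have hu2 : u ∈ MT D (cmb b t) L := by
      refine hfix L u fun x hx hxt => ?_
      exact ht₀' x (fun i => congrFun hxt (some i)) L u ⟨hu, α, hα, hon⟩
    refine QpsI.fixed_of_span S a1 hg.1 ?_ ?_ hu hu2
    · rintro v ⟨l, m, hm, rfl⟩
      exact dm_mem S hcAt L l hm
    · rintro v ⟨l, m, hm, rfl⟩
      refine QpsI.dm_jG a2 hg.1 (a1.G_inv D g hg.1).1 ?_ L l hm
      intro i
      match i with
      | .inl i =>
        have h1 : gT g (b i) = b i := congrFun hg.2 i
        have h2 : gT g⁻¹ (b i) = b i := by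
          conv_lhs => rw [← h1]
          rw [← a1.gT_mul, (a1.G_inv D g hg.1).2.2, a1.gT_one]
        have h3 : jT D (b i) = b i := congrFun hbase.1 i
        change gT g (jT D (gT g⁻¹ (b i))) = b i
        rw [h2, h3, h1]
      | .inr i => exact hgt i

end TalB

end Pool.Agent.Lib.MP_361a6f_ag.FL
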