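import Pool.Agent.Lib.MP_361a6f_ag.FL.A.Prj
import Pool.Agent.Lib.MP_361a6f_ag.FL.A.Let
import Pool.Agent.Lib.MP_361a6f_ag.FL.GT
import Pool.Agent.Lib.MP_361a6f_ag.FL.B.GeoDefs
import Pool.Agent.Lib.MP_361a6f_ag.FL.B.TalB

/-!
# Theorem L, row TAL: an element of the group that fixes the algebraic tensors fixed by `J₀`, such
that `g J₀ g⁻¹` fixes the algebraic tensors on letters of small codimension
-/

open CategoryTheory AlgebraicGeometry MonoidalCategory CartesianMonoidalCategory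

universe u v w

namespace Pool.Agent.Lib.MP_361a6f_ag.FL

open Pool.Agent.Lib.MP_361a6f_ag.H3 Pool.Agent.Lib.MP_361a6f_ag.SQ
  Pool.Agent.Lib.MP_361a6f_ag.PP

/-- Row TAL. -/
theorem tal (yb : YbStatement) (a1 : Alg1) (a2 : Alg2) (hAt : AtStatement.{u, w}) :
    TalStatement.{u, w} := by
  intro k _ W 𝒱 m H r hP
  have hA := hAt H
  have hon : ∀ {L : ℕ} {α : Fin L → Fin m × ℕ} {u : Ten H.I L}, OnW H.D α u ↔
      ∀ w, u w ≠ 0 → ∀ i, H.D.typ (w i) = α i := by
    intro L α u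
    constructor
    · intro h w hw
      by_contra hn
      exact hw (h w hn)
    · intro h w hn
      by_contra hw
      exact hn (h w hw)
  obtain ⟨g, hg, hb, h⟩ := TalB.talAbs yb a1 a2 (aSys_at hA)
    (fun L α u hu => by
      have h1 := LET.at_letters H α hu
      have h2 : prW H.D α u = fun w => if ∀ i, H.D.typ (w i) = α i then u w else 0 := rfl
      rw [h2]
      exact h1)
    (fun L α => ∃ (P : Prd m) (h : P.size = L), (∀ i, P.lw i = (α (Fin.cast h i)).1) ∧
      ∑ i, (α i).2 ≤ 2 * r P)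
    (fun L α hα u hu ho h0 => hP L α u ⟨hu, hon.1 ho, hα⟩ h0)
  exact ⟨g, hg, hb, fun L α u hu => h L α u hu.cod hu.mem (hon.2 hu.on)⟩

end Pool.Agent.Lib.MP_361a6f_ag.FL
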