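import Pool.Agent.Lib.MP_361a6f_ag.FL.L12
import Pool.Agent.Lib.MP_361a6f_ag.RR.Vol
import Pool.Agent.Lib.MP_361a6f_ag.FL.B.Defs

/-!
# Row VOB: the volume of the set of the `k` with `|k s - s| < r`, for the stabiliser of `b`
-/

open Filter Topology MeasureTheory

set_option autoImplicit false
set_option linter.unusedSectionVars false

namespace Pool.Agent.Lib.MP_361a6f_ag.FL

namespace Vob

open L12

variable {I Λ β ι : Type} [Fintype I] [DecidableEq I] [DecidableEq Λ] [Fintype β] [Fintype ι]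
  {lb : β → ℕ} {len : ι → ℕ} {D : Dat I Λ} {b : Tup I lb}

theorem dlb_eq (H : HMb D b) (s : Tup I len) (k : H.K) :
    dlb H s k = ‖emb (gS (H.mat k) s) - emb s‖ := by
  rw [dlb, hS_self, Complex.ofReal_re, emb_sub, Real.sqrt_sq (norm_nonneg _)]

theorem hS_gSb (H : HMb D b) (a1 : Alg1) (k : H.K) (s s' : Tup I len) :
    hS (gS (H.mat k) s) (gS (H.mat k) s') = hS s s' := by
  unfold hS gS
  refine Finset.sum_congr rfl fun i _ => ?_
  rw [a1.hT_gT, ← a1.gT_mul, (H.mem k).1.2, a1.gT_one]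

theorem norm_gSb (H : HMb D b) (a1 : Alg1) (k : H.K) (s : Tup I len) :
    ‖emb (gS (H.mat k) s)‖ = ‖emb s‖ := by
  have h := hS_gSb H a1 k s s
  rw [hS_self, hS_self] at h
  have h2 : ‖emb (gS (H.mat k) s)‖ ^ 2 = ‖emb s‖ ^ 2 := by exact_mod_cast h
  exact (pow_left_inj₀ (norm_nonneg _) (norm_nonneg _) two_ne_zero).mp h2

end Vob

open L12 Vob in
/-- Row VOB. -/
theorem volb (a1 : Alg1) : VolbStatement := by
  intro I Λ β ι _ _ _ _ _ lb len D b H s
  obtain ⟨c, hc, h⟩ := Pool.Agent.RR.vol_ball (K := H.K) H.μ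
    (fun k : H.K => emb (gS (H.mat k) s)) (R := ‖emb s‖)
    (fun k => (norm_gSb H a1 k s).le) (by
      intro g k k'
      rw [map_mul, map_mul, gS_mul a1, gS_mul a1, ← emb_sub, ← gS_sub a1, norm_gSb H a1, emb_sub])
  refine ⟨c, _, hc, fun r hr hr1 => (h r hr hr1).trans (le_of_eq ?_)⟩
  rw [Measure.real]
  congr 2
  ext k
  simp only [Set.mem_ofPred_eq]
  rw [dlb_eq, map_one, gS_one a1]

end Pool.Agent.Lib.MP_361a6f_ag.FL
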