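import Pool.Agent.Lib.MP_361a6f_ag.FL.B.Defs
import Pool.Agent.Lib.MP_361a6f_ag.FL.XY

/-!
# Theorem YB: the relative form of Theorem Y with projectors
-/

open Filter Topology MeasureTheory

set_option autoImplicit false
set_option linter.unusedSectionVars false

namespace Pool.Agent.Lib.MP_361a6f_ag.FL

namespace Yb

variable {I Λ β ι : Type} [Fintype I] [DecidableEq I] [DecidableEq Λ] [Fintype β] [Fintype ι]
  {lb : β → ℕ} {len : ι → ℕ} {D : Dat I Λ} {b : Tup I lb}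

theorem gS_cmb (g : Matrix I I ℂ) (b : Tup I lb) (s : Tup I len) :
    gS g (cmb b s) = cmb (gS g b) (gS g s) := by
  funext i
  rcases i with i | i <;> rfl

theorem jS_cmb (b : Tup I lb) (s : Tup I len) : jS D (cmb b s) = cmb (jS D b) (jS D s) := by
  funext i
  rcases i with i | i <;> rfl

/-- an element of the stabiliser of `b` acts on the combined tuple -/
theorem gS_cmb_of {g : Matrix I I ℂ} (hg : IsGb D b g) {s t : Tup I len} (h : gS g s = t) :
    gS g (cmb b s) = cmb b t := by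
  rw [gS_cmb, hg.2, h]

theorem gb_mul (a1 : Alg1) {g h : Matrix I I ℂ} (hg : IsGb D b g) (hh : IsGb D b h) :
    IsGb D b (g * h) := by
  refine ⟨a1.G_mul D _ _ hg.1 hh.1, ?_⟩
  have h1 : gS (g * h) b = gS g (gS h b) := by
    funext i
    exact a1.gT_mul g h (b i)
  rw [h1, hh.2, hg.2]

theorem gb_inv (a1 : Alg1) {g : Matrix I I ℂ} (hg : IsGb D b g) : IsGb D b g⁻¹ :=
  ⟨(a1.G_inv D g hg.1).1, XY.inv_gS a1 hg.1 hg.2⟩

theorem gT_zero (a1 : Alg1) (g : Matrix I I ℂ) {c : ℕ} : gT g (0 : Ten I c) = 0 := by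
  have h := a1.gT_smul g 0 (0 : Ten I c)
  rwa [zero_smul, zero_smul] at h

/-- positivity is transported -/
theorem posPi_gS (a1 : Alg1) (a2 : Alg2) {g : Matrix I I ℂ} (hg : IsG D g) {s t : Tup I len}
    (h : gS g s = t) {c : ℕ} {π : Ten I c →ₗ[ℂ] Ten I c}
    (hπ : ∀ g u, IsG D g → π (gT g u) = gT g (π u)) (hp : PosPib D t π) : PosPib D s π := by
  intro u hu hne
  have h1 : gT g u ∈ RT D t c := XY.gT_RT a1 a2 hg h hu
  have h2 : π (gT g u) ≠ 0 := by
    intro h3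
    apply hne
    rw [hπ _ _ hg] at h3
    rw [← XY.inv_gT a1 hg (π u), h3, gT_zero a1]
  obtain ⟨r, hr, hr'⟩ := hp _ h1 h2
  exact ⟨r, hr, by rw [← hr', hπ _ _ hg, a1.psiT_gT D g _ _ hg]⟩

/-- positivity implies nondegeneracy -/
theorem ndPi_of_posPi (a1 : Alg1) (a2 : Alg2) {t : Tup I len} (ht : jS D (jS D t) = t) {c : ℕ}
    {π : Ten I c →ₗ[ℂ] Ten I c} (hπj : ∀ u, π (jT D u) = jT D (π u)) (hp : PosPib D t π) :
    NdPib D t π := by
  intro u hu hne
  obtain ⟨a, ha, b, hb, rfl⟩ := XY.MT_split hu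
  refine ⟨a + (-Complex.I) • b, add_mem (XY.RT_le_MT ha) (Submodule.smul_mem _ _
    (XY.RT_le_MT hb)), ?_⟩
  have hj : ∀ x ∈ RT D t c, jT D (jT D (π x)) = π x := by
    intro x hx
    rw [← hπj, ← hπj, XY.jj_MT a1 a2 ht (XY.RT_le_MT hx)]
  rw [map_add, map_add, map_smul, map_smul, XY.psiT_expand, XY.psiT_symm a1 (hj b hb) (hj a ha)]
  have h0 : psiT D (0 : Ten I c) 0 = 0 := by simp [psiT]
  have hq : ∀ x ∈ RT D t c, ∃ r : ℝ, 0 ≤ r ∧ psiT D (π x) (π x) = (r : ℂ) ∧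
      (π x ≠ 0 → 0 < r) := by
    intro x hx
    by_cases h : π x = 0
    · exact ⟨0, le_rfl, by rw [h, h0]; simp, fun h' => absurd h h'⟩
    · obtain ⟨r, hr, hr'⟩ := hp x hx h
      exact ⟨r, hr.le, hr', fun _ => hr⟩
  obtain ⟨r, hr, hr', hr''⟩ := hq a ha
  obtain ⟨q, hq0, hq', hq''⟩ := hq b hb
  rw [hr', hq']
  have h1 : (r : ℂ) + -Complex.I * psiT D (π a) (π b) + Complex.I * psiT D (π a) (π b)
      + Complex.I * -Complex.I * (q : ℂ) = ((r + q : ℝ) : ℂ) := by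
    push_cast
    linear_combination (-(q : ℂ)) * Complex.I_mul_I
  rw [h1]
  have h2 : 0 < r + q := by
    by_cases h : π a = 0
    · have hb0 : π b ≠ 0 := by
        intro hb0
        exact hne (by rw [map_add, map_smul, h, hb0]; simp)
      have := hq'' hb0
      linarith
    · have := hr'' h
      linarith
  exact_mod_cast h2.ne'

/-- invariants of the stabiliser -/
theorem inv_stab (a1 : Alg1) {s t : Tup I len} {g : Matrix I I ℂ} (hg : IsGb D b g)
    (h : gS g s = t) {c : ℕ} {v : Ten I c} (hv : ∀ x, IsGb D b x → gS x t = t → gT x v = v)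
    {x : Matrix I I ℂ} (hx : IsGb D b x) (hxs : gS x s = s) : gT x (gT g⁻¹ v) = gT g⁻¹ v := by
  have h1 : IsGb D b (g * x * g⁻¹) := gb_mul a1 (gb_mul a1 hg hx) (gb_inv a1 hg)
  have h2 : gS (g * x * g⁻¹) t = t := by
    have h3 := XY.inv_gS a1 hg.1 h
    funext i
    change gT (g * x * g⁻¹) (t i) = t i
    rw [a1.gT_mul, a1.gT_mul]
    have h4 : gT g⁻¹ (t i) = s i := congrFun h3 i
    have h5 : gT x (s i) = s i := congrFun hxs i
    have h6 : gT g (s i) = t i := congrFun h i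
    rw [h4, h5, h6]
  have h7 := hv _ h1 h2
  rw [a1.gT_mul, a1.gT_mul] at h7
  have h8 := congrArg (gT g⁻¹) h7
  rwa [XY.inv_gT a1 hg.1] at h8

end Yb

open XY Yb in
/-- Theorem YB: the relative form of Theorem Y with projectors. -/
theorem yb (a1 : Alg1) (a2 : Alg2) (cpt : CptbStatement) (mn : MinbStatement)
    (clo : ClobStatement) (l2 : L2bStatement) (real : RealbStatement) : YbStatement := by
  intro I Λ β ι _ _ _ _ _ lb len D b hb π hπ hπj t ht hpos hpos0 hunit hjj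
  obtain ⟨i₀, h0, h1⟩ := hunit
  obtain ⟨s, g₀, hg₀, hlim, hmin⟩ := mn D b t
  have hne := hS_ne a1 i₀ h0 h1 g₀ hlim
  obtain ⟨H⟩ := cpt D b
  have hjc : jS D (jS D (cmb b t)) = cmb b t := by
    rw [Yb.jS_cmb, Yb.jS_cmb, hb.1, hb.1, hjj]
  obtain ⟨g, hg, hgs⟩ := clo hb H π hπ t s ht
    (fun i => ndPi_of_posPi a1 a2 hjc (hπj i) (hpos i)) hne hmin g₀ hg₀ hlim
  have hinv : IsGb D b g⁻¹ := gb_inv a1 hg
  have hs := XY.inv_gS a1 hg.1 hgs
  have hjs : jS D (jS D s) = s := by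
    rw [← hs]
    funext i
    change jT D (jT D (gT g⁻¹ (t i))) = gT g⁻¹ (t i)
    rw [jT_jT_gT D _ hinv.1]
    have : jT D (jT D (t i)) = t i := congrFun hjj i
    rw [this]
  have hπs : ∀ i, π i (s i) = s i := by
    intro i
    rw [← hs]
    show π i (gT g⁻¹ (t i)) = gT g⁻¹ (t i)
    rw [hπ i _ _ hinv.1, ht]
  have hcmb : gS g (cmb b s) = cmb b t := gS_cmb_of hg hgs
  have hreal : jS D s = s := real hb H s hmin hne π hπj hπs
    (fun i => posPi_gS a1 a2 hg.1 hcmb (hπ i) (hpos i)) (posAt_gS a1 a2 hg.1 hcmb hpos0) hjs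
  refine ⟨g, hg, fun i => ?_, fun c v hv => ?_⟩
  · have h1 : gT g⁻¹ (t i) = s i := congrFun hs i
    have h2 : jT D (s i) = s i := congrFun hreal i
    rw [h1, h2]
    exact congrFun hgs i
  · have h1 := l2 hb H s hmin hne c (gT g⁻¹ v)
      (fun k hk => Yb.inv_stab a1 hg hgs hv ⟨(H.mem k).1.1, (H.mem k).2⟩ hk)
    have h2 := gT_MT a1 a2 hg.1 hcmb h1
    rwa [XY.gT_inv a1 hg.1] at h2

end Pool.Agent.Lib.MP_361a6f_ag.FL
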