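import Pool.Agent.Lib.MP_361a6f_ag.FL.Main
import Pool.Agent.Lib.MP_361a6f_ag.FL.B.Alb
import Pool.Agent.Lib.MP_361a6f_ag.FL.B.CpbH
import Pool.Agent.Lib.MP_361a6f_ag.FL.B.Ffb
import Pool.Agent.Lib.MP_361a6f_ag.FL.B.Avb
import Pool.Agent.Lib.MP_361a6f_ag.FL.B.Vob
import Pool.Agent.Lib.MP_361a6f_ag.FL.B.Phb
import Pool.Agent.Lib.MP_361a6f_ag.FL.B.L12b
import Pool.Agent.Lib.MP_361a6f_ag.FL.B.Mib
import Pool.Agent.Lib.MP_361a6f_ag.FL.B.Clb
import Pool.Agent.Lib.MP_361a6f_ag.FL.B.Reb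
import Pool.Agent.Lib.MP_361a6f_ag.FL.B.Yb
import Pool.Agent.Lib.MP_361a6f_ag.FL.B.Tal
import Pool.Agent.Lib.MP_361a6f_ag.FL.B.Hri
import Pool.Agent.Lib.MP_361a6f_ag.FL.B.Lpos
import Pool.Agent.Lib.MP_361a6f_ag.FL.B.Genl
import Pool.Agent.Lib.MP_361a6f_ag.FL.B.Gql
import Pool.Agent.Lib.MP_361a6f_ag.FL.B.Tab
import Pool.Agent.Lib.MP_361a6f_ag.FL.B.Gbj
import Pool.Agent.Lib.MP_361a6f_ag.FL.B.Jh
import Pool.Agent.Lib.MP_361a6f_ag.FL.B.Jl85
import Pool.Agent.Lib.MP_361a6f_ag.FL.B.Fin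
import Pool.Agent.Lib.MP_361a6f_ag.PP.LAM

/-!
# Theorem L: assembly
-/

universe u w

namespace Pool.Agent.Lib.MP_361a6f_ag.FL

open Pool.Agent.Lib.MP_361a6f_ag.H3 Pool.Agent.Lib.MP_361a6f_ag.SQ
  Pool.Agent.Lib.MP_361a6f_ag.PP

/-- the tensors fixed by the compact group -/
theorem mainFfb : FfbStatement :=
  ffb alg1 cpt (l2 alg1 (vol alg1) (pha alg1 tan) (avg fft alg1 alg2))

/-- the relative form of Theorem Y -/
theorem mainYb : YbStatement :=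
  have hvol : VolbStatement := volb alg1
  have hpha : PhabStatement := phab alg1 (tanb alg1)
  have havg : AvgbStatement := avgb mainFfb alg1 alg2
  have hl1 : L1bStatement := l1b alg1 hvol hpha havg
  have hl2 : L2bStatement := l2b alg1 hvol hpha havg
  yb alg1 alg2 cptbH (minb alg1) (clob alg1 alg2 hvol hpha havg) hl2
    (realb alg1 alg2 (algB alg1 alg2) hl1 hl2)

/-- Theorem L -/
theorem mainL : ThmLStatement.{u, w} :=
  thmL lam hri gbj jh (lpos (gr ge) ge sl2 staB) (tal mainYb alg1 alg2 at_)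
    (jl85 staB mainRsp alg1 alg2 ge) genl (gql mainRsp (rsc staB) (rsq sl2 staB) spn)

end Pool.Agent.Lib.MP_361a6f_ag.FL
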