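import Pool.Agent.Lib.MP_361a6f_ag.FL.B.Stat
import Pool.Agent.Lib.MP_361a6f_ag.SQ.LefDec
import Pool.Agent.Lib.MP_361a6f_ag.PP.Abs

/-!
# Change of the polarisation in dimension four
-/

open CategoryTheory AlgebraicGeometry MonoidalCategory CartesianMonoidalCategory

universe u v w

namespace Pool.Agent.Lib.MP_361a6f_ag.FL

open Pool.Agent.Lib.MP_361a6f_ag.H3 Pool.Agent.Lib.MP_361a6f_ag.SQ
  Pool.Agent.Lib.MP_361a6f_ag.PP

/-- The inertia argument. -/
theorem inertia4 {V N : Type*} [AddCommGroup V] [Module ℚ V] [AddCommGroup N] [Module ℚ N]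
    [FiniteDimensional ℚ N] (b : V →ₗ[ℚ] V →ₗ[ℚ] ℚ) (hs : ∀ x y, b x y = b y x)
    (L L' : N →ₗ[ℚ] V) (l l' : N →ₗ[ℚ] ℚ) (e : N) (he : 0 < b (L e) (L e))
    (hl : ∀ y, l y = b (L e) (L y))
    (hL : ∀ y, l y = 0 → y ≠ 0 → b (L y) (L y) < 0)
    (hL' : ∀ y, l' y = 0 → y ≠ 0 → b (L' y) (L' y) < 0)
    (hdec : ∀ x, ∃ y, (∀ z, b (x - L y) (L z) = 0) ∧
      (x - L y ≠ 0 → 0 < b (x - L y) (x - L y)))
    {x : V} (hx : ∀ y, b x (L' y) = 0) (hx0 : x ≠ 0) : 0 < b x x := by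
  by_contra hneg
  rw [not_lt] at hneg
  -- the map `(c, y) ↦ (z ↦ b (c x + L' y) (L z))`
  let T : (ℚ × LinearMap.ker l') →ₗ[ℚ] V :=
    LinearMap.coprod (LinearMap.toSpanSingleton ℚ V x) (L' ∘ₗ (LinearMap.ker l').subtype)
  have hT : ∀ c y, T (c, y) = c • x + L' y.1 := fun c y => by simp [T]
  let Φ : (ℚ × LinearMap.ker l') →ₗ[ℚ] Module.Dual ℚ (LinearMap.ker l) :=
    { toFun := fun u => (b (T u)) ∘ₗ L ∘ₗ (LinearMap.ker l).subtype
      map_add' := fun u u' => by ext z; simp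
      map_smul' := fun c u => by ext z; simp }
  have hr1 : Module.finrank ℚ (LinearMap.range l) = 1 := by
    have hsur : LinearMap.range l = ⊤ := by
      rw [LinearMap.range_eq_top]
      refine LinearMap.surjective ?_
      intro h
      have := hl e
      rw [h, LinearMap.zero_apply] at this
      exact he.ne this
    rw [hsur, finrank_top]; exact Module.finrank_self ℚ
  have hr2 : Module.finrank ℚ (LinearMap.range l') ≤ 1 := by
    have := Submodule.finrank_le (LinearMap.range l')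
    rwa [Module.finrank_self] at this
  have e1 := LinearMap.finrank_range_add_finrank_ker l
  have e2 := LinearMap.finrank_range_add_finrank_ker l'
  have hlt : Module.finrank ℚ (Module.Dual ℚ (LinearMap.ker l))
      < Module.finrank ℚ (ℚ × LinearMap.ker l') := by
    rw [Subspace.dual_finrank_eq, Module.finrank_prod, Module.finrank_self]
    omega
  obtain ⟨⟨c, y⟩, hu, hu0⟩ := (Submodule.ne_bot_iff _).1
    (LinearMap.ker_ne_bot_of_finrank_lt (f := Φ) hlt)
  have hz : ∀ z, l z = 0 → b (c • x + L' y.1) (L z) = 0 := by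
    intro z hz
    have := LinearMap.congr_fun hu ⟨z, hz⟩
    rw [← hT]
    exact this
  have hy : l' y.1 = 0 := y.2
  set u : V := c • x + L' y.1 with hudef
  -- `b u u ≤ 0`
  have hbu : b u u = c ^ 2 * b x x + b (L' y.1) (L' y.1) := by
    rw [hudef]
    simp only [map_add, map_smul, LinearMap.add_apply, LinearMap.smul_apply, smul_eq_mul]
    rw [hs (L' y.1) x, hx]
    ring
  -- decomposition of `u`
  obtain ⟨w, hw1, hw2⟩ := hdec u
  have hle : l e ≠ 0 := by rw [hl e]; exact he.ne'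
  set t : ℚ := l w / l e with ht
  have hw0 : l (w - t • e) = 0 := by
    rw [map_sub, map_smul, smul_eq_mul, ht, div_mul_cancel₀ _ hle, sub_self]
  have h1 : b (L w) (L (w - t • e)) = 0 := by
    have h2 := hz _ hw0
    have h3 := hw1 (w - t • e)
    rw [map_sub, LinearMap.sub_apply, h2, zero_sub, neg_eq_zero] at h3
    exact h3
  have h2 : b (L (w - t • e)) (L (w - t • e)) = 0 := by
    have h4 : b (L e) (L (w - t • e)) = 0 := by rw [← hl, hw0]
    have h5 : ∀ v, b (L (w - t • e)) v = b (L w) v - t * b (L e) v := fun v => by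
      rw [map_sub, map_smul, map_sub, map_smul, LinearMap.sub_apply, LinearMap.smul_apply,
        smul_eq_mul]
    rw [h5, h1, h4, mul_zero, sub_zero]
  have h3 : w - t • e = 0 := by
    by_contra h
    exact (hL _ hw0 h).ne h2
  have hwt : w = t • e := sub_eq_zero.1 h3
  have hpos : b u u = b (u - L w) (u - L w) + t ^ 2 * b (L e) (L e) := by
    have h5 : b (u - L w) (L w) = 0 := hw1 w
    have h6 : b (L w) (L w) = t ^ 2 * b (L e) (L e) := by
      rw [hwt]
      simp only [map_smul, LinearMap.smul_apply, smul_eq_mul]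
      ring
    have h7 : b u u = b ((u - L w) + L w) ((u - L w) + L w) := by rw [sub_add_cancel]
    have h8 : ∀ p q : V, b (p + q) (p + q) = b p p + b p q + b q p + b q q := fun p q => by
      simp only [map_add, LinearMap.add_apply]; ring
    rw [h7, h8, h5, hs (L w) (u - L w), h5, h6]
    ring
  have hP : 0 ≤ b (u - L w) (u - L w) := by
    by_cases h : u - L w = 0
    · rw [h]; simp
    · exact (hw2 h).le
  have hge : 0 ≤ b u u := by
    rw [hpos]; have := mul_nonneg (sq_nonneg t) he.le; linarith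
  have hL'le : b (L' y.1) (L' y.1) ≤ 0 := by
    by_cases h : y.1 = 0
    · rw [h]; simp
    · exact (hL' _ hy h).le
  have hcx : c ^ 2 * b x x ≤ 0 := mul_nonpos_of_nonneg_of_nonpos (sq_nonneg c) hneg
  have hy0 : y.1 = 0 := by
    by_contra h
    have := hL' _ hy h
    linarith
  -- `u = 0`
  have hbu0 : b u u = 0 := by
    have : b u u ≤ 0 := by rw [hbu]; linarith
    exact le_antisymm this hge
  have hp0 : b (u - L w) (u - L w) = 0 := by
    have := mul_nonneg (sq_nonneg t) he.le; linarith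
  have hp1 : u - L w = 0 := by
    by_contra h
    exact (hw2 h).ne' hp0
  have ht0 : t = 0 := by
    have h8 : t ^ 2 * b (L e) (L e) = 0 := by linarith
    rcases mul_eq_zero.1 h8 with h | h
    · exact pow_eq_zero_iff (two_ne_zero) |>.1 h
    · exact absurd h he.ne'
  have hu00 : u = 0 := by
    rw [sub_eq_zero.1 hp1, hwt, ht0, zero_smul, map_zero]
  have hc : c = 0 := by
    rw [hudef, hy0, map_zero, add_zero] at hu00
    rcases smul_eq_zero.1 hu00 with h | h
    · exact h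
    · exact absurd h hx0
  apply hu0
  refine Prod.ext hc (Subtype.ext ?_)
  exact hy0

variable {k : Type u} [Field k] {K : Type v} [Field K] [CharZero K]
  {W : CohomologyData.{u, v, w} k K} {𝒱 : VarietyClass k}

/-- `H(X)` as a vector space over `ℚ` -/
@[reducible] noncomputable def qMod (W : CohomologyData.{u, v, w} k K) (X : Sch k) :
    Module ℚ (W.coh X) := Module.compHom (W.coh X) (algebraMap ℚ K)

section

attribute [local instance] qMod

theorem q_smul {X : Sch k} (q : ℚ) (x : W.coh X) : q • x = (q : K) • x := by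
  change (algebraMap ℚ K q) • x = (q : K) • x
  rw [eq_ratCast]

/-- the algebraic classes in a subspace, over `ℚ` -/
noncomputable def qAlg (W : CohomologyData.{u, v, w} k K) (X : Sch k) (j : ℕ)
    (R : Submodule K (W.coh X)) : Submodule ℚ (W.coh X) where
  carrier := {x | x ∈ W.alg X j ∧ x ∈ R}
  add_mem' := fun {x y} hx hy => ⟨add_mem hx.1 hy.1, add_mem hx.2 hy.2⟩
  zero_mem' := ⟨zero_mem _, zero_mem _⟩
  smul_mem' := fun q x hx => by
    rw [q_smul]
    exact ⟨CohomologyData.alg_smul q hx.1, Submodule.smul_mem _ _ hx.2⟩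

/-- a `ℚ`-linear map `K → ℚ` that is the identity on `ℚ` -/
theorem exists_piQ (K : Type v) [Field K] [CharZero K] :
    ∃ π : K →ₗ[ℚ] ℚ, ∀ q : ℚ, π (q : K) = q := by
  obtain ⟨π, hπ⟩ := LinearMap.exists_leftInverse_of_injective (Algebra.linearMap ℚ K)
    (LinearMap.ker_eq_bot.2 (algebraMap ℚ K).injective)
  refine ⟨π, fun q => ?_⟩
  have := LinearMap.congr_fun hπ q
  simpa using this

/-- the form `π(Tr(x y))` -/
noncomputable def qForm (W : CohomologyData.{u, v, w} k K) (X : Sch k) (π : K →ₗ[ℚ] ℚ) :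
    W.coh X →ₗ[ℚ] W.coh X →ₗ[ℚ] ℚ :=
  LinearMap.mk₂ ℚ (fun x y => π (W.tr X (x * y)))
    (fun x x' y => by rw [add_mul, map_add, map_add])
    (fun q x y => by
      rw [q_smul, smul_mul_assoc, map_smul, smul_eq_mul, ← Rat.smul_def, map_smul])
    (fun x y y' => by rw [mul_add, map_add, map_add])
    (fun q x y => by
      rw [q_smul, mul_smul_comm, map_smul, smul_eq_mul, ← Rat.smul_def, map_smul])

theorem qForm_apply (X : Sch k) (π : K →ₗ[ℚ] ℚ) (x y : W.coh X) :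
    qForm W X π x y = π (W.tr X (x * y)) := rfl

variable (hW : IsWeilCohomology W 𝒱) {X : Sch k} (hX : 𝒱.mem X 4)

include hW hX in
theorem pi_tr {π : K →ₗ[ℚ] ℚ} (hπ : ∀ q : ℚ, π (q : K) = q) {z : W.coh X}
    (hz : z ∈ W.alg X 4) : ((π (W.tr X z) : ℚ) : K) = W.tr X z := by
  obtain ⟨q, hq⟩ := hW.tr_alg hX hz
  rw [hq, hπ]

include hW hX in
theorem tr_zero_of_pi {π : K →ₗ[ℚ] ℚ} (hπ : ∀ q : ℚ, π (q : K) = q) {z : W.coh X}
    (hz : z ∈ W.alg X 4) (h : π (W.tr X z) = 0) : W.tr X z = 0 := by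
  rw [← pi_tr hW hX hπ hz, h, Rat.cast_zero]

omit [CharZero K] in
include hW hX in
theorem mul_alg2 {ξ y : W.coh X} (hξ : ξ ∈ W.alg X 1) (hy : y ∈ W.alg X 1) :
    ξ * y ∈ W.alg X 2 := by
  have h := hW.mul_alg hX hξ hy
  rwa [show (1 : ℕ) + 1 = 2 from rfl] at h

omit [CharZero K] in
include hW hX in
theorem mul_alg4 {a b : W.coh X} (ha : a ∈ W.alg X 2) (hb : b ∈ W.alg X 2) :
    a * b ∈ W.alg X 4 := by
  have h := hW.mul_alg hX ha hb
  rwa [show (2 : ℕ) + 2 = 4 from rfl] at h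

variable (hc : ∀ x, W.Deg X 0 x → ∃ c : K, x = W.scal c 1)

include hW hX hc in
theorem top_zero {z : W.coh X} (hz : z ∈ W.gr X 8) (h : W.tr X z = 0) : z = 0 := by
  refine eq_zero_of_tr hW hX (i := 0) (j := 8) (by norm_num) hz (fun x hx => ?_)
  obtain ⟨c, rfl⟩ := hc x hx
  rw [mul_smul_comm, mul_one, map_smul, h, smul_zero]

include hW hX hc in
/-- the Hodge index theorem -/
theorem neg_of_codim {π : K →ₗ[ℚ] ℚ} (hπ : ∀ q : ℚ, π (q : K) = q) {ξ : W.coh X}
    (hξ : ξ ∈ W.alg X 1) (h1 : HodgeCodim W X 4 ξ 1) {y : W.coh X} (hy : y ∈ W.alg X 1)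
    (hl : π (W.tr X (ξ * ξ * (ξ * y))) = 0) (h0 : y ≠ 0) :
    π (W.tr X (ξ * y * (ξ * y))) < 0 := by
  have e1 : ξ * ξ * (ξ * y) = ξ ^ 3 * y := by rw [← mul_assoc, pow_succ, pow_two]
  have hm : ξ * ξ * (ξ * y) ∈ W.alg X 4 :=
    mul_alg4 hW hX (mul_alg2 hW hX hξ hξ) (mul_alg2 hW hX hξ hy)
  have h3 : ξ ^ 3 * y = 0 := by
    rw [← e1]
    exact top_zero hW hX hc (hW.alg_gr hX hm) (tr_zero_of_pi hW hX hπ hm hl)
  obtain ⟨r, hr, hr'⟩ := h1 (by norm_num) y hy h3 h0
  have e2 : ξ * y * (ξ * y) = ξ ^ 2 * (y * y) := by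
    rw [mul_assoc ξ y (ξ * y), ← mul_assoc y ξ y, ← hW.alg_comm hX hξ y, mul_assoc ξ y y,
      ← mul_assoc ξ ξ, pow_two]
  have e3 : W.tr X (ξ * y * (ξ * y)) = ((-r : ℚ) : K) := by
    rw [e2]
    have : (-1 : K) ^ 1 * W.tr X (ξ ^ 2 * (y * y)) = (r : K) := hr'
    push_cast
    rw [← this]; ring
  rw [e3, hπ]
  linarith

include hW hX hc in
/-- `C^1(X)` is finite-dimensional -/
theorem finN {ξ : W.coh X} (hξ : ξ ∈ W.alg X 1) (h1 : HodgeCodim W X 4 ξ 1) :
    FiniteDimensional ℚ (qAlg W X 1 ⊤) := by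
  obtain ⟨π, hπ⟩ := exists_piQ K
  have := hW.finite hX
  obtain ⟨s, hs, hspan⟩ := Submodule.fg_span_iff_fg_span_finset_subset _ |>.1
    (IsNoetherian.noetherian (Submodule.span K {x | x ∈ W.alg X 1}))
  let Θ : qAlg W X 1 ⊤ →ₗ[ℚ] (s → ℚ) :=
    { toFun := fun y v => qForm W X π (ξ * y.1) (ξ * v.1)
      map_add' := fun y y' => by
        ext v
        change qForm W X π (ξ * (y.1 + y'.1)) (ξ * v.1) = _
        rw [mul_add, map_add]; rfl
      map_smul' := fun q y => by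
        ext v
        change qForm W X π (ξ * (q • y.1)) (ξ * v.1) = _
        rw [q_smul, mul_smul_comm, ← q_smul, map_smul]; rfl }
  have hΘ : Function.Injective Θ := by
    rw [injective_iff_map_eq_zero]
    intro y hy
    have hz : ∀ z ∈ Submodule.span K {x | x ∈ W.alg X 1}, W.tr X (ξ * y.1 * (ξ * z)) = 0 := by
      intro z hz
      rw [hspan] at hz
      refine Submodule.span_induction (p := fun z _ => W.tr X (ξ * y.1 * (ξ * z)) = 0) ?_ ?_ ?_ ?_ hz
      · intro v hv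
        have h2 : qForm W X π (ξ * y.1) (ξ * v) = 0 := congrFun hy ⟨v, hv⟩
        exact tr_zero_of_pi hW hX hπ (mul_alg4 hW hX (mul_alg2 hW hX hξ y.2.1)
          (mul_alg2 hW hX hξ (hs hv))) h2
      · rw [mul_zero, mul_zero, map_zero]
      · intro a b _ _ ha hb
        rw [mul_add, mul_add, map_add, ha, hb, add_zero]
      · intro c a _ ha
        rw [mul_smul_comm, mul_smul_comm, map_smul, ha, smul_zero]
    by_contra hne
    have hne' : y.1 ≠ 0 := fun h => hne (Subtype.ext h)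
    have h3 := hz ξ (Submodule.subset_span hξ)
    have h4 := hz y.1 (Submodule.subset_span y.2.1)
    have h5 : ξ * ξ * (ξ * y.1) = ξ * y.1 * (ξ * ξ) := by
      rw [hW.alg_comm hX (mul_alg2 hW hX hξ hξ) (ξ * y.1)]
    have h6 := neg_of_codim hW hX hc hπ hξ h1 y.2.1 (by rw [h5, h3, map_zero]) hne'
    rw [h4, map_zero] at h6
    exact lt_irrefl _ h6
  exact Module.Finite.of_injective Θ hΘ

include hW hX hc in
/-- **Change of the polarisation**: on an algebraic fourfold, Q1 for one polarisation implies Q1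
for all polarisations. -/
theorem pol4 {ξ : W.coh X} (hξ : PositiveDivisor W X 4 ξ) (h1 : HodgeCodim W X 4 ξ 1)
    (hdec : ∀ x ∈ W.alg X 2, ∃ y ∈ W.alg X 1, ξ * (x - ξ * y) = 0)
    (R : Submodule K (W.coh X)) (hR : ∀ y z, y ∈ W.alg X 1 → z ∈ W.alg X 1 → y * z ∈ R)
    (hQ : HodgeOn W X 4 ξ R) {η : W.coh X} (hη : PositiveDivisor W X 4 η)
    (h1' : HodgeCodim W X 4 η 1) : HodgeOn W X 4 η R := by
  obtain ⟨π, hπ⟩ := exists_piQ K
  intro j hj x hx hxR hprim hx0
  have hj3 : j = 0 ∨ j = 1 ∨ j = 2 := by omega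
  rcases hj3 with rfl | rfl | rfl
  · obtain ⟨c, rfl⟩ := hc x (hW.alg_gr hX hx)
    have hp : W.cup (ξ ^ (4 - 2 * 0 + 1)) (W.scal c 1) = 0 := by
      refine hW.top_gr hX (i := 10) ?_ (by norm_num)
      have := hW.mul_gr hX (hW.alg_gr hX (hW.pow_alg hX hξ.1 5)) (hW.alg_gr hX hx)
      exact this
    obtain ⟨r, hr, hr'⟩ := hQ 0 hj _ hx hxR hp hx0
    obtain ⟨a, ha, ha'⟩ := hξ.2
    obtain ⟨b, hb, hb'⟩ := hη.2
    have e : ∀ ζ : W.coh X, (-1 : K) ^ 0 * W.Tr (W.cup (ζ ^ (4 - 2 * 0))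
        (W.cup (W.scal c 1) (W.scal c 1))) = c * (c * W.Tr (ζ ^ 4)) := fun ζ => by
      rw [pow_zero, one_mul]
      change W.tr X (ζ ^ 4 * (c • 1 * c • 1)) = _
      rw [smul_mul_assoc, one_mul, mul_smul_comm, mul_smul_comm, mul_one, map_smul, map_smul,
        smul_eq_mul, smul_eq_mul]
    rw [e, ha'] at hr'
    refine ⟨r / a * b, by positivity, ?_⟩
    rw [e, hb']
    have ha0 : (a : K) ≠ 0 := by exact_mod_cast ha.ne'
    have : c * c = (r : K) / a := by
      rw [eq_div_iff ha0, ← hr']; ring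
    push_cast
    rw [← this]; ring
  · exact h1' hj x hx hprim hx0
  · have := finN hW hX hc hξ.1 h1
    let V := qAlg W X 2 R
    let N := qAlg W X 1 (⊤ : Submodule K (W.coh X))
    let mk : ∀ ζ : W.coh X, ζ ∈ W.alg X 1 → (N →ₗ[ℚ] V) := fun ζ hζ =>
      { toFun := fun y => ⟨ζ * y.1, mul_alg2 hW hX hζ y.2.1, hR _ _ hζ y.2.1⟩
        map_add' := fun y y' => Subtype.ext (mul_add _ _ _)
        map_smul' := fun q y => Subtype.ext (by
          change ζ * (q • y.1) = q • (ζ * y.1)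
          rw [q_smul, mul_smul_comm, q_smul]) }
    have hmk : ∀ ζ hζ y, (mk ζ hζ y).1 = ζ * y.1 := fun _ _ _ => rfl
    let b : V →ₗ[ℚ] V →ₗ[ℚ] ℚ := (qForm W X π).domRestrict₁₂ V V
    have hb : ∀ x y : V, b x y = π (W.tr X (x.1 * y.1)) := fun _ _ => rfl
    let lam : ∀ ζ : W.coh X, ζ ∈ W.alg X 1 → (N →ₗ[ℚ] ℚ) := fun ζ hζ =>
      (b (mk ζ hζ ⟨ζ, hζ, trivial⟩)) ∘ₗ (mk ζ hζ)
    have hlam : ∀ ζ hζ y, lam ζ hζ y = π (W.tr X (ζ * ζ * (ζ * y.1))) := fun _ _ _ => rfl
    have hneg : ∀ ζ (hζ : ζ ∈ W.alg X 1), HodgeCodim W X 4 ζ 1 → ∀ y, lam ζ hζ y = 0 → y ≠ 0 →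
        b (mk ζ hζ y) (mk ζ hζ y) < 0 := fun ζ hζ h y hy hy0 =>
      neg_of_codim hW hX hc hπ hζ h y.2.1 hy (fun h' => hy0 (Subtype.ext h'))
    have key : 0 < b ⟨x, hx, hxR⟩ ⟨x, hx, hxR⟩ := by
      refine inertia4 b ?_ (mk ξ hξ.1) (mk η hη.1) (lam ξ hξ.1) (lam η hη.1) ⟨ξ, hξ.1, trivial⟩
        ?_ (fun y => rfl) (hneg ξ hξ.1 h1) (hneg η hη.1 h1') ?_ ?_
        (fun h => hx0 (congrArg Subtype.val h))
      · intro x y
        rw [hb, hb, hW.alg_comm hX x.2.1]
      · obtain ⟨a, ha, ha'⟩ := hξ.2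
        change 0 < π (W.tr X (ξ * ξ * (ξ * ξ)))
        have e : ξ * ξ * (ξ * ξ) = ξ ^ 4 := by rw [← mul_assoc, pow_succ, pow_succ, pow_two]
        have ha'' : W.tr X (ξ ^ 4) = (a : K) := ha'
        rw [e, ha'', hπ]
        exact ha
      · intro z
        obtain ⟨y, hy, hyz⟩ := hdec z.1 z.2.1
        refine ⟨⟨y, hy, trivial⟩, fun w => ?_, fun hne => ?_⟩
        · change π (W.tr X ((z.1 - ξ * y) * (ξ * w.1))) = 0
          have hal : z.1 - ξ * y ∈ W.alg X 2 := sub_mem z.2.1 (mul_alg2 hW hX hξ.1 hy)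
          rw [← mul_assoc, ← hW.alg_comm hX hξ.1, hyz, zero_mul, map_zero, map_zero]
        · have hal : z.1 - ξ * y ∈ W.alg X 2 := sub_mem z.2.1 (mul_alg2 hW hX hξ.1 hy)
          obtain ⟨r, hr, hr'⟩ := hQ 2 (by norm_num) (z.1 - ξ * y) hal
            (sub_mem z.2.2 (hR _ _ hξ.1 hy)) (by
              change ξ ^ 1 * _ = 0
              rw [pow_one, hyz])
            (fun h => hne (Subtype.ext h))
          change 0 < π (W.tr X ((z.1 - ξ * y) * (z.1 - ξ * y)))
          have hr'' : W.tr X ((z.1 - ξ * y) * (z.1 - ξ * y)) = (r : K) := by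
            rw [← hr']
            change _ = (-1 : K) ^ 2 * W.tr X (ξ ^ 0 * ((z.1 - ξ * y) * (z.1 - ξ * y)))
            rw [pow_zero, one_mul, neg_one_sq, one_mul]
          rw [hr'', hπ]
          exact hr
      · intro y
        change π (W.tr X (x * (η * y.1))) = 0
        have hp : η * x = 0 := by
          have : η ^ 1 * x = 0 := hprim
          rwa [pow_one] at this
        rw [← mul_assoc, ← hW.alg_comm hX hη.1, hp, zero_mul, map_zero, map_zero]
    refine ⟨π (W.tr X (x * x)), key, ?_⟩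
    rw [pi_tr hW hX hπ (mul_alg4 hW hX hx hx)]
    change (-1 : K) ^ 2 * W.tr X (η ^ 0 * (x * x)) = _
    rw [pow_zero, one_mul, neg_one_sq, one_mul]

end

end Pool.Agent.Lib.MP_361a6f_ag.FL
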