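import Pool.Agent.Lib.MP_361a6f_ag.FL.GPos
import Pool.Agent.Lib.MP_361a6f_ag.FL.Ge
import Pool.Agent.Lib.MP_361a6f_ag.FL.Gr
import Pool.Agent.Lib.MP_361a6f_ag.FL.A.Let
import Pool.Agent.Lib.MP_361a6f_ag.FL.A.Qpi

/-!
# Theorem L, row LPOS (helper29): positivity of the algebraic tensors in a letter word

If `Q1` holds for `P` in the codimensions at most `i`, then `ψ` is positive on the coordinates of
the algebraic classes in `C^i(P)`.
-/

open CategoryTheory AlgebraicGeometry MonoidalCategory CartesianMonoidalCategory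

universe u v w

set_option autoImplicit false
set_option linter.unusedSectionVars false

namespace Pool.Agent.Lib.MP_361a6f_ag.FL

open Pool.Agent.Lib.MP_361a6f_ag.H3 Pool.Agent.Lib.MP_361a6f_ag.SQ
  Pool.Agent.Lib.MP_361a6f_ag.IP2 Pool.Agent.Lib.MP_361a6f_ag.PP

namespace PosL

open PSI

section codim

variable {k : Type u} [Field k] {W : CohomologyData.{u, 0, w} k ℂ} {𝒱 : VarietyClass k}
  (hW : IsWeilCohomology W 𝒱) {Z : Sch k} {e : ℕ} (hZ : 𝒱.mem Z e)
include hW hZ

variable {η : W.coh Z} (hη : η ∈ W.alg Z 1) {Lam : Module.End ℂ (W.coh Z)}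
  (D : LamData W Z e η Lam) (hS : Sl2Statement.{w}) (hT : StaStatement.{w})

include hη D hS hT

/-- positivity in the degrees at most `e` -/
theorem pos_low {j : ℕ} (hH : ∀ i ≤ j, HodgeCodim W Z e η i) (hj : 2 * j ≤ e) {z : W.coh Z} (hz : z ∈ W.alg Z j) (hz0 : z ≠ 0) :
    RatPos (psi W Z η Lam D.slm.internal z z) := by
  classical
  set L := Lop W Z η with hLdef
  obtain ⟨f, hfC, hfg, hf0, hfΛ, hsum⟩ := (hS D.slm).2.2.2.2.2.2 (tot W Z)
    (fun x hx => (AlgOp.mulLeft hW hZ (alg_le_tot hW Z 1 hη)).apply hW hZ hx)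
    (fun x hx => D.alg.apply hW hZ hx) (fun q x hx => tot_smul hW hZ q hx) (2 * j) z hj
    (hW.alg_gr hZ hz) (alg_le_tot hW Z j hz)
  -- the primitive components
  have hfg' : ∀ r, r ≤ j → f r ∈ W.gr Z (2 * (j - r)) := fun r hr => by
    have := hfg r (by omega)
    rwa [show 2 * j - 2 * r = 2 * (j - r) by omega] at this
  have hfa : ∀ r, r ≤ j → f r ∈ W.alg Z (j - r) := fun r hr =>
    tot_alg hW hZ (hfC r) (hfg' r hr)
  have hfz : ∀ r, j < r → f r = 0 := fun r hr => hf0 r (by omega)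
  have hprim : ∀ r, r ≤ j → η ^ (e - 2 * (j - r) + 1) * f r = 0 := fun r hr => by
    have := (hS D.slm).2.2.2.1 (2 * (j - r)) (f r) (by omega) (hfg' r hr) (hfΛ r)
    rwa [Lop_pow hW hZ] at this
  -- the star operator
  have hstar : ∀ s, ∃ q : ℚ, 0 < q ∧ (s ≤ j → star D.slm.internal L Lam ((L ^ s) (f s))
      = ((-1 : ℂ) ^ (j - s) * (q : ℂ)) • (η ^ (e - 2 * (j - s) - s) * f s)) := by
    intro s
    by_cases hs : s ≤ j
    · obtain ⟨q, hq, h1⟩ := star_string hS hT D.slm (i := j - s) (by omega) (hfg' s hs) (hfΛ s) s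
        (by omega)
      refine ⟨q, hq, fun _ => ?_⟩
      rw [h1, Lop_pow hW hZ]
    · exact ⟨1, one_pos, fun h => absurd h hs⟩
  choose q hq hstar using hstar
  have hpair : ∀ r s, psi W Z η Lam D.slm.internal ((L ^ r) (f r)) ((L ^ s) (f s)) =
      if r = s ∧ s ≤ j then (q s : ℂ) * ((-1 : ℂ) ^ (j - s) *
        W.tr Z (η ^ (e - 2 * (j - s)) * (f s * f s))) else 0 := by
    intro r s
    by_cases hr : r ≤ j
    swap
    · rw [hfz r (by omega), psi, map_zero, zero_mul, map_zero, if_neg (by omega)]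
    by_cases hs : s ≤ j
    swap
    · rw [hfz s (by omega), psi, map_zero, map_zero, mul_zero, map_zero, if_neg (by omega)]
    have h1 : psi W Z η Lam D.slm.internal ((L ^ r) (f r)) ((L ^ s) (f s)) =
        ((-1 : ℂ) ^ (j - s) * (q s : ℂ)) *
          W.tr Z (η ^ (r + (e - 2 * (j - s) - s)) * (f r * f s)) := by
      rw [psi, hstar s hs, mul_smul_comm, map_smul, smul_eq_mul, Lop_pow hW hZ]
      congr 2
      rw [pow_add, mul_assoc, mul_assoc, ← mul_assoc (f r),
        hW.alg_comm hZ (hfa r hr) (η ^ (e - 2 * (j - s) - s)), mul_assoc]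
    rw [h1]
    rcases lt_trichotomy r s with h | h | h
    · -- `f r` is killed
      rw [if_neg (by omega)]
      have h2 : η ^ (r + (e - 2 * (j - s) - s)) * (f r * f s) = 0 := by
        have h3 : r + (e - 2 * (j - s) - s) =
            (r + (e - 2 * (j - s) - s) - (e - 2 * (j - r) + 1)) + (e - 2 * (j - r) + 1) := by
          omega
        rw [h3, pow_add, mul_assoc, ← mul_assoc (η ^ (e - 2 * (j - r) + 1)), hprim r hr,
          zero_mul, mul_zero]
      rw [h2, map_zero, mul_zero]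
    · subst h
      rw [if_pos ⟨rfl, hs⟩, show r + (e - 2 * (j - r) - r) = e - 2 * (j - r) by omega]
      ring
    · rw [if_neg (by omega)]
      have h2 : η ^ (r + (e - 2 * (j - s) - s)) * (f r * f s) = 0 := by
        have h3 : r + (e - 2 * (j - s) - s) =
            (r + (e - 2 * (j - s) - s) - (e - 2 * (j - s) + 1)) + (e - 2 * (j - s) + 1) := by
          omega
        rw [hW.alg_comm hZ (hfa r hr) (f s), h3, pow_add, mul_assoc,
          ← mul_assoc (η ^ (e - 2 * (j - s) + 1)), hprim s hs, zero_mul, mul_zero]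
      rw [h2, map_zero, mul_zero]
  have hpsi : psi W Z η Lam D.slm.internal z z = ∑ r ∈ Finset.range (e + 1),
      if r ≤ j then (q r : ℂ) * ((-1 : ℂ) ^ (j - r) *
        W.tr Z (η ^ (e - 2 * (j - r)) * (f r * f r))) else 0 := by
    have h1 : psi W Z η Lam D.slm.internal z z = ∑ r ∈ Finset.range (e + 1),
        ∑ s ∈ Finset.range (e + 1),
          psi W Z η Lam D.slm.internal ((L ^ r) (f r)) ((L ^ s) (f s)) := by
      rw [hsum]
      simp only [psi, map_sum, Finset.sum_mul, Finset.mul_sum]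
      exact Finset.sum_comm
    rw [h1]
    refine Finset.sum_congr rfl fun r hr => ?_
    rw [Finset.sum_eq_single r]
    · rw [hpair]
      simp
    · intro s _ hsr
      rw [hpair, if_neg (fun h => hsr h.1.symm)]
    · intro h
      exact absurd hr h
  rw [hpsi]
  have hterm : ∀ r, r ≤ j → f r ≠ 0 → RatPos ((q r : ℂ) * ((-1 : ℂ) ^ (j - r) *
        W.tr Z (η ^ (e - 2 * (j - r)) * (f r * f r)))) := fun r hr hne =>
    ratPos_mul ⟨q r, hq r, rfl⟩ (hH (j - r) (by omega) (by omega) (f r) (hfa r hr) (hprim r hr) hne)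
  refine ratPos_sum' _ _ ?_ ?_
  · intro r _
    by_cases hr : r ≤ j
    · rw [if_pos hr]
      by_cases h0 : f r = 0
      · left; rw [h0]; simp
      · right; exact hterm r hr h0
    · left; rw [if_neg hr]
  · by_contra hcon
    push Not at hcon
    refine hz0 (hsum.trans (Finset.sum_eq_zero fun r hr => ?_))
    have h1 := hcon r hr
    by_cases hrj : r ≤ j
    · by_cases h0 : f r = 0
      · rw [h0, map_zero]
      · rw [if_pos hrj] at h1
        obtain ⟨t, ht, h2⟩ := hterm r hrj h0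
        rw [h2] at h1
        exact absurd (by exact_mod_cast h1 : t = 0) ht.ne'
    · rw [hfz r (by omega), map_zero]

/-- positivity in one degree -/
theorem pos_hom {j : ℕ} (hH : ∀ i ≤ j, HodgeCodim W Z e η i) {z : W.coh Z} (hz : z ∈ W.alg Z j) (hz0 : z ≠ 0) :
    RatPos (psi W Z η Lam D.slm.internal z z) := by
  by_cases hj : 2 * j ≤ e
  · exact pos_low hW hZ hη D hS hT hH hj hz hz0
  have hje : j ≤ e := by
    by_contra h
    exact hz0 (hW.top_gr hZ (hW.alg_gr hZ hz) (by omega))
  set y := star D.slm.internal (Lop W Z η) Lam z with hy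
  have hzz : star D.slm.internal (Lop W Z η) Lam y = z := (hT D.slm).2.1 z
  have hyg : y ∈ W.gr Z (2 * (e - j)) := by
    have := (hT D.slm).1 (2 * j) z (by omega) (hW.alg_gr hZ hz)
    rwa [show 2 * e - 2 * j = 2 * (e - j) by omega] at this
  have hya : y ∈ W.alg Z (e - j) :=
    tot_alg hW hZ (star_tot hW hZ hη D (alg_le_tot hW Z j hz) (hW.alg_gr hZ hz)) hyg
  have hy0 : y ≠ 0 := fun h => hz0 (by rw [← hzz, h, map_zero])
  have h1 := pos_low hW hZ hη D hS hT (j := e - j) (fun i hi => hH i (by omega)) (by omega) hya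
    hy0
  have h2 : psi W Z η Lam D.slm.internal z z = psi W Z η Lam D.slm.internal y y := by
    rw [psi, psi, hzz, ← hy, hW.alg_comm hZ hya]
  rw [h2]
  exact h1

end codim

section host

noncomputable section

variable {k : Type u} [Field k] {m : ℕ} {W : CohomologyData.{u, 0, w} k ℂ} {𝒱 : VarietyClass k}
  (H : Host W 𝒱 m)

open Classical in
/-- the part of an algebraic tensor that fits to the factors of `P` is the tensor of coordinates of
an algebraic class -/
theorem at_fit (gr : H.RelFacts) (ge : H.GeFacts) (P : Prd m) {u : Ten H.I P.size}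
    (hu : u ∈ H.At P.size) : ∃ z ∈ tot W (P.obj H.X),
      ∀ w, H.tc P z w = if H.Off P w then 0 else u w := by
  refine AddSubgroup.closure_induction (p := fun u _ => ∃ z ∈ tot W (P.obj H.X),
      ∀ w, H.tc P z w = if H.Off P w then 0 else u w) ?_ ?_ ?_ ?_ hu
  · rintro u (⟨h0, _⟩ | ⟨Q, h, y, hy, rfl⟩)
    · exact absurd h0 P.size_pos.ne'
    · by_cases hl : ∀ i, P.lw i = Q.lw (Fin.cast h.symm i)
      · obtain ⟨h', ht⟩ := gr.tc P Q (gr.coh P Q h.symm hl)
        obtain ⟨z', hz', hw⟩ := ht y hy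
        refine ⟨z', hz', fun w => ?_⟩
        by_cases ho : H.Off P w
        · rw [if_pos ho, ge.tc_off P z' w ho]
        · rw [if_neg ho]
          exact hw w
      · push Not at hl
        obtain ⟨i, hi⟩ := hl
        refine ⟨0, zero_mem _, fun w => ?_⟩
        rw [map_zero]
        by_cases ho : H.Off P w
        · rw [if_pos ho]
          rfl
        · rw [if_neg ho]
          have h1 : (H.D.typ (w i)).1 = P.lw i := by
            by_contra h2
            exact ho ⟨i, h2⟩
          have h2 : H.Off Q (w ∘ Fin.cast h) := by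
            refine ⟨Fin.cast h.symm i, ?_⟩
            change (H.D.typ (w i)).1 ≠ _
            rw [h1]
            exact hi
          exact (ge.tc_off Q y _ h2).symm
  · refine ⟨0, zero_mem _, fun w => ?_⟩
    rw [map_zero]
    split_ifs <;> rfl
  · rintro a b _ _ ⟨z, hz, h1⟩ ⟨z', hz', h2⟩
    refine ⟨z + z', add_mem hz hz', fun w => ?_⟩
    rw [map_add, Pi.add_apply, h1, h2]
    split_ifs
    · rw [add_zero]
    · rfl
  · rintro a _ ⟨z, hz, h1⟩
    refine ⟨-z, neg_mem hz, fun w => ?_⟩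
    rw [map_neg, Pi.neg_apply, h1]
    split_ifs
    · rw [neg_zero]
    · rfl

/-- an algebraic tensor in a letter word of degree `2 i` that fits to `P` is the tensor of
coordinates of a class in `C^i(P)` -/
theorem at_word (gr : H.RelFacts) (ge : H.GeFacts) (P : Prd m) (α : Fin P.size → Fin m × ℕ)
    (hα : ∀ j, (α j).1 = P.lw j) (i : ℕ) (hi : ∑ j, (α j).2 = 2 * i) {u : Ten H.I P.size}
    (hu : u ∈ H.At P.size) (hon : ∀ w, (¬ ∀ j, H.D.typ (w j) = α j) → u w = 0) :
    ∃ z ∈ W.alg (P.obj H.X) i, H.tc P z = u := by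
  classical
  obtain ⟨z, hz, h1⟩ := at_fit H gr ge P hu
  have h2 : H.tc P z = u := by
    funext w
    rw [h1]
    by_cases ho : H.Off P w
    · rw [if_pos ho]
      obtain ⟨j, hj⟩ := ho
      refine (hon w fun h => hj ?_).symm
      rw [h j, hα j]
    · rw [if_neg ho]
  refine ⟨z, tot_alg H.hW (H.memP P) hz ?_, h2⟩
  rw [ge.expand P z]
  refine Submodule.sum_mem _ fun w _ => ?_
  rw [h2]
  by_cases hw : ∀ j, H.D.typ (w j) = α j
  · have h3 := ge.E_gr P w
    have h4 : ∑ j, (H.D.typ (w j)).2 = 2 * i := by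
      rw [← hi]
      exact Finset.sum_congr rfl fun j _ => by rw [hw j]
    rw [h4] at h3
    exact Submodule.smul_mem _ _ h3
  · rw [hon w hw, zero_smul]
    exact zero_mem _

/-- ROW LPOS: positivity in a letter word. -/
theorem lpos (gr : H.RelFacts) (ge : H.GeFacts) (hS : Sl2Statement.{w}) (hT : StaStatement.{w})
    (P : Prd m) (α : Fin P.size → Fin m × ℕ)
    (hα : ∀ j, (α j).1 = P.lw j) (i : ℕ) (hi : ∑ j, (α j).2 = 2 * i)
    (hH : ∀ i' ≤ i, HodgeCodim W (P.obj H.X) (P.dim H.n) (P.pol W H.ξ) i') {u : Ten H.I P.size}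
    (hu : u ∈ H.At P.size) (hon : ∀ w, (¬ ∀ j, H.D.typ (w j) = α j) → u w = 0) (hu0 : u ≠ 0) :
    RatPos (psiT H.D u u) := by
  obtain ⟨z, hz, rfl⟩ := at_word H gr ge P α hα i hi hu hon
  rw [ge.psi_tc P z z]
  refine pos_hom H.hW (H.memP P) (H.lamP P).2 (H.lamP P).1 hS hT hH hz fun h0 => hu0 ?_
  rw [h0, map_zero]

end

end host

end PosL

end Pool.Agent.Lib.MP_361a6f_ag.FL
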