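import Pool.Agent.Lib.MP_361a6f_ag.FL.B.Defs
import Pool.Agent.Lib.MP_361a6f_ag.FL.A.YPi

/-!
# Row REB: the relative form of row REAL with projectors
-/

open Filter Topology MeasureTheory

set_option autoImplicit false
set_option linter.unusedSectionVars false

namespace Pool.Agent.Lib.MP_361a6f_ag.FL

namespace REB

variable {I Λ β ι κ : Type} [Fintype I] [DecidableEq I] [DecidableEq Λ] [Fintype β] [Fintype ι]
  [Fintype κ] {lb : β → ℕ} {len : ι → ℕ} {lk : κ → ℕ} {D : Dat I Λ} {b : Tup I lb}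

variable (a1 : Alg1) (a2 : Alg2) (ab : AlgB)

include a1 a2 in
/-- on the real span `J₀` is `g` -/
theorem RT_jT {t : Tup I lk} {g : Matrix I I ℂ} (hg : IsK D g) (hk : gS g t = jS D t) {c : ℕ}
    {u : Ten I c} (hu : u ∈ RT D t c) : jT D u = gT g u := by
  unfold RT at hu
  induction hu using Submodule.span_induction with
  | mem x hx =>
    obtain ⟨l, m, hm, rfl⟩ := hx
    rw [← a2.dm_jS D c l m t hm, ← hk, a2.dm_gS D c l m _ t hm hg.1]
  | zero =>
    have h1 := a1.jT_smul D 0 (0 : Ten I c)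
    have h2 := a1.gT_smul g 0 (0 : Ten I c)
    rw [zero_smul] at h1 h2
    rw [h1, h2, map_zero, zero_smul, zero_smul]
  | add x y _ _ hx hy => rw [a1.jT_add, a1.gT_add, hx, hy]
  | smul a x _ hx =>
    rw [YPi.real_smul, a1.jT_smul, a1.gT_smul, hx, Complex.conj_ofReal]

include a1 a2 in
/-- the real span consists of the `v` with `J₀ v = g v` -/
theorem RT_of {t : Tup I lk} {g : Matrix I I ℂ} (hg : IsK D g) (hk : gS g t = jS D t) {c : ℕ}
    {v : Ten I c} (hv : v ∈ MT D t c) (h : jT D v = gT g v) : v ∈ RT D t c := by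
  obtain ⟨u₁, h1, u₂, h2, rfl⟩ := YPi.MT_split hv
  rw [a1.jT_add, a1.jT_smul, a1.gT_add, a1.gT_smul, RT_jT a1 a2 hg hk h1,
    RT_jT a1 a2 hg hk h2, Complex.conj_I] at h
  have h3 : gT g u₂ = 0 := by
    have h4 := add_left_cancel h
    funext w
    have h5 := congrFun h4 w
    simp only [Pi.smul_apply, smul_eq_mul, neg_mul] at h5
    have h6 : Complex.I * gT g u₂ w = 0 := by
      linear_combination (-1 / 2 : ℂ) * h5
    exact (mul_eq_zero.1 h6).resolve_left Complex.I_ne_zero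
  have h4 : u₂ = 0 := by
    rw [← XY.inv_gT a1 hg.1 u₂, h3]
    exact YPi.gT_zero a1 _
  rw [h4, smul_zero, add_zero]
  exact h1

include ab in
theorem gS_cmb_of {g : Matrix I I ℂ} (hg : gS g b = b) {s s' : Tup I len} (h : gS g s = s') :
    gS g (cmb b s) = cmb b s' := by
  rw [ab.gS_cmb, hg, h]

include ab in
theorem jS_cmb_of (hb : IsBase D b) (s : Tup I len) : jS D (cmb b s) = cmb b (jS D s) := by
  rw [ab.jS_cmb, hb.1]

variable (H : HMb D b)

include a1 in
theorem inv_gS {k : H.K} {s s' : Tup I len} (h : gS (H.mat k) s = s') :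
    gS (H.mat k⁻¹) s' = s := by
  rw [← h, ← L12.gS_mul a1, ← map_mul, inv_mul_cancel, map_one]
  funext i
  exact a1.gT_one (s i)

include a1 a2 ab in
/-- `k` preserves the complex span -/
theorem MT_gT (l2 : L2bStatement) (hb : IsBase D b) {s : Tup I len} (hmin : Minimalb D b s)
    (hs : hS s s ≠ 0) {k : H.K} (hk : gS (H.mat k) s = jS D s) {c : ℕ} {v : Ten I c}
    (hv : v ∈ MT D (cmb b s) c) : gT (H.mat k) v ∈ MT D (cmb b s) c := by
  refine l2 hb H s hmin hs c _ fun x hx => ?_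
  have h1 : gS (H.mat (k⁻¹ * x * k)) s = s := by
    rw [map_mul, map_mul, L12.gS_mul a1, L12.gS_mul a1, hk]
    have h2 : gS (H.mat x) (jS D s) = jS D s := by
      funext i
      show gT (H.mat x) (jT D (s i)) = jT D (s i)
      rw [← a1.jT_gT D _ _ (H.mem x).1]
      exact congrArg (jT D) (congrFun hx i)
    rw [h2]
    exact inv_gS a1 H hk
  have h2 := YPi.MT_fix a1 a2 hv (H.mem (k⁻¹ * x * k)).1.1
    (gS_cmb_of ab (H.mem (k⁻¹ * x * k)).2 h1)
  calc gT (H.mat x) (gT (H.mat k) v) = gT (H.mat (k * (k⁻¹ * x * k))) v := by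
        rw [← a1.gT_mul, ← map_mul]
        congr 2
        group
    _ = gT (H.mat k) (gT (H.mat (k⁻¹ * x * k)) v) := by rw [map_mul, a1.gT_mul]
    _ = gT (H.mat k) v := by rw [h2]

end REB

open REB in
/-- Row REB: a minimal point at which the form is positive on the projected real diagrams is
fixed by `J₀`. -/
theorem realb (a1 : Alg1) (a2 : Alg2) (ab : AlgB) (l1 : L1bStatement) (l2 : L2bStatement) :
    RealbStatement := by
  intro I Λ β ι _ _ _ _ _ lb len D b hb H s hmin hs π hπj hπs hpos hpos0 hjj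
  -- the invariants are real
  obtain ⟨k, hk⟩ : ∃ k : H.K, gS (H.mat k) s = jS D s := by
    refine l1 hb H s (jS D s) hmin hs ?_ ?_
    · unfold hS
      exact Finset.sum_congr rfl fun i _ => a1.hT_jT_jT D (s i) (s i)
    · intro l m hm
      rw [← jS_cmb_of ab hb s, a2.dm_jS D 0 l m (cmb b s) hm]
      exact YPi.real_of_pos hpos0 (Submodule.subset_span ⟨l, m, hm, rfl⟩)
  have hK : IsK D (H.mat k) := (H.mem k).1
  have hk' : gS (H.mat k) (cmb b s) = jS D (cmb b s) := by
    rw [jS_cmb_of ab hb s]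
    exact gS_cmb_of ab (H.mem k).2 hk
  have hkk : gS (H.mat (k * k)) s = s := by
    rw [map_mul, L12.gS_mul a1, hk]
    conv_rhs => rw [← hjj]
    funext i
    show gT (H.mat k) (jT D (s i)) = jT D (jT D (s i))
    rw [← a1.jT_gT D _ _ hK]
    exact congrArg (jT D) (congrFun hk i)
  funext i
  have hki : gT (H.mat k) (s i) = jT D (s i) := congrFun hk i
  have h1 : s i ∈ MT D (cmb b s) (len i) := l2 hb H s hmin hs _ _ fun x hx => congrFun hx i
  have h2 : s i ∈ RT D (cmb b s) (len i) := RT_of a1 a2 hK hk' h1 hki.symm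
  have h3 : gT (H.mat k) (s i) ∈ RT D (cmb b s) (len i) := by
    refine RT_of a1 a2 hK hk' (MT_gT a1 a2 ab H l2 hb hmin hs hk h1) ?_
    rw [a1.jT_gT D _ _ hK, ← hki]
  have h4 : gT (H.mat k) (gT (H.mat k) (s i)) = s i := by
    rw [← a1.gT_mul, ← map_mul]
    exact congrFun hkk i
  by_contra hne
  obtain ⟨w, hw⟩ : ∃ w : Ten I (len i), w = gT (H.mat k) (s i) - s i := ⟨_, rfl⟩
  have hwR : w ∈ RT D (cmb b s) (len i) := by
    rw [hw]
    exact Submodule.sub_mem _ h3 h2
  have hπw : π i w = w := by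
    rw [hw, map_sub, hki, hπj, hπs]
  have hw0 : w ≠ 0 := by
    intro h0
    apply hne
    show jT D (s i) = s i
    rw [← hki]
    rw [hw] at h0
    exact sub_eq_zero.1 h0
  obtain ⟨r, hr, h5⟩ := hpos i w hwR (by rw [hπw]; exact hw0)
  rw [hπw] at h5
  have h6 : jT D w = -w := by
    rw [RT_jT a1 a2 hK hk' hwR, hw, L12.gT_sub a1, h4]
    abel
  have h7 := a1.psiT_jT D w w
  rw [h6, YPi.psiT_neg, h5, a1.hT_self] at h7
  have h9 : -r = ∑ x, ‖w x‖ ^ 2 := by exact_mod_cast h7
  have h10 : 0 ≤ ∑ x, ‖w x‖ ^ 2 := Finset.sum_nonneg fun x _ => by positivity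
  linarith

end Pool.Agent.Lib.MP_361a6f_ag.FL
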