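import Pool.Agent.Lib.MP_361a6f_ag.FL.B.Defs
import Pool.Agent.Lib.MP_361a6f_ag.FL.NoeT
import Pool.Agent.Lib.MP_361a6f_ag.FL.QpsI

/-!
# Theorem L, rows TUP and TAL (abstract part)

A rational system of tensors, closed under the diagram operations and the letter projections, on
which `ψ` is positive in some letter words. There is `g` in the group such that `g` fixes the
members of the system that are fixed by `J₀`, and `g J₀ g⁻¹` fixes the members of the system with
letters in these words.
-/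

open Filter Topology MeasureTheory

set_option autoImplicit false
set_option linter.unusedSectionVars false
set_option linter.unusedVariables false

namespace Pool.Agent.Lib.MP_361a6f_ag.FL

variable {I Λ : Type} [Fintype I] [DecidableEq I] [DecidableEq Λ]

namespace TalB

open Qps

/-- a rational space of tensors of length `L` -/
structure QSp (D : Dat I Λ) {L : ℕ} (Q : Ten I L → Prop) : Prop where
  zero : Q 0
  add : ∀ u v, Q u → Q v → Q (u + v)
  qsmul : ∀ (q : ℚ) u, Q u → Q ((q : ℂ) • u)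
  rat : ∀ u v, Q u → Q v → ∃ q : ℚ, psiT D u v = (q : ℂ)
  even : ∀ u, Q u → jT D (jT D u) = u

variable {D : Dat I Λ} {L : ℕ} {Q : Ten I L → Prop}

/-- a finite set of nonzero orthogonal vectors of the system -/
structure Orth (D : Dat I Λ) {L : ℕ} (Q : Ten I L → Prop) (T : Finset (Ten I L)) :
    Prop where
  mem : ∀ x ∈ T, Q x
  ne : ∀ x ∈ T, x ≠ 0
  orth : ∀ x ∈ T, ∀ y ∈ T, x ≠ y → psiT D x y = 0


theorem orth_ext (S : QSp D Q) (a1 : Alg1)
    (hpos : ∀ u, Q u → u ≠ 0 → ∃ q : ℚ, 0 < q ∧ psiT D u u = (q : ℂ))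
    {T : Finset (Ten I L)} (hT : Orth D Q T) {v : Ten I L} (hv : Q v) :
    ∃ T' : Finset (Ten I L), T ⊆ T' ∧ Orth D Q T' ∧
      v ∈ Submodule.span ℝ (T' : Set (Ten I L)) := by
  classical
  -- the coefficients
  have hc : ∀ w : Ten I L, ∃ q : ℚ, w ∈ T → psiT D v w = (q : ℂ) * psiT D w w := by
    intro w
    by_cases hw : w ∈ T
    · obtain ⟨q, hq⟩ := S.rat _ _ hv (hT.mem w hw)
      obtain ⟨r, hr, hr'⟩ := hpos w (hT.mem w hw) (hT.ne w hw)
      refine ⟨q / r, fun _ => ?_⟩
      rw [hq, hr']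
      have : (r : ℂ) ≠ 0 := by exact_mod_cast hr.ne'
      push_cast
      field_simp
    · exact ⟨0, fun h => absurd h hw⟩
  choose c hc using hc
  have hsum : ∀ T₁ : Finset (Ten I L), T₁ ⊆ T → Q (∑ w ∈ T₁, (c w : ℂ) • w) := by
    intro T₁
    induction T₁ using Finset.induction_on with
    | empty => intro _; simpa using S.zero
    | insert a s ha ih =>
      intro h
      rw [Finset.sum_insert ha]
      exact S.add _ _ (S.qsmul _ _ (hT.mem a (h (Finset.mem_insert_self a s))))
        (ih (fun x hx => h (Finset.mem_insert_of_mem hx)))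
  set p : Ten I L := ∑ w ∈ T, (c w : ℂ) • w with hp
  have hpAt : Q p := hsum T (Finset.Subset.refl _)
  have hpspan : p ∈ Submodule.span ℝ (T : Set (Ten I L)) := by
    refine Submodule.sum_mem _ (fun w hw => ?_)
    have : (c w : ℂ) • w = (c w : ℝ) • w := by rw [real_smul]; push_cast; rfl
    rw [this]
    exact Submodule.smul_mem _ _ (Submodule.subset_span hw)
  have hv' : Q (v - p) := by
    have h1 : v - p = v + ((-1 : ℚ) : ℂ) • p := by push_cast; rw [neg_one_smul, sub_eq_add_neg]
    rw [h1]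
    exact S.add _ _ hv (S.qsmul _ _ hpAt)
  have hperp : ∀ w ∈ T, psiT D (v - p) w = 0 := by
    intro w hw
    rw [← psiL_apply, map_sub, LinearMap.sub_apply, hp, map_sum, LinearMap.sum_apply]
    rw [Finset.sum_eq_single w]
    · rw [map_smul, LinearMap.smul_apply, psiL_apply, psiL_apply, hc w hw, smul_eq_mul, sub_self]
    · intro b hb hbw
      rw [map_smul, LinearMap.smul_apply, psiL_apply, hT.orth b hb w hw hbw, smul_zero]
    · intro h
      exact absurd hw h
  by_cases h0 : v - p = 0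
  · refine ⟨T, Finset.Subset.refl _, hT, ?_⟩
    rw [sub_eq_zero.1 h0]
    exact hpspan
  · refine ⟨insert (v - p) T, Finset.subset_insert _ _, ⟨?_, ?_, ?_⟩, ?_⟩
    · intro x hx
      rcases Finset.mem_insert.1 hx with rfl | hx
      · exact hv'
      · exact hT.mem x hx
    · intro x hx
      rcases Finset.mem_insert.1 hx with rfl | hx
      · exact h0
      · exact hT.ne x hx
    · intro x hx y hy hxy
      rcases Finset.mem_insert.1 hx with rfl | hx
      · rcases Finset.mem_insert.1 hy with rfl | hy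
        · exact absurd rfl hxy
        · exact hperp y hy
      · rcases Finset.mem_insert.1 hy with rfl | hy
        · rw [psi_symm a1 (S.even _ (hT.mem x hx)) (S.even _ hv')]
          exact hperp x hx
        · exact hT.orth x hx y hy hxy
    · have hle : Submodule.span ℝ (T : Set (Ten I L))
          ≤ Submodule.span ℝ ((insert (v - p) T : Finset (Ten I L)) : Set (Ten I L)) :=
        Submodule.span_mono (by simp)
      have h1 : (v - p) + p ∈ Submodule.span ℝ
          ((insert (v - p) T : Finset (Ten I L)) : Set (Ten I L)) :=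
        Submodule.add_mem _ (Submodule.subset_span (by simp)) (hle hpspan)
      rwa [sub_add_cancel] at h1

theorem orth_ext_fin (S : QSp D Q) (a1 : Alg1)
    (hpos : ∀ u, Q u → u ≠ 0 → ∃ q : ℚ, 0 < q ∧ psiT D u u = (q : ℂ))
    (V : Finset (Ten I L)) : ∀ {T : Finset (Ten I L)} (_ : Orth D Q T) (_ : ∀ v ∈ V, Q v),
    ∃ T' : Finset (Ten I L), T ⊆ T' ∧ Orth D Q T' ∧
      ∀ v ∈ V, v ∈ Submodule.span ℝ (T' : Set (Ten I L)) := by
  classical
  induction V using Finset.induction_on with
  | empty => intro T hT _; exact ⟨T, Finset.Subset.refl _, hT, by simp⟩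
  | insert a s ha ih =>
    intro T hT hV
    obtain ⟨T₁, h1, h2, h3⟩ := ih hT (fun v hv => hV v (Finset.mem_insert_of_mem hv))
    obtain ⟨T₂, h4, h5, h6⟩ := orth_ext S a1 hpos h2 (hV a (Finset.mem_insert_self a s))
    refine ⟨T₂, h1.trans h4, h5, fun v hv => ?_⟩
    rcases Finset.mem_insert.1 hv with rfl | hv
    · exact h6
    · exact Submodule.span_mono (by exact_mod_cast h4) (h3 v hv)

/-- every vector of the real span of the system is in the real span of an orthogonal set -/
theorem exists_orth (S : QSp D Q) (a1 : Alg1)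
    (hpos : ∀ u, Q u → u ≠ 0 → ∃ q : ℚ, 0 < q ∧ psiT D u u = (q : ℂ))
    {u : Ten I L} (hu : u ∈ Submodule.span ℝ {v : Ten I L | Q v}) :
    ∃ T : Finset (Ten I L), Orth D Q T ∧ u ∈ Submodule.span ℝ (T : Set (Ten I L)) := by
  obtain ⟨V, hV, huV⟩ := Submodule.mem_span_finite_of_mem_span hu
  obtain ⟨T, -, h1, h2⟩ := orth_ext_fin S a1 hpos V (T := ∅)
    ⟨by simp, by simp, by simp⟩ (fun v hv => hV hv)
  exact ⟨T, h1, (Submodule.span_le.2 (fun v hv => h2 v hv)) huV⟩

theorem pos_span (S : QSp D Q) (a1 : Alg1)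
    (hpos : ∀ u, Q u → u ≠ 0 → ∃ q : ℚ, 0 < q ∧ psiT D u u = (q : ℂ))
    {u : Ten I L} (hu : u ∈ Submodule.span ℝ {v : Ten I L | Q v}) (h0 : u ≠ 0) :
    ∃ r : ℝ, 0 < r ∧ psiT D u u = (r : ℂ) := by
  classical
  obtain ⟨T, hT, huT⟩ := exists_orth S a1 hpos hu
  obtain ⟨f, -, hf⟩ := Submodule.mem_span_finset.1 huT
  -- the values on the diagonal
  have hd : ∀ w : Ten I L, ∃ r : ℝ, w ∈ T → 0 < r ∧ psiT D w w = (r : ℂ) := by
    intro w
    by_cases hw : w ∈ T
    · obtain ⟨q, hq, hq'⟩ := hpos w (hT.mem w hw) (hT.ne w hw)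
      exact ⟨(q : ℝ), fun _ => ⟨by exact_mod_cast hq, by rw [hq']; push_cast; rfl⟩⟩
    · exact ⟨0, fun h => absurd h hw⟩
  choose d hd using hd
  have hval : psiT D u u = ((∑ w ∈ T, f w ^ 2 * d w : ℝ) : ℂ) := by
    rw [← hf, ← psiL_apply]
    simp only [real_smul, map_sum, map_smul, LinearMap.sum_apply, LinearMap.smul_apply]
    push_cast
    refine Finset.sum_congr rfl (fun w hw => ?_)
    rw [Finset.sum_eq_single w]
    · rw [psiL_apply, (hd w hw).2, smul_eq_mul, smul_eq_mul]
      ring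
    · intro b hb hbw
      rw [psiL_apply, hT.orth b hb w hw hbw, smul_zero]
      try simp
    · intro h
      exact absurd hw h
  refine ⟨∑ w ∈ T, f w ^ 2 * d w, ?_, hval⟩
  have hnn : ∀ w ∈ T, 0 ≤ f w ^ 2 * d w := fun w hw => mul_nonneg (sq_nonneg _) (hd w hw).1.le
  rcases (Finset.sum_nonneg hnn).lt_or_eq with h | h
  · exact h
  · exfalso
    apply h0
    rw [← hf]
    refine Finset.sum_eq_zero (fun w hw => ?_)
    have h1 := (Finset.sum_eq_zero_iff_of_nonneg hnn).1 h.symm w hw
    have h2 : f w = 0 := by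
      rcases mul_eq_zero.1 h1 with h2 | h2
      · exact pow_eq_zero_iff (two_ne_zero) |>.1 h2
      · exact absurd h2 (hd w hw).1.ne'
    rw [h2, zero_smul]


end TalB

end Pool.Agent.Lib.MP_361a6f_ag.FL
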